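import Pool.Agent.HL.Equality

open MeasureTheory Set Filter Topology
open scoped ENNReal Real

namespace Pool.Agent.HL

variable (Ψ : LorentzFn)

theorem psi_integral_ge {u m : ℝ} (hu : 0 < u) (hum : u ≤ m) (hm : m ≤ 2 * π) {l : ℝ}
    (h : ∀ τ ∈ Ioo u m, l ≤ psi Ψ τ) : l * (m - u) ≤ Ψ m - Ψ u := by
  rw [← ftc Ψ hu hum hm]
  have h1 : l * (m - u) = ∫ _ in u..m, l := by simp [mul_comm]
  rw [h1]
  apply intervalIntegral.integral_mono_on_of_le_Ioo hum intervalIntegrable_const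
    (psi_intervalIntegrable Ψ hu hum hm) h

theorem psi_integral_le {u m : ℝ} (hu : 0 < u) (hum : u ≤ m) (hm : m ≤ 2 * π) {l : ℝ}
    (h : ∀ τ ∈ Ioo u m, psi Ψ τ ≤ l) : Ψ m - Ψ u ≤ l * (m - u) := by
  rw [← ftc Ψ hu hum hm]
  have h1 : l * (m - u) = ∫ _ in u..m, l := by simp [mul_comm]
  rw [h1]
  apply intervalIntegral.integral_mono_on_of_le_Ioo hum
    (psi_intervalIntegrable Ψ hu hum hm) intervalIntegrable_const h

/-- the points `s(l)` inside `(0, 2π)` are bends. -/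
theorem isBend_sOf {l : ℝ} (h0 : 0 < sOf Ψ l) (h2 : sOf Ψ l < 2 * π) : IsBend Ψ (sOf Ψ l) := by
  refine ⟨h0, h2, ?_⟩
  intro u v hu hus hsv hv
  set s := sOf Ψ l with hs
  set m := (u + s) / 2 with hm
  have hum : u < m := by rw [hm]; linarith
  have hms : m < s := by rw [hm]; linarith
  have hm2 : m < 2 * π := hms.trans h2
  have hm0 : 0 < m := hu.trans hum
  have hslope : m ∈ slopeSet Ψ l := mem_slopeSet Ψ hm0 hms
  have h3 : psi Ψ m * (m - u) ≤ Ψ m - Ψ u := by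
    apply psi_integral_ge Ψ hu hum.le hm2.le
    intro τ hτ
    exact psi_anti Ψ ⟨hu.trans hτ.1, hτ.2.trans hm2⟩ ⟨hm0, hm2⟩ hτ.2.le
  have h4 : l * (s - m) ≤ Ψ s - Ψ m := by
    apply psi_integral_ge Ψ hm0 hms.le h2.le
    intro τ hτ
    exact (mem_slopeSet Ψ (hm0.trans hτ.1) hτ.2).2.le
  have h5 : Ψ v - Ψ s ≤ l * (v - s) := by
    apply psi_integral_le Ψ h0 hsv.le hv
    intro τ hτ
    by_contra hcon
    have : τ ∈ slopeSet Ψ l := ⟨⟨h0.trans hτ.1, hτ.2.trans_le hv⟩, not_le.1 hcon⟩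
    exact absurd (le_sOf Ψ this) (not_le.2 hτ.1)
  have h6 : l * (s - u) < Ψ s - Ψ u := by
    have : l * (m - u) < psi Ψ m * (m - u) := by
      apply mul_lt_mul_of_pos_right hslope.2 (by linarith)
    linarith
  have h7 : (v - s) * (l * (s - u)) < (v - s) * (Ψ s - Ψ u) :=
    mul_lt_mul_of_pos_left h6 (by linarith)
  have h8 : (s - u) * (Ψ v - Ψ s) ≤ (s - u) * (l * (v - s)) :=
    mul_le_mul_of_nonneg_left h5 (by linarith)
  nlinarith

/-- every bend is a limit of points `s(l)`. -/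
theorem bend_interval {s : ℝ} (hs : IsBend Ψ s) {ε : ℝ} (hε : 0 < ε) :
    ∃ l₁ l₂ : ℝ, 0 ≤ l₁ ∧ l₁ < l₂ ∧ ∀ l ∈ Ioo l₁ l₂, |sOf Ψ l - s| ≤ ε := by
  obtain ⟨hs0, hs2, hbend⟩ := hs
  set u := max (s - ε) (s / 2) with hu
  set v := min (s + ε) ((s + 2 * π) / 2) with hv
  have hu0 : 0 < u := lt_max_of_lt_right (by positivity)
  have hus : u < s := max_lt (by linarith) (by linarith)
  have hsv : s < v := lt_min (by linarith) (by linarith)
  have hv2 : v < 2 * π := min_lt_of_right_lt (by linarith)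
  have hu1 : u ∈ Ioo 0 (2 * π) := ⟨hu0, hus.trans hs2⟩
  have hv1 : v ∈ Ioo 0 (2 * π) := ⟨hs0.trans hsv, hv2⟩
  have huε : s - ε ≤ u := le_max_left _ _
  have hvε : v ≤ s + ε := min_le_left _ _
  refine ⟨psi Ψ v, psi Ψ u, psi_nonneg Ψ hv1, ?_, ?_⟩
  · by_contra hcon
    have hle : psi Ψ u ≤ psi Ψ v := not_lt.1 hcon
    have h1 := hbend u v hu0 hus hsv hv2.le
    have h2 : Ψ s - Ψ u ≤ psi Ψ v * (s - u) := by
      apply psi_integral_le Ψ hu0 hus.le hs2.le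
      intro τ hτ
      exact (psi_anti Ψ hu1 ⟨hu0.trans hτ.1, hτ.2.trans hs2⟩ hτ.1.le).trans hle
    have h3 : psi Ψ v * (v - s) ≤ Ψ v - Ψ s := by
      apply psi_integral_ge Ψ hs0 hsv.le hv2.le
      intro τ hτ
      exact psi_anti Ψ ⟨hs0.trans hτ.1, hτ.2.trans hv2⟩ hv1 hτ.2.le
    have h4 : (v - s) * (Ψ s - Ψ u) ≤ (v - s) * (psi Ψ v * (s - u)) :=
      mul_le_mul_of_nonneg_left h2 (by linarith)
    have h5 : (s - u) * (psi Ψ v * (v - s)) ≤ (s - u) * (Ψ v - Ψ s) :=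
      mul_le_mul_of_nonneg_left h3 (by linarith)
    nlinarith
  · intro l hl
    have h1 : u ≤ sOf Ψ l := le_sOf Ψ ⟨hu1, hl.2⟩
    have h2 : sOf Ψ l ≤ v := by
      by_contra hcon
      have := (mem_slopeSet Ψ hv1.1 (not_le.1 hcon)).2
      exact absurd this (not_lt.2 hl.1.le)
    rw [abs_le]
    constructor <;> linarith

/-- if `Ψ` increases strictly up to `2π` then `2π` is a limit of points `s(l)`. -/
theorem top_interval (h : ∀ u ∈ Ico 0 (2 * π), Ψ u < Ψ (2 * π)) {ε : ℝ} (hε : 0 < ε) :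
    ∃ l₁ l₂ : ℝ, 0 ≤ l₁ ∧ l₁ < l₂ ∧ ∀ l ∈ Ioo l₁ l₂, |sOf Ψ l - 2 * π| ≤ ε := by
  set u := max (2 * π - ε) π with hu
  have hpi := Real.pi_pos
  have hu0 : 0 < u := lt_max_of_lt_right hpi
  have hu2 : u < 2 * π := max_lt (by linarith) (by linarith)
  have hu1 : u ∈ Ioo 0 (2 * π) := ⟨hu0, hu2⟩
  have huε : 2 * π - ε ≤ u := le_max_left _ _
  refine ⟨0, psi Ψ u, le_rfl, ?_, ?_⟩
  · have h1 := slope_le_psi Ψ hu1 le_rfl hu2
    have h2 := h u ⟨hu0.le, hu2⟩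
    by_contra hcon
    have h3 : psi Ψ u * (2 * π - u) ≤ 0 :=
      mul_nonpos_of_nonpos_of_nonneg (not_lt.1 hcon) (by linarith)
    linarith
  · intro l hl
    have h1 : u ≤ sOf Ψ l := le_sOf Ψ ⟨hu1, hl.2⟩
    have h2 : sOf Ψ l ≤ 2 * π := sOf_le Ψ l
    rw [abs_le]
    constructor <;> linarith

theorem exists_good {p : ℝ → Prop} (hp : ∀ᵐ l ∂(volume.restrict (Ioi (0 : ℝ))), p l) {l₁ l₂ : ℝ}
    (h1 : 0 ≤ l₁) (h2 : l₁ < l₂) : ∃ l ∈ Ioo l₁ l₂, p l := by
  by_contra hcon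
  push Not at hcon
  have hsub : Ioo l₁ l₂ ∩ Ioi 0 = Ioo l₁ l₂ :=
    inter_eq_left.2 (fun y hy => h1.trans_lt hy.1)
  have hpos : (volume.restrict (Ioi (0 : ℝ))) (Ioo l₁ l₂) ≠ 0 := by
    rw [Measure.restrict_apply measurableSet_Ioo, hsub, Real.volume_Ioo]
    simpa using h2
  apply hpos
  refine measure_mono_null ?_ (ae_iff.1 hp)
  intro l hl
  exact hcon l hl

theorem eqS_of_approx {F G : ℝ → ℂ} (hF : Integrable F mu) (hG : Integrable G mu)
    (h : ∀ᵐ l ∂(volume.restrict (Ioi (0 : ℝ))), EqS (sOf Ψ l) F G) {s : ℝ}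
    (hs : ∀ ε : ℝ, 0 < ε → ∃ l₁ l₂ : ℝ, 0 ≤ l₁ ∧ l₁ < l₂ ∧ ∀ l ∈ Ioo l₁ l₂, |sOf Ψ l - s| ≤ ε) :
    EqS s F G := by
  have h1 : ∀ n : ℕ, ∃ l, |sOf Ψ l - s| ≤ 1 / ((n : ℝ) + 1) ∧ EqS (sOf Ψ l) F G := by
    intro n
    obtain ⟨l₁, l₂, h0, h12, hl⟩ := hs (1 / ((n : ℝ) + 1)) (by positivity)
    obtain ⟨l, hl1, hl2⟩ := exists_good h h0 h12
    exact ⟨l, hl l hl1, hl2⟩
  choose l hl1 hl2 using h1
  apply eqS_of_tendsto hF hG (s := fun n => sOf Ψ (l n)) _ hl2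
  rw [tendsto_iff_norm_sub_tendsto_zero]
  exact squeeze_zero (fun _ => norm_nonneg _) hl1 tendsto_one_div_add_atTop_nhds_zero_nat

/-- conversely, equality at the bends (and at `2π`) gives equality at all `s(l)`. -/
theorem eqS_sOf {F G : ℝ → ℂ} (hb : ∀ s, IsBend Ψ s → EqS s F G)
    (ht : (∀ u ∈ Ico 0 (2 * π), Ψ u < Ψ (2 * π)) → EqS (2 * π) F G) {l : ℝ} (hl : 0 < l) :
    EqS (sOf Ψ l) F G := by
  rcases (sOf_nonneg Ψ l).eq_or_lt with h0 | h0
  · rw [← h0]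
    unfold EqS
    rw [KF_zero, KF_zero, KF_zero]
    simp
  rcases (sOf_le Ψ l).eq_or_lt with h2 | h2
  · rw [h2]
    apply ht
    intro u hu
    rcases hu.1.eq_or_lt with h3 | h3
    · rw [← h3, Ψ.zero']
      have h4 : l * (2 * π - π) ≤ Ψ (2 * π) - Ψ π := by
        apply psi_integral_ge Ψ Real.pi_pos (by linarith [Real.pi_pos]) le_rfl
        intro τ hτ
        exact (mem_slopeSet Ψ (Real.pi_pos.trans hτ.1) (by rw [h2]; exact hτ.2)).2.le
      have h5 : 0 ≤ Ψ π := Psi_nonneg Ψ Real.pi_pos.le (by linarith [Real.pi_pos])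
      have h6 : 0 < l * (2 * π - π) := mul_pos hl (by linarith [Real.pi_pos])
      linarith
    · have h4 : l * (2 * π - u) ≤ Ψ (2 * π) - Ψ u := by
        apply psi_integral_ge Ψ h3 hu.2.le le_rfl
        intro τ hτ
        exact (mem_slopeSet Ψ (h3.trans hτ.1) (by rw [h2]; exact hτ.2)).2.le
      have h6 : 0 < l * (2 * π - u) := mul_pos hl (by linarith [hu.2])
      linarith
  · exact hb _ (isBend_sOf Ψ h0 h2)

theorem eLpNorm_triangle {F G : ℝ → ℂ} (hF : Integrable F mu) (hG : Integrable G mu) :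
    2 * eLpNorm F ∞ mu ≤ eLpNorm (fun t => F t + G t) ∞ mu
      + eLpNorm (fun t => F t - G t) ∞ mu := by
  have h1 := eLpNorm_add_le (p := ∞) (hF.add hG).1 (hF.sub hG).1 (by simp)
  have h2 : (F + G) + (F - G) = (2 : ℂ) • F := by
    funext t
    simp only [Pi.add_apply, Pi.sub_apply, Pi.smul_apply, smul_eq_mul]
    ring
  rw [h2, eLpNorm_const_smul] at h1
  have h4 : ‖(2 : ℂ)‖ₑ = 2 := by
    rw [← ofReal_norm]
    simp
  rw [h4] at h1
  exact h1

/-- sup-norm condition. -/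
def SupCond (F G : ℝ → ℂ) : Prop :=
  ∃ d : ℝ, ∀ᵐ t ∂mu, ‖F t + G t‖ ≤ (eLpNorm F ∞ mu).toReal + d ∧
    ‖F t - G t‖ ≤ (eLpNorm F ∞ mu).toReal - d

theorem mu_ne_zero : mu ≠ 0 := by
  intro h
  have := mu_univ
  rw [h] at this
  simp only [Measure.coe_zero, Pi.zero_apply] at this
  have h2 := ENNReal.ofReal_eq_zero.1 this.symm
  linarith [two_pi_pos']

theorem supCond_iff {F G : ℝ → ℂ} (hF : eLpNorm F ∞ mu < ∞)
    (hP : eLpNorm (fun t => F t + G t) ∞ mu < ∞) (hQ : eLpNorm (fun t => F t - G t) ∞ mu < ∞) :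
    eLpNorm (fun t => F t + G t) ∞ mu + eLpNorm (fun t => F t - G t) ∞ mu ≤ 2 * eLpNorm F ∞ mu
      ↔ SupCond F G := by
  set M := (eLpNorm F ∞ mu).toReal with hM
  set P := (eLpNorm (fun t => F t + G t) ∞ mu).toReal with hP'
  set Q := (eLpNorm (fun t => F t - G t) ∞ mu).toReal with hQ'
  have eM : eLpNorm F ∞ mu = ENNReal.ofReal M := (ENNReal.ofReal_toReal hF.ne).symm
  have eP : eLpNorm (fun t => F t + G t) ∞ mu = ENNReal.ofReal P :=
    (ENNReal.ofReal_toReal hP.ne).symm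
  have eQ : eLpNorm (fun t => F t - G t) ∞ mu = ENNReal.ofReal Q :=
    (ENNReal.ofReal_toReal hQ.ne).symm
  have hM0 : 0 ≤ M := ENNReal.toReal_nonneg
  have hP0 : 0 ≤ P := ENNReal.toReal_nonneg
  have hQ0 : 0 ≤ Q := ENNReal.toReal_nonneg
  have e2 : (2 : ℝ≥0∞) = ENNReal.ofReal 2 := by simp
  have key : ∀ {x : ℝ → ℂ} {c : ℝ}, 0 ≤ c → (eLpNorm x ∞ mu ≤ ENNReal.ofReal c ↔
      ∀ᵐ t ∂mu, ‖x t‖ ≤ c) := by
    intro x c hc
    rw [eLpNorm_exponent_top]
    constructor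
    · intro h
      filter_upwards [enorm_ae_le_eLpNormEssSup x mu] with t ht
      have := ht.trans h
      rw [← ofReal_norm] at this
      exact (ENNReal.ofReal_le_ofReal_iff hc).1 this
    · intro h
      refine essSup_le_of_ae_le _ ?_
      filter_upwards [h] with t ht
      rw [← ofReal_norm]
      exact ENNReal.ofReal_le_ofReal ht
  rw [eM, eP, eQ, e2, ← ENNReal.ofReal_mul (by norm_num), ← ENNReal.ofReal_add hP0 hQ0,
    ENNReal.ofReal_le_ofReal_iff (by positivity)]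
  constructor
  · intro h
    refine ⟨P - M, ?_⟩
    have h1 := (key hP0).1 eP.le
    have h2 := (key hQ0).1 eQ.le
    filter_upwards [h1, h2] with t ht1 ht2
    constructor <;> linarith
  · rintro ⟨d, hd⟩
    have hne : (ae mu).NeBot := ae_neBot.2 mu_ne_zero
    obtain ⟨t, ht⟩ := hd.exists
    have h1 : 0 ≤ M + d := (norm_nonneg _).trans ht.1
    have h2 : 0 ≤ M - d := (norm_nonneg _).trans ht.2
    have h3 := (key h1).2 (hd.mono fun _ h => h.1)
    have h4 := (key h2).2 (hd.mono fun _ h => h.2)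
    rw [eP, ENNReal.ofReal_le_ofReal_iff h1] at h3
    rw [eQ, ENNReal.ofReal_le_ofReal_iff h2] at h4
    linarith

/-- the perturbation condition (internal form). -/
def Perturb' (F G : ℝ → ℂ) : Prop :=
  (∀ s, IsBend Ψ s → ∃ c d, Level s c d F G) ∧
  ((∀ u ∈ Ico 0 (2 * π), Ψ u < Ψ (2 * π)) → ∀ᵐ t ∂mu, ‖F t + G t‖ + ‖F t - G t‖ = 2 * ‖F t‖) ∧
  (0 < jump Ψ → SupCond F G)

theorem main_iff {F G : ℝ → ℂ} (hF : Integrable F mu) (hG : Integrable G mu)
    (h0 : lorentzNorm Ψ F < ∞) (hP : lorentzNorm Ψ (fun t => F t + G t) < ∞)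
    (hQ : lorentzNorm Ψ (fun t => F t - G t) < ∞) :
    lorentzNorm Ψ (fun t => F t + G t) + lorentzNorm Ψ (fun t => F t - G t)
      ≤ 2 * lorentzNorm Ψ F ↔ Perturb' Ψ F G := by
  have hmeas : ∀ z : ℝ → ℂ, Measurable (fun l => KF (sOf Ψ l) z) :=
    fun z => ((KF_mono_s z).comp_antitone (sOf_anti Ψ)).measurable
  have dF := lorentzNorm_dec Ψ F
  have dP := lorentzNorm_dec Ψ (fun t => F t + G t)
  have dQ := lorentzNorm_dec Ψ (fun t => F t - G t)
  rw [rearr_zero_eq] at dF dP dQ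
  set j := ENNReal.ofReal (jump Ψ) with hj
  -- pointwise triangle
  have hpt : ∀ l, 2 * KF (sOf Ψ l) F
      ≤ KF (sOf Ψ l) (fun t => F t + G t) + KF (sOf Ψ l) (fun t => F t - G t) :=
    fun l => KF_triangle hF hG _
  have hR := eLpNorm_triangle hF hG
  have eSum : lorentzNorm Ψ (fun t => F t + G t) + lorentzNorm Ψ (fun t => F t - G t)
      = j * (eLpNorm (fun t => F t + G t) ∞ mu + eLpNorm (fun t => F t - G t) ∞ mu)
        + ∫⁻ l in Ioi (0 : ℝ), (KF (sOf Ψ l) (fun t => F t + G t)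
          + KF (sOf Ψ l) (fun t => F t - G t)) := by
    rw [dP, dQ, lintegral_add_left (hmeas _)]
    ring
  have eTwo : 2 * lorentzNorm Ψ F = j * (2 * eLpNorm F ∞ mu)
      + ∫⁻ l in Ioi (0 : ℝ), 2 * KF (sOf Ψ l) F := by
    rw [dF, lintegral_const_mul' _ _ ENNReal.ofNat_ne_top]
    ring
  constructor
  · intro h
    rw [eSum, eTwo] at h
    have hfin2 : 2 * lorentzNorm Ψ F < ∞ := ENNReal.mul_lt_top ENNReal.ofNat_lt_top h0
    rw [eTwo] at hfin2
    have hA : j * (2 * eLpNorm F ∞ mu) ≤ j * (eLpNorm (fun t => F t + G t) ∞ mu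
        + eLpNorm (fun t => F t - G t) ∞ mu) := by gcongr
    have hB : ∫⁻ l in Ioi (0 : ℝ), 2 * KF (sOf Ψ l) F
        ≤ ∫⁻ l in Ioi (0 : ℝ), (KF (sOf Ψ l) (fun t => F t + G t)
          + KF (sOf Ψ l) (fun t => F t - G t)) := lintegral_mono hpt
    have hAfin := le_self_add.trans_lt hfin2
    have hBfin := le_add_self.trans_lt hfin2
    have hA' : j * (eLpNorm (fun t => F t + G t) ∞ mu
        + eLpNorm (fun t => F t - G t) ∞ mu) ≤ j * (2 * eLpNorm F ∞ mu) := by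
      by_contra hcon
      have := ENNReal.add_lt_add_of_lt_of_le hBfin.ne (not_le.1 hcon) hB
      exact absurd h (not_le.2 this)
    have hB' : ∫⁻ l in Ioi (0 : ℝ), (KF (sOf Ψ l) (fun t => F t + G t)
          + KF (sOf Ψ l) (fun t => F t - G t)) ≤ ∫⁻ l in Ioi (0 : ℝ), 2 * KF (sOf Ψ l) F := by
      by_contra hcon
      have := ENNReal.add_lt_add_of_le_of_lt hAfin.ne hA (not_le.1 hcon)
      exact absurd h (not_le.2 this)
    have hae := ae_eq_of_ae_le_of_lintegral_le (Eventually.of_forall hpt) hBfin.ne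
      ((hmeas _).add (hmeas _)).aemeasurable hB'
    have hE : ∀ᵐ l ∂(volume.restrict (Ioi (0 : ℝ))), EqS (sOf Ψ l) F G := by
      filter_upwards [hae] with l hl
      exact hl.ge
    refine ⟨?_, ?_, ?_⟩
    · intro s hs
      exact (eqS_iff hF hG hs.1 hs.2.1.le).1
        (eqS_of_approx Ψ hF hG hE (fun ε hε => bend_interval Ψ hs hε))
    · intro hstrict
      exact (eqS_two_pi_iff hF hG).1
        (eqS_of_approx Ψ hF hG hE (fun ε hε => top_interval Ψ hstrict hε))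
    · intro hjump
      have hj0 : j ≠ 0 := (ENNReal.ofReal_pos.2 hjump).ne'
      have hjt : j ≠ ∞ := ENNReal.ofReal_ne_top
      have hfin : ∀ x : ℝ → ℂ, lorentzNorm Ψ x < ∞ → eLpNorm x ∞ mu < ∞ := by
        intro x hx
        have := lorentzNorm_dec Ψ x
        rw [rearr_zero_eq] at this
        rw [this] at hx
        have h1 := le_self_add.trans_lt hx
        by_contra hcon
        rw [not_lt_top_iff.1 hcon, ENNReal.mul_top hj0] at h1
        exact absurd h1 (lt_irrefl _)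
      apply (supCond_iff (hfin _ h0) (hfin _ hP) (hfin _ hQ)).1
      exact (ENNReal.mul_le_mul_iff_right hj0 hjt).1 hA'
  · rintro ⟨h1, h2, h3⟩
    rw [eSum, eTwo]
    apply add_le_add
    · rcases (jump_nonneg Ψ).eq_or_lt with hj0 | hj0
      · rw [hj, ← hj0]
        simp
      · have hj0' : j ≠ 0 := (ENNReal.ofReal_pos.2 hj0).ne'
        have hfin : ∀ x : ℝ → ℂ, lorentzNorm Ψ x < ∞ → eLpNorm x ∞ mu < ∞ := by
          intro x hx
          have := lorentzNorm_dec Ψ x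
          rw [rearr_zero_eq] at this
          rw [this] at hx
          have h1 := le_self_add.trans_lt hx
          by_contra hcon
          rw [not_lt_top_iff.1 hcon, ENNReal.mul_top hj0'] at h1
          exact absurd h1 (lt_irrefl _)
        gcongr
        exact (supCond_iff (hfin _ h0) (hfin _ hP) (hfin _ hQ)).2 (h3 hj0)
    · apply setLIntegral_mono' measurableSet_Ioi
      intro l hl
      apply eqS_sOf Ψ _ _ hl
      · intro s hs
        exact (eqS_iff hF hG hs.1 hs.2.1.le).2 (h1 s hs)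
      · intro hstrict
        exact (eqS_two_pi_iff hF hG).2 (h2 hstrict)

end Pool.Agent.HL
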