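import Pool.Agent.HL.Poisson

/-!
# Radial limits (Fatou's theorem) for functions with an `L¹` boundary function
-/

open MeasureTheory Set Filter Topology Metric
open scoped ENNReal Real

namespace Pool.Agent.HL

namespace Rad

/-- the kernel `ε / (ε² + x²)`. -/
noncomputable def kern (ε x : ℝ) : ℝ≥0∞ := ENNReal.ofReal (ε / (ε ^ 2 + x ^ 2))

theorem ker_le_tsum {ε : ℝ} (hε : 0 < ε) (t x : ℝ) :
    kern ε (x - t) ≤ ∑' k : ℕ, (closedBall t (2 ^ k * ε)).indicator
      (fun _ => ENNReal.ofReal (4 / (4 ^ k * ε))) x := by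
  have hpos : 0 < ε ^ 2 + (x - t) ^ 2 := by positivity
  rcases le_or_gt |x - t| ε with h | h
  · refine le_trans ?_ (ENNReal.le_tsum 0)
    rw [indicator_of_mem (by simpa [Real.dist_eq] using h)]
    unfold kern
    apply ENNReal.ofReal_le_ofReal
    rw [div_le_div_iff₀ hpos (by positivity)]
    nlinarith [sq_nonneg (x - t)]
  · have h1 : 1 ≤ |x - t| / ε := by rw [le_div_iff₀ hε]; linarith
    obtain ⟨n, hn1, hn2⟩ := exists_nat_pow_near h1 (one_lt_two : (1 : ℝ) < 2)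
    rw [le_div_iff₀ hε] at hn1
    rw [div_lt_iff₀ hε] at hn2
    refine le_trans ?_ (ENNReal.le_tsum (n + 1))
    rw [indicator_of_mem (by rw [mem_closedBall, Real.dist_eq]; exact hn2.le)]
    unfold kern
    apply ENNReal.ofReal_le_ofReal
    rw [div_le_div_iff₀ hpos (by positivity)]
    have h2 : (2 ^ n * ε) ^ 2 ≤ (x - t) ^ 2 := by
      rw [← sq_abs (x - t)]
      exact pow_le_pow_left₀ (by positivity) hn1 2
    have h3 : ((2 : ℝ) ^ n) ^ 2 = 4 ^ n := by
      rw [← pow_mul, mul_comm, pow_mul]; norm_num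
    have h4 : (4 : ℝ) ^ n * ε ^ 2 ≤ (x - t) ^ 2 := by
      rw [← h3, ← mul_pow]; exact h2
    have h5 : ε * ((4 : ℝ) ^ (n + 1) * ε) = 4 * (4 ^ n * ε ^ 2) := by ring
    rw [h5]
    nlinarith [sq_nonneg ε]

/-- local estimate: if the means of `g` over the intervals around `t` are at most `η`. -/
theorem near {g : ℝ → ℝ≥0∞} (hg : AEMeasurable g) {t δ : ℝ} (hδ : 0 < δ) {η : ℝ≥0∞}
    (hη : ∀ h : ℝ, 0 < h → h ≤ δ →
      ∫⁻ x in closedBall t h, g x ≤ η * ENNReal.ofReal (2 * h)) {ε : ℝ} (hε : 0 < ε) :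
    ∫⁻ x in closedBall t δ, kern ε (x - t) * g x ≤ 16 * η := by
  have h1 : ∫⁻ x in closedBall t δ, kern ε (x - t) * g x ≤
      ∫⁻ x in closedBall t δ, ∑' k : ℕ, (closedBall t (2 ^ k * ε)).indicator
        (fun x => ENNReal.ofReal (4 / (4 ^ k * ε)) * g x) x := by
    apply lintegral_mono
    intro x
    refine (mul_le_mul_left (ker_le_tsum hε t x) (g x)).trans ?_
    rw [← ENNReal.tsum_mul_right]
    apply ENNReal.tsum_le_tsum
    intro k
    by_cases hx : x ∈ closedBall t (2 ^ k * ε)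
    · rw [indicator_of_mem hx, indicator_of_mem hx]
    · rw [indicator_of_notMem hx, indicator_of_notMem hx, zero_mul]
  refine h1.trans ?_
  rw [lintegral_tsum (fun k => ((hg.restrict.const_mul _).indicator measurableSet_closedBall))]
  have h2 : ∀ k : ℕ, ∫⁻ x in closedBall t δ, (closedBall t (2 ^ k * ε)).indicator
      (fun x => ENNReal.ofReal (4 / (4 ^ k * ε)) * g x) x ≤ (8 * η) * (2⁻¹ : ℝ≥0∞) ^ k := by
    intro k
    rw [lintegral_indicator measurableSet_closedBall, Measure.restrict_restrict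
      measurableSet_closedBall, lintegral_const_mul'' _ hg.restrict]
    have h3 : closedBall t (2 ^ k * ε) ∩ closedBall t δ = closedBall t (min (2 ^ k * ε) δ) := by
      ext x
      simp [mem_closedBall]
    rw [h3]
    have h4 := hη (min (2 ^ k * ε) δ) (lt_min (by positivity) hδ) (min_le_right _ _)
    have h5 : ENNReal.ofReal (2 * min (2 ^ k * ε) δ) ≤ ENNReal.ofReal (2 * (2 ^ k * ε)) := by
      apply ENNReal.ofReal_le_ofReal
      have := min_le_left (2 ^ k * ε) δ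
      linarith
    calc ENNReal.ofReal (4 / (4 ^ k * ε)) * ∫⁻ x in closedBall t (min (2 ^ k * ε) δ), g x
        ≤ ENNReal.ofReal (4 / (4 ^ k * ε)) * (η * ENNReal.ofReal (2 * (2 ^ k * ε))) := by
          gcongr
          exact h4.trans (by gcongr)
      _ = η * (ENNReal.ofReal (4 / (4 ^ k * ε)) * ENNReal.ofReal (2 * (2 ^ k * ε))) := by ring
      _ = η * ENNReal.ofReal (8 * (2⁻¹) ^ k) := by
          rw [← ENNReal.ofReal_mul (by positivity)]
          congr 2
          have h6 : (4 : ℝ) ^ k = 2 ^ k * 2 ^ k := by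
            rw [← mul_pow]; norm_num
          rw [h6, inv_pow]
          field_simp
          norm_num
      _ = (8 * η) * (2⁻¹ : ℝ≥0∞) ^ k := by
          rw [ENNReal.ofReal_mul (by norm_num), ENNReal.ofReal_pow (by norm_num),
            ENNReal.ofReal_inv_of_pos (by norm_num), ENNReal.ofReal_ofNat, ENNReal.ofReal_ofNat]
          ring
  refine (ENNReal.tsum_le_tsum h2).trans (le_of_eq ?_)
  calc ∑' k : ℕ, (8 * η) * (2⁻¹ : ℝ≥0∞) ^ k = (8 * η) * 2 := by
        rw [ENNReal.tsum_mul_left, ENNReal.tsum_geometric, ENNReal.one_sub_inv_two, inv_inv]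
    _ = 16 * η := by ring

theorem norm_sub_sq (r t θ : ℝ) : ‖circleMap 0 1 θ - circleMap 0 r t‖ ^ 2 =
    (1 - r) ^ 2 + 2 * r * (1 - Real.cos (θ - t)) := by
  rw [← Complex.normSq_eq_norm_sq, Complex.normSq_apply]
  simp only [circleMap, zero_add, Complex.ofReal_one, one_mul, Complex.sub_re, Complex.sub_im,
    Complex.mul_re, Complex.mul_im, Complex.exp_ofReal_mul_I_re, Complex.exp_ofReal_mul_I_im,
    Complex.ofReal_re, Complex.ofReal_im, zero_mul, sub_zero, add_zero]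
  rw [Real.cos_sub]
  have e1 := Real.sin_sq_add_cos_sq θ
  have e2 := Real.sin_sq_add_cos_sq t
  linear_combination e1 + r ^ 2 * e2

theorem pk_near {r t θ : ℝ} (hr : r ∈ Ico (1 / 2 : ℝ) 1) (h : |θ - t| ≤ π) :
    pk (circleMap 0 r t) θ ≤ 4 * kern (1 - r) (θ - t) := by
  have hr0 : 0 < r := by linarith [hr.1]
  have hr1 : 0 < 1 - r := by linarith [hr.2]
  unfold pk kern
  have h4 : (4 : ℝ≥0∞) = ENNReal.ofReal 4 := by simp
  rw [h4, ← ENNReal.ofReal_mul (by norm_num)]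
  apply ENNReal.ofReal_le_ofReal
  rw [PK_eq, norm_sub_sq]
  have hn : ‖circleMap 0 r t‖ = r := by simp [abs_of_pos hr0]
  rw [hn]
  set x := θ - t with hx
  have hc := Real.cos_le_one_sub_mul_cos_sq h
  have hpi : π ≤ 3.2 := by
    have := Real.pi_lt_d2
    linarith
  have hpi3 : 3 ≤ π := Real.pi_gt_three.le
  have h5 : (1 : ℝ) / 5.12 ≤ 2 / π ^ 2 := by
    rw [div_le_div_iff₀ (by norm_num) (by positivity)]
    nlinarith
  have h6 : (1 / 10 : ℝ) * ((1 - r) ^ 2 + x ^ 2) ≤ (1 - r) ^ 2 + 2 * r * (1 - Real.cos x) := by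
    have h7 : (1 / 5.12) * x ^ 2 ≤ 1 - Real.cos x := by
      have : (1 / 5.12) * x ^ 2 ≤ 2 / π ^ 2 * x ^ 2 := by gcongr
      linarith
    have h8 : 1 * ((1 / 5.12) * x ^ 2) ≤ 2 * r * (1 - Real.cos x) := by
      apply mul_le_mul _ h7 (by positivity) (by positivity)
      linarith [hr.1]
    nlinarith [sq_nonneg (1 - r), sq_nonneg x]
  have hpos : 0 < (1 / 10 : ℝ) * ((1 - r) ^ 2 + x ^ 2) := by positivity
  have hpos2 : 0 < (1 - r) ^ 2 + x ^ 2 := by positivity
  have h9 : 1 - r ^ 2 ≤ 2 * (1 - r) := by nlinarith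
  have h10 : 0 ≤ 1 - r ^ 2 := by nlinarith
  calc (1 - r ^ 2) / ((1 - r) ^ 2 + 2 * r * (1 - Real.cos x)) / (2 * π)
      ≤ (2 * (1 - r)) / ((1 / 10 : ℝ) * ((1 - r) ^ 2 + x ^ 2)) / (2 * 3) := by gcongr
    _ = (10 / 3) * ((1 - r) / ((1 - r) ^ 2 + x ^ 2)) := by field_simp
    _ ≤ 4 * ((1 - r) / ((1 - r) ^ 2 + x ^ 2)) := by
        apply mul_le_mul_of_nonneg_right (by norm_num) (by positivity)

theorem cos_far {δ x : ℝ} (hδ : 0 < δ) (h1 : δ ≤ |x|) (h2 : |x| ≤ 2 * π - δ) :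
    Real.cos x ≤ Real.cos δ := by
  rw [← Real.cos_abs x]
  rcases le_total |x| π with h | h
  · exact Real.cos_le_cos_of_nonneg_of_le_pi hδ.le h h1
  · rw [← Real.cos_two_pi_sub |x|]
    exact Real.cos_le_cos_of_nonneg_of_le_pi hδ.le (by linarith) (by linarith)

theorem pk_far {r t θ δ : ℝ} (hr : r ∈ Ico (1 / 2 : ℝ) 1) (hδ : 0 < δ) (hδπ : δ < π)
    (h1 : δ ≤ |θ - t|) (h2 : |θ - t| ≤ 2 * π - δ) :
    pk (circleMap 0 r t) θ ≤ ENNReal.ofReal ((1 - r ^ 2) / (1 - Real.cos δ)) := by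
  have hr0 : 0 < r := by linarith [hr.1]
  have hr1 : 0 < 1 - r := by linarith [hr.2]
  unfold pk
  apply ENNReal.ofReal_le_ofReal
  rw [PK_eq, norm_sub_sq]
  have hn : ‖circleMap 0 r t‖ = r := by simp [abs_of_pos hr0]
  rw [hn]
  have hc := cos_far hδ h1 h2
  have hcd : 0 < 1 - Real.cos δ := by
    have : Real.cos δ < Real.cos 0 := Real.cos_lt_cos_of_nonneg_of_le_pi le_rfl hδπ.le hδ
    rw [Real.cos_zero] at this
    linarith
  have h10 : 0 ≤ 1 - r ^ 2 := by nlinarith [hr.2]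
  have h6 : 1 - Real.cos δ ≤ (1 - r) ^ 2 + 2 * r * (1 - Real.cos (θ - t)) := by
    have h7 : 1 * (1 - Real.cos δ) ≤ 2 * r * (1 - Real.cos (θ - t)) := by
      apply mul_le_mul _ (by linarith) hcd.le (by positivity)
      linarith [hr.1]
    nlinarith [sq_nonneg (1 - r)]
  have h11 : 0 ≤ (1 - r ^ 2) / ((1 - r) ^ 2 + 2 * r * (1 - Real.cos (θ - t))) :=
    div_nonneg h10 (hcd.le.trans h6)
  calc (1 - r ^ 2) / ((1 - r) ^ 2 + 2 * r * (1 - Real.cos (θ - t))) / (2 * π)
      ≤ (1 - r ^ 2) / ((1 - r) ^ 2 + 2 * r * (1 - Real.cos (θ - t))) := by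
        apply div_le_self h11
        nlinarith [Real.pi_gt_three]
    _ ≤ (1 - r ^ 2) / (1 - Real.cos δ) := by gcongr

end Rad

open Rad in
/-- **Fatou's theorem**: the boundary function is the radial limit almost everywhere. -/
theorem radial_limits {f : ℂ → ℂ} (hf : DifferentiableOn ℂ f (Metric.ball 0 1)) {F : ℝ → ℂ}
    (hF : IsBdry f F) :
    ∀ᵐ t ∂mu, Tendsto (fun r : ℝ => f (circleMap 0 r t)) (𝓝[<] 1) (𝓝 (F t)) := by
  set G : ℝ → ℂ := (Icc 0 (2 * π)).indicator F with hG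
  have hGint : Integrable G volume := (integrable_indicator_iff measurableSet_Icc).2 hF.1
  have hleb := (Besicovitch.vitaliFamily (volume : Measure ℝ)).ae_tendsto_lintegral_enorm_sub_div_of_integrable
    hGint
  have hIoo : ∀ᵐ t ∂mu, t ∈ Ioo (0 : ℝ) (2 * π) := by
    unfold mu
    rw [← Measure.restrict_congr_set Ioo_ae_eq_Icc]
    exact ae_restrict_mem measurableSet_Ioo
  filter_upwards [ae_restrict_of_ae hleb, hIoo] with t ht ht0
  have ht' : Tendsto (fun h : ℝ => (∫⁻ y in closedBall t h, ‖G y - G t‖ₑ) / volume (closedBall t h))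
      (𝓝[>] 0) (𝓝 0) := ht.comp (Besicovitch.tendsto_filterAt volume t)
  have hGt : G t = F t := indicator_of_mem (Ioo_subset_Icc_self ht0) F
  -- the pointwise estimate
  have hpt : ∀ r ∈ Ioo (0 : ℝ) 1, ‖f (circleMap 0 r t) - F t‖ₑ ≤
      ∫⁻ θ, pk (circleMap 0 r t) θ * ‖F θ - F t‖ₑ ∂mu := by
    intro r hr
    have hB : IsBdry (fun z => f z - F t) (fun θ => F θ - F t) := by
      refine ⟨hF.1.sub (integrable_const _), ?_⟩
      refine hF.2.congr fun r => ?_
      apply lintegral_congr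
      intro θ
      congr 1
      ring
    exact enorm_le_poisson (hf.sub (differentiableOn_const _)) hB (norm_circle hr t)
  have hI : ∫⁻ θ, ‖F θ - F t‖ₑ ∂mu < ∞ := (hF.1.sub (integrable_const (F t))).2
  rw [tendsto_iff_edist_tendsto_0, ENNReal.tendsto_nhds_zero]
  intro κ hκ
  -- choose δ
  obtain ⟨η, hη0, hη⟩ : ∃ η : ℝ≥0∞, 0 < η ∧ 4 * (16 * η) ≤ κ / 2 := by
    rcases eq_or_ne κ ∞ with h | h
    · exact ⟨1, one_pos, by rw [h]; simp [ENNReal.top_div]⟩
    · refine ⟨κ / 128, ENNReal.div_pos hκ.ne' (by norm_num), ?_⟩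
      have h128 : (128 : ℝ≥0∞) = 64 * 2 := by norm_num
      rw [← mul_assoc, h128, ENNReal.div_eq_inv_mul, ENNReal.mul_inv (by norm_num) (by norm_num)]
      have : (4 * 16 : ℝ≥0∞) * (64⁻¹ * 2⁻¹ * κ) = ((4 * 16) * 64⁻¹) * (κ / 2) := by
        rw [ENNReal.div_eq_inv_mul]; ring
      rw [this]
      have h64 : (4 * 16 : ℝ≥0∞) * 64⁻¹ = 1 := by
        have : (4 * 16 : ℝ≥0∞) = 64 := by norm_num
        rw [this]
        exact ENNReal.mul_inv_cancel (by norm_num) (by norm_num)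
      rw [h64, one_mul]
  have hev : ∀ᶠ h : ℝ in 𝓝[>] 0,
      (∫⁻ y in closedBall t h, ‖G y - G t‖ₑ) / volume (closedBall t h) ≤ η :=
    (ENNReal.tendsto_nhds_zero.1 ht') η hη0
  obtain ⟨δ₀, hδ₀, hδ₀'⟩ := mem_nhdsGT_iff_exists_Ioc_subset.1 hev
  have hδ₀pos : 0 < δ₀ := hδ₀
  set δ := min δ₀ (min (t / 2) ((2 * π - t) / 2)) with hδ
  have hδpos : 0 < δ := by
    rw [hδ]
    refine lt_min hδ₀pos (lt_min (by linarith [ht0.1]) (by linarith [ht0.2]))
  have hd1 : δ ≤ δ₀ := min_le_left _ _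
  have hd2 : δ ≤ t / 2 := (min_le_right _ _).trans (min_le_left _ _)
  have hd3 : δ ≤ (2 * π - t) / 2 := (min_le_right _ _).trans (min_le_right _ _)
  have hdπ : δ < π := by linarith [ht0.1, ht0.2]
  have hsub : closedBall t δ ⊆ Icc 0 (2 * π) := by
    rw [Real.closedBall_eq_Icc]
    apply Icc_subset_Icc <;> linarith [ht0.1, ht0.2]
  -- near part
  have hnear : ∀ r ∈ Ico (1 / 2 : ℝ) 1,
      ∫⁻ θ in closedBall t δ, pk (circleMap 0 r t) θ * ‖F θ - F t‖ₑ ∂mu ≤ κ / 2 := by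
    intro r hr
    have e1 : mu.restrict (closedBall t δ) = volume.restrict (closedBall t δ) := by
      unfold mu
      rw [Measure.restrict_restrict measurableSet_closedBall, inter_eq_self_of_subset_left hsub]
    rw [e1]
    have hr1 : 0 < 1 - r := by linarith [hr.2]
    have hnn := near (g := fun y => ‖G y - G t‖ₑ) (t := t) (δ := δ) (η := η)
      ((hGint.aestronglyMeasurable.sub aestronglyMeasurable_const).enorm) hδpos (by
        intro h hh0 hhδ
        have h1 : (∫⁻ y in closedBall t h, ‖G y - G t‖ₑ) / volume (closedBall t h) ≤ η :=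
          hδ₀' ⟨hh0, hhδ.trans hd1⟩
        rw [Real.volume_closedBall] at h1
        rwa [ENNReal.div_le_iff_le_mul] at h1
        · left
          exact (ENNReal.ofReal_pos.2 (by linarith)).ne'
        · left
          exact ENNReal.ofReal_ne_top) hr1
    calc ∫⁻ θ in closedBall t δ, pk (circleMap 0 r t) θ * ‖F θ - F t‖ₑ
        ≤ ∫⁻ θ in closedBall t δ, 4 * (kern (1 - r) (θ - t) * ‖G θ - G t‖ₑ) := by
          apply setLIntegral_mono' measurableSet_closedBall
          intro θ hθ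
          have hθ2 : |θ - t| ≤ π := by
            rw [mem_closedBall, Real.dist_eq] at hθ
            linarith
          have hGθ : G θ = F θ := indicator_of_mem (hsub hθ) F
          rw [hGθ, hGt, ← mul_assoc]
          gcongr
          exact pk_near hr hθ2
      _ = 4 * ∫⁻ θ in closedBall t δ, kern (1 - r) (θ - t) * ‖G θ - G t‖ₑ := by
          rw [lintegral_const_mul' _ _ (by norm_num)]
      _ ≤ 4 * (16 * η) := by gcongr
      _ ≤ κ / 2 := hη
  -- far part
  have hfar : ∀ r ∈ Ico (1 / 2 : ℝ) 1,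
      ∫⁻ θ in (closedBall t δ)ᶜ, pk (circleMap 0 r t) θ * ‖F θ - F t‖ₑ ∂mu ≤
        ENNReal.ofReal ((1 - r ^ 2) / (1 - Real.cos δ)) * ∫⁻ θ, ‖F θ - F t‖ₑ ∂mu := by
    intro r hr
    rw [← lintegral_const_mul' _ _ ENNReal.ofReal_ne_top]
    refine le_trans ?_ (setLIntegral_le_lintegral (closedBall t δ)ᶜ _)
    have e2 : mu.restrict (closedBall t δ)ᶜ =
        volume.restrict ((closedBall t δ)ᶜ ∩ Icc 0 (2 * π)) := by
      unfold mu
      rw [Measure.restrict_restrict measurableSet_closedBall.compl]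
    rw [e2]
    apply setLIntegral_mono' (measurableSet_closedBall.compl.inter measurableSet_Icc)
    intro θ hθ
    gcongr
    apply pk_far hr hδpos hdπ
    · have := hθ.1
      rw [mem_compl_iff, mem_closedBall, Real.dist_eq, not_le] at this
      exact this.le
    · have h1 := hθ.2.1
      have h2 := hθ.2.2
      rw [abs_le]
      constructor <;> linarith [ht0.1, ht0.2]
  have hlim : Tendsto (fun r : ℝ => ENNReal.ofReal ((1 - r ^ 2) / (1 - Real.cos δ)) *
      ∫⁻ θ, ‖F θ - F t‖ₑ ∂mu) (𝓝[<] 1) (𝓝 0) := by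
    have h1 : Tendsto (fun r : ℝ => (1 - r ^ 2) / (1 - Real.cos δ)) (𝓝[<] 1) (𝓝 0) := by
      have h2 : Tendsto (fun r : ℝ => (1 - r ^ 2) / (1 - Real.cos δ)) (𝓝 1)
          (𝓝 ((1 - 1 ^ 2) / (1 - Real.cos δ))) := by
        apply Tendsto.div_const
        exact (Continuous.tendsto (by fun_prop) 1)
      rw [one_pow, sub_self, zero_div] at h2
      exact h2.mono_left nhdsWithin_le_nhds
    have h3 := ENNReal.tendsto_ofReal h1
    rw [ENNReal.ofReal_zero] at h3
    have h4 := ENNReal.Tendsto.mul_const h3 (b := ∫⁻ θ, ‖F θ - F t‖ₑ ∂mu) (Or.inr hI.ne)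
    rwa [zero_mul] at h4
  have hκ2 : 0 < κ / 2 := ENNReal.half_pos hκ.ne'
  filter_upwards [Ioo_mem_nhdsLT (show (1 / 2 : ℝ) < 1 by norm_num),
    (ENNReal.tendsto_nhds_zero.1 hlim) (κ / 2) hκ2] with r hr hr2
  have hr' : r ∈ Ico (1 / 2 : ℝ) 1 := ⟨hr.1.le, hr.2⟩
  have hr'' : r ∈ Ioo (0 : ℝ) 1 := ⟨by linarith [hr.1], hr.2⟩
  rw [edist_eq_enorm_sub]
  refine (hpt r hr'').trans ?_
  rw [← lintegral_add_compl _ (measurableSet_closedBall (x := t) (ε := δ))]
  calc _ ≤ κ / 2 + κ / 2 := add_le_add (hnear r hr') ((hfar r hr').trans hr2)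
    _ = κ := ENNReal.add_halves κ

end Pool.Agent.HL
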