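import Pool.Agent.HL.Final
import Pool.Agent.HL.Radial

/-!
# The criteria in terms of radial boundary values
-/

open MeasureTheory Set Filter Topology
open scoped ENNReal Real

namespace Pool.Agent.HL

variable (Ψ : LorentzFn)

/-- The radial boundary value `lim_{r → 1-} f(r e^{it})` (an arbitrary number if there is no limit;
for `f` in a Hardy-Lorentz space the limit exists for almost every `t`, see `tendsto_bv`). -/
noncomputable def bv (f : ℂ → ℂ) (t : ℝ) : ℂ :=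
  limUnder (𝓝[<] (1 : ℝ)) (fun r => f (circleMap 0 r t))

theorem bv_ae_eq {f : ℂ → ℂ} (hf : DifferentiableOn ℂ f (Metric.ball 0 1)) {F : ℝ → ℂ}
    (hF : IsBdry f F) : bv f =ᵐ[mu] F := by
  filter_upwards [radial_limits hf hF] with t ht
  exact ht.limUnder_eq

theorem isBdry_bv (hΨ : 0 < Ψ (2 * π)) {f : ℂ → ℂ} (hf : MemHardy Ψ f) : IsBdry f (bv f) := by
  obtain ⟨F, hF⟩ := exists_bdry_of_hardyNorm Ψ hΨ hf.1 hf.2
  exact hF.congr (fun _ _ => rfl) (bv_ae_eq hf.1 hF).symm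

theorem tendsto_bv (hΨ : 0 < Ψ (2 * π)) {f : ℂ → ℂ} (hf : MemHardy Ψ f) :
    ∀ᵐ t ∂mu, Tendsto (fun r : ℝ => f (circleMap 0 r t)) (𝓝[<] 1) (𝓝 (bv f t)) :=
  radial_limits hf.1 (isBdry_bv Ψ hΨ hf)

theorem Perturb.congr {F F' G G' : ℝ → ℂ} (h : Perturb Ψ F G) (hF : F =ᵐ[mu] F')
    (hG : G =ᵐ[mu] G') : Perturb Ψ F' G' := by
  have e1 : ∀ c : ℝ, mu {t | c < ‖F' t‖} = mu {t | c < ‖F t‖} := by
    intro c
    apply measure_congr
    filter_upwards [hF] with t ht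
    show (c < ‖F' t‖) = (c < ‖F t‖)
    rw [ht]
  have e2 : ∀ c : ℝ, mu {t | c ≤ ‖F' t‖} = mu {t | c ≤ ‖F t‖} := by
    intro c
    apply measure_congr
    filter_upwards [hF] with t ht
    show (c ≤ ‖F' t‖) = (c ≤ ‖F t‖)
    rw [ht]
  have e3 : eLpNorm F' ∞ mu = eLpNorm F ∞ mu := eLpNorm_congr_ae hF.symm
  refine ⟨fun s hs => ?_, fun hs => ?_, fun hj => ?_⟩
  · obtain ⟨c, d, h1, h2, h3⟩ := h.1 s hs
    refine ⟨c, d, by rw [e1]; exact h1, by rw [e2]; exact h2, ?_⟩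
    filter_upwards [h3, hF, hG] with t ht h4 h5
    rw [← h4, ← h5]
    exact ht
  · filter_upwards [h.2.1 hs, hF, hG] with t ht h4 h5
    rw [← h4, ← h5]
    exact ht
  · obtain ⟨d, hd⟩ := h.2.2 hj
    refine ⟨d, ?_⟩
    filter_upwards [hd, hF, hG] with t ht h4 h5
    rw [← h4, ← h5, e3]
    exact ht

theorem MultCond.congr {F F' : ℝ → ℂ} {h h' : ℝ → ℝ} (hm : MultCond Ψ F h) (hF : F =ᵐ[mu] F')
    (hh : h =ᵐ[mu] h') : MultCond Ψ F' h' := by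
  have e1 : ∀ c : ℝ, mu {t | c < ‖F' t‖} = mu {t | c < ‖F t‖} := by
    intro c
    apply measure_congr
    filter_upwards [hF] with t ht
    show (c < ‖F' t‖) = (c < ‖F t‖)
    rw [ht]
  have e2 : ∀ c : ℝ, mu {t | c ≤ ‖F' t‖} = mu {t | c ≤ ‖F t‖} := by
    intro c
    apply measure_congr
    filter_upwards [hF] with t ht
    show (c ≤ ‖F' t‖) = (c ≤ ‖F t‖)
    rw [ht]
  have e3 : eLpNorm F' ∞ mu = eLpNorm F ∞ mu := eLpNorm_congr_ae hF.symm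
  refine ⟨fun s hs => ?_, fun hj => ?_⟩
  · obtain ⟨c, d, h1, h2, h3⟩ := hm.1 s hs
    refine ⟨c, d, by rw [e1]; exact h1, by rw [e2]; exact h2, ?_⟩
    filter_upwards [h3, hF, hh] with t ht h4 h5
    rw [← h4, ← h5]
    exact ht
  · obtain ⟨d, hd⟩ := hm.2 hj
    refine ⟨d, ?_⟩
    filter_upwards [hd, hF, hh] with t ht h4 h5
    rw [← h4, ← h5, e3]
    exact ht

/-- **General criterion.** -/
theorem extreme_iff_bv (f : ℂ → ℂ) :
    IsExtremePt Ψ f ↔ DifferentiableOn ℂ f (Metric.ball 0 1) ∧ hardyNorm Ψ f = 1 ∧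
      ∀ g : ℂ → ℂ, MemHardy Ψ g → Perturb Ψ (bv f) (bv g) →
        ∃ c : ℝ, ∀ z ∈ Metric.ball (0 : ℂ) 1, g z = c * f z := by
  constructor
  · intro h
    have hf := h.1
    obtain ⟨hn, F, hF, hg⟩ := (extreme_iff Ψ hf).1 h
    have hpos := Psi_pos_of_norm Ψ hn
    refine ⟨hf.1, hn, fun g hgm hp => ?_⟩
    have hgb := isBdry_bv Ψ hpos hgm
    exact hg g (bv g) hgm hgb (hp.congr Ψ (bv_ae_eq hf.1 hF) EventuallyEq.rfl)
  · rintro ⟨hd, hn, h⟩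
    have hpos := Psi_pos_of_norm Ψ hn
    have hfm : MemHardy Ψ f := ⟨hd, by rw [hn]; exact ENNReal.one_lt_top⟩
    refine (extreme_iff Ψ ⟨hd, hn.le⟩).2 ⟨hn, bv f, isBdry_bv Ψ hpos hfm, fun g G hgm hG hp => ?_⟩
    exact h g hgm (hp.congr Ψ EventuallyEq.rfl (bv_ae_eq hgm.1 hG).symm)

/-- **Criterion for strictly increasing `Ψ`** in terms of real multipliers. -/
theorem extreme_iff_mult_bv (hΨ : StrictMonoOn Ψ (Icc 0 (2 * π))) (f : ℂ → ℂ) :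
    IsExtremePt Ψ f ↔ DifferentiableOn ℂ f (Metric.ball 0 1) ∧ hardyNorm Ψ f = 1 ∧
      ∀ h : ℝ → ℝ, AEMeasurable h mu → (∀ t, |h t| ≤ 1) →
        (∃ g : ℂ → ℂ, MemHardy Ψ g ∧ ∀ᵐ t ∂mu, bv g t = h t * bv f t) →
        MultCond Ψ (bv f) h → ∃ c : ℝ, ∀ᵐ t ∂mu, h t = c := by
  constructor
  · intro h
    have hf := h.1
    obtain ⟨hn, F, hF, hg⟩ := (extreme_iff_mult Ψ hΨ hf).1 h
    have hpos := Psi_pos_of_norm Ψ hn
    refine ⟨hf.1, hn, fun k hk hk1 ⟨g, hgm, hgk⟩ hp => ?_⟩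
    have hgb := isBdry_bv Ψ hpos hgm
    have hfF := bv_ae_eq hf.1 hF
    refine hg k hk hk1 ⟨g, hgm.1, ?_⟩ (hp.congr Ψ hfF EventuallyEq.rfl)
    apply hgb.congr (fun _ _ => rfl)
    filter_upwards [hgk, hfF] with t h1 h2
    rw [h1, h2]
  · rintro ⟨hd, hn, h⟩
    have hpos := Psi_pos_of_norm Ψ hn
    have hfm : MemHardy Ψ f := ⟨hd, by rw [hn]; exact ENNReal.one_lt_top⟩
    have hfb := isBdry_bv Ψ hpos hfm
    refine (extreme_iff_mult Ψ hΨ ⟨hd, hn.le⟩).2 ⟨hn, bv f, hfb, fun k hk hk1 ⟨g, hg, hgk⟩ hp => ?_⟩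
    refine h k hk hk1 ⟨g, ⟨hg, ?_⟩, bv_ae_eq hg hgk⟩ hp
    rw [hardyNorm_eq Ψ hg hgk]
    refine (lorentzNorm_mono Ψ (y := bv f) (Eventually.of_forall fun t => ?_)).trans_lt ?_
    · rw [norm_mul, Complex.norm_real, Real.norm_eq_abs]
      calc |k t| * ‖bv f t‖ ≤ 1 * ‖bv f t‖ := by gcongr; exact hk1 t
        _ = ‖bv f t‖ := one_mul _
    · rw [← hardyNorm_eq Ψ hd hfb, hn]
      exact ENNReal.one_lt_top

end Pool.Agent.HL
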