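import Pool.Agent.HL.Lip

/-!
# Strictly concave `Ψ`
-/

open MeasureTheory Set Filter Topology Metric
open scoped ENNReal Real NNReal

namespace Pool.Agent.HL

/-- there is a level of every rank -/
theorem exists_rank {F : ℝ → ℂ} (hF : Integrable F mu) {s : ℝ} (hs : 0 < s) (hs2 : s ≤ 2 * π) :
    ∃ c : ℝ, mu {t | c < ‖F t‖} ≤ ENNReal.ofReal s ∧ ENNReal.ofReal s ≤ mu {t | c ≤ ‖F t‖} := by
  obtain ⟨a, ha, h⟩ := exists_KF_eq hF.1 hF.2 hs
  exact ⟨a, levels_of_KF_eq hF.1 hF.2 hs hs2 ha h.ge⟩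

theorem lip_of_levels {F : ℝ → ℂ} (hF : AEStronglyMeasurable F mu) {u : ℝ → ℝ} {K a : ℝ}
    (hK : 0 ≤ K) (h : ∀ s, 0 < s → s < a → ∃ c d : ℝ, mu {t | c < ‖F t‖} ≤ ENNReal.ofReal s ∧
      ENNReal.ofReal s ≤ mu {t | c ≤ ‖F t‖} ∧ ∀ᵐ t ∂mu, |u t - d| ≤ K * |‖F t‖ - c|) :
    ∃ S : Set ℝ, (∀ᵐ t ∂mu, t ∈ S) ∧
      (∀ t ∈ S, ∀ q, ‖F t‖ < q → mu {x | q ≤ ‖F x‖} < ENNReal.ofReal (2 * π)) ∧
      ∀ t ∈ S, (∀ q, ‖F t‖ < q → mu {x | q ≤ ‖F x‖} < ENNReal.ofReal a) →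
      ∀ t' ∈ S, |u t - u t'| ≤ K * |‖F t‖ - ‖F t'‖| := by
  choose c d h1 h2 h3 using h
  set P1 : ℝ → Prop := fun t => ∀ (s : ℚ) (hs : (0 : ℝ) < s) (hs' : (s : ℝ) < a),
    |u t - d s hs hs'| ≤ K * |‖F t‖ - c s hs hs'| with hP1
  set P2 : ℝ → Prop := fun t => ∀ p q : ℚ, (p : ℝ) < ‖F t‖ → ‖F t‖ < q →
    0 < mu {x | (p : ℝ) < ‖F x‖ ∧ ‖F x‖ < q} with hP2
  have a1 : ∀ᵐ t ∂mu, P1 t := by
    rw [hP1]
    refine ae_all_iff.2 fun s => ae_all_iff.2 fun hs => ae_all_iff.2 fun hs' => ?_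
    exact h3 s hs hs'
  have a2 : ∀ᵐ t ∂mu, P2 t := by
    rw [hP2]
    refine ae_all_iff.2 fun p => ae_all_iff.2 fun q => ?_
    rcases eq_or_ne (mu {x | (p : ℝ) < ‖F x‖ ∧ ‖F x‖ < q}) 0 with h0 | h0
    · have : ∀ᵐ t ∂mu, ¬ ((p : ℝ) < ‖F t‖ ∧ ‖F t‖ < q) := by
        rw [ae_iff]
        simpa using h0
      filter_upwards [this] with t ht hp hq
      exact absurd ⟨hp, hq⟩ ht
    · exact Eventually.of_forall fun t _ _ => pos_iff_ne_zero.2 h0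
  have hstep : ∀ t, P2 t → ∀ p q : ℚ, (p : ℝ) < ‖F t‖ → ‖F t‖ < q →
      mu {x | (q : ℝ) ≤ ‖F x‖} < mu {x | (p : ℝ) < ‖F x‖} := by
    intro t ht p q hp2 hq1
    have hnm : NullMeasurableSet {x | ‖F x‖ < (q : ℝ)} mu :=
      nullMeasurableSet_lt hF.norm.aemeasurable aemeasurable_const
    have h5 := measure_inter_add_diff₀ {x | (p : ℝ) < ‖F x‖} hnm
    rw [← h5]
    have h6 : {x | (p : ℝ) < ‖F x‖} ∩ {x | ‖F x‖ < (q : ℝ)}
        = {x | (p : ℝ) < ‖F x‖ ∧ ‖F x‖ < q} := rfl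
    have h7 : {x | (q : ℝ) ≤ ‖F x‖} ⊆ {x | (p : ℝ) < ‖F x‖} \ {x | ‖F x‖ < (q : ℝ)} := by
      intro x hx
      have hx' : (q : ℝ) ≤ ‖F x‖ := hx
      refine ⟨?_, ?_⟩
      · show (p : ℝ) < ‖F x‖
        linarith
      · show ¬ (‖F x‖ < (q : ℝ))
        exact not_lt.2 hx'
    rw [h6]
    calc mu {x | (q : ℝ) ≤ ‖F x‖} = 0 + mu {x | (q : ℝ) ≤ ‖F x‖} := (zero_add _).symm
      _ < mu {x | (p : ℝ) < ‖F x‖ ∧ ‖F x‖ < q} + mu {x | (q : ℝ) ≤ ‖F x‖} :=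
        ENNReal.add_lt_add_right (measure_lt_top mu _).ne (ht p q hp2 hq1)
      _ ≤ _ := by gcongr
  refine ⟨{t | P1 t ∧ P2 t}, ?_, ?_, ?_⟩
  · filter_upwards [a1, a2] with t ht1 ht2
    exact ⟨ht1, ht2⟩
  · intro t ht q hq
    obtain ⟨p', hp1, hp2⟩ := exists_rat_btwn (show ‖F t‖ - 1 < ‖F t‖ by linarith)
    obtain ⟨q', hq1, hq2⟩ := exists_rat_btwn hq
    calc mu {x | q ≤ ‖F x‖} ≤ mu {x | (q' : ℝ) ≤ ‖F x‖} := by
          refine measure_mono fun x hx => ?_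
          have hx' : q ≤ ‖F x‖ := hx
          show (q' : ℝ) ≤ ‖F x‖
          linarith
      _ < mu {x | (p' : ℝ) < ‖F x‖} := hstep t ht.2 p' q' hp2 hq1
      _ ≤ mu univ := measure_mono (subset_univ _)
      _ = _ := mu_univ
  intro t ht hta t' ht'
  refine le_of_forall_pos_le_add fun ε hε => ?_
  set δ := ε / (2 * K + 1) with hδ
  have hδ0 : 0 < δ := by positivity
  obtain ⟨p, hp1, hp2⟩ := exists_rat_btwn (show ‖F t‖ - δ < ‖F t‖ by linarith)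
  obtain ⟨q, hq1, hq2⟩ := exists_rat_btwn (show ‖F t‖ < ‖F t‖ + δ by linarith)
  have h4 := hstep t ht.2 p q hp2 hq1
  have h5 : mu {x | (q : ℝ) ≤ ‖F x‖} < ENNReal.ofReal a := hta q hq1
  have h6 : (mu {x | (q : ℝ) ≤ ‖F x‖}).toReal
      < min (mu {x | (p : ℝ) < ‖F x‖}).toReal a := by
    refine lt_min (ENNReal.toReal_strict_mono (measure_lt_top mu _).ne h4) ?_
    exact (ENNReal.lt_ofReal_iff_toReal_lt (measure_lt_top mu _).ne).1 h5
  obtain ⟨s, hs1, hs2⟩ := exists_rat_btwn h6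
  have hs0 : (0 : ℝ) < s := lt_of_le_of_lt ENNReal.toReal_nonneg hs1
  have hsa : (s : ℝ) < a := hs2.trans_le (min_le_right _ _)
  have hc1 : (p : ℝ) ≤ c s hs0 hsa := by
    by_contra hcon
    have h8 : mu {x | (p : ℝ) < ‖F x‖} ≤ ENNReal.ofReal s := by
      refine le_trans (measure_mono fun x hx => ?_) (h1 s hs0 hsa)
      have hx' : (p : ℝ) < ‖F x‖ := hx
      show c s hs0 hsa < ‖F x‖
      linarith [not_le.1 hcon]
    have h9 := ENNReal.toReal_mono ENNReal.ofReal_ne_top h8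
    rw [ENNReal.toReal_ofReal hs0.le] at h9
    linarith [hs2.trans_le (min_le_left _ _)]
  have hc2 : c s hs0 hsa ≤ q := by
    by_contra hcon
    have h8 : ENNReal.ofReal s ≤ mu {x | (q : ℝ) ≤ ‖F x‖} := by
      refine le_trans (h2 s hs0 hsa) (measure_mono fun x hx => ?_)
      have hx' : c s hs0 hsa ≤ ‖F x‖ := hx
      show (q : ℝ) ≤ ‖F x‖
      linarith [not_le.1 hcon]
    have h9 := ENNReal.toReal_mono (measure_lt_top mu _).ne h8
    rw [ENNReal.toReal_ofReal hs0.le] at h9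
    linarith
  have e1 := ht.1 s hs0 hsa
  have e2 := ht'.1 s hs0 hsa
  have e3 : |‖F t‖ - c s hs0 hsa| ≤ δ := by
    rw [abs_le]
    constructor <;> linarith
  have e4 : |‖F t'‖ - c s hs0 hsa| ≤ |‖F t‖ - ‖F t'‖| + δ := by
    calc |‖F t'‖ - c s hs0 hsa| = |(‖F t'‖ - ‖F t‖) + (‖F t‖ - c s hs0 hsa)| := by ring_nf
      _ ≤ |‖F t'‖ - ‖F t‖| + |‖F t‖ - c s hs0 hsa| := abs_add_le _ _
      _ ≤ _ := by rw [abs_sub_comm ‖F t'‖]; linarith
  have e5 : |u t - u t'| ≤ |u t - d s hs0 hsa| + |u t' - d s hs0 hsa| := by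
    calc |u t - u t'| = |(u t - d s hs0 hsa) - (u t' - d s hs0 hsa)| := by ring_nf
      _ ≤ _ := abs_sub _ _
  have e6 : (2 * K + 1) * δ = ε := by rw [hδ]; field_simp
  have e7 := mul_le_mul_of_nonneg_left e3 hK
  have e8 := mul_le_mul_of_nonneg_left e4 hK
  nlinarith

theorem exists_lipschitz {F : ℝ → ℂ} {h : ℝ → ℝ} {S : Set ℝ} {K C : ℝ} (hK : 0 ≤ K)
    (hC : ∀ t ∈ S, |h t| ≤ C)
    (hS : ∀ t ∈ S, ∀ t' ∈ S, |h t * ‖F t‖ - h t' * ‖F t'‖| ≤ K * |‖F t‖ - ‖F t'‖|) :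
    ∃ D : ℝ → ℝ, D 0 = 0 ∧ (∃ L, LipschitzWith L D) ∧ ∀ t ∈ S, D ‖F t‖ = h t * ‖F t‖ := by
  classical
  set D0 : ℝ → ℝ := fun x => if hx : ∃ t ∈ S, ‖F t‖ = x then h hx.choose * x else 0 with hD0
  have hval : ∀ t ∈ S, D0 ‖F t‖ = h t * ‖F t‖ := by
    intro t ht
    have hx : ∃ t' ∈ S, ‖F t'‖ = ‖F t‖ := ⟨t, ht, rfl⟩
    have e1 : D0 ‖F t‖ = h hx.choose * ‖F t‖ := by
      rw [hD0]
      simp only
      rw [dif_pos hx]
    obtain ⟨h1, h2⟩ := hx.choose_spec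
    have h3 := hS t ht hx.choose h1
    rw [h2, sub_self, abs_zero, mul_zero] at h3
    have h4 := abs_nonpos_iff.1 h3
    rw [e1]
    linarith
  have hzero : D0 0 = 0 := by
    rw [hD0]
    simp only
    split_ifs
    · rw [mul_zero]
    · rfl
  set L : ℝ≥0 := Real.toNNReal (max K C) with hL
  have hLv : (L : ℝ) = max K C := Real.coe_toNNReal _ (le_max_of_le_left hK)
  have hlip : LipschitzOnWith L D0 (insert 0 {x | ∃ t ∈ S, ‖F t‖ = x}) := by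
    apply LipschitzOnWith.of_dist_le_mul
    rw [hLv]
    intro x hx y hy
    rw [Real.dist_eq, Real.dist_eq]
    rcases hx with rfl | ⟨t, ht, rfl⟩
    · rcases hy with rfl | ⟨t', ht', rfl⟩
      · simp
      · rw [hzero, hval t' ht', zero_sub, zero_sub, abs_neg, abs_neg, abs_mul]
        exact mul_le_mul_of_nonneg_right ((hC t' ht').trans (le_max_right _ _)) (abs_nonneg _)
    · rcases hy with rfl | ⟨t', ht', rfl⟩
      · rw [hzero, hval t ht, sub_zero, sub_zero, abs_mul]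
        exact mul_le_mul_of_nonneg_right ((hC t ht).trans (le_max_right _ _)) (abs_nonneg _)
      · rw [hval t ht, hval t' ht']
        exact (hS t ht t' ht').trans
          (mul_le_mul_of_nonneg_right (le_max_left _ _) (abs_nonneg _))
  obtain ⟨D, hD, hDe⟩ := hlip.extend_real
  refine ⟨D, ?_, ⟨L, hD⟩, fun t ht => ?_⟩
  · rw [← hDe (mem_insert _ _), hzero]
  · rw [← hDe (mem_insert_of_mem _ ⟨t, ht, rfl⟩), hval t ht]

variable (Ψ : LorentzFn)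

theorem isBend_of_strictConcave (hΨ : StrictConcaveOn ℝ (Icc 0 (2 * π)) Ψ) {s : ℝ} (hs : 0 < s)
    (hs2 : s < 2 * π) : IsBend Ψ s := by
  refine ⟨hs, hs2, fun u v hu hus hsv hv => ?_⟩
  have h1 := hΨ.2 (show u ∈ Icc 0 (2 * π) from ⟨hu.le, by linarith⟩)
    (show v ∈ Icc 0 (2 * π) from ⟨by linarith, hv⟩) (by linarith : u ≠ v)
    (show 0 < (v - s) / (v - u) from div_pos (by linarith) (by linarith))
    (show 0 < (s - u) / (v - u) from div_pos (by linarith) (by linarith))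
    (by have : v - u ≠ 0 := by linarith
        field_simp; ring)
  simp only [smul_eq_mul] at h1
  have h2 : 0 < v - u := by linarith
  have h3 : (v - s) / (v - u) * u + (s - u) / (v - u) * v = s := by
    field_simp
    ring
  rw [h3] at h1
  have h4 : (v - u) * ((v - s) / (v - u) * Ψ u + (s - u) / (v - u) * Ψ v)
      = (v - s) * Ψ u + (s - u) * Ψ v := by
    field_simp
  rw [← h4]
  exact mul_lt_mul_of_pos_left h1 h2

theorem strictMono_of_strictConcave (hΨ : StrictConcaveOn ℝ (Icc 0 (2 * π)) Ψ) :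
    StrictMonoOn Ψ (Icc 0 (2 * π)) := by
  intro u hu v hv huv
  refine lt_of_le_of_ne (Ψ.mono' hu hv huv.le) fun he => ?_
  have h1 := hΨ.2 hu hv huv.ne (show (0 : ℝ) < 1 / 2 by norm_num) (show (0 : ℝ) < 1 / 2 by norm_num)
    (by norm_num)
  simp only [smul_eq_mul] at h1
  have h2 : (1 : ℝ) / 2 * u + 1 / 2 * v ∈ Icc 0 (2 * π) := by
    constructor
    · linarith [hu.1, hv.1]
    · linarith [hu.2, hv.2]
  have h3 := Ψ.mono' h2 hv (by linarith)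
  linarith

/-- **Criterion for strictly concave `Ψ`.** -/
theorem extreme_iff_concave (hΨ : StrictConcaveOn ℝ (Icc 0 (2 * π)) Ψ) (f : ℂ → ℂ) :
    IsExtremePt Ψ f ↔ DifferentiableOn ℂ f (Metric.ball 0 1) ∧ hardyNorm Ψ f = 1 ∧
      ∀ D : ℝ → ℝ, D 0 = 0 → (∃ L, LipschitzWith L D) →
        (∃ q, BddAn q ∧ ∀ᵐ t ∂mu,
          bv q t = ((D ‖bv f t‖ / ‖bv f t‖ : ℝ) : ℂ) * bv (innerPart f) t) →
        ∃ c : ℝ, ∀ᵐ t ∂mu, D ‖bv f t‖ = c * ‖bv f t‖ := by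
  rw [extreme_iff_inner Ψ (strictMono_of_strictConcave Ψ hΨ)]
  refine and_congr_right fun hd => and_congr_right fun hn => ?_
  have hpos := Psi_pos_of_norm Ψ hn
  have hfm : MemHardy Ψ f := ⟨hd, by rw [hn]; exact ENNReal.one_lt_top⟩
  have hfb := isBdry_bv Ψ hpos hfm
  have hNF : lorentzNorm Ψ (bv f) < ∞ := by
    rw [← hardyNorm_eq Ψ hd hfb, hn]
    exact ENNReal.one_lt_top
  have h0 := ne_zero_of_norm Ψ hn
  have hIb := innerPart_bdd hd hfb h0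
  have hI1 := norm_bv_innerPart hd hfb h0
  have hF0 := bdry_ne_zero hd hfb h0
  constructor
  · rintro H D hD0 ⟨L, hL⟩ hq
    have hdist : ∀ x y, |D x - D y| ≤ L * |x - y| := by
      intro x y
      have := hL.dist_le_mul x y
      rwa [Real.dist_eq, Real.dist_eq] at this
    have hL' : LipCond Ψ (bv f) (fun t => D ‖bv f t‖ / ‖bv f t‖) := by
      refine ⟨L, fun s hs => ?_, fun hj => ?_⟩
      · obtain ⟨c, h1, h2⟩ := exists_rank hfb.1 hs.1 hs.2.1.le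
        refine ⟨c, D c, h1, h2, ?_⟩
        filter_upwards [hF0] with t ht
        rw [div_mul_cancel₀ _ (norm_pos_iff.2 ht).ne']
        exact hdist _ _
      · refine ⟨D (eLpNorm (bv f) ∞ mu).toReal, ?_⟩
        filter_upwards [hF0, norm_le_sup Ψ hj hNF] with t ht ht2
        rw [div_mul_cancel₀ _ (norm_pos_iff.2 ht).ne']
        refine (hdist _ _).trans (le_of_eq ?_)
        rw [abs_sub_comm, abs_of_nonneg (sub_nonneg.2 ht2)]
    obtain ⟨c, hc⟩ := H _ hq hL'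
    refine ⟨c, ?_⟩
    filter_upwards [hc, hF0] with t h1 h2
    rw [← h1, div_mul_cancel₀ _ (norm_pos_iff.2 h2).ne']
  · rintro H h hq ⟨K, hK1, -⟩
    obtain ⟨q, hq, hqh⟩ := hq
    have hex := by
      refine lip_of_levels (F := bv f) (u := fun t => h t * ‖bv f t‖) (a := 2 * π) hfb.1.1
        (le_max_right K 0) fun s hs hs2 => ?_
      obtain ⟨c, d, h1, h2, h3⟩ := hK1 s (isBend_of_strictConcave Ψ hΨ hs hs2)
      refine ⟨c, d, h1, h2, ?_⟩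
      filter_upwards [h3] with t ht
      exact ht.trans (mul_le_mul_of_nonneg_right (le_max_left _ _) (abs_nonneg _))
    obtain ⟨S, hS, hS1, hS2⟩ := hex
    obtain ⟨C, hC⟩ := bv_bdd hq
    set S' : Set ℝ := {t | t ∈ S ∧ |h t| ≤ C} with hS'
    have hS'ae : ∀ᵐ t ∂mu, t ∈ S' := by
      filter_upwards [hS, hC, hqh, hI1] with t h1 h2 h3 h4
      refine ⟨h1, ?_⟩
      rwa [h3, norm_mul, h4, mul_one, Complex.norm_real, Real.norm_eq_abs] at h2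
    obtain ⟨D, hD0, hDL, hDe⟩ := exists_lipschitz (F := bv f) (h := h) (S := S')
      (le_max_right K 0) (fun t ht => ht.2)
      (fun t ht t' ht' => hS2 t ht.1 (hS1 t ht.1) t' ht'.1)
    obtain ⟨c, hc⟩ := H D hD0 hDL ⟨q, hq, by
      filter_upwards [hqh, hS'ae, hF0] with t h1 h2 h3
      rw [h1, hDe t h2, mul_div_cancel_right₀ _ (norm_pos_iff.2 h3).ne']⟩
    refine ⟨c, ?_⟩
    filter_upwards [hc, hS'ae, hF0] with t h1 h2 h3
    rw [hDe t h2] at h1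
    exact mul_right_cancel₀ (norm_pos_iff.2 h3).ne' h1

end Pool.Agent.HL
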