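import Pool.Agent.HL.Conc

/-!
# Outer functions, linear `Ψ`
-/

open MeasureTheory Set Filter Topology Metric
open scoped ENNReal Real NNReal

namespace Pool.Agent.HL

/-- an analytic function with real boundary values is constant -/
theorem const_of_real_bdry {q : ℂ → ℂ} (hq : DifferentiableOn ℂ q (ball 0 1)) {Q : ℝ → ℂ}
    (hQ : IsBdry q Q) (hre : ∀ᵐ t ∂mu, (Q t).im = 0) : ∃ c : ℂ, ∀ z ∈ ball (0 : ℂ) 1, q z = c := by
  have h1 : ∀ w ∈ ball (0 : ℂ) 1, (q w).im = 0 := by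
    intro w hwb
    have hw : ‖w‖ < 1 := by simpa using hwb
    have h2 := poisson_repr hq hQ hw
    have hint : Integrable (fun θ => PK w θ • Q θ) mu := by
      exact hQ.1.bdd_smul ((1 - ‖w‖ ^ 2) / (1 - ‖w‖) ^ 2) (PK_cont hw).aestronglyMeasurable
        (Eventually.of_forall (fun θ => by
          rw [Real.norm_of_nonneg (PK_nonneg hw θ)]; exact PK_le hw θ))
    have h3 := integral_im hint
    have h4 : ∫ θ, RCLike.im (PK w θ • Q θ) ∂mu = 0 := by
      have : ∀ᵐ θ ∂mu, RCLike.im (PK w θ • Q θ) = (0 : ℝ) := by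
        filter_upwards [hre] with θ hθ
        show (PK w θ • Q θ).im = 0
        rw [Complex.smul_im, hθ, smul_zero]
      rw [integral_congr_ae this]
      simp
    rw [h4, h2] at h3
    have h5 : ((2 * π) • q w).im = 0 := h3.symm
    rw [Complex.smul_im, smul_eq_mul] at h5
    exact (mul_eq_zero.1 h5).resolve_left two_pi_pos'.ne'
  exact (hq.analyticOnNhd isOpen_ball).eq_const_of_im_eq_const h1 isOpen_ball
    ((convex_ball _ _).isConnected ⟨0, by simp⟩)

theorem bv_const {f : ℂ → ℂ} {κ : ℂ} (h : ∀ z ∈ ball (0 : ℂ) 1, f z = κ) (t : ℝ) : bv f t = κ := by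
  apply Tendsto.limUnder_eq
  refine tendsto_const_nhds.congr' ?_
  filter_upwards [Ioo_mem_nhdsLT one_pos] with r hr
  exact (h _ (circle_mem hr t)).symm

variable (Ψ : LorentzFn)

/-- outer functions of norm one are extreme if `Ψ` is strictly increasing -/
theorem extreme_of_outer (hΨ : StrictMonoOn Ψ (Icc 0 (2 * π))) {f : ℂ → ℂ}
    (hd : DifferentiableOn ℂ f (Metric.ball 0 1)) (hn : hardyNorm Ψ f = 1) {κ : ℂ}
    (hκ : ∀ z ∈ ball (0 : ℂ) 1, innerPart f z = κ) : IsExtremePt Ψ f := by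
  rw [extreme_iff_inner Ψ hΨ]
  refine ⟨hd, hn, ?_⟩
  rintro h ⟨q, hq, hqh⟩ -
  have hpos := Psi_pos_of_norm Ψ hn
  have hfm : MemHardy Ψ f := ⟨hd, by rw [hn]; exact ENNReal.one_lt_top⟩
  have hfb := isBdry_bv Ψ hpos hfm
  have h0 := ne_zero_of_norm Ψ hn
  have hI1 := norm_bv_innerPart hd hfb h0
  have hκ0 : κ ≠ 0 := by
    obtain ⟨t, ht⟩ := (show ∃ t, ‖bv (innerPart f) t‖ = 1 by
      by_contra hcon
      push Not at hcon
      have h1 : mu univ = 0 := by
        have := ae_iff.1 hI1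
        have h2 : {a | ¬ ‖bv (innerPart f) a‖ = 1} = univ := by
          ext t
          simp [hcon t]
        rwa [h2] at this
      rw [mu_univ] at h1
      exact (ENNReal.ofReal_pos.2 two_pi_pos').ne' h1)
    rw [bv_const hκ] at ht
    rw [← norm_pos_iff, ht]
    exact one_pos
  have hqb := hq.bdry
  have hq' : IsBdry (fun z => κ⁻¹ * q z) (fun t => κ⁻¹ * bv q t) := hqb.const_mul _
  obtain ⟨c, hc⟩ := const_of_real_bdry (hq.1.const_mul _) hq' (by
    filter_upwards [hqh] with t ht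
    rw [ht, bv_const hκ, mul_comm, mul_assoc, mul_inv_cancel₀ hκ0, mul_one, Complex.ofReal_im])
  refine ⟨c.re, ?_⟩
  have h3 : (fun t => κ⁻¹ * bv q t) =ᵐ[mu] fun _ => c := by
    have h4 := bv_ae_eq (hq.1.const_mul κ⁻¹) hq'
    filter_upwards [h4] with t ht
    rw [← ht]
    exact bv_const hc t
  filter_upwards [h3, hqh] with t h4 h5
  rw [h5, bv_const hκ] at h4
  rw [← h4, mul_comm, mul_assoc, mul_inv_cancel₀ hκ0, mul_one, Complex.ofReal_re]

/-- for a linear `Ψ` : the theorem of de Leeuw and Rudin -/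
theorem extreme_iff_linear {κ : ℝ} (hκ : 0 < κ) (hΨ : ∀ t ∈ Icc 0 (2 * π), Ψ t = κ * t)
    (f : ℂ → ℂ) :
    IsExtremePt Ψ f ↔ DifferentiableOn ℂ f (Metric.ball 0 1) ∧ hardyNorm Ψ f = 1 ∧
      ∃ c : ℂ, ∀ z ∈ ball (0 : ℂ) 1, innerPart f z = c := by
  have hmono : StrictMonoOn Ψ (Icc 0 (2 * π)) := by
    intro u hu v hv huv
    rw [hΨ u hu, hΨ v hv]
    exact mul_lt_mul_of_pos_left huv hκ
  have hbend : ∀ s, ¬ IsBend Ψ s := by
    rintro s ⟨h1, h2, h3⟩
    have h4 := h3 (s / 2) (2 * π) (by linarith) (by linarith) h2 le_rfl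
    rw [hΨ _ ⟨by linarith, by linarith⟩, hΨ _ ⟨two_pi_pos'.le, le_rfl⟩, hΨ _ ⟨h1.le, h2.le⟩] at h4
    nlinarith
  have hjump : ¬ 0 < jump Ψ := by
    intro hj
    set t := min (jump Ψ / (2 * κ)) (2 * π) with ht
    have ht0 : 0 < t := lt_min (by positivity) two_pi_pos'
    have ht1 : t ≤ 2 * π := min_le_right _ _
    have h1 := jump_le Ψ ht0 ht1
    rw [hΨ t ⟨ht0.le, ht1⟩] at h1
    have h2 : t ≤ jump Ψ / (2 * κ) := min_le_left _ _
    rw [le_div_iff₀ (by positivity)] at h2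
    nlinarith
  constructor
  · intro hext
    obtain ⟨hd, hn, H⟩ := (extreme_iff_inner Ψ hmono f).1 hext
    refine ⟨hd, hn, ?_⟩
    have hpos := Psi_pos_of_norm Ψ hn
    have hfm : MemHardy Ψ f := ⟨hd, by rw [hn]; exact ENNReal.one_lt_top⟩
    have hfb := isBdry_bv Ψ hpos hfm
    have h0 := ne_zero_of_norm Ψ hn
    have hIb := innerPart_bdd hd hfb h0
    have hI1 := norm_bv_innerPart hd hfb h0
    have hIle := innerPart_le hd hfb h0
    set I := innerPart f with hI
    have hrad := radial_limits hIb.1 hIb.bdry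
    have hL : ∀ h : ℝ → ℝ, LipCond Ψ (bv f) h := fun h =>
      ⟨0, fun s hs => absurd hs (hbend s), fun hj => absurd hj hjump⟩
    have hsq : ∀ z ∈ ball (0 : ℂ) 1, ‖I z ^ 2‖ ≤ 1 := by
      intro z hz
      rw [norm_pow]
      exact pow_le_one₀ (norm_nonneg _) (hIle z hz)
    -- real and imaginary parts of the boundary values
    have hre : ∃ c : ℝ, ∀ᵐ t ∂mu, (bv I t).re = c := by
      refine H _ ⟨fun z => (I z ^ 2 + 1) / 2, ⟨((hIb.1.pow 2).add_const _).div_const _, 1,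
        fun z hz => ?_⟩, ?_⟩ (hL _)
      · rw [norm_div, Complex.norm_ofNat, div_le_one two_pos]
        calc ‖I z ^ 2 + 1‖ ≤ ‖I z ^ 2‖ + ‖(1 : ℂ)‖ := norm_add_le _ _
          _ ≤ 2 := by rw [norm_one]; linarith [hsq z hz]
      · filter_upwards [hrad, hI1] with t h1 h2
        have h3 : bv (fun z => (I z ^ 2 + 1) / 2) t = (bv I t ^ 2 + 1) / 2 :=
          (((h1.pow 2).add_const _).div_const _).limUnder_eq
        rw [h3]
        have h4 : (bv I t) * (starRingEnd ℂ) (bv I t) = 1 := by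
          rw [Complex.mul_conj, Complex.normSq_eq_norm_sq, h2]
          simp
        have h5 : ((bv I t).re : ℂ) = (bv I t + (starRingEnd ℂ) (bv I t)) / 2 := by
          rw [Complex.re_eq_add_conj]
        rw [h5]
        linear_combination (-1 / 2 : ℂ) * h4
    have him : ∃ c : ℝ, ∀ᵐ t ∂mu, (bv I t).im = c := by
      refine H _ ⟨fun z => (I z ^ 2 - 1) / (2 * Complex.I),
        ⟨((hIb.1.pow 2).sub_const _).div_const _, 1, fun z hz => ?_⟩, ?_⟩ (hL _)
      · rw [norm_div, norm_mul, Complex.norm_ofNat, Complex.norm_I, mul_one, div_le_one two_pos]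
        calc ‖I z ^ 2 - 1‖ ≤ ‖I z ^ 2‖ + ‖(1 : ℂ)‖ := norm_sub_le _ _
          _ ≤ 2 := by rw [norm_one]; linarith [hsq z hz]
      · filter_upwards [hrad, hI1] with t h1 h2
        have h3 : bv (fun z => (I z ^ 2 - 1) / (2 * Complex.I)) t
            = (bv I t ^ 2 - 1) / (2 * Complex.I) :=
          (((h1.pow 2).sub_const _).div_const _).limUnder_eq
        rw [h3]
        have h4 : (bv I t) * (starRingEnd ℂ) (bv I t) = 1 := by
          rw [Complex.mul_conj, Complex.normSq_eq_norm_sq, h2]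
          simp
        have h5 : ((bv I t).im : ℂ) = (bv I t - (starRingEnd ℂ) (bv I t)) / (2 * Complex.I) := by
          rw [Complex.im_eq_sub_conj]
        rw [h5]
        have hI0 : (2 * Complex.I : ℂ) ≠ 0 := by simp
        field_simp
        linear_combination h4
    obtain ⟨a, ha⟩ := hre
    obtain ⟨b, hb⟩ := him
    refine ⟨⟨a, b⟩, ?_⟩
    have hbI : bv I =ᵐ[mu] fun _ => (⟨a, b⟩ : ℂ) := by
      filter_upwards [ha, hb] with t h1 h2
      exact Complex.ext h1 h2
    have hconst : IsBdry (fun _ => (⟨a, b⟩ : ℂ)) (fun _ => (⟨a, b⟩ : ℂ)) := by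
      refine ⟨integrable_const _, ?_⟩
      simp
    exact eq_of_bdry hIb.1 (differentiableOn_const _) hIb.bdry (hconst.congr (fun _ _ => rfl) hbI.symm)
  · rintro ⟨hd, hn, c, hc⟩
    exact extreme_of_outer Ψ hmono hd hn hc

end Pool.Agent.HL
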