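import Mathlib

/-!
# Hardy-Lorentz spaces: definitions (problem MP_b33f11_an)
-/

open MeasureTheory Set Filter Topology
open scoped ENNReal Real

namespace Pool.Agent.HL

/-- The functions `Ψ` of the problem: non-decreasing and concave on `[0, 2π]` with `Ψ 0 = 0`. -/
structure LorentzFn where
  /-- the function (only its values on `[0, 2π]` matter) -/
  toFun : ℝ → ℝ
  zero' : toFun 0 = 0
  mono' : MonotoneOn toFun (Icc 0 (2 * π))
  concave' : ConcaveOn ℝ (Icc 0 (2 * π)) toFun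

instance : CoeFun LorentzFn (fun _ => ℝ → ℝ) := ⟨LorentzFn.toFun⟩

variable (Ψ : LorentzFn)

/-- `Ψ` extended by `0` to the left of `0` and by `Ψ (2π)` to the right of `2π`. -/
noncomputable def ext (t : ℝ) : ℝ := if t < 0 then 0 else Ψ (min t (2 * π))

theorem ext_mono : Monotone (ext Ψ) := by
  have hpi : (0 : ℝ) < 2 * π := by positivity
  intro a b hab
  unfold ext
  have h0 : ∀ x, 0 ≤ x → 0 ≤ Ψ (min x (2 * π)) := by
    intro x hx
    have := Ψ.mono' (show (0 : ℝ) ∈ Icc 0 (2 * π) from ⟨le_rfl, hpi.le⟩)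
      (show min x (2 * π) ∈ Icc 0 (2 * π) from ⟨le_min hx hpi.le, min_le_right _ _⟩)
      (le_min hx hpi.le)
    rwa [Ψ.zero'] at this
  split_ifs with h1 h2 h2
  · exact le_rfl
  · exact h0 b (not_lt.1 h2)
  · exact absurd (lt_of_le_of_lt hab h2) h1
  · have ha : 0 ≤ a := not_lt.1 h1
    exact Ψ.mono' ⟨le_min ha hpi.le, min_le_right _ _⟩
      ⟨le_min (ha.trans hab) hpi.le, min_le_right _ _⟩ (min_le_min_right _ hab)

/-- The Lebesgue-Stieltjes measure `dΨ` (it lives on `[0, 2π]` and has mass `Ψ(0+)` at `0`). -/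
noncomputable def dPsi : Measure ℝ := (ext_mono Ψ).stieltjesFunction.measure

/-- Lebesgue measure on `[0, 2π]`. -/
noncomputable def mu : Measure ℝ := volume.restrict (Icc 0 (2 * π))

/-- The distribution function `|{|x| > s}|` of a function `x` on `[0, 2π]`. -/
noncomputable def distr (x : ℝ → ℂ) (s : ℝ≥0∞) : ℝ≥0∞ := mu {t | s < ‖x t‖ₑ}

/-- The non-increasing rearrangement `x^*(t) = inf {s : |{|x| > s}| ≤ t}`. -/
noncomputable def rearr (x : ℝ → ℂ) (t : ℝ) : ℝ≥0∞ := sInf {s | distr x s ≤ ENNReal.ofReal t}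

/-- The norm `∫_0^{2π} x^*(t) dΨ(t)` of the Lorentz space `Λ(Ψ)`. -/
noncomputable def lorentzNorm (x : ℝ → ℂ) : ℝ≥0∞ := ∫⁻ t in Icc 0 (2 * π), rearr x t ∂(dPsi Ψ)

/-- The norm `sup_{0<r<1} ‖f_r‖` of the Hardy-Lorentz space `H(Λ(Ψ))`. -/
noncomputable def hardyNorm (f : ℂ → ℂ) : ℝ≥0∞ :=
  ⨆ r ∈ Ioo (0 : ℝ) 1, lorentzNorm Ψ (fun t => f (circleMap 0 r t))

/-- Membership in `H(Λ(Ψ))`. -/
def MemHardy (f : ℂ → ℂ) : Prop :=
  DifferentiableOn ℂ f (Metric.ball 0 1) ∧ hardyNorm Ψ f < ∞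

/-- `F` is the boundary function of `f` : it is integrable and `f_r → F` in `L¹(0, 2π)`. -/
def IsBdry (f : ℂ → ℂ) (F : ℝ → ℂ) : Prop :=
  Integrable F mu ∧
    Tendsto (fun r : ℝ => ∫⁻ t, ‖f (circleMap 0 r t) - F t‖ₑ ∂mu) (𝓝[<] 1) (𝓝 0)

/-- `s ∈ (0, 2π)` is a bend of `Ψ` : `Ψ` is affine on no interval around `s`, i.e. `Ψ s` lies strictly
above every chord of `Ψ` over an interval `[u, v] ∋ s` with `0 < u < s < v ≤ 2π`. -/
def IsBend (s : ℝ) : Prop :=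
  0 < s ∧ s < 2 * π ∧ ∀ u v, 0 < u → u < s → s < v → v ≤ 2 * π →
    (v - s) * Ψ u + (s - u) * Ψ v < (v - u) * Ψ s

end Pool.Agent.HL
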