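import Pool.Agent.HL.Norm

open MeasureTheory Set Filter Topology
open scoped ENNReal Real

namespace Pool.Agent.HL

variable (Ψ : LorentzFn)

theorem KF_eq_of_levels {x : ℝ → ℂ} (hx : AEStronglyMeasurable x mu) {s c : ℝ} (hc : 0 ≤ c)
    (h1 : mu {t | c < ‖x t‖} ≤ ENNReal.ofReal s) (h2 : ENNReal.ofReal s ≤ mu {t | c ≤ ‖x t‖}) :
    ENNReal.ofReal s * ENNReal.ofReal c + ∫⁻ t, (‖x t‖ₑ - ENNReal.ofReal c) ∂mu ≤ KF s x := by
  rw [lintegral_sub_eq hx hc, KF, setLIntegral_Ioi_split hc]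
  apply add_le_add
  · rw [setLIntegral_congr Ioo_ae_eq_Ioc.symm]
    have h4 : ∀ τ ∈ Ioo (0 : ℝ) c, min (ENNReal.ofReal s) (distr x (ENNReal.ofReal τ))
        = ENNReal.ofReal s := by
      intro τ hτ
      apply min_eq_left
      refine h2.trans (measure_mono ?_)
      intro t ht
      have ht' : c ≤ ‖x t‖ := ht
      show ENNReal.ofReal τ < ‖x t‖ₑ
      rw [← ofReal_norm, ENNReal.ofReal_lt_ofReal_iff_of_nonneg hτ.1.le]
      exact hτ.2.trans_le ht'
    rw [setLIntegral_congr_fun measurableSet_Ioo h4, setLIntegral_const, Real.volume_Ioo, sub_zero]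
  · apply le_of_eq
    apply setLIntegral_congr_fun measurableSet_Ioi
    intro τ hτ
    have hτ' : c < τ := hτ
    simp only
    symm
    apply min_eq_right
    refine (measure_mono ?_).trans h1
    intro t ht
    have ht' : ENNReal.ofReal τ < ‖x t‖ₑ := ht
    rw [← ofReal_norm, ENNReal.ofReal_lt_ofReal_iff_of_nonneg (hc.trans hτ'.le)] at ht'
    exact hτ'.trans ht'

theorem KF_two_mul {x : ℝ → ℂ} (hx : Integrable x mu) (s : ℝ) :
    2 * KF s x ≤ KF s (fun t => 2 * x t) := by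
  rcases le_or_gt s 0 with hs | hs
  · have : KF s x ≤ KF 0 x := KF_mono_s _ hs
    rw [KF_zero] at this
    have h0 : KF s x = 0 := le_antisymm this bot_le
    rw [h0, mul_zero]
    exact bot_le
  obtain ⟨a, ha, h⟩ := exists_KF_eq (hx.const_mul 2).1 (hx.const_mul 2).2 hs
  rw [h]
  have h1 := KF_le hx.1 s (a := a / 2) (by positivity)
  have h2 : ∀ t, ‖2 * x t‖ₑ - ENNReal.ofReal a = 2 * (‖x t‖ₑ - ENNReal.ofReal (a / 2)) := by
    intro t
    have e2 : (2 : ℝ≥0∞) = ENNReal.ofReal 2 := by simp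
    have h3 : ENNReal.ofReal a = 2 * ENNReal.ofReal (a / 2) := by
      rw [e2, ← ENNReal.ofReal_mul (by norm_num)]
      congr 1
      ring
    have h4 : ‖(2 : ℂ)‖ₑ = 2 := by
      rw [← ofReal_norm]
      simp
    rw [enorm_mul, h4, h3, ← ENNReal.mul_sub]
    intro _ _
    exact ENNReal.ofNat_ne_top
  have e3 : ENNReal.ofReal s * ENNReal.ofReal a = 2 * (ENNReal.ofReal s * ENNReal.ofReal (a / 2)) := by
    have e2 : (2 : ℝ≥0∞) = ENNReal.ofReal 2 := by simp
    have h3 : ENNReal.ofReal a = 2 * ENNReal.ofReal (a / 2) := by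
      rw [e2, ← ENNReal.ofReal_mul (by norm_num)]
      congr 1
      ring
    rw [h3]
    ring
  simp_rw [h2]
  rw [lintegral_const_mul' _ _ ENNReal.ofNat_ne_top, e3, ← mul_add]
  gcongr

theorem KF_triangle {F G : ℝ → ℂ} (hF : Integrable F mu) (hG : Integrable G mu) (s : ℝ) :
    2 * KF s F ≤ KF s (fun t => F t + G t) + KF s (fun t => F t - G t) := by
  have h1 := KF_add_le (hF.add hG).1 (hF.sub hG).1 (hF.add hG).2 (hF.sub hG).2 s
  have h2 : (fun t => (F + G) t + (F - G) t) = fun t => 2 * F t := by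
    funext t
    simp only [Pi.add_apply, Pi.sub_apply]
    ring
  rw [h2] at h1
  exact (KF_two_mul hF s).trans h1

/-- equality in the triangle inequality for `K_s`. -/
def EqS (s : ℝ) (F G : ℝ → ℂ) : Prop :=
  KF s (fun t => F t + G t) + KF s (fun t => F t - G t) ≤ 2 * KF s F

/-- the level condition. -/
def Level (s c d : ℝ) (F G : ℝ → ℂ) : Prop :=
  |d| ≤ c ∧ mu {t | c < ‖F t‖} ≤ ENNReal.ofReal s ∧ ENNReal.ofReal s ≤ mu {t | c ≤ ‖F t‖} ∧
    ∀ᵐ t ∂mu,
      (c < ‖F t‖ → ‖F t + G t‖ + ‖F t - G t‖ = 2 * ‖F t‖ ∧ c + d ≤ ‖F t + G t‖ ∧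
        c - d ≤ ‖F t - G t‖) ∧
      (‖F t‖ ≤ c → ‖F t + G t‖ ≤ c + d ∧ ‖F t - G t‖ ≤ c - d)

theorem two_norm_le (z w : ℂ) : 2 * ‖z‖ ≤ ‖z + w‖ + ‖z - w‖ := by
  have h := norm_add_le (z + w) (z - w)
  have h2 : (z + w) + (z - w) = 2 * z := by ring
  rw [h2, norm_mul] at h
  simpa using h

theorem ptwise_ge {A B f a b c : ℝ} (hab : a + b = 2 * c) (htri : 2 * f ≤ A + B) :
    2 * ENNReal.ofReal (f - c) ≤ ENNReal.ofReal (A - a) + ENNReal.ofReal (B - b) := by
  have e2 : (2 : ℝ≥0∞) = ENNReal.ofReal 2 := by simp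
  rw [e2, ← ENNReal.ofReal_mul (by norm_num)]
  calc ENNReal.ofReal (2 * (f - c)) ≤ ENNReal.ofReal ((A - a) + (B - b)) :=
        ENNReal.ofReal_le_ofReal (by linarith)
    _ ≤ _ := ENNReal.ofReal_add_le

theorem ptwise_of_eq {A B f a b c : ℝ} (hab : a + b = 2 * c) (htri : 2 * f ≤ A + B)
    (h : ENNReal.ofReal (A - a) + ENNReal.ofReal (B - b) = 2 * ENNReal.ofReal (f - c)) :
    (c < f → A + B = 2 * f ∧ a ≤ A ∧ b ≤ B) ∧ (f ≤ c → A ≤ a ∧ B ≤ b) := by
  have e2 : (2 : ℝ≥0∞) = ENNReal.ofReal 2 := by simp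
  rw [e2, ← ENNReal.ofReal_mul (by norm_num)] at h
  constructor
  · intro hcf
    rcases le_or_gt a A with h1 | h1
    · rcases le_or_gt b B with h2 | h2
      · rw [← ENNReal.ofReal_add (by linarith) (by linarith),
          ENNReal.ofReal_eq_ofReal_iff (by linarith) (by linarith)] at h
        exact ⟨by linarith, h1, h2⟩
      · rw [ENNReal.ofReal_of_nonpos (p := B - b) (by linarith), add_zero,
          ENNReal.ofReal_eq_ofReal_iff (by linarith) (by linarith)] at h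
        linarith
    · rcases le_or_gt b B with h2 | h2
      · rw [ENNReal.ofReal_of_nonpos (p := A - a) (by linarith), zero_add,
          ENNReal.ofReal_eq_ofReal_iff (by linarith) (by linarith)] at h
        linarith
      · linarith
  · intro hfc
    rw [ENNReal.ofReal_of_nonpos (p := 2 * (f - c)) (by linarith), add_eq_zero,
      ENNReal.ofReal_eq_zero, ENNReal.ofReal_eq_zero] at h
    exact ⟨by linarith [h.1], by linarith [h.2]⟩

theorem ptwise_eq {A B f a b c : ℝ} (hab : a + b = 2 * c)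
    (h : (c < f → A + B = 2 * f ∧ a ≤ A ∧ b ≤ B) ∧ (f ≤ c → A ≤ a ∧ B ≤ b)) :
    ENNReal.ofReal (A - a) + ENNReal.ofReal (B - b) = 2 * ENNReal.ofReal (f - c) := by
  have e2 : (2 : ℝ≥0∞) = ENNReal.ofReal 2 := by simp
  rcases lt_or_ge c f with hcf | hcf
  · obtain ⟨h1, h2, h3⟩ := h.1 hcf
    rw [e2, ← ENNReal.ofReal_mul (by norm_num), ← ENNReal.ofReal_add (by linarith) (by linarith)]
    congr 1
    linarith
  · obtain ⟨h1, h2⟩ := h.2 hcf
    rw [ENNReal.ofReal_of_nonpos (by linarith), ENNReal.ofReal_of_nonpos (by linarith),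
      ENNReal.ofReal_of_nonpos (by linarith)]
    simp

theorem enorm_sub_ofReal (z : ℂ) {a : ℝ} (ha : 0 ≤ a) :
    ‖z‖ₑ - ENNReal.ofReal a = ENNReal.ofReal (‖z‖ - a) := by
  rw [← ofReal_norm, ENNReal.ofReal_sub _ ha]

theorem eqS_iff {F G : ℝ → ℂ} (hF : Integrable F mu) (hG : Integrable G mu) {s : ℝ} (hs : 0 < s)
    (hs2 : s ≤ 2 * π) : EqS s F G ↔ ∃ c d, Level s c d F G := by
  have hP : Integrable (fun t => F t + G t) mu := hF.add hG
  have hQ : Integrable (fun t => F t - G t) mu := hF.sub hG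
  constructor
  · intro h
    obtain ⟨a, ha, hKa⟩ := exists_KF_eq hP.1 hP.2 hs
    obtain ⟨b, hb, hKb⟩ := exists_KF_eq hQ.1 hQ.2 hs
    set c := (a + b) / 2 with hc
    have hab : a + b = 2 * c := by rw [hc]; ring
    have hc0 : 0 ≤ c := by positivity
    have h' := h
    unfold EqS at h'
    rw [hKa, hKb] at h'
    simp_rw [enorm_sub_ofReal _ ha, enorm_sub_ofReal _ hb] at h'
    have hKF := KF_le hF.1 s hc0
    simp_rw [enorm_sub_ofReal _ hc0] at hKF
    have hmA : AEMeasurable (fun t => ENNReal.ofReal (‖F t + G t‖ - a)) mu :=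
      (hP.1.norm.aemeasurable.sub_const a).ennreal_ofReal
    have hmB : AEMeasurable (fun t => ENNReal.ofReal (‖F t - G t‖ - b)) mu :=
      (hQ.1.norm.aemeasurable.sub_const b).ennreal_ofReal
    have e1 : ENNReal.ofReal s * ENNReal.ofReal a + ENNReal.ofReal s * ENNReal.ofReal b
        = 2 * (ENNReal.ofReal s * ENNReal.ofReal c) := by
      rw [← mul_add, ← ENNReal.ofReal_add ha hb, hab, ENNReal.ofReal_mul (by norm_num)]
      simp only [ENNReal.ofReal_ofNat]
      ring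
    have h3 : 2 * (ENNReal.ofReal s * ENNReal.ofReal c)
        + ∫⁻ t, (ENNReal.ofReal (‖F t + G t‖ - a) + ENNReal.ofReal (‖F t - G t‖ - b)) ∂mu
        ≤ 2 * KF s F := by
      rw [lintegral_add_left' hmA, ← e1]
      refine le_trans (le_of_eq ?_) h'
      ring
    have h4 : 2 * KF s F ≤ 2 * (ENNReal.ofReal s * ENNReal.ofReal c)
        + ∫⁻ t, 2 * ENNReal.ofReal (‖F t‖ - c) ∂mu := by
      rw [lintegral_const_mul' _ _ ENNReal.ofNat_ne_top, ← mul_add]
      gcongr
    have hfin : 2 * (ENNReal.ofReal s * ENNReal.ofReal c) ≠ ∞ :=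
      ENNReal.mul_ne_top ENNReal.ofNat_ne_top
        (ENNReal.mul_ne_top ENNReal.ofReal_ne_top ENNReal.ofReal_ne_top)
    have h5 : ∫⁻ t, (ENNReal.ofReal (‖F t + G t‖ - a) + ENNReal.ofReal (‖F t - G t‖ - b)) ∂mu
        ≤ ∫⁻ t, 2 * ENNReal.ofReal (‖F t‖ - c) ∂mu :=
      (ENNReal.add_le_add_iff_left hfin).1 (h3.trans h4)
    have hpt : ∀ t, 2 * ENNReal.ofReal (‖F t‖ - c)
        ≤ ENNReal.ofReal (‖F t + G t‖ - a) + ENNReal.ofReal (‖F t - G t‖ - b) :=
      fun t => ptwise_ge hab (two_norm_le (F t) (G t))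
    have hfin2 : ∫⁻ t, 2 * ENNReal.ofReal (‖F t‖ - c) ∂mu ≠ ∞ := by
      rw [lintegral_const_mul' _ _ ENNReal.ofNat_ne_top]
      apply ENNReal.mul_ne_top ENNReal.ofNat_ne_top
      apply ne_of_lt
      refine lt_of_le_of_lt (lintegral_mono (fun t => ?_)) hF.2
      simp only
      rw [← ofReal_norm]
      exact ENNReal.ofReal_le_ofReal (by linarith)
    have h6 := ae_eq_of_ae_le_of_lintegral_le (Eventually.of_forall hpt) hfin2 (hmA.add hmB) h5
    have h7 : ENNReal.ofReal s * ENNReal.ofReal c + ∫⁻ t, (‖F t‖ₑ - ENNReal.ofReal c) ∂mu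
        ≤ KF s F := by
      simp_rw [enorm_sub_ofReal _ hc0]
      have h8 : 2 * (ENNReal.ofReal s * ENNReal.ofReal c
          + ∫⁻ t, ENNReal.ofReal (‖F t‖ - c) ∂mu) ≤ 2 * KF s F := by
        rw [mul_add, ← lintegral_const_mul' _ _ ENNReal.ofNat_ne_top]
        refine le_trans ?_ h3
        gcongr with t
        exact hpt t
      exact (ENNReal.mul_le_mul_iff_right two_ne_zero ENNReal.ofNat_ne_top).1 h8
    obtain ⟨h9, h10⟩ := levels_of_KF_eq hF.1 hF.2 hs hs2 hc0 h7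
    refine ⟨c, (a - b) / 2, ?_, h9, h10, ?_⟩
    · rw [abs_le]
      constructor <;> rw [hc] <;> linarith
    · filter_upwards [h6] with t ht
      have h11 := ptwise_of_eq hab (two_norm_le (F t) (G t)) ht.symm
      have ea : c + (a - b) / 2 = a := by rw [hc]; ring
      have eb : c - (a - b) / 2 = b := by rw [hc]; ring
      rw [ea, eb]
      exact h11
  · rintro ⟨c, d, hd, h1, h2, h3⟩
    have hcd := abs_le.1 hd
    have hc0 : 0 ≤ c := (abs_nonneg d).trans hd
    have ha : 0 ≤ c + d := by linarith [hcd.1]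
    have hb : 0 ≤ c - d := by linarith [hcd.2]
    have hab : (c + d) + (c - d) = 2 * c := by ring
    have hKa := KF_le hP.1 s ha
    have hKb := KF_le hQ.1 s hb
    have hK := KF_eq_of_levels hF.1 hc0 h1 h2
    simp_rw [enorm_sub_ofReal _ ha] at hKa
    simp_rw [enorm_sub_ofReal _ hb] at hKb
    simp_rw [enorm_sub_ofReal _ hc0] at hK
    have hmA : AEMeasurable (fun t => ENNReal.ofReal (‖F t + G t‖ - (c + d))) mu :=
      (hP.1.norm.aemeasurable.sub_const _).ennreal_ofReal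
    unfold EqS
    calc KF s (fun t => F t + G t) + KF s (fun t => F t - G t)
        ≤ (ENNReal.ofReal s * ENNReal.ofReal (c + d)
            + ∫⁻ t, ENNReal.ofReal (‖F t + G t‖ - (c + d)) ∂mu)
          + (ENNReal.ofReal s * ENNReal.ofReal (c - d)
            + ∫⁻ t, ENNReal.ofReal (‖F t - G t‖ - (c - d)) ∂mu) := add_le_add hKa hKb
      _ = 2 * (ENNReal.ofReal s * ENNReal.ofReal c)
          + ∫⁻ t, (ENNReal.ofReal (‖F t + G t‖ - (c + d))
            + ENNReal.ofReal (‖F t - G t‖ - (c - d))) ∂mu := by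
          rw [lintegral_add_left' hmA]
          have e1 : ENNReal.ofReal s * ENNReal.ofReal (c + d)
              + ENNReal.ofReal s * ENNReal.ofReal (c - d)
              = 2 * (ENNReal.ofReal s * ENNReal.ofReal c) := by
            rw [← mul_add, ← ENNReal.ofReal_add ha hb, hab, ENNReal.ofReal_mul (by norm_num)]
            simp only [ENNReal.ofReal_ofNat]
            ring
          rw [← e1]
          ring
      _ = 2 * (ENNReal.ofReal s * ENNReal.ofReal c)
          + ∫⁻ t, 2 * ENNReal.ofReal (‖F t‖ - c) ∂mu := by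
          congr 1
          apply lintegral_congr_ae
          filter_upwards [h3] with t ht
          exact ptwise_eq hab ht
      _ ≤ 2 * KF s F := by
          rw [lintegral_const_mul' _ _ ENNReal.ofNat_ne_top, ← mul_add]
          gcongr

theorem KF_two_pi {x : ℝ → ℂ} (hx : AEStronglyMeasurable x mu) :
    KF (2 * π) x = ∫⁻ t, ‖x t‖ₑ ∂mu := by
  have h3 := lintegral_sub_eq hx (le_refl (0 : ℝ))
  simp only [ENNReal.ofReal_zero, tsub_zero] at h3
  rw [h3, KF]
  apply lintegral_congr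
  intro τ
  exact min_eq_right (distr_le x _)

theorem eqS_two_pi_iff {F G : ℝ → ℂ} (hF : Integrable F mu) (hG : Integrable G mu) :
    EqS (2 * π) F G ↔ ∀ᵐ t ∂mu, ‖F t + G t‖ + ‖F t - G t‖ = 2 * ‖F t‖ := by
  have hP : Integrable (fun t => F t + G t) mu := hF.add hG
  have hQ : Integrable (fun t => F t - G t) mu := hF.sub hG
  have e2 : (2 : ℝ≥0∞) = ENNReal.ofReal 2 := by simp
  unfold EqS
  rw [KF_two_pi hP.1, KF_two_pi hQ.1, KF_two_pi hF.1, ← lintegral_add_left' hP.1.enorm,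
    ← lintegral_const_mul' _ _ ENNReal.ofNat_ne_top]
  have hpt : ∀ t, 2 * ‖F t‖ₑ ≤ ‖F t + G t‖ₑ + ‖F t - G t‖ₑ := by
    intro t
    rw [← ofReal_norm, ← ofReal_norm, ← ofReal_norm, e2, ← ENNReal.ofReal_mul (by norm_num),
      ← ENNReal.ofReal_add (norm_nonneg _) (norm_nonneg _)]
    exact ENNReal.ofReal_le_ofReal (two_norm_le _ _)
  constructor
  · intro h
    have hfin : ∫⁻ t, 2 * ‖F t‖ₑ ∂mu ≠ ∞ := by
      rw [lintegral_const_mul' _ _ ENNReal.ofNat_ne_top]
      exact ENNReal.mul_ne_top ENNReal.ofNat_ne_top hF.2.ne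
    have h6 := ae_eq_of_ae_le_of_lintegral_le (Eventually.of_forall hpt) hfin
      (hP.1.enorm.add hQ.1.enorm) h
    filter_upwards [h6] with t ht
    rw [← ofReal_norm, ← ofReal_norm, ← ofReal_norm, e2, ← ENNReal.ofReal_mul (by norm_num),
      ← ENNReal.ofReal_add (norm_nonneg _) (norm_nonneg _),
      ENNReal.ofReal_eq_ofReal_iff (by positivity) (by positivity)] at ht
    exact ht.symm
  · intro h
    apply le_of_eq
    apply lintegral_congr_ae
    filter_upwards [h] with t ht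
    rw [← ofReal_norm, ← ofReal_norm, ← ofReal_norm, e2, ← ENNReal.ofReal_mul (by norm_num),
      ← ENNReal.ofReal_add (norm_nonneg _) (norm_nonneg _), ht]

theorem eqS_of_tendsto {F G : ℝ → ℂ} (hF : Integrable F mu) (hG : Integrable G mu) {s : ℕ → ℝ}
    {s₀ : ℝ} (hs : Tendsto s atTop (𝓝 s₀)) (h : ∀ n, EqS (s n) F G) : EqS s₀ F G := by
  have h1 := KF_tendsto (hF.add hG) hs
  have h2 := KF_tendsto (hF.sub hG) hs
  have h3 := KF_tendsto hF hs
  exact le_of_tendsto_of_tendsto' (h1.add h2)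
    (ENNReal.Tendsto.const_mul h3 (Or.inr ENNReal.ofNat_ne_top)) h

end Pool.Agent.HL
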