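import Pool.Agent.HL.Bv

/-!
# Fatou's theorem for Poisson integrals of integrable functions
-/

open MeasureTheory Set Filter Topology Metric
open scoped ENNReal Real

namespace Pool.Agent.HL

open Rad in
/-- Lebesgue points are points of convergence of Poisson integrals. -/
theorem fatou_pk {F : ℝ → ℂ} (hF : Integrable F mu) :
    ∀ᵐ t ∂mu, Tendsto (fun r : ℝ => ∫⁻ θ, pk (circleMap 0 r t) θ * ‖F θ - F t‖ₑ ∂mu)
      (𝓝[<] 1) (𝓝 0) := by
  set G : ℝ → ℂ := (Icc 0 (2 * π)).indicator F with hG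
  have hGint : Integrable G volume := (integrable_indicator_iff measurableSet_Icc).2 hF
  have hleb := (Besicovitch.vitaliFamily (volume : Measure ℝ)).ae_tendsto_lintegral_enorm_sub_div_of_integrable
    hGint
  have hIoo : ∀ᵐ t ∂mu, t ∈ Ioo (0 : ℝ) (2 * π) := by
    unfold mu
    rw [← Measure.restrict_congr_set Ioo_ae_eq_Icc]
    exact ae_restrict_mem measurableSet_Ioo
  filter_upwards [ae_restrict_of_ae hleb, hIoo] with t ht ht0
  have ht' : Tendsto (fun h : ℝ => (∫⁻ y in closedBall t h, ‖G y - G t‖ₑ) / volume (closedBall t h))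
      (𝓝[>] 0) (𝓝 0) := ht.comp (Besicovitch.tendsto_filterAt volume t)
  have hGt : G t = F t := indicator_of_mem (Ioo_subset_Icc_self ht0) F
  have hI : ∫⁻ θ, ‖F θ - F t‖ₑ ∂mu < ∞ := (hF.sub (integrable_const (F t))).2
  rw [ENNReal.tendsto_nhds_zero]
  intro κ hκ
  -- choose δ
  obtain ⟨η, hη0, hη⟩ : ∃ η : ℝ≥0∞, 0 < η ∧ 4 * (16 * η) ≤ κ / 2 := by
    rcases eq_or_ne κ ∞ with h | h
    · exact ⟨1, one_pos, by rw [h]; simp [ENNReal.top_div]⟩
    · refine ⟨κ / 128, ENNReal.div_pos hκ.ne' (by norm_num), ?_⟩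
      have h128 : (128 : ℝ≥0∞) = 64 * 2 := by norm_num
      rw [← mul_assoc, h128, ENNReal.div_eq_inv_mul, ENNReal.mul_inv (by norm_num) (by norm_num)]
      have : (4 * 16 : ℝ≥0∞) * (64⁻¹ * 2⁻¹ * κ) = ((4 * 16) * 64⁻¹) * (κ / 2) := by
        rw [ENNReal.div_eq_inv_mul]; ring
      rw [this]
      have h64 : (4 * 16 : ℝ≥0∞) * 64⁻¹ = 1 := by
        have : (4 * 16 : ℝ≥0∞) = 64 := by norm_num
        rw [this]
        exact ENNReal.mul_inv_cancel (by norm_num) (by norm_num)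
      rw [h64, one_mul]
  have hev : ∀ᶠ h : ℝ in 𝓝[>] 0,
      (∫⁻ y in closedBall t h, ‖G y - G t‖ₑ) / volume (closedBall t h) ≤ η :=
    (ENNReal.tendsto_nhds_zero.1 ht') η hη0
  obtain ⟨δ₀, hδ₀, hδ₀'⟩ := mem_nhdsGT_iff_exists_Ioc_subset.1 hev
  have hδ₀pos : 0 < δ₀ := hδ₀
  set δ := min δ₀ (min (t / 2) ((2 * π - t) / 2)) with hδ
  have hδpos : 0 < δ := by
    rw [hδ]
    refine lt_min hδ₀pos (lt_min (by linarith [ht0.1]) (by linarith [ht0.2]))
  have hd1 : δ ≤ δ₀ := min_le_left _ _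
  have hd2 : δ ≤ t / 2 := (min_le_right _ _).trans (min_le_left _ _)
  have hd3 : δ ≤ (2 * π - t) / 2 := (min_le_right _ _).trans (min_le_right _ _)
  have hdπ : δ < π := by linarith [ht0.1, ht0.2]
  have hsub : closedBall t δ ⊆ Icc 0 (2 * π) := by
    rw [Real.closedBall_eq_Icc]
    apply Icc_subset_Icc <;> linarith [ht0.1, ht0.2]
  -- near part
  have hnear : ∀ r ∈ Ico (1 / 2 : ℝ) 1,
      ∫⁻ θ in closedBall t δ, pk (circleMap 0 r t) θ * ‖F θ - F t‖ₑ ∂mu ≤ κ / 2 := by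
    intro r hr
    have e1 : mu.restrict (closedBall t δ) = volume.restrict (closedBall t δ) := by
      unfold mu
      rw [Measure.restrict_restrict measurableSet_closedBall, inter_eq_self_of_subset_left hsub]
    rw [e1]
    have hr1 : 0 < 1 - r := by linarith [hr.2]
    have hnn := near (g := fun y => ‖G y - G t‖ₑ) (t := t) (δ := δ) (η := η)
      ((hGint.aestronglyMeasurable.sub aestronglyMeasurable_const).enorm) hδpos (by
        intro h hh0 hhδ
        have h1 : (∫⁻ y in closedBall t h, ‖G y - G t‖ₑ) / volume (closedBall t h) ≤ η :=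
          hδ₀' ⟨hh0, hhδ.trans hd1⟩
        rw [Real.volume_closedBall] at h1
        rwa [ENNReal.div_le_iff_le_mul] at h1
        · left
          exact (ENNReal.ofReal_pos.2 (by linarith)).ne'
        · left
          exact ENNReal.ofReal_ne_top) hr1
    calc ∫⁻ θ in closedBall t δ, pk (circleMap 0 r t) θ * ‖F θ - F t‖ₑ
        ≤ ∫⁻ θ in closedBall t δ, 4 * (kern (1 - r) (θ - t) * ‖G θ - G t‖ₑ) := by
          apply setLIntegral_mono' measurableSet_closedBall
          intro θ hθ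
          have hθ2 : |θ - t| ≤ π := by
            rw [mem_closedBall, Real.dist_eq] at hθ
            linarith
          have hGθ : G θ = F θ := indicator_of_mem (hsub hθ) F
          rw [hGθ, hGt, ← mul_assoc]
          gcongr
          exact pk_near hr hθ2
      _ = 4 * ∫⁻ θ in closedBall t δ, kern (1 - r) (θ - t) * ‖G θ - G t‖ₑ := by
          rw [lintegral_const_mul' _ _ (by norm_num)]
      _ ≤ 4 * (16 * η) := by gcongr
      _ ≤ κ / 2 := hη
  -- far part
  have hfar : ∀ r ∈ Ico (1 / 2 : ℝ) 1,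
      ∫⁻ θ in (closedBall t δ)ᶜ, pk (circleMap 0 r t) θ * ‖F θ - F t‖ₑ ∂mu ≤
        ENNReal.ofReal ((1 - r ^ 2) / (1 - Real.cos δ)) * ∫⁻ θ, ‖F θ - F t‖ₑ ∂mu := by
    intro r hr
    rw [← lintegral_const_mul' _ _ ENNReal.ofReal_ne_top]
    refine le_trans ?_ (setLIntegral_le_lintegral (closedBall t δ)ᶜ _)
    have e2 : mu.restrict (closedBall t δ)ᶜ =
        volume.restrict ((closedBall t δ)ᶜ ∩ Icc 0 (2 * π)) := by
      unfold mu
      rw [Measure.restrict_restrict measurableSet_closedBall.compl]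
    rw [e2]
    apply setLIntegral_mono' (measurableSet_closedBall.compl.inter measurableSet_Icc)
    intro θ hθ
    gcongr
    apply pk_far hr hδpos hdπ
    · have := hθ.1
      rw [mem_compl_iff, mem_closedBall, Real.dist_eq, not_le] at this
      exact this.le
    · have h1 := hθ.2.1
      have h2 := hθ.2.2
      rw [abs_le]
      constructor <;> linarith [ht0.1, ht0.2]
  have hlim : Tendsto (fun r : ℝ => ENNReal.ofReal ((1 - r ^ 2) / (1 - Real.cos δ)) *
      ∫⁻ θ, ‖F θ - F t‖ₑ ∂mu) (𝓝[<] 1) (𝓝 0) := by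
    have h1 : Tendsto (fun r : ℝ => (1 - r ^ 2) / (1 - Real.cos δ)) (𝓝[<] 1) (𝓝 0) := by
      have h2 : Tendsto (fun r : ℝ => (1 - r ^ 2) / (1 - Real.cos δ)) (𝓝 1)
          (𝓝 ((1 - 1 ^ 2) / (1 - Real.cos δ))) := by
        apply Tendsto.div_const
        exact (Continuous.tendsto (by fun_prop) 1)
      rw [one_pow, sub_self, zero_div] at h2
      exact h2.mono_left nhdsWithin_le_nhds
    have h3 := ENNReal.tendsto_ofReal h1
    rw [ENNReal.ofReal_zero] at h3
    have h4 := ENNReal.Tendsto.mul_const h3 (b := ∫⁻ θ, ‖F θ - F t‖ₑ ∂mu) (Or.inr hI.ne)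
    rwa [zero_mul] at h4
  have hκ2 : 0 < κ / 2 := ENNReal.half_pos hκ.ne'
  filter_upwards [Ioo_mem_nhdsLT (show (1 / 2 : ℝ) < 1 by norm_num),
    (ENNReal.tendsto_nhds_zero.1 hlim) (κ / 2) hκ2] with r hr hr2
  have hr' : r ∈ Ico (1 / 2 : ℝ) 1 := ⟨hr.1.le, hr.2⟩
  have hr'' : r ∈ Ioo (0 : ℝ) 1 := ⟨by linarith [hr.1], hr.2⟩
  rw [← lintegral_add_compl _ (measurableSet_closedBall (x := t) (ε := δ))]
  calc _ ≤ κ / 2 + κ / 2 := add_le_add (hnear r hr') ((hfar r hr').trans hr2)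
    _ = κ := ENNReal.add_halves κ

theorem integral_PK {w : ℂ} (hw : ‖w‖ < 1) : ∫ θ, PK w θ ∂mu = 2 * π := by
  have h1 := lintegral_pk hw
  have h2 : ∫ θ, PK w θ / (2 * π) ∂mu = 1 := by
    rw [integral_eq_lintegral_of_nonneg_ae
      (Eventually.of_forall fun θ => div_nonneg (PK_nonneg hw θ) two_pi_pos'.le)
      ((PK_cont hw).div_const _).aestronglyMeasurable]
    have : ∫⁻ θ, ENNReal.ofReal (PK w θ / (2 * π)) ∂mu = 1 := h1
    rw [this, ENNReal.toReal_one]
  rw [integral_div] at h2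
  rwa [div_eq_one_iff_eq two_pi_pos'.ne'] at h2

theorem PK_mul_integrable {w : ℂ} (hw : ‖w‖ < 1) {φ : ℝ → ℝ} (hφ : Integrable φ mu) :
    Integrable (fun θ => PK w θ * φ θ) mu :=
  hφ.bdd_mul (c := (1 - ‖w‖ ^ 2) / (1 - ‖w‖) ^ 2) (PK_cont hw).aestronglyMeasurable
    (Eventually.of_forall (fun θ => by
        rw [Real.norm_of_nonneg (PK_nonneg hw θ)]; exact PK_le hw θ))

/-- **Fatou's theorem** for Poisson integrals of integrable functions. -/
theorem fatou_real {φ : ℝ → ℝ} (hφ : Integrable φ mu) :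
    ∀ᵐ t ∂mu, Tendsto (fun r : ℝ => (2 * π)⁻¹ * ∫ θ, PK (circleMap 0 r t) θ * φ θ ∂mu)
      (𝓝[<] 1) (𝓝 (φ t)) := by
  have hF : Integrable (fun θ => (φ θ : ℂ)) mu := hφ.ofReal
  filter_upwards [fatou_pk hF] with t ht
  rw [tendsto_iff_edist_tendsto_0]
  refine tendsto_of_tendsto_of_tendsto_of_le_of_le' tendsto_const_nhds ht
    (Eventually.of_forall fun _ => bot_le) ?_
  filter_upwards [Ioo_mem_nhdsLT (show (0 : ℝ) < 1 from one_pos)] with r hr
  have hw := norm_circle hr t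
  have h1 : (2 * π)⁻¹ * ∫ θ, PK (circleMap 0 r t) θ * φ θ ∂mu - φ t
      = ∫ θ, (2 * π)⁻¹ * (PK (circleMap 0 r t) θ * (φ θ - φ t)) ∂mu := by
    have h2 : ∫ θ, PK (circleMap 0 r t) θ * (φ θ - φ t) ∂mu
        = ∫ θ, PK (circleMap 0 r t) θ * φ θ ∂mu - 2 * π * φ t := by
      have h3 : Integrable (fun θ => PK (circleMap 0 r t) θ * φ t) mu :=
        PK_mul_integrable hw (integrable_const _)
      simp_rw [mul_sub]
      rw [integral_sub (PK_mul_integrable hw hφ) h3, integral_mul_const, integral_PK hw]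
    rw [integral_const_mul, h2]
    have := two_pi_pos'.ne'
    field_simp
  rw [edist_eq_enorm_sub, h1]
  refine (enorm_integral_le_lintegral_enorm _).trans (lintegral_mono fun θ => ?_)
  have h4 : (2 * π)⁻¹ * (PK (circleMap 0 r t) θ * (φ θ - φ t))
      = (PK (circleMap 0 r t) θ / (2 * π)) * (φ θ - φ t) := by ring
  rw [h4, enorm_mul]
  have h5 : ‖(φ θ : ℂ) - (φ t : ℂ)‖ₑ = ‖φ θ - φ t‖ₑ := by
    rw [← Complex.ofReal_sub, ← ofReal_norm, ← ofReal_norm, Complex.norm_real]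
  rw [h5, ← ofReal_norm, Real.norm_of_nonneg (div_nonneg (PK_nonneg hw θ) two_pi_pos'.le)]
  rfl

end Pool.Agent.HL
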