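import Pool.Agent.HL.Main

open MeasureTheory Set Filter Topology
open scoped ENNReal Real

namespace Pool.Agent.HL

variable (Ψ : LorentzFn)

/-- The perturbation condition for the boundary functions `F` of `f` and `G` of `g`.
(1) at every bend `s` of `Ψ` there are a level `c` of `|F|` of rank `s` and a real `d` such that
    a.e. on `{|F| > c}` : `G = h F` with `h ∈ [-1, 1]` real and `|h |F| - d| ≤ |F| - c`, and
    a.e. on `{|F| ≤ c}` : `|F + G| ≤ c + d` and `|F - G| ≤ c - d`;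
(2) if `Ψ` is strictly increasing, then a.e. `G = h F` with `h ∈ [-1, 1]` real;
(3) if `Ψ(0+) > 0`, then for some real `d` a.e. `|F + G| ≤ ‖F‖_∞ + d` and `|F - G| ≤ ‖F‖_∞ - d`. -/
def Perturb (F G : ℝ → ℂ) : Prop :=
  (∀ s, IsBend Ψ s → ∃ c d : ℝ,
    mu {t | c < ‖F t‖} ≤ ENNReal.ofReal s ∧ ENNReal.ofReal s ≤ mu {t | c ≤ ‖F t‖} ∧
    ∀ᵐ t ∂mu,
      (c < ‖F t‖ → ∃ h : ℝ, |h| ≤ 1 ∧ G t = h * F t ∧ |h * ‖F t‖ - d| ≤ ‖F t‖ - c) ∧
      (‖F t‖ ≤ c → ‖F t + G t‖ ≤ c + d ∧ ‖F t - G t‖ ≤ c - d)) ∧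
  (StrictMonoOn Ψ (Icc 0 (2 * π)) → ∀ᵐ t ∂mu, ∃ h : ℝ, |h| ≤ 1 ∧ G t = h * F t) ∧
  (0 < jump Ψ → ∃ d : ℝ, ∀ᵐ t ∂mu,
    ‖F t + G t‖ ≤ (eLpNorm F ∞ mu).toReal + d ∧ ‖F t - G t‖ ≤ (eLpNorm F ∞ mu).toReal - d)

/-- The condition on a real multiplier `h` of the boundary function `F` : `h |F|` is, at all critical
levels `c` of `|F|`, a function with modulus of continuity controlled by `|F|`:
(1) at every bend `s` of `Ψ` there are a level `c` of `|F|` of rank `s` and a real `d` with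
    `|h |F| - d| ≤ ||F| - c|` a.e.;
(3) if `Ψ(0+) > 0`, the same holds with `c = ‖F‖_∞`. -/
def MultCond (F : ℝ → ℂ) (h : ℝ → ℝ) : Prop :=
  (∀ s, IsBend Ψ s → ∃ c d : ℝ,
    mu {t | c < ‖F t‖} ≤ ENNReal.ofReal s ∧ ENNReal.ofReal s ≤ mu {t | c ≤ ‖F t‖} ∧
    ∀ᵐ t ∂mu, |h t * ‖F t‖ - d| ≤ |‖F t‖ - c|) ∧
  (0 < jump Ψ → ∃ d : ℝ, ∀ᵐ t ∂mu,
    |h t * ‖F t‖ - d| ≤ (eLpNorm F ∞ mu).toReal - ‖F t‖)

theorem strictMono_iff :
    StrictMonoOn Ψ (Icc 0 (2 * π)) ↔ ∀ u ∈ Ico 0 (2 * π), Ψ u < Ψ (2 * π) := by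
  constructor
  · intro h u hu
    exact h ⟨hu.1, hu.2.le⟩ ⟨two_pi_pos'.le, le_rfl⟩ hu.2
  · intro h u hu v hv huv
    rcases hv.2.eq_or_lt with h1 | h1
    · rw [h1]
      exact h u ⟨hu.1, by rw [← h1]; exact huv⟩
    · have h2 : 0 < 2 * π - u := by linarith
      have h3 := Ψ.concave'.2 hu (show 2 * π ∈ Icc 0 (2 * π) from ⟨two_pi_pos'.le, le_rfl⟩)
        (show (0 : ℝ) ≤ (2 * π - v) / (2 * π - u) by apply div_nonneg <;> linarith)
        (show (0 : ℝ) ≤ (v - u) / (2 * π - u) by apply div_nonneg <;> linarith)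
        (by field_simp; ring)
      simp only [smul_eq_mul] at h3
      have h4 : (2 * π - v) / (2 * π - u) * u + (v - u) / (2 * π - u) * (2 * π) = v := by
        field_simp
        ring
      rw [h4] at h3
      have h5 := h u ⟨hu.1, huv.trans h1⟩
      have h6 : 0 < (v - u) / (2 * π - u) := div_pos (by linarith) h2
      have h7 : (2 * π - v) / (2 * π - u) = 1 - (v - u) / (2 * π - u) := by
        field_simp
        ring
      rw [h7] at h3
      nlinarith

theorem real_mult_iff (z w : ℂ) :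
    ‖z + w‖ + ‖z - w‖ = 2 * ‖z‖ ↔ ∃ h : ℝ, |h| ≤ 1 ∧ w = h * z := by
  constructor
  · intro h
    have h1 : SameRay ℝ (z + w) (z - w) := by
      rw [sameRay_iff_norm_add, h]
      have : (z + w) + (z - w) = 2 * z := by ring
      rw [this, norm_mul]
      simp
    obtain ⟨a, b, ha, hb, hab, h2, _⟩ := h1.exists_eq_smul_add
    have h3 : (z + w) + (z - w) = 2 * z := by ring
    rw [h3] at h2
    refine ⟨2 * a - 1, ?_, ?_⟩
    · rw [abs_le]; constructor <;> linarith
    · rw [Complex.real_smul] at h2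
      push_cast
      linear_combination h2
  · rintro ⟨h, hh, rfl⟩
    have hh' := abs_le.1 hh
    have e1 : z + h * z = ((1 + h : ℝ) : ℂ) * z := by push_cast; ring
    have e2 : z - h * z = ((1 - h : ℝ) : ℂ) * z := by push_cast; ring
    rw [e1, e2, norm_mul, norm_mul, Complex.norm_real, Complex.norm_real,
      Real.norm_of_nonneg (by linarith), Real.norm_of_nonneg (by linarith)]
    ring

theorem norms_of_mult (z : ℂ) {h : ℝ} (hh : |h| ≤ 1) :
    ‖z + h * z‖ = (1 + h) * ‖z‖ ∧ ‖z - h * z‖ = (1 - h) * ‖z‖ := by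
  have hh' := abs_le.1 hh
  have e1 : z + h * z = ((1 + h : ℝ) : ℂ) * z := by push_cast; ring
  have e2 : z - h * z = ((1 - h : ℝ) : ℂ) * z := by push_cast; ring
  rw [e1, e2, norm_mul, norm_mul, Complex.norm_real, Complex.norm_real,
    Real.norm_of_nonneg (by linarith), Real.norm_of_nonneg (by linarith)]
  exact ⟨rfl, rfl⟩

/-- a level of rank `s < 2π` has a non-null sublevel set -/
theorem exists_sublevel {F : ℝ → ℂ} {s c : ℝ} (hs : s < 2 * π)
    (h1 : mu {t | c < ‖F t‖} ≤ ENNReal.ofReal s) {p : ℝ → Prop} (hp : ∀ᵐ t ∂mu, p t) :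
    ∃ t, ‖F t‖ ≤ c ∧ p t := by
  by_contra hcon
  push Not at hcon
  have h2 : mu univ ≤ mu {t | c < ‖F t‖} := by
    apply measure_mono_ae
    filter_upwards [hp] with t ht _
    by_contra h3
    exact hcon t (not_lt.1 h3) ht
  rw [mu_univ] at h2
  have h3 := h2.trans h1
  have h4 := (ENNReal.ofReal_lt_ofReal_iff two_pi_pos').2 hs
  exact absurd h3 (not_le.2 h4)

theorem perturb_iff {F G : ℝ → ℂ} : Perturb Ψ F G ↔ Perturb' Ψ F G := by
  unfold Perturb Perturb'
  rw [strictMono_iff]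
  refine and_congr ?_ (and_congr ?_ Iff.rfl)
  · refine forall_congr' fun s => forall_congr' fun hs => ?_
    refine exists_congr fun c => exists_congr fun d => ?_
    unfold Level
    constructor
    · rintro ⟨h1, h2, h3⟩
      have hcd : |d| ≤ c := by
        obtain ⟨t, ht1, ht2⟩ := exists_sublevel hs.2.1 h1 h3
        obtain ⟨h4, h5⟩ := ht2.2 ht1
        have h6 := norm_nonneg (F t + G t)
        have h7 := norm_nonneg (F t - G t)
        rw [abs_le]
        constructor <;> linarith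
      refine ⟨hcd, h1, h2, ?_⟩
      filter_upwards [h3] with t ht
      refine ⟨fun hc => ?_, ht.2⟩
      obtain ⟨h, hh, hG, habs⟩ := ht.1 hc
      obtain ⟨e1, e2⟩ := norms_of_mult (F t) hh
      rw [hG, e1, e2]
      have := abs_le.1 habs
      refine ⟨by ring, by linarith [this.1], by linarith [this.2]⟩
    · rintro ⟨_, h1, h2, h3⟩
      refine ⟨h1, h2, ?_⟩
      filter_upwards [h3] with t ht
      refine ⟨fun hc => ?_, ht.2⟩
      obtain ⟨h4, h5, h6⟩ := ht.1 hc
      obtain ⟨h, hh, hG⟩ := (real_mult_iff _ _).1 h4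
      obtain ⟨e1, e2⟩ := norms_of_mult (F t) hh
      rw [hG, e1] at h5
      rw [hG, e2] at h6
      refine ⟨h, hh, hG, ?_⟩
      rw [abs_le]
      constructor <;> linarith
  · refine forall_congr' fun _ => ?_
    constructor
    · intro h
      filter_upwards [h] with t ht
      exact (real_mult_iff _ _).2 ht
    · intro h
      filter_upwards [h] with t ht
      exact (real_mult_iff _ _).1 ht

theorem mult_iff {F : ℝ → ℂ} {h : ℝ → ℝ} (hh : ∀ t, |h t| ≤ 1)  :
    Perturb' Ψ F (fun t => h t * F t) ↔ MultCond Ψ F h := by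
  have hn := fun t => norms_of_mult (F t) (hh t)
  unfold Perturb' MultCond
  constructor
  · rintro ⟨h1, _, h3⟩
    refine ⟨fun s hs => ?_, fun hj => ?_⟩
    · obtain ⟨c, d, _, h5, h6, h7⟩ := h1 s hs
      refine ⟨c, d, h5, h6, ?_⟩
      filter_upwards [h7] with t ht
      simp only [(hn t).1, (hn t).2] at ht
      rcases lt_or_ge c ‖F t‖ with hc | hc
      · obtain ⟨_, h8, h9⟩ := ht.1 hc
        rw [abs_of_pos (sub_pos.2 hc), abs_le]
        constructor <;> linarith
      · obtain ⟨h8, h9⟩ := ht.2 hc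
        rw [abs_of_nonpos (sub_nonpos.2 hc), abs_le]
        constructor <;> linarith
    · obtain ⟨d, hd⟩ := h3 hj
      refine ⟨d, ?_⟩
      filter_upwards [hd] with t ht
      simp only [(hn t).1, (hn t).2] at ht
      rw [abs_le]
      constructor <;> linarith [ht.1, ht.2]
  · rintro ⟨h1, h3⟩
    refine ⟨fun s hs => ?_, fun _ => ?_, fun hj => ?_⟩
    · obtain ⟨c, d, h5, h6, h7⟩ := h1 s hs
      refine ⟨c, d, ?_, h5, h6, ?_⟩
      · obtain ⟨t, ht1, ht2⟩ := exists_sublevel hs.2.1 h5 h7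
        rw [abs_of_nonpos (sub_nonpos.2 ht1)] at ht2
        have h8 := abs_le.1 ht2
        have h9 := abs_le.1 (hh t)
        have h10 := norm_nonneg (F t)
        rw [abs_le]
        constructor <;> nlinarith
      · filter_upwards [h7] with t ht
        simp only [(hn t).1, (hn t).2]
        refine ⟨fun hc => ?_, fun hc => ?_⟩
        · rw [abs_of_pos (sub_pos.2 hc), abs_le] at ht
          refine ⟨by ring, by linarith [ht.1], by linarith [ht.2]⟩
        · rw [abs_of_nonpos (sub_nonpos.2 hc), abs_le] at ht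
          refine ⟨by linarith [ht.2], by linarith [ht.1]⟩
    · refine Eventually.of_forall fun t => ?_
      simp only [(hn t).1, (hn t).2]
      ring
    · obtain ⟨d, hd⟩ := h3 hj
      refine ⟨d, ?_⟩
      filter_upwards [hd] with t ht
      simp only [(hn t).1, (hn t).2]
      have := abs_le.1 ht
      constructor <;> linarith [this.1, this.2]

/-- **General criterion.** -/
theorem extreme_iff {f : ℂ → ℂ} (hf : InBall Ψ f) :
    IsExtremePt Ψ f ↔ hardyNorm Ψ f = 1 ∧ ∃ F, IsBdry f F ∧ ∀ (g : ℂ → ℂ) (G : ℝ → ℂ),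
      MemHardy Ψ g → IsBdry g G → Perturb Ψ F G →
        ∃ c : ℝ, ∀ z ∈ Metric.ball (0 : ℂ) 1, g z = c * f z := by
  rw [extreme_iff' Ψ hf]
  simp_rw [perturb_iff]

/-- **Criterion for strictly increasing `Ψ`** in terms of real multipliers. -/
theorem extreme_iff_mult (hΨ : StrictMonoOn Ψ (Icc 0 (2 * π))) {f : ℂ → ℂ} (hf : InBall Ψ f) :
    IsExtremePt Ψ f ↔ hardyNorm Ψ f = 1 ∧ ∃ F, IsBdry f F ∧ ∀ h : ℝ → ℝ, AEMeasurable h mu →
      (∀ t, |h t| ≤ 1) →
      (∃ g : ℂ → ℂ, DifferentiableOn ℂ g (Metric.ball 0 1) ∧ IsBdry g (fun t => h t * F t)) →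
      MultCond Ψ F h → ∃ c : ℝ, ∀ᵐ t ∂mu, h t = c := by
  rw [extreme_iff' Ψ hf]
  refine and_congr_right fun hnorm => exists_congr fun F => and_congr_right fun hF => ?_
  have hNF : lorentzNorm Ψ F = 1 := by rw [← hardyNorm_eq Ψ hf.1 hF]; exact hnorm
  -- `F ≠ 0` a.e.
  have hF0 : ∀ᵐ t ∂mu, F t ≠ 0 := by
    by_contra hcon
    have hpos : 0 < mu {t | F t = 0} := by
      rw [pos_iff_ne_zero]
      intro h0
      apply hcon
      rw [ae_iff]
      simpa using h0
    have hz := bdry_unique f F hf.1 hF hpos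
    have h1 : IsBdry (fun _ => (0 : ℂ)) F := hF.congr hz EventuallyEq.rfl
    have h2 : IsBdry (fun _ => (0 : ℂ)) (fun _ => (0 : ℂ)) := by
      refine ⟨integrable_zero _ _ _, ?_⟩
      simp
    have h3 := IsBdry.unique (differentiableOn_const _) h1 h2
    have h4 : lorentzNorm Ψ F = lorentzNorm Ψ (fun _ => 0) :=
      lorentzNorm_congr Ψ (h3.mono fun t ht => by rw [ht])
    rw [hNF, lorentzNorm_zero] at h4
    exact one_ne_zero h4
  constructor
  · rintro h1 h - hh ⟨g, hg, hG⟩ hm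
    have hmem : MemHardy Ψ g := by
      refine ⟨hg, ?_⟩
      rw [hardyNorm_eq Ψ hg hG]
      refine (lorentzNorm_mono Ψ (y := F) (Eventually.of_forall fun t => ?_)).trans_lt
        (by rw [hNF]; exact ENNReal.one_lt_top)
      rw [norm_mul, Complex.norm_real, Real.norm_eq_abs]
      calc |h t| * ‖F t‖ ≤ 1 * ‖F t‖ := by gcongr; exact hh t
        _ = ‖F t‖ := one_mul _
    obtain ⟨c, hc⟩ := h1 g _ hmem hG ((mult_iff Ψ hh).2 hm)
    refine ⟨c, ?_⟩
    have h2 : IsBdry g (fun t => (c : ℂ) * F t) :=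
      (hF.const_mul c).congr (fun z hz => (hc z hz).symm) EventuallyEq.rfl
    have h3 := IsBdry.unique hg hG h2
    filter_upwards [h3, hF0] with t ht ht0
    have := mul_right_cancel₀ ht0 ht
    exact_mod_cast this
  · intro h1 g G hg hG hpert
    have hreal := hpert.2.1 ((strictMono_iff Ψ).1 hΨ)
    set h : ℝ → ℝ := fun t => max (-1) (min 1 (G t / F t).re) with hh
    have hh1 : ∀ t, |h t| ≤ 1 := by
      intro t
      rw [abs_le]
      exact ⟨le_max_left _ _, max_le (by norm_num) (min_le_left _ _)⟩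
    have hmeas : AEMeasurable h mu := by
      have h2 : AEMeasurable (fun t => (G t / F t).re) mu :=
        Complex.measurable_re.comp_aemeasurable (hG.1.1.aemeasurable.div hF.1.1.aemeasurable)
      exact aemeasurable_const.max (aemeasurable_const.min h2)
    have hGae : G =ᵐ[mu] fun t => (h t : ℂ) * F t := by
      filter_upwards [hreal, hF0] with t ht ht0
      obtain ⟨k, hk, hGk⟩ := (real_mult_iff _ _).1 ht
      have hk' := abs_le.1 hk
      have e1 : G t / F t = (k : ℂ) := by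
        rw [hGk, mul_div_assoc, div_self ht0, mul_one]
      have e2 : h t = k := by
        rw [hh]
        simp only
        rw [e1, Complex.ofReal_re, min_eq_right hk'.2, max_eq_right hk'.1]
      rw [e2]
      exact hGk
    have hG' : IsBdry g (fun t => (h t : ℂ) * F t) := hG.congr (fun _ _ => rfl) hGae
    have hpert' : Perturb' Ψ F (fun t => (h t : ℂ) * F t) := by
      refine ⟨fun s hs => ?_, fun hs => ?_, fun hj => ?_⟩
      · obtain ⟨c, d, h2, h3, h4, h5⟩ := hpert.1 s hs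
        refine ⟨c, d, h2, h3, h4, ?_⟩
        filter_upwards [h5, hGae] with t ht hGt
        rw [← hGt]
        exact ht
      · filter_upwards [hpert.2.1 hs, hGae] with t ht hGt
        rw [← hGt]
        exact ht
      · obtain ⟨d, hd⟩ := hpert.2.2 hj
        refine ⟨d, ?_⟩
        filter_upwards [hd, hGae] with t ht hGt
        rw [← hGt]
        exact ht
    obtain ⟨c, hc⟩ := h1 h hmeas hh1 ⟨g, hg.1, hG'⟩ ((mult_iff Ψ hh1).1 hpert')
    refine ⟨c, ?_⟩
    have hcf : IsBdry (fun z => (c : ℂ) * f z) G := by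
      apply (hF.const_mul (c : ℂ)).congr (fun _ _ => rfl)
      filter_upwards [hGae, hc] with t ht htc
      rw [ht, htc]
    exact eq_of_bdry hg.1 (hf.1.const_mul _) hG hcf

end Pool.Agent.HL
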