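import Pool.Agent.HL.Defs

open MeasureTheory Set Filter Topology
open scoped ENNReal Real

namespace Pool.Agent.HL

variable (Ψ : LorentzFn)

theorem two_pi_pos' : (0 : ℝ) < 2 * π := by positivity

theorem mu_univ : mu univ = ENNReal.ofReal (2 * π) := by
  simp [mu]

instance : IsFiniteMeasure mu := ⟨by rw [mu_univ]; exact ENNReal.ofReal_lt_top⟩

theorem distr_le (x : ℝ → ℂ) (s : ℝ≥0∞) : distr x s ≤ ENNReal.ofReal (2 * π) := by
  rw [← mu_univ]; exact measure_mono (subset_univ _)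

theorem distr_lt_top (x : ℝ → ℂ) (s : ℝ≥0∞) : distr x s < ∞ :=
  (distr_le x s).trans_lt ENNReal.ofReal_lt_top

theorem distr_anti (x : ℝ → ℂ) : Antitone (distr x) := by
  intro a b hab
  exact measure_mono (fun t ht => lt_of_le_of_lt hab ht)

/-- right-continuity of the distribution function -/
theorem exists_lt_distr {x : ℝ → ℂ} {s c : ℝ≥0∞} (hs : s < ∞) (h : c < distr x s) :
    ∃ s', s < s' ∧ s' < ∞ ∧ c < distr x s' := by
  have hsub : {t | s < ‖x t‖ₑ} = ⋃ n : ℕ, {t | s + (n + 1 : ℝ≥0∞)⁻¹ < ‖x t‖ₑ} := by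
    ext t
    simp only [mem_ofPred_eq, mem_iUnion]
    constructor
    · intro ht
      have h1 : 0 < ‖x t‖ₑ - s := tsub_pos_of_lt ht
      obtain ⟨n, hn⟩ := ENNReal.exists_inv_nat_lt h1.ne'
      refine ⟨n, ?_⟩
      have h2 : ((n : ℝ≥0∞) + 1)⁻¹ ≤ (n : ℝ≥0∞)⁻¹ := ENNReal.inv_le_inv.2 (by simp)
      have h3 : ((n : ℝ≥0∞) + 1)⁻¹ < ‖x t‖ₑ - s := lt_of_le_of_lt h2 hn
      rw [add_comm]
      exact lt_tsub_iff_right.1 h3
    · rintro ⟨n, hn⟩
      exact lt_of_le_of_lt le_self_add hn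
  have hmono : Monotone (fun n : ℕ => {t | s + (n + 1 : ℝ≥0∞)⁻¹ < ‖x t‖ₑ}) := by
    intro m n hmn t ht
    simp only [mem_ofPred_eq] at ht ⊢
    refine lt_of_le_of_lt ?_ ht
    gcongr
  have h4 : distr x s = ⨆ n : ℕ, mu {t | s + (n + 1 : ℝ≥0∞)⁻¹ < ‖x t‖ₑ} := by
    rw [distr, hsub, hmono.measure_iUnion]
  rw [h4] at h
  obtain ⟨n, hn⟩ := lt_iSup_iff.1 h
  refine ⟨s + (n + 1 : ℝ≥0∞)⁻¹, ?_, ?_, hn⟩
  · apply ENNReal.lt_add_right hs.ne
    simp
  · apply ENNReal.add_lt_top.2 ⟨hs, ?_⟩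
    simp

theorem lt_rearr_iff (x : ℝ → ℂ) (t : ℝ) {τ : ℝ≥0∞} (hτ : τ < ∞) :
    τ < rearr x t ↔ ENNReal.ofReal t < distr x τ := by
  constructor
  · intro h
    by_contra hcon
    exact absurd (sInf_le (show τ ∈ {s | distr x s ≤ ENNReal.ofReal t} from not_lt.1 hcon))
      (not_le.2 h)
  · intro h
    obtain ⟨s', hs, hs'', hs'⟩ := exists_lt_distr hτ h
    refine lt_of_lt_of_le hs ?_
    apply le_sInf
    intro b hb
    by_contra hcon
    have := distr_anti x (not_le.1 hcon).le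
    exact absurd (hs'.trans_le (this.trans hb)) (lt_irrefl _)

theorem rearr_anti (x : ℝ → ℂ) : Antitone (rearr x) := by
  intro a b hab
  apply sInf_le_sInf
  intro s hs
  exact le_trans hs (ENNReal.ofReal_le_ofReal hab)

theorem lintegral_Ioi_lt (c : ℝ≥0∞) :
    ∫⁻ τ in Ioi (0 : ℝ), (if ENNReal.ofReal τ < c then 1 else 0) = c := by
  have h1 : ∀ τ : ℝ, (if ENNReal.ofReal τ < c then (1 : ℝ≥0∞) else 0)
      = {τ : ℝ | ENNReal.ofReal τ < c}.indicator 1 τ := by
    intro τ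
    simp [indicator_apply]
  simp_rw [h1]
  have hmeas : MeasurableSet {τ : ℝ | ENNReal.ofReal τ < c} :=
    measurableSet_lt ENNReal.measurable_ofReal measurable_const
  rw [lintegral_indicator_one hmeas, Measure.restrict_apply hmeas]
  induction c with
  | top =>
    have : {τ : ℝ | ENNReal.ofReal τ < ∞} = univ := by ext; simp
    rw [this, univ_inter, Real.volume_Ioi]
  | coe c =>
    have : {τ : ℝ | ENNReal.ofReal τ < (c : ℝ≥0∞)} ∩ Ioi 0 = Ioo 0 (c : ℝ) := by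
      ext τ
      simp only [mem_inter_iff, mem_ofPred_eq, mem_Ioi, mem_Ioo]
      constructor
      · rintro ⟨h, h0⟩
        refine ⟨h0, ?_⟩
        rw [← ENNReal.ofReal_coe_nnreal] at h
        exact (ENNReal.ofReal_lt_ofReal_iff_of_nonneg h0.le).1 h
      · rintro ⟨h0, h⟩
        refine ⟨?_, h0⟩
        rw [← ENNReal.ofReal_coe_nnreal]
        exact (ENNReal.ofReal_lt_ofReal_iff_of_nonneg h0.le).2 h
    rw [this, Real.volume_Ioo, sub_zero, ENNReal.ofReal_coe_nnreal]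

/-- `Ψ t ≥ (t / D) Ψ D` for `0 ≤ t ≤ D`. -/
theorem Psi_ge {t D : ℝ} (ht : 0 ≤ t) (htD : t ≤ D) (hD : 0 < D) (hD2 : D ≤ 2 * π) :
    t / D * Ψ D ≤ Ψ t := by
  have h := Ψ.concave'.2 (show (0 : ℝ) ∈ Icc 0 (2 * π) from ⟨le_rfl, two_pi_pos'.le⟩)
    (show D ∈ Icc 0 (2 * π) from ⟨hD.le, hD2⟩)
    (show (0 : ℝ) ≤ 1 - t / D by rw [sub_nonneg]; exact (div_le_one hD).2 htD)
    (show (0 : ℝ) ≤ t / D by positivity) (by ring)
  simp only [smul_eq_mul, Ψ.zero', mul_zero, zero_add] at h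
  rwa [div_mul_cancel₀ _ hD.ne'] at h

theorem Psi_nonneg {t : ℝ} (ht : 0 ≤ t) (ht2 : t ≤ 2 * π) : 0 ≤ Ψ t := by
  have := Ψ.mono' (show (0 : ℝ) ∈ Icc 0 (2 * π) from ⟨le_rfl, two_pi_pos'.le⟩)
    (show t ∈ Icc 0 (2 * π) from ⟨ht, ht2⟩) ht
  rwa [Ψ.zero'] at this

theorem leftLim_ext {D : ℝ} (hD : 0 < D) (hD2 : D ≤ 2 * π) :
    Function.leftLim (ext Ψ) D = Ψ D := by
  apply leftLim_eq_of_tendsto
  have h1 : Tendsto (fun t : ℝ => t / D * Ψ D) (𝓝[<] D) (𝓝 (Ψ D)) := by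
    have : Tendsto (fun t : ℝ => t / D * Ψ D) (𝓝 D) (𝓝 (D / D * Ψ D)) :=
      Continuous.tendsto (by fun_prop) D
    rw [div_self hD.ne', one_mul] at this
    exact this.mono_left nhdsWithin_le_nhds
  refine tendsto_of_tendsto_of_tendsto_of_le_of_le' h1 tendsto_const_nhds ?_ ?_
  · filter_upwards [Ioo_mem_nhdsLT hD] with t ht
    have : ext Ψ t = Ψ t := by
      unfold ext
      rw [if_neg (not_lt.2 ht.1.le), min_eq_left (ht.2.le.trans hD2)]
    rw [this]
    exact Psi_ge Ψ ht.1.le ht.2.le hD hD2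
  · filter_upwards [Ioo_mem_nhdsLT hD] with t ht
    have : ext Ψ t = Ψ t := by
      unfold ext
      rw [if_neg (not_lt.2 ht.1.le), min_eq_left (ht.2.le.trans hD2)]
    rw [this]
    exact Ψ.mono' ⟨ht.1.le, ht.2.le.trans hD2⟩ ⟨hD.le, hD2⟩ ht.2.le

theorem leftLim_ext_zero : Function.leftLim (ext Ψ) 0 = 0 := by
  apply leftLim_eq_of_tendsto
  apply tendsto_const_nhds.congr'
  filter_upwards [self_mem_nhdsWithin] with t ht
  simp only [ext, if_pos (show t < 0 from ht)]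

theorem dPsi_Ico {D : ℝ} (hD : 0 ≤ D) (hD2 : D ≤ 2 * π) :
    dPsi Ψ (Ico 0 D) = ENNReal.ofReal (Ψ D) := by
  have key : ∀ a, Function.leftLim (ext_mono Ψ).stieltjesFunction a
      = Function.leftLim (ext Ψ) a := by
    intro a
    have : ((ext_mono Ψ).stieltjesFunction : ℝ → ℝ) = Function.rightLim (ext Ψ) := by
      funext b
      exact (ext_mono Ψ).stieltjesFunction_eq b
    rw [this]
    exact leftLim_rightLim ((ext_mono Ψ).tendsto_leftLim a)
  rw [dPsi, StieltjesFunction.measure_Ico, key, key, leftLim_ext_zero, sub_zero]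
  rcases hD.eq_or_lt with h | h
  · rw [← h, leftLim_ext_zero, Ψ.zero']
  · rw [leftLim_ext Ψ h hD2]

/-- layer-cake formula for the Lorentz norm. -/
theorem lorentzNorm_eq (x : ℝ → ℂ) :
    lorentzNorm Ψ x = ∫⁻ τ in Ioi (0 : ℝ),
      ENNReal.ofReal (Ψ (distr x (ENNReal.ofReal τ)).toReal) := by
  have h1 : ∀ t, rearr x t
      = ∫⁻ τ in Ioi (0 : ℝ), (if ENNReal.ofReal τ < rearr x t then 1 else 0) :=
    fun t => (lintegral_Ioi_lt _).symm
  unfold lorentzNorm
  rw [lintegral_congr h1]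
  have : SigmaFinite (dPsi Ψ) := by unfold dPsi; infer_instance
  have hm : Measurable (rearr x) := (rearr_anti x).measurable
  rw [lintegral_lintegral_swap]
  · apply lintegral_congr
    intro τ
    have h2 : ∀ t : ℝ, (if ENNReal.ofReal τ < rearr x t then (1 : ℝ≥0∞) else 0)
        = {t : ℝ | ENNReal.ofReal τ < rearr x t}.indicator 1 t := by
      intro t
      simp [indicator_apply]
    simp_rw [h2]
    have hmeas : MeasurableSet {t : ℝ | ENNReal.ofReal τ < rearr x t} :=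
      measurableSet_lt measurable_const hm
    rw [lintegral_indicator_one hmeas, Measure.restrict_apply hmeas]
    have hD : (distr x (ENNReal.ofReal τ)).toReal ≤ 2 * π := by
      have := ENNReal.toReal_mono ENNReal.ofReal_ne_top (distr_le x (ENNReal.ofReal τ))
      rwa [ENNReal.toReal_ofReal two_pi_pos'.le] at this
    have hset : {t : ℝ | ENNReal.ofReal τ < rearr x t} ∩ Icc 0 (2 * π)
        = Ico 0 (distr x (ENNReal.ofReal τ)).toReal := by
      ext t
      simp only [mem_inter_iff, mem_ofPred_eq, mem_Icc, mem_Ico]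
      rw [lt_rearr_iff x t ENNReal.ofReal_lt_top]
      have : 0 ≤ t → (ENNReal.ofReal t < distr x (ENNReal.ofReal τ) ↔
          t < (distr x (ENNReal.ofReal τ)).toReal) := by
        intro ht
        rw [← ENNReal.ofReal_toReal (distr_lt_top x (ENNReal.ofReal τ)).ne,
          ENNReal.ofReal_lt_ofReal_iff_of_nonneg ht,
          ENNReal.ofReal_toReal (distr_lt_top x (ENNReal.ofReal τ)).ne]
      constructor
      · rintro ⟨h, h0, _⟩
        exact ⟨h0, (this h0).1 h⟩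
      · rintro ⟨h0, h⟩
        exact ⟨(this h0).2 h, h0, h.le.trans hD⟩
    rw [hset, dPsi_Ico Ψ ENNReal.toReal_nonneg hD]
  · apply Measurable.aemeasurable
    apply Measurable.ite
    · exact measurableSet_lt (ENNReal.measurable_ofReal.comp measurable_snd)
        (hm.comp measurable_fst)
    · exact measurable_const
    · exact measurable_const

end Pool.Agent.HL
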