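import Mathlib
import Pool.Agent.HL.LayerCake

open MeasureTheory Set Filter Topology Metric
open scoped ENNReal Real Polynomial

namespace Pool.Agent.HL

/-! ### Polynomials -/

theorem circleAverage_eq_int_mu (f : ℂ → ℝ) (R : ℝ) :
    Real.circleAverage f 0 R = (2 * π)⁻¹ * ∫ t, f (circleMap 0 R t) ∂mu := by
  rw [Real.circleAverage_def, intervalIntegral.integral_of_le (by positivity), smul_eq_mul, mu,
    integral_Icc_eq_integral_Ioc]

theorem poly_parseval (p : ℂ[X]) (N : ℕ) (hN : p.natDegree < N) :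
    ∫ t, ‖p.eval (circleMap 0 1 t)‖ ^ 2 ∂mu = 2 * π * ∑ i ∈ Finset.range N, ‖p.coeff i‖ ^ 2 := by
  have h1 := p.sum_sq_norm_coeff_eq_circleAverage
  rw [circleAverage_eq_int_mu] at h1
  have h2 : ∑ i ∈ p.support, ‖p.coeff i‖ ^ 2 = ∑ i ∈ Finset.range N, ‖p.coeff i‖ ^ 2 := by
    apply Finset.sum_subset
    · intro i hi
      rw [Finset.mem_range]
      exact lt_of_le_of_lt (Polynomial.le_natDegree_of_mem_supp i hi) hN
    · intro i _ hi
      rw [Polynomial.notMem_support_iff.1 hi]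
      simp
  rw [← h2, h1]
  have : (2 * π) ≠ 0 := by positivity
  field_simp

theorem circleMap_zero_mul_one (r t : ℝ) : circleMap 0 r t = (r : ℂ) * circleMap 0 1 t := by
  simp [circleMap]

theorem poly_l2 (p : ℂ[X]) (r : ℝ) (hr : 0 ≤ r) (hr1 : r ≤ 1) :
    ∫ t, ‖p.eval (circleMap 0 1 t) - p.eval (circleMap 0 r t)‖ ^ 2 ∂mu ≤
      ∫ t, ‖p.eval (circleMap 0 1 t)‖ ^ 2 ∂mu - ∫ t, ‖p.eval (circleMap 0 r t)‖ ^ 2 ∂mu := by
  set q : ℂ[X] := p.comp (Polynomial.C (r : ℂ) * Polynomial.X) with hq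
  have hqe : ∀ t, q.eval (circleMap 0 1 t) = p.eval (circleMap 0 r t) := by
    intro t
    rw [hq, Polynomial.eval_comp, circleMap_zero_mul_one r t]
    simp
  have hqc : ∀ n, q.coeff n = p.coeff n * (r : ℂ) ^ n := by
    intro n
    rw [hq, Polynomial.comp_C_mul_X_coeff]
  set N := max (max p.natDegree q.natDegree) (p - q).natDegree + 1 with hN
  have e1 := poly_parseval p N (by omega)
  have e2 := poly_parseval q N (by omega)
  have e3 := poly_parseval (p - q) N (by omega)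
  simp only [hqe] at e2
  simp only [Polynomial.eval_sub, hqe] at e3
  rw [e1, e2, e3, ← mul_sub, ← Finset.sum_sub_distrib]
  apply mul_le_mul_of_nonneg_left _ (by positivity)
  apply Finset.sum_le_sum
  intro i _
  rw [Polynomial.coeff_sub, hqc]
  have h1 : p.coeff i - p.coeff i * (r : ℂ) ^ i = p.coeff i * ((1 - r ^ i : ℝ) : ℂ) := by
    push_cast; ring
  have h2 : 0 ≤ r ^ i := by positivity
  have h3 : r ^ i ≤ 1 := pow_le_one₀ hr hr1
  rw [h1, norm_mul, norm_mul, Complex.norm_real, norm_pow, Complex.norm_real, Real.norm_eq_abs,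
    Real.norm_eq_abs, abs_of_nonneg (by linarith : (0:ℝ) ≤ 1 - r ^ i), abs_of_nonneg hr]
  have h4 : 0 ≤ ‖p.coeff i‖ ^ 2 := by positivity
  have h5 : (1 - r ^ i) ^ 2 ≤ 1 - (r ^ i) ^ 2 := by nlinarith
  calc (‖p.coeff i‖ * (1 - r ^ i)) ^ 2 = ‖p.coeff i‖ ^ 2 * (1 - r ^ i) ^ 2 := by ring
    _ ≤ ‖p.coeff i‖ ^ 2 * (1 - (r ^ i) ^ 2) := by gcongr
    _ = _ := by ring

/-! ### Uniform approximation -/

theorem closure_ball_one : closure (ball (0 : ℂ) 1) = closedBall 0 1 :=
  closure_ball 0 one_ne_zero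

theorem approx (g : ℂ → ℂ) (hg : DiffContOnCl ℂ g (ball 0 1)) (ε : ℝ) (hε : 0 < ε) :
    ∃ p : ℂ[X], ∀ z ∈ closedBall (0 : ℂ) 1, ‖g z - p.eval z‖ ≤ ε := by
  have hc : ContinuousOn g (closedBall 0 1) := by
    rw [← closure_ball_one]; exact hg.continuousOn
  have huc := (isCompact_closedBall (0 : ℂ) 1).uniformContinuousOn_of_continuous hc
  rw [Metric.uniformContinuousOn_iff] at huc
  obtain ⟨δ, hδ, hδ'⟩ := huc (ε / 2) (by positivity)
  -- radius
  obtain ⟨ρ, hρ0, hρ1, hρδ⟩ : ∃ ρ : ℝ, 0 < ρ ∧ ρ < 1 ∧ 1 - ρ < δ := by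
    refine ⟨max (1 / 2) (1 - δ / 2), by positivity, ?_, ?_⟩
    · exact max_lt (by norm_num) (by linarith)
    · have := le_max_right (1 / 2) (1 - δ / 2)
      linarith
  have h1 : ∀ z ∈ closedBall (0 : ℂ) 1, ‖g z - g (ρ * z)‖ ≤ ε / 2 := by
    intro z hz
    have hz' : ‖z‖ ≤ 1 := by simpa using hz
    have hz2 : (ρ : ℂ) * z ∈ closedBall (0 : ℂ) 1 := by
      simp only [mem_closedBall, dist_zero_right, norm_mul, Complex.norm_real, Real.norm_eq_abs,
        abs_of_pos hρ0]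
      nlinarith [norm_nonneg z]
    have := hδ' z hz _ hz2 (by
      rw [dist_eq_norm]
      have : z - (ρ : ℂ) * z = ((1 - ρ : ℝ) : ℂ) * z := by push_cast; ring
      rw [this, norm_mul, Complex.norm_real, Real.norm_eq_abs, abs_of_pos (by linarith)]
      nlinarith [norm_nonneg z])
    rw [dist_eq_norm] at this
    exact this.le
  -- Taylor series
  have hps := (hg.hasFPowerSeriesOnBall (R := 1) (c := 0) one_pos)
  obtain ⟨r', hr'⟩ : ∃ r' : NNReal, (r' : ℝ) = (1 + ρ) / 2 := ⟨⟨(1 + ρ) / 2, by positivity⟩, rfl⟩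
  have hρ' : (r' : ℝ≥0∞) < ((1 : NNReal) : ℝ≥0∞) := by
    rw [ENNReal.coe_lt_coe, ← NNReal.coe_lt_coe, hr', NNReal.coe_one]
    linarith
  have hu := hps.tendstoUniformlyOn' hρ'
  rw [Metric.tendstoUniformlyOn_iff] at hu
  obtain ⟨n, hn⟩ := (hu (ε / 2) (by positivity)).exists
  set s := cauchyPowerSeries g 0 (1 : NNReal) with hs
  refine ⟨∑ k ∈ Finset.range n, Polynomial.C (s k (fun _ => 1) * (ρ : ℂ) ^ k) * Polynomial.X ^ k, ?_⟩
  intro z hz
  have hz' : ‖z‖ ≤ 1 := by simpa using hz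
  have hz2 : (ρ : ℂ) * z ∈ ball (0 : ℂ) (r' : ℝ) := by
    rw [hr']
    simp only [mem_ball, dist_zero_right, norm_mul, Complex.norm_real, Real.norm_eq_abs,
      abs_of_pos hρ0]
    nlinarith [norm_nonneg z]
  have h2 := hn ((ρ : ℂ) * z) hz2
  have h3 : Polynomial.eval z (∑ k ∈ Finset.range n,
      Polynomial.C (s k (fun _ => 1) * (ρ : ℂ) ^ k) * Polynomial.X ^ k)
      = s.partialSum n ((ρ : ℂ) * z - 0) := by
    rw [Polynomial.eval_finsetSum, FormalMultilinearSeries.partialSum]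
    apply Finset.sum_congr rfl
    intro k _
    have : (fun _ : Fin k => (ρ : ℂ) * z - 0) = fun _ : Fin k => ((ρ : ℂ) * z) • (1 : ℂ) := by
      ext; simp
    rw [this, ContinuousMultilinearMap.map_smul_univ]
    simp [mul_pow]
    ring
  rw [h3]
  calc ‖g z - s.partialSum n ((ρ : ℂ) * z - 0)‖
      ≤ ‖g z - g (ρ * z)‖ + ‖g (ρ * z) - s.partialSum n ((ρ : ℂ) * z - 0)‖ := by
        have : g z - s.partialSum n ((ρ : ℂ) * z - 0)
          = (g z - g (ρ * z)) + (g (ρ * z) - s.partialSum n ((ρ : ℂ) * z - 0)) := by ring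
        rw [this]
        exact norm_add_le _ _
    _ ≤ ε / 2 + ε / 2 := by
        apply add_le_add (h1 z hz)
        rw [dist_eq_norm] at h2
        exact h2.le
    _ = ε := by ring

/-! ### Factorisation of polynomials -/

/-- `P = k h` on the closed disc with `|k| = |h|` on the circle. -/
def Fact (P : ℂ → ℂ) : Prop := ∃ k h : ℂ → ℂ, DiffContOnCl ℂ k (ball 0 1) ∧
  DiffContOnCl ℂ h (ball 0 1) ∧ (∀ z ∈ closedBall (0 : ℂ) 1, P z = k z * h z) ∧
  ∀ z : ℂ, ‖z‖ = 1 → ‖k z‖ = ‖h z‖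

theorem Fact.mul {P Q : ℂ → ℂ} (hP : Fact P) (hQ : Fact Q) : Fact (fun z => P z * Q z) := by
  obtain ⟨k, h, hk, hh, e, en⟩ := hP
  obtain ⟨k', h', hk', hh', e', en'⟩ := hQ
  refine ⟨fun z => k z * k' z, fun z => h z * h' z, ?_, ?_, ?_, ?_⟩
  · exact hk.smul hk'
  · exact hh.smul hh'
  · intro z hz
    show P z * Q z = (k z * k' z) * (h z * h' z)
    rw [e z hz, e' z hz]; ring
  · intro z hz
    rw [norm_mul, norm_mul, en z hz, en' z hz]

theorem Fact.const (c : ℂ) : Fact (fun _ => c) := by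
  refine ⟨fun _ => c ^ (2⁻¹ : ℂ), fun _ => c ^ (2⁻¹ : ℂ), diffContOnCl_const, diffContOnCl_const,
    ?_, fun _ _ => rfl⟩
  intro z _
  have := Complex.cpow_nat_inv_pow c (n := 2) two_ne_zero
  simp only [Nat.cast_ofNat] at this
  rw [← sq]
  exact this.symm

/-- square root of `1 - w` -/
theorem sqrt_one_sub (w : ℂ) : (1 - w) ^ (2⁻¹ : ℂ) * (1 - w) ^ (2⁻¹ : ℂ) = 1 - w := by
  have := Complex.cpow_nat_inv_pow (1 - w) (n := 2) two_ne_zero
  simp only [Nat.cast_ofNat] at this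
  rw [← sq]
  exact this

theorem diffContOnCl_sqrt (b : ℂ) (hb : ‖b‖ ≤ 1) :
    DiffContOnCl ℂ (fun z => (1 - b * z) ^ (2⁻¹ : ℂ)) (ball 0 1) := by
  constructor
  · intro z hz
    have hz' : ‖z‖ < 1 := by simpa using hz
    have h1 : ‖b * z‖ < 1 := by
      rw [norm_mul]
      nlinarith [norm_nonneg z, norm_nonneg b]
    apply DifferentiableAt.differentiableWithinAt
    apply DifferentiableAt.cpow (by fun_prop) (by fun_prop)
    left
    have := Complex.abs_re_le_norm (b * z)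
    rw [Complex.sub_re, Complex.one_re]
    have := abs_le.1 this
    linarith
  · rw [closure_ball_one]
    intro z hz
    have hz' : ‖z‖ ≤ 1 := by simpa using hz
    have h1 : ‖b * z‖ ≤ 1 := by
      rw [norm_mul]
      nlinarith [norm_nonneg z, norm_nonneg b]
    apply ContinuousAt.continuousWithinAt
    have h2 : ContinuousAt (fun x : ℂ => x ^ (2⁻¹ : ℂ)) (1 - b * z) := by
      apply Complex.continuousAt_cpow_const_of_re_pos
      · left
        have := abs_le.1 (Complex.abs_re_le_norm (b * z))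
        rw [Complex.sub_re, Complex.one_re]
        linarith
      · norm_num
    exact ContinuousAt.comp (f := fun z => 1 - b * z) h2 (by fun_prop)

theorem Fact.linear (a : ℂ) : Fact (fun z => z - a) := by
  by_cases ha : ‖a‖ < 1
  · -- Blaschke factor
    set b : ℂ := starRingEnd ℂ a with hb
    have hbn : ‖b‖ = ‖a‖ := by simp [hb]
    have hne : ∀ z ∈ closedBall (0 : ℂ) 1, 1 - b * z ≠ 0 := by
      intro z hz h0
      have hz' : ‖z‖ ≤ 1 := by simpa using hz
      have : ‖b * z‖ = 1 := by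
        rw [← sub_eq_zero.1 h0]; simp
      rw [norm_mul, hbn] at this
      nlinarith [norm_nonneg z, norm_nonneg a]
    have hs := diffContOnCl_sqrt b (by rw [hbn]; exact ha.le)
    have hB : DiffContOnCl ℂ (fun z => (z - a) * (1 - b * z)⁻¹) (ball 0 1) := by
      apply DifferentiableOn.diffContOnCl
      rw [closure_ball_one]
      intro z hz
      apply DifferentiableAt.differentiableWithinAt
      exact (by fun_prop : DifferentiableAt ℂ (fun z => z - a) z).mul
        ((by fun_prop : DifferentiableAt ℂ (fun z => 1 - b * z) z).inv (hne z hz))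
    refine ⟨fun z => ((z - a) * (1 - b * z)⁻¹) * (1 - b * z) ^ (2⁻¹ : ℂ),
      fun z => (1 - b * z) ^ (2⁻¹ : ℂ), hB.smul hs, hs, ?_, ?_⟩
    · intro z hz
      rw [mul_assoc, sqrt_one_sub, mul_assoc, inv_mul_cancel₀ (hne z hz), mul_one]
    · intro z hz
      have hz2 : z ∈ closedBall (0 : ℂ) 1 := by simp [hz]
      have h1 : ‖z - a‖ = ‖1 - b * z‖ := by
        have h2 : 1 - b * z = z * starRingEnd ℂ (z - a) := by
          rw [map_sub, mul_sub, Complex.mul_conj, Complex.normSq_eq_norm_sq, hz, ← hb]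
          push_cast; ring
        rw [h2, norm_mul, hz, one_mul, Complex.norm_conj]
      rw [norm_mul, norm_mul, norm_inv, h1, mul_inv_cancel₀, one_mul]
      exact norm_ne_zero_iff.2 (hne z hz2)
  · have ha1 : 1 ≤ ‖a‖ := not_lt.1 ha
    have ha0 : a ≠ 0 := by
      rintro rfl
      simp at ha
    have hs := diffContOnCl_sqrt a⁻¹ (by
      rw [norm_inv]
      exact inv_le_one_of_one_le₀ ha1)
    have h1 : Fact (fun z => 1 - a⁻¹ * z) := by
      refine ⟨_, _, hs, hs, ?_, fun _ _ => rfl⟩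
      intro z _
      rw [sqrt_one_sub]
    have h2 := (Fact.const (-a)).mul h1
    have h3 : (fun z : ℂ => -a * (1 - a⁻¹ * z)) = fun z => z - a := by
      ext z
      field_simp
      ring
    rwa [h3] at h2

theorem Fact.poly (P : ℂ[X]) : Fact (fun z => P.eval z) := by
  have h := IsAlgClosed.splits P
  rw [h.eq_prod_roots]
  have : ∀ s : Multiset ℂ, Fact (fun z => (Multiset.map (fun a => Polynomial.X - Polynomial.C a) s).prod.eval z) := by
    intro s
    induction s using Multiset.induction with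
    | empty => simpa using Fact.const 1
    | cons a s ih =>
      have := (Fact.linear a).mul ih
      simpa [Polynomial.eval_mul] using this
  have h2 := (Fact.const P.leadingCoeff).mul (this P.roots)
  simpa [Polynomial.eval_mul] using h2


/-! ### Integrals over `[0, 2π]` -/

theorem integrable_cont {E : Type*} [NormedAddCommGroup E] {u : ℝ → E} (hu : Continuous u) :
    Integrable u mu := hu.integrableOn_Icc

theorem tendsto_int_of_bdd {u : ℕ → ℝ → ℝ} {v : ℝ → ℝ} (hu : ∀ n, Continuous (u n)) (M : ℝ)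
    (hM : ∀ n t, |u n t| ≤ M) (hl : ∀ t, Tendsto (fun n => u n t) atTop (𝓝 (v t))) :
    Tendsto (fun n => ∫ t, u n t ∂mu) atTop (𝓝 (∫ t, v t ∂mu)) := by
  apply tendsto_integral_of_dominated_convergence (fun _ => M)
  · exact fun n => (hu n).aestronglyMeasurable
  · exact integrable_const _
  · exact fun n => Eventually.of_forall fun t => hM n t
  · exact Eventually.of_forall hl

theorem cauchy_schwarz_cont {a b : ℝ → ℝ} (ha : Continuous a) (hb : Continuous b) :
    (∫ t, a t * b t ∂mu) ^ 2 ≤ (∫ t, a t ^ 2 ∂mu) * ∫ t, b t ^ 2 ∂mu := by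
  have h : ∀ x : ℝ, 0 ≤ (∫ t, a t ^ 2 ∂mu) * (x * x) + (2 * ∫ t, a t * b t ∂mu) * x +
      ∫ t, b t ^ 2 ∂mu := by
    intro x
    have h1 : ∫ t, (a t * x + b t) ^ 2 ∂mu = (∫ t, a t ^ 2 ∂mu) * (x * x) +
        (2 * ∫ t, a t * b t ∂mu) * x + ∫ t, b t ^ 2 ∂mu := by
      have e : ∀ t, (a t * x + b t) ^ 2 = (x * x) * a t ^ 2 + ((2 * x) * (a t * b t) + b t ^ 2) := by
        intro t; ring
      simp_rw [e]
      rw [integral_add, integral_add, integral_const_mul, integral_const_mul]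
      · ring
      all_goals exact integrable_cont (by fun_prop)
    rw [← h1]
    exact integral_nonneg fun t => sq_nonneg _
  have := discrim_le_zero h
  unfold discrim at this
  nlinarith

/-! ### functions continuous on the closed disc -/

theorem mem_cb {r : ℝ} (hr : 0 ≤ r) (hr1 : r ≤ 1) (t : ℝ) :
    circleMap 0 r t ∈ closedBall (0 : ℂ) 1 := by
  simp [abs_of_nonneg hr, hr1]

theorem cont_comp {g : ℂ → ℂ} (hg : DiffContOnCl ℂ g (ball 0 1)) {r : ℝ} (hr : 0 ≤ r)
    (hr1 : r ≤ 1) : Continuous fun t => g (circleMap 0 r t) := by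
  have hc : ContinuousOn g (closedBall 0 1) := by
    rw [← closure_ball_one]; exact hg.continuousOn
  exact hc.comp_continuous (continuous_circleMap 0 r) (mem_cb hr hr1)

theorem exists_bound {g : ℂ → ℂ} (hg : DiffContOnCl ℂ g (ball 0 1)) :
    ∃ M : ℝ, 0 ≤ M ∧ ∀ z ∈ closedBall (0 : ℂ) 1, ‖g z‖ ≤ M := by
  have hc : ContinuousOn g (closedBall 0 1) := by
    rw [← closure_ball_one]; exact hg.continuousOn
  obtain ⟨M, hM⟩ := (isCompact_closedBall (0 : ℂ) 1).exists_bound_of_continuousOn hc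
  exact ⟨M, (norm_nonneg _).trans (hM 0 (by simp)), hM⟩

/-- a sequence of polynomials converging uniformly -/
theorem exists_polys {g : ℂ → ℂ} (hg : DiffContOnCl ℂ g (ball 0 1)) :
    ∃ (p : ℕ → ℂ[X]) (M : ℝ), 0 ≤ M ∧ (∀ n, ∀ z ∈ closedBall (0 : ℂ) 1, ‖(p n).eval z‖ ≤ M) ∧
      ∀ z ∈ closedBall (0 : ℂ) 1, Tendsto (fun n => (p n).eval z) atTop (𝓝 (g z)) := by
  obtain ⟨M, hM0, hM⟩ := exists_bound hg
  choose p hp using fun n : ℕ => approx g hg (1 / ((n : ℝ) + 1)) (by positivity)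
  refine ⟨p, M + 1, by positivity, ?_, ?_⟩
  · intro n z hz
    have h1 := hp n z hz
    have h2 := hM z hz
    have h3 : 1 / ((n : ℝ) + 1) ≤ 1 := by
      rw [div_le_one (by positivity)]
      have : (0 : ℝ) ≤ n := n.cast_nonneg
      linarith
    calc ‖(p n).eval z‖ = ‖g z - (g z - (p n).eval z)‖ := by ring_nf
      _ ≤ ‖g z‖ + ‖g z - (p n).eval z‖ := norm_sub_le _ _
      _ ≤ M + 1 := by linarith
  · intro z hz
    rw [tendsto_iff_norm_sub_tendsto_zero]
    refine squeeze_zero (fun _ => norm_nonneg _) (fun n => ?_) tendsto_one_div_add_atTop_nhds_zero_nat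
    rw [norm_sub_rev]
    exact hp n z hz

theorem dcc_l2 {g : ℂ → ℂ} (hg : DiffContOnCl ℂ g (ball 0 1)) (r : ℝ) (hr : 0 ≤ r) (hr1 : r ≤ 1) :
    ∫ t, ‖g (circleMap 0 1 t) - g (circleMap 0 r t)‖ ^ 2 ∂mu ≤
      ∫ t, ‖g (circleMap 0 1 t)‖ ^ 2 ∂mu - ∫ t, ‖g (circleMap 0 r t)‖ ^ 2 ∂mu := by
  obtain ⟨p, M, hM0, hM, hl⟩ := exists_polys hg
  have m1 := fun t => mem_cb (zero_le_one) le_rfl t
  have mr := fun t => mem_cb hr hr1 t
  have c1 : ∀ n, Continuous fun t => (p n).eval (circleMap 0 1 t) :=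
    fun n => (p n).continuous.comp (continuous_circleMap 0 1)
  have cr : ∀ n, Continuous fun t => (p n).eval (circleMap 0 r t) :=
    fun n => (p n).continuous.comp (continuous_circleMap 0 r)
  have L1 : Tendsto (fun n => ∫ t, ‖(p n).eval (circleMap 0 1 t) - (p n).eval (circleMap 0 r t)‖ ^ 2 ∂mu)
      atTop (𝓝 (∫ t, ‖g (circleMap 0 1 t) - g (circleMap 0 r t)‖ ^ 2 ∂mu)) := by
    apply tendsto_int_of_bdd (fun n => (((c1 n).sub (cr n)).norm.pow 2)) ((M + M) ^ 2)
    · intro n t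
      have := (norm_sub_le _ _).trans (add_le_add (hM n _ (m1 t)) (hM n _ (mr t)))
      show |‖(p n).eval (circleMap 0 1 t) - (p n).eval (circleMap 0 r t)‖ ^ 2| ≤ _
      rw [abs_of_nonneg (sq_nonneg _)]
      exact pow_le_pow_left₀ (norm_nonneg _) this 2
    · intro t
      exact ((hl _ (m1 t)).sub (hl _ (mr t))).norm.pow 2
  have L2 : Tendsto (fun n => ∫ t, ‖(p n).eval (circleMap 0 1 t)‖ ^ 2 ∂mu)
      atTop (𝓝 (∫ t, ‖g (circleMap 0 1 t)‖ ^ 2 ∂mu)) := by
    apply tendsto_int_of_bdd (fun n => ((c1 n).norm.pow 2)) (M ^ 2)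
    · intro n t
      have := hM n _ (m1 t)
      show |‖(p n).eval (circleMap 0 1 t)‖ ^ 2| ≤ _
      rw [abs_of_nonneg (sq_nonneg _)]
      exact pow_le_pow_left₀ (norm_nonneg _) this 2
    · intro t
      exact (hl _ (m1 t)).norm.pow 2
  have L3 : Tendsto (fun n => ∫ t, ‖(p n).eval (circleMap 0 r t)‖ ^ 2 ∂mu)
      atTop (𝓝 (∫ t, ‖g (circleMap 0 r t)‖ ^ 2 ∂mu)) := by
    apply tendsto_int_of_bdd (fun n => ((cr n).norm.pow 2)) (M ^ 2)
    · intro n t
      have := hM n _ (mr t)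
      show |‖(p n).eval (circleMap 0 r t)‖ ^ 2| ≤ _
      rw [abs_of_nonneg (sq_nonneg _)]
      exact pow_le_pow_left₀ (norm_nonneg _) this 2
    · intro t
      exact (hl _ (mr t)).norm.pow 2
  exact le_of_tendsto_of_tendsto' L1 (L2.sub L3) fun n => poly_l2 (p n) r hr hr1

/-- The main inequality, for polynomials. -/
theorem main_poly (P : ℂ[X]) (r : ℝ) (hr : 0 ≤ r) (hr1 : r ≤ 1) :
    (∫ t, ‖P.eval (circleMap 0 1 t) - P.eval (circleMap 0 r t)‖ ∂mu) ^ 2 ≤
      4 * (∫ t, ‖P.eval (circleMap 0 1 t)‖ ∂mu) *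
        (∫ t, ‖P.eval (circleMap 0 1 t)‖ ∂mu - ∫ t, ‖P.eval (circleMap 0 r t)‖ ∂mu) ∧
    ∫ t, ‖P.eval (circleMap 0 r t)‖ ∂mu ≤ ∫ t, ‖P.eval (circleMap 0 1 t)‖ ∂mu := by
  obtain ⟨k, h, hk, hh, e, en⟩ := Fact.poly P
  replace e : ∀ z ∈ closedBall (0 : ℂ) 1, P.eval z = k z * h z := e
  have m1 := fun t => mem_cb (zero_le_one) le_rfl t
  have mr := fun t => mem_cb hr hr1 t
  have k1 := cont_comp hk zero_le_one le_rfl
  have kr := cont_comp hk hr hr1
  have h1 := cont_comp hh zero_le_one le_rfl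
  have hr' := cont_comp hh hr hr1
  set N := ∫ t, ‖P.eval (circleMap 0 1 t)‖ ∂mu with hN
  set n := ∫ t, ‖P.eval (circleMap 0 r t)‖ ∂mu with hn
  set K := ∫ t, ‖k (circleMap 0 r t)‖ ^ 2 ∂mu with hK
  set H := ∫ t, ‖h (circleMap 0 r t)‖ ^ 2 ∂mu with hH
  have hn1 : ∀ t, ‖circleMap 0 1 t‖ = 1 := fun t => by simp
  have K1 : ∫ t, ‖k (circleMap 0 1 t)‖ ^ 2 ∂mu = N := by
    rw [hN]
    congr 1
    ext t
    rw [e _ (m1 t), norm_mul, en _ (hn1 t)]
    ring
  have H1 : ∫ t, ‖h (circleMap 0 1 t)‖ ^ 2 ∂mu = N := by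
    rw [← K1]
    congr 1
    ext t
    rw [en _ (hn1 t)]
  have kl := dcc_l2 hk r hr hr1
  have hl := dcc_l2 hh r hr hr1
  rw [K1] at kl
  rw [H1] at hl
  rw [← hK] at kl
  rw [← hH] at hl
  have hN0 : 0 ≤ N := integral_nonneg fun t => norm_nonneg _
  have hn0 : 0 ≤ n := integral_nonneg fun t => norm_nonneg _
  have hK0 : 0 ≤ K := integral_nonneg fun t => by positivity
  have hH0 : 0 ≤ H := integral_nonneg fun t => by positivity
  have a0 : 0 ≤ ∫ t, ‖k (circleMap 0 1 t) - k (circleMap 0 r t)‖ ^ 2 ∂mu :=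
    integral_nonneg fun t => by positivity
  have b0 : 0 ≤ ∫ t, ‖h (circleMap 0 1 t) - h (circleMap 0 r t)‖ ^ 2 ∂mu :=
    integral_nonneg fun t => by positivity
  have hKN : K ≤ N := by linarith
  have hHN : H ≤ N := by linarith
  -- n^2 ≤ K H
  have hnKH : n ^ 2 ≤ K * H := by
    have := cauchy_schwarz_cont kr.norm hr'.norm
    have e2 : ∫ t, ‖k (circleMap 0 r t)‖ * ‖h (circleMap 0 r t)‖ ∂mu = n := by
      rw [hn]
      congr 1
      ext t
      rw [e _ (mr t), norm_mul]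
    rw [e2] at this
    exact this
  have hnN : n ≤ N := by
    have : n ^ 2 ≤ N ^ 2 := by nlinarith
    exact le_of_sq_le_sq this hN0
  refine ⟨?_, hnN⟩
  have h2n : 2 * n ≤ K + H := by
    apply le_of_sq_le_sq _ (by positivity)
    nlinarith [sq_nonneg (K - H)]
  -- the two pieces
  set X1 := ∫ t, ‖k (circleMap 0 1 t) - k (circleMap 0 r t)‖ * ‖h (circleMap 0 1 t)‖ ∂mu with hX1
  set X2 := ∫ t, ‖k (circleMap 0 r t)‖ * ‖h (circleMap 0 1 t) - h (circleMap 0 r t)‖ ∂mu with hX2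
  have hX10 : 0 ≤ X1 := integral_nonneg fun t => by positivity
  have hX20 : 0 ≤ X2 := integral_nonneg fun t => by positivity
  have s1 : X1 ^ 2 ≤ (N - K) * N := by
    have := cauchy_schwarz_cont (k1.sub kr).norm h1.norm
    rw [H1] at this
    exact this.trans (mul_le_mul_of_nonneg_right kl hN0)
  have s2 : X2 ^ 2 ≤ N * (N - H) := by
    have := cauchy_schwarz_cont kr.norm (h1.sub hr').norm
    refine this.trans ?_
    calc K * ∫ t, ‖h (circleMap 0 1 t) - h (circleMap 0 r t)‖ ^ 2 ∂mu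
        ≤ N * ∫ t, ‖h (circleMap 0 1 t) - h (circleMap 0 r t)‖ ^ 2 ∂mu :=
          mul_le_mul_of_nonneg_right hKN b0
      _ ≤ N * (N - H) := mul_le_mul_of_nonneg_left hl hN0
  have hX : ∫ t, ‖P.eval (circleMap 0 1 t) - P.eval (circleMap 0 r t)‖ ∂mu ≤ X1 + X2 := by
    rw [hX1, hX2, ← integral_add]
    · apply integral_mono
      · exact integrable_cont ((P.continuous.comp (continuous_circleMap 0 1)).sub
          (P.continuous.comp (continuous_circleMap 0 r))).norm
      · exact integrable_cont (((k1.sub kr).norm.mul h1.norm).add (kr.norm.mul (h1.sub hr').norm))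
      · intro t
        simp only
        rw [e _ (m1 t), e _ (mr t), ← norm_mul, ← norm_mul]
        have : k (circleMap 0 1 t) * h (circleMap 0 1 t) - k (circleMap 0 r t) * h (circleMap 0 r t)
          = (k (circleMap 0 1 t) - k (circleMap 0 r t)) * h (circleMap 0 1 t) +
            k (circleMap 0 r t) * (h (circleMap 0 1 t) - h (circleMap 0 r t)) := by ring
        rw [this]
        exact norm_add_le _ _
    · exact integrable_cont ((k1.sub kr).norm.mul h1.norm)
    · exact integrable_cont (kr.norm.mul (h1.sub hr').norm)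
  have hX0 : 0 ≤ ∫ t, ‖P.eval (circleMap 0 1 t) - P.eval (circleMap 0 r t)‖ ∂mu :=
    integral_nonneg fun t => norm_nonneg _
  calc (∫ t, ‖P.eval (circleMap 0 1 t) - P.eval (circleMap 0 r t)‖ ∂mu) ^ 2
      ≤ (X1 + X2) ^ 2 := by gcongr
    _ ≤ 2 * (X1 ^ 2 + X2 ^ 2) := by nlinarith [sq_nonneg (X1 - X2)]
    _ ≤ 2 * ((N - K) * N + N * (N - H)) := by gcongr
    _ = 2 * N * (2 * N - (K + H)) := by ring
    _ ≤ 2 * N * (2 * N - 2 * n) := by gcongr
    _ = 4 * N * (N - n) := by ring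

/-- The main inequality, for functions continuous on the closed disc. -/
theorem main_dcc {g : ℂ → ℂ} (hg : DiffContOnCl ℂ g (ball 0 1)) (r : ℝ) (hr : 0 ≤ r)
    (hr1 : r ≤ 1) :
    (∫ t, ‖g (circleMap 0 1 t) - g (circleMap 0 r t)‖ ∂mu) ^ 2 ≤
      4 * (∫ t, ‖g (circleMap 0 1 t)‖ ∂mu) *
        (∫ t, ‖g (circleMap 0 1 t)‖ ∂mu - ∫ t, ‖g (circleMap 0 r t)‖ ∂mu) ∧
    ∫ t, ‖g (circleMap 0 r t)‖ ∂mu ≤ ∫ t, ‖g (circleMap 0 1 t)‖ ∂mu := by
  obtain ⟨p, M, hM0, hM, hl⟩ := exists_polys hg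
  have m1 := fun t => mem_cb (zero_le_one) le_rfl t
  have mr := fun t => mem_cb hr hr1 t
  have c1 : ∀ n, Continuous fun t => (p n).eval (circleMap 0 1 t) :=
    fun n => (p n).continuous.comp (continuous_circleMap 0 1)
  have cr : ∀ n, Continuous fun t => (p n).eval (circleMap 0 r t) :=
    fun n => (p n).continuous.comp (continuous_circleMap 0 r)
  have L1 : Tendsto (fun n => ∫ t, ‖(p n).eval (circleMap 0 1 t) - (p n).eval (circleMap 0 r t)‖ ∂mu)
      atTop (𝓝 (∫ t, ‖g (circleMap 0 1 t) - g (circleMap 0 r t)‖ ∂mu)) := by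
    apply tendsto_int_of_bdd (fun n => (((c1 n).sub (cr n)).norm)) (M + M)
    · intro n t
      rw [abs_of_nonneg (by positivity)]
      exact (norm_sub_le _ _).trans (add_le_add (hM n _ (m1 t)) (hM n _ (mr t)))
    · intro t
      exact ((hl _ (m1 t)).sub (hl _ (mr t))).norm
  have L2 : Tendsto (fun n => ∫ t, ‖(p n).eval (circleMap 0 1 t)‖ ∂mu)
      atTop (𝓝 (∫ t, ‖g (circleMap 0 1 t)‖ ∂mu)) := by
    apply tendsto_int_of_bdd (fun n => ((c1 n).norm)) M
    · intro n t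
      rw [abs_of_nonneg (by positivity)]
      exact hM n _ (m1 t)
    · intro t
      exact (hl _ (m1 t)).norm
  have L3 : Tendsto (fun n => ∫ t, ‖(p n).eval (circleMap 0 r t)‖ ∂mu)
      atTop (𝓝 (∫ t, ‖g (circleMap 0 r t)‖ ∂mu)) := by
    apply tendsto_int_of_bdd (fun n => ((cr n).norm)) M
    · intro n t
      rw [abs_of_nonneg (by positivity)]
      exact hM n _ (mr t)
    · intro t
      exact (hl _ (mr t)).norm
  constructor
  · exact le_of_tendsto_of_tendsto' (L1.pow 2) ((L2.const_mul 4).mul (L2.sub L3))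
      fun n => (main_poly (p n) r hr hr1).1
  · exact le_of_tendsto_of_tendsto' L3 L2 fun n => (main_poly (p n) r hr hr1).2

theorem dcc_dilate {f : ℂ → ℂ} (hf : DifferentiableOn ℂ f (ball 0 1)) {s : ℝ} (hs : 0 ≤ s)
    (hs1 : s < 1) : DiffContOnCl ℂ (fun z => f (s * z)) (ball 0 1) := by
  apply DifferentiableOn.diffContOnCl
  rw [closure_ball_one]
  have hm : MapsTo (fun z : ℂ => (s : ℂ) * z) (closedBall 0 1) (ball 0 1) := by
    intro z hz
    have hz' : ‖z‖ ≤ 1 := by simpa using hz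
    simp only [mem_ball, dist_zero_right, norm_mul, Complex.norm_real, Real.norm_eq_abs,
      abs_of_nonneg hs]
    nlinarith [norm_nonneg z]
  exact hf.comp (by fun_prop) hm

/-- The main inequality on discs of radius `r ≤ s < 1`. -/
theorem main_ineq {f : ℂ → ℂ} (hf : DifferentiableOn ℂ f (ball 0 1)) {r s : ℝ} (hr : 0 ≤ r)
    (hrs : r ≤ s) (hs1 : s < 1) :
    (∫ t, ‖f (circleMap 0 s t) - f (circleMap 0 r t)‖ ∂mu) ^ 2 ≤
      4 * (∫ t, ‖f (circleMap 0 s t)‖ ∂mu) *
        (∫ t, ‖f (circleMap 0 s t)‖ ∂mu - ∫ t, ‖f (circleMap 0 r t)‖ ∂mu) ∧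
    ∫ t, ‖f (circleMap 0 r t)‖ ∂mu ≤ ∫ t, ‖f (circleMap 0 s t)‖ ∂mu := by
  rcases eq_or_lt_of_le (hr.trans hrs) with h0 | h0
  · have hr0 : r = 0 := le_antisymm (hrs.trans h0.symm.le) hr
    subst hr0
    rw [← h0]
    simp
  have := main_dcc (dcc_dilate hf h0.le hs1) (r / s) (by positivity) ((div_le_one h0).2 hrs)
  have e1 : ∀ t, (s : ℂ) * circleMap 0 1 t = circleMap 0 s t := fun t =>
    (circleMap_zero_mul_one s t).symm
  have e2 : ∀ t, (s : ℂ) * circleMap 0 (r / s) t = circleMap 0 r t := by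
    intro t
    rw [circleMap_zero_mul_one (r / s) t, circleMap_zero_mul_one r t]
    have : (s : ℂ) ≠ 0 := by exact_mod_cast h0.ne'
    push_cast
    field_simp
  simpa only [e1, e2] using this

/-! ### Existence of the boundary function -/

theorem cont_circle {f : ℂ → ℂ} (hf : DifferentiableOn ℂ f (ball 0 1)) {r : ℝ} (hr : 0 ≤ r)
    (hr1 : r < 1) : Continuous fun t => f (circleMap 0 r t) := by
  apply hf.continuousOn.comp_continuous (continuous_circleMap 0 r)
  intro t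
  simp [abs_of_nonneg hr, hr1]

theorem exists_bdry (f : ℂ → ℂ) (hf : DifferentiableOn ℂ f (ball 0 1)) (C : ℝ≥0∞) (hC : C < ∞)
    (hb : ∀ r ∈ Ioo (0 : ℝ) 1, ∫⁻ t, ‖f (circleMap 0 r t)‖ₑ ∂mu ≤ C) :
    ∃ F : ℝ → ℂ, IsBdry f F := by
  have hint : ∀ r, r ∈ Ioo (0 : ℝ) 1 → Integrable (fun t => f (circleMap 0 r t)) mu :=
    fun r hr => integrable_cont (cont_circle hf hr.1.le hr.2)
  set N : ℝ → ℝ := fun r => ∫ t, ‖f (circleMap 0 r t)‖ ∂mu with hN
  have hNC : ∀ r, r ∈ Ioo (0 : ℝ) 1 → N r ≤ C.toReal := by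
    intro r hr
    simp only [hN]
    rw [integral_norm_eq_lintegral_enorm (hint r hr).aestronglyMeasurable]
    exact ENNReal.toReal_mono hC.ne (hb r hr)
  have hmain : ∀ r s, r ∈ Ioo (0 : ℝ) 1 → s ∈ Ioo (0 : ℝ) 1 → r ≤ s →
      (∫ t, ‖f (circleMap 0 s t) - f (circleMap 0 r t)‖ ∂mu) ^ 2 ≤ 4 * N s * (N s - N r) ∧
        N r ≤ N s := fun r s hr hs hrs => main_ineq hf hr.1.le hrs hs.2
  classical
  set Φ : ℝ → (ℝ →₁[mu] ℂ) := fun r =>
    if h : r ∈ Ioo (0 : ℝ) 1 then (hint r h).toL1 _ else 0 with hΦ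
  have hΦe : ∀ r, (h : r ∈ Ioo (0 : ℝ) 1) → Φ r = (hint r h).toL1 _ := fun r h => by
    simp only [hΦ]
    rw [dif_pos h]
  have hdist : ∀ r s, r ∈ Ioo (0 : ℝ) 1 → s ∈ Ioo (0 : ℝ) 1 →
      dist (Φ s) (Φ r) = ∫ t, ‖f (circleMap 0 s t) - f (circleMap 0 r t)‖ ∂mu := by
    intro r s hr hs
    rw [hΦe r hr, hΦe s hs, dist_eq_norm, ← Integrable.toL1_sub,
      Integrable.norm_toL1_eq_lintegral_enorm,
      ← integral_norm_eq_lintegral_enorm ((hint s hs).sub (hint r hr)).aestronglyMeasurable]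
    rfl
  -- the supremum
  set L := sSup (N '' Ioo (0 : ℝ) 1) with hL
  have hbdd : BddAbove (N '' Ioo (0 : ℝ) 1) := ⟨C.toReal, by
    rintro _ ⟨r, hr, rfl⟩
    exact hNC r hr⟩
  have hne : (N '' Ioo (0 : ℝ) 1).Nonempty := ⟨_, ⟨1 / 2, by norm_num, rfl⟩⟩
  have hNL : ∀ r, r ∈ Ioo (0 : ℝ) 1 → N r ≤ L := fun r hr => le_csSup hbdd ⟨r, hr, rfl⟩
  have hN0 : ∀ r, 0 ≤ N r := fun r => integral_nonneg fun t => norm_nonneg _
  have hL0 : 0 ≤ L := (hN0 (1 / 2)).trans (hNL (1 / 2) (by norm_num))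
  have hcauchy : Cauchy (map Φ (𝓝[<] (1 : ℝ))) := by
    rw [Metric.cauchy_iff]
    refine ⟨inferInstance, fun ε hε => ?_⟩
    have hη : 0 < ε ^ 2 / (8 * (L + 1)) := by positivity
    obtain ⟨_, ⟨r0, hr0, rfl⟩, hr0L⟩ := exists_lt_of_lt_csSup hne
      (by linarith : L - ε ^ 2 / (8 * (L + 1)) < sSup (N '' Ioo (0 : ℝ) 1))
    have key : ∀ r s, r ∈ Ioo r0 1 → s ∈ Ioo r0 1 → r ≤ s → dist (Φ s) (Φ r) < ε := by
      intro r s hr hs hrs
      have hr' : r ∈ Ioo (0 : ℝ) 1 := ⟨hr0.1.trans hr.1, hr.2⟩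
      have hs' : s ∈ Ioo (0 : ℝ) 1 := ⟨hr0.1.trans hs.1, hs.2⟩
      rw [hdist r s hr' hs']
      apply lt_of_pow_lt_pow_left₀ 2 hε.le
      have h1 := (hmain r s hr' hs' hrs).1
      have h2 := (hmain r0 r hr0 hr' hr.1.le).2
      have h3 := hNL s hs'
      have h4 : N s - N r ≤ ε ^ 2 / (8 * (L + 1)) := by linarith
      have h5 : 0 ≤ N s - N r := by linarith [(hmain r s hr' hs' hrs).2]
      calc _ ≤ 4 * N s * (N s - N r) := h1
        _ ≤ 4 * (L + 1) * (ε ^ 2 / (8 * (L + 1))) := by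
            apply mul_le_mul _ h4 h5 (by positivity)
            linarith
        _ = ε ^ 2 / 2 := by field_simp; norm_num
        _ < ε ^ 2 := by
            have : 0 < ε ^ 2 := by positivity
            linarith
    refine ⟨Φ '' Ioo r0 1, ?_, ?_⟩
    · exact image_mem_map (Ioo_mem_nhdsLT hr0.2)
    · rintro _ ⟨r, hr, rfl⟩ _ ⟨s, hs, rfl⟩
      rcases le_total r s with h | h
      · rw [dist_comm]
        exact key r s hr hs h
      · exact key s r hs hr h
  obtain ⟨G, hG⟩ := cauchy_iff_exists_le_nhds.1 hcauchy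
  refine ⟨G, L1.integrable_coeFn G, ?_⟩
  have hG' : Tendsto (fun r => edist (Φ r) G) (𝓝[<] 1) (𝓝 0) := by
    rw [← tendsto_iff_edist_tendsto_0]
    exact hG
  refine hG'.congr' ?_
  filter_upwards [Ioo_mem_nhdsLT (show (0 : ℝ) < 1 from one_pos)] with r hr
  rw [hΦe r hr, L1.edist_def]
  apply lintegral_congr_ae
  filter_upwards [(hint r hr).coeFn_toL1] with t ht
  rw [ht, edist_eq_enorm_sub]

/-! ### Uniqueness -/

theorem ae_ne_zero {f : ℂ → ℂ} (hf : AnalyticOnNhd ℂ f (ball 0 1)) {z₀ : ℂ}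
    (hz₀ : z₀ ∈ ball (0 : ℂ) 1) (h0 : f z₀ ≠ 0) {r : ℝ} (hr : 0 < r) (hr1 : r < 1) :
    ∀ᵐ t ∂mu, f (circleMap 0 r t) ≠ 0 := by
  have hconn : IsConnected (ball (0 : ℂ) 1) :=
    (convex_ball _ _).isConnected ⟨0, by simp⟩
  have h1 := hf.preimage_zero_mem_codiscreteWithin h0 hz₀ hconn
  have hsub : sphere (0 : ℂ) |r| ⊆ ball 0 1 := by
    intro z hz
    rw [mem_sphere_zero_iff_norm, abs_of_pos hr] at hz
    simp [hz, hr1]
  have h2 := codiscreteWithin_mono hsub h1
  have h3 := circleMap_preimage_codiscrete (c := 0) hr.ne' h2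
  have h4 := ae_restrict_le_codiscreteWithin (μ := (volume : Measure ℝ))
    (U := Icc 0 (2 * π)) measurableSet_Icc (codiscreteWithin_mono (subset_univ _) h3)
  exact h4

theorem jensen_lower {f : ℂ → ℂ} (hf : AnalyticOnNhd ℂ f (ball 0 1)) :
    ∃ c : ℝ, ∀ r ∈ Ico (1 / 2 : ℝ) 1, c ≤ ∫ t, Real.log ‖f (circleMap 0 r t)‖ ∂mu := by
  set m : ℤ := (meromorphicOrderAt f 0).untop₀ with hm
  refine ⟨2 * π * (m * Real.log (1 / 2) + Real.log ‖meromorphicTrailingCoeffAt f 0‖), ?_⟩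
  intro r hr
  have hr0 : 0 < r := by linarith [hr.1]
  have hsub : closedBall (0 : ℂ) |r| ⊆ ball 0 1 := by
    rw [abs_of_pos hr0]
    exact closedBall_subset_ball hr.2
  have han := hf.mono hsub
  have hJ := han.meromorphicOn.circleAverage_log_norm hr0.ne'
  rw [circleAverage_eq_int_mu] at hJ
  have hD0 : (MeromorphicOn.divisor f (closedBall 0 |r|)) 0 = m := by
    rw [MeromorphicOn.divisor_apply han.meromorphicOn (by simp)]
  rw [hD0] at hJ
  have hm0 : 0 ≤ m := by
    rw [← hD0]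
    exact MeromorphicOn.AnalyticOnNhd.divisor_nonneg han 0
  have h1 : 0 ≤ ∑ᶠ u, (MeromorphicOn.divisor f (closedBall 0 |r|) u : ℝ) *
      Real.log (r * ‖0 - u‖⁻¹) := by
    apply finsum_nonneg
    intro u
    by_cases hu : u ∈ closedBall (0 : ℂ) |r|
    · apply mul_nonneg
      · exact_mod_cast MeromorphicOn.AnalyticOnNhd.divisor_nonneg han u
      · by_cases hu0 : u = 0
        · simp [hu0]
        · apply Real.log_nonneg
          have hu' : ‖u‖ ≤ r := by simpa [abs_of_pos hr0] using hu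
          have hupos : 0 < ‖u‖ := norm_pos_iff.2 hu0
          rw [zero_sub, norm_neg, ← div_eq_mul_inv, one_le_div hupos]
          exact hu'
    · rw [Function.locallyFinsuppWithin.apply_eq_zero_of_notMem _ hu]
      simp
  have h2 : (m : ℝ) * Real.log (1 / 2) ≤ m * Real.log r := by
    apply mul_le_mul_of_nonneg_left _ (by exact_mod_cast hm0)
    exact Real.log_le_log (by norm_num) hr.1
  have hpi : 0 < 2 * π := by positivity
  have h3 : ∫ t, Real.log ‖f (circleMap 0 r t)‖ ∂mu =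
      2 * π * ((2 * π)⁻¹ * ∫ t, Real.log ‖f (circleMap 0 r t)‖ ∂mu) := by
    field_simp
  rw [h3, hJ]
  apply mul_le_mul_of_nonneg_left _ hpi.le
  linarith

theorem log_max_lipschitz {δ : ℝ} (hδ : 0 < δ) (x y : ℝ) :
    |Real.log (max x δ) - Real.log (max y δ)| ≤ δ⁻¹ * |x - y| := by
  wlog h : y ≤ x generalizing x y
  · rw [abs_sub_comm, abs_sub_comm x y]
    exact this y x (le_of_not_ge h)
  have hy : 0 < max y δ := lt_max_of_lt_right hδ
  have hx : 0 < max x δ := lt_max_of_lt_right hδ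
  have hxy : max y δ ≤ max x δ := max_le_max_right _ h
  have h1 : 0 ≤ Real.log (max x δ) - Real.log (max y δ) := by
    linarith [Real.log_le_log hy hxy]
  rw [abs_of_nonneg h1, abs_of_nonneg (by linarith), ← Real.log_div hx.ne' hy.ne']
  have h2 := Real.log_le_sub_one_of_pos (div_pos hx hy)
  refine h2.trans ?_
  have h3 : max x δ / max y δ - 1 = (max x δ - max y δ) / max y δ := by
    field_simp
  rw [h3, div_eq_inv_mul]
  have h4 : max x δ - max y δ ≤ x - y := by
    rcases le_total y δ with h5 | h5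
    · rcases le_total x δ with h6 | h6
      · rw [max_eq_right h5, max_eq_right h6]; linarith
      · rw [max_eq_right h5, max_eq_left h6]; linarith
    · rw [max_eq_left h5, max_eq_left (h5.trans h)]
  apply mul_le_mul _ h4 (by linarith) (by positivity)
  exact inv_anti₀ hδ (le_max_right _ _)

theorem bdry_unique (f : ℂ → ℂ) (F : ℝ → ℂ) (hf : DifferentiableOn ℂ f (ball 0 1))
    (hF : IsBdry f F) (h : 0 < mu {t | F t = 0}) : ∀ z ∈ ball (0 : ℂ) 1, f z = 0 := by
  by_contra hcon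
  push Not at hcon
  obtain ⟨z₀, hz₀, h0⟩ := hcon
  have hfa : AnalyticOnNhd ℂ f (ball 0 1) := hf.analyticOnNhd isOpen_ball
  obtain ⟨c, hc⟩ := jensen_lower hfa
  -- integrability of the truncated logarithm
  have hlogint : ∀ δ : ℝ, 0 < δ → ∀ u : ℝ → ℂ, Integrable u mu →
      Integrable (fun t => Real.log (max ‖u t‖ δ)) mu := by
    intro δ hδ u hu
    have hm : AEStronglyMeasurable (fun t => Real.log (max ‖u t‖ δ)) mu := by
      apply AEMeasurable.aestronglyMeasurable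
      exact Real.measurable_log.comp_aemeasurable
        (hu.aestronglyMeasurable.norm.aemeasurable.max aemeasurable_const)
    refine Integrable.mono' ((hu.norm.const_mul δ⁻¹).add (integrable_const |Real.log δ|)) hm ?_
    refine Eventually.of_forall fun t => ?_
    have h1 := log_max_lipschitz hδ ‖u t‖ 0
    rw [max_eq_right hδ.le, sub_zero, abs_of_nonneg (norm_nonneg _)] at h1
    rw [Real.norm_eq_abs]
    simp only [Pi.add_apply]
    calc |Real.log (max ‖u t‖ δ)| = |(Real.log (max ‖u t‖ δ) - Real.log δ) + Real.log δ| := by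
          ring_nf
      _ ≤ |Real.log (max ‖u t‖ δ) - Real.log δ| + |Real.log δ| := abs_add_le _ _
      _ ≤ δ⁻¹ * ‖u t‖ + |Real.log δ| := by linarith
  -- lower bound for F
  have hlow : ∀ δ : ℝ, 0 < δ → c ≤ ∫ t, Real.log (max ‖F t‖ δ) ∂mu := by
    intro δ hδ
    have hint : ∀ r, r ∈ Ioo (0 : ℝ) 1 → Integrable (fun t => f (circleMap 0 r t)) mu :=
      fun r hr => integrable_cont (cont_circle hf hr.1.le hr.2)
    have hlim : Tendsto (fun r : ℝ => ∫ t, Real.log (max ‖f (circleMap 0 r t)‖ δ) ∂mu) (𝓝[<] 1)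
        (𝓝 (∫ t, Real.log (max ‖F t‖ δ) ∂mu)) := by
      rw [tendsto_iff_norm_sub_tendsto_zero]
      have hF2 : Tendsto (fun r : ℝ => δ⁻¹ * (∫⁻ t, ‖f (circleMap 0 r t) - F t‖ₑ ∂mu).toReal)
          (𝓝[<] 1) (𝓝 0) := by
        have := (ENNReal.tendsto_toReal ENNReal.zero_ne_top).comp hF.2
        have := this.const_mul δ⁻¹
        simpa using this
      apply squeeze_zero' (Eventually.of_forall fun _ => norm_nonneg _) _ hF2
      filter_upwards [Ioo_mem_nhdsLT (show (0 : ℝ) < 1 from one_pos)] with r hr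
      rw [← integral_sub (hlogint δ hδ _ (hint r hr)) (hlogint δ hδ F hF.1)]
      have hN2 : (∫⁻ t, ‖f (circleMap 0 r t) - F t‖ₑ ∂mu).toReal =
          ∫ t, ‖f (circleMap 0 r t) - F t‖ ∂mu :=
        (integral_norm_eq_lintegral_enorm ((hint r hr).sub hF.1).aestronglyMeasurable).symm
      rw [hN2, ← integral_const_mul]
      refine (norm_integral_le_integral_norm _).trans ?_
      apply integral_mono ((hlogint δ hδ _ (hint r hr)).sub (hlogint δ hδ F hF.1)).norm
        (((hint r hr).sub hF.1).norm.const_mul _)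
      intro t
      simp only [Pi.sub_apply, Real.norm_eq_abs]
      refine (log_max_lipschitz hδ _ _).trans ?_
      apply mul_le_mul_of_nonneg_left _ (by positivity)
      exact abs_norm_sub_norm_le _ _
    apply ge_of_tendsto hlim
    filter_upwards [Ioo_mem_nhdsLT (show (1 / 2 : ℝ) < 1 by norm_num)] with r hr
    have hr0 : 0 < r := by linarith [hr.1]
    refine (hc r ⟨hr.1.le, hr.2⟩).trans ?_
    have hsub : sphere (0 : ℂ) |r| ⊆ ball 0 1 := by
      intro z hz
      rw [mem_sphere_zero_iff_norm, abs_of_pos hr0] at hz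
      simp [hz, hr.2]
    have hci : Integrable (fun t => Real.log ‖f (circleMap 0 r t)‖) mu := by
      have := (hfa.mono hsub).meromorphicOn.circleIntegrable_log_norm
      rw [CircleIntegrable, intervalIntegrable_iff_integrableOn_Ioc_of_le (by positivity)] at this
      unfold mu
      rw [← IntegrableOn, integrableOn_Icc_iff_integrableOn_Ioc]
      exact this
    apply integral_mono_ae hci (hlogint δ hδ _ (hint r ⟨hr0, hr.2⟩))
    filter_upwards [ae_ne_zero hfa hz₀ h0 hr0 hr.2] with t ht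
    exact Real.log_le_log (norm_pos_iff.2 ht) (le_max_left _ _)
  -- upper bound
  obtain ⟨F', hF'm, hF'⟩ := hF.1.aestronglyMeasurable
  have hFF' : mu {t | F t = 0} = mu {t | F' t = 0} := by
    apply measure_congr
    filter_upwards [hF'] with t ht
    show (F t = 0) = (F' t = 0)
    rw [ht]
  have hmeas : MeasurableSet {t | F' t = 0} := hF'm.measurable (measurableSet_singleton 0)
  set E := {t | F' t = 0} with hE
  have hEpos : 0 < mu.real E := by
    rw [Measure.real, ENNReal.toReal_pos_iff]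
    exact ⟨hFF' ▸ h, measure_lt_top _ _⟩
  have hF'int : Integrable F' mu := hF.1.congr hF'
  have hup : ∀ δ : ℝ, 0 < δ → δ < 1 → ∫ t, Real.log (max ‖F t‖ δ) ∂mu ≤
      Real.log δ * mu.real E + ∫ t, (‖F' t‖ + 1) ∂mu := by
    intro δ hδ hδ1
    have h1 : ∫ t, Real.log (max ‖F t‖ δ) ∂mu = ∫ t, Real.log (max ‖F' t‖ δ) ∂mu := by
      apply integral_congr_ae
      filter_upwards [hF'] with t ht
      rw [ht]
    have h2 : ∫ t, (E.indicator (fun _ => Real.log δ) t + (‖F' t‖ + 1)) ∂mu =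
        Real.log δ * mu.real E + ∫ t, (‖F' t‖ + 1) ∂mu := by
      rw [integral_add]
      · rw [integral_indicator_const _ hmeas, smul_eq_mul, mul_comm]
      · exact (integrable_const _).indicator hmeas
      · exact hF'int.norm.add (integrable_const _)
    rw [h1, ← h2]
    apply integral_mono (hlogint δ hδ F' hF'int)
    · exact ((integrable_const _).indicator hmeas).add (hF'int.norm.add (integrable_const _))
    · intro t
      by_cases ht : t ∈ E
      · have ht' : F' t = 0 := ht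
        simp only [indicator_of_mem ht, ht', norm_zero, max_eq_right hδ.le]
        linarith
      · simp only [indicator_of_notMem ht, zero_add]
        have hpos : 0 < max ‖F' t‖ δ := lt_max_of_lt_right hδ
        have := Real.log_le_sub_one_of_pos hpos
        have h3 : max ‖F' t‖ δ ≤ ‖F' t‖ + 1 := by
          apply max_le
          · linarith
          · linarith [norm_nonneg (F' t)]
        linarith
  set A := ∫ t, (‖F' t‖ + 1) ∂mu with hA
  -- choose δ
  set M := max 1 ((A - c + 1) / mu.real E) with hM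
  have hM1 : 1 ≤ M := le_max_left _ _
  have hM2 : (A - c + 1) / mu.real E ≤ M := le_max_right _ _
  have h1 := hlow (Real.exp (-M)) (Real.exp_pos _)
  have h2 := hup (Real.exp (-M)) (Real.exp_pos _) (by
    rw [Real.exp_lt_one_iff]; linarith)
  rw [Real.log_exp] at h2
  rw [div_le_iff₀ hEpos] at hM2
  linarith

end Pool.Agent.HL
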