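import Pool.Agent.HL.Outer

/-!
# Inner-outer factorisation
-/

open MeasureTheory Set Filter Topology Metric
open scoped ENNReal Real

namespace Pool.Agent.HL

/-- analytic functions dominated by an outer function have boundary functions -/
theorem bdry_of_le_outer {φ : ℝ → ℝ} (hφ : Integrable φ mu)
    (he : Integrable (fun t => Real.exp (φ t)) mu) {g : ℂ → ℂ}
    (hg : DifferentiableOn ℂ g (ball 0 1)) {K : ℝ} (hK : 0 ≤ K)
    (hb : ∀ z ∈ ball (0 : ℂ) 1, ‖g z‖ ≤ K * ‖outer φ z‖) : ∃ G, IsBdry g G := by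
  have hI : ∫⁻ θ, ENNReal.ofReal (Real.exp (φ θ)) ∂mu < ∞ := by
    have := he.2
    refine lt_of_le_of_lt (lintegral_mono fun θ => ?_) this
    rw [← ofReal_norm, Real.norm_of_nonneg (Real.exp_pos _).le]
  refine exists_bdry g hg (ENNReal.ofReal K * ∫⁻ θ, ENNReal.ofReal (Real.exp (φ θ)) ∂mu)
    (ENNReal.mul_lt_top ENNReal.ofReal_lt_top hI) fun r hr => ?_
  have h1 : ∀ t, ‖g (circleMap 0 r t)‖ₑ ≤ ENNReal.ofReal K *
      ∫⁻ θ, pk (circleMap 0 r t) θ * ENNReal.ofReal (Real.exp (φ θ)) ∂mu := by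
    intro t
    have hw := norm_circle hr t
    have h2 := hb (circleMap 0 r t) (by simpa using hw)
    have h3 := outer_le hφ he hw
    have h4 : (2 * π)⁻¹ * ∫ θ, PK (circleMap 0 r t) θ * Real.exp (φ θ) ∂mu
        = ∫ θ, (PK (circleMap 0 r t) θ / (2 * π)) * Real.exp (φ θ) ∂mu := by
      rw [← integral_const_mul]
      congr 1
      funext θ
      ring
    have h5 : ENNReal.ofReal (∫ θ, (PK (circleMap 0 r t) θ / (2 * π)) * Real.exp (φ θ) ∂mu)
        = ∫⁻ θ, pk (circleMap 0 r t) θ * ENNReal.ofReal (Real.exp (φ θ)) ∂mu := by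
      rw [ofReal_integral_eq_lintegral_ofReal]
      · apply lintegral_congr
        intro θ
        rw [ENNReal.ofReal_mul (div_nonneg (PK_nonneg hw θ) two_pi_pos'.le)]
        rfl
      · have := (PK_mul_integrable hw he).const_mul (2 * π)⁻¹
        refine this.congr (Eventually.of_forall fun θ => ?_)
        simp only
        ring
      · exact Eventually.of_forall fun θ =>
          mul_nonneg (div_nonneg (PK_nonneg hw θ) two_pi_pos'.le) (Real.exp_pos _).le
    rw [← h5, ← h4, ← ENNReal.ofReal_mul hK, ← ofReal_norm]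
    exact ENNReal.ofReal_le_ofReal (h2.trans (mul_le_mul_of_nonneg_left h3 hK))
  calc ∫⁻ t, ‖g (circleMap 0 r t)‖ₑ ∂mu
      ≤ ∫⁻ t, ENNReal.ofReal K *
        ∫⁻ θ, pk (circleMap 0 r t) θ * ENNReal.ofReal (Real.exp (φ θ)) ∂mu ∂mu :=
        lintegral_mono h1
    _ = ENNReal.ofReal K *
        ∫⁻ t, ∫⁻ θ, pk (circleMap 0 r t) θ * ENNReal.ofReal (Real.exp (φ θ)) ∂mu ∂mu := by
        rw [lintegral_const_mul' _ _ ENNReal.ofReal_ne_top]
    _ = ENNReal.ofReal K * ∫⁻ θ, ENNReal.ofReal (Real.exp (φ θ)) ∂mu := by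
        congr 1
        have hm : AEMeasurable (Function.uncurry fun t θ =>
            pk (circleMap 0 r t) θ * ENNReal.ofReal (Real.exp (φ θ))) (mu.prod mu) := by
          have hc : Continuous fun z : ℝ × ℝ => PK (circleMap 0 r z.1) z.2 / (2 * π) := by
            have e : (fun z : ℝ × ℝ => PK (circleMap 0 r z.1) z.2 / (2 * π))
                = fun z : ℝ × ℝ => (1 - ‖circleMap 0 r z.1‖ ^ 2) /
                  ‖circleMap 0 1 z.2 - circleMap 0 r z.1‖ ^ 2 / (2 * π) := by
              funext z; rw [PK_eq]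
            rw [e]
            have c1 := continuous_circleMap 0 1
            have c2 := continuous_circleMap 0 r
            refine Continuous.div (Continuous.div (by fun_prop) (by fun_prop) fun z => ?_)
              continuous_const fun _ => two_pi_pos'.ne'
            have h1 := dist_circle (circleMap 0 r z.1) z.2
            have h2 := norm_circle hr z.1
            have : 0 < ‖circleMap 0 1 z.2 - circleMap 0 r z.1‖ := by linarith
            positivity
          have h1 : AEMeasurable (fun z : ℝ × ℝ => pk (circleMap 0 r z.1) z.2) (mu.prod mu) :=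
            hc.measurable.ennreal_ofReal.aemeasurable
          have h2 : AEMeasurable (fun z : ℝ × ℝ => ENNReal.ofReal (Real.exp (φ z.2)))
              (mu.prod mu) :=
            (he.aestronglyMeasurable.aemeasurable.ennreal_ofReal).comp_snd
          exact h1.mul h2
        rw [lintegral_lintegral_swap hm]
        apply lintegral_congr
        intro θ
        have e : ∀ t, pk (circleMap 0 r t) θ * ENNReal.ofReal (Real.exp (φ θ))
            = pk (circleMap 0 r θ) t * ENNReal.ofReal (Real.exp (φ θ)) := by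
          intro t
          unfold pk
          rw [PK_symm]
        simp_rw [e]
        rw [lintegral_mul_const' _ _ ENNReal.ofReal_ne_top, lintegral_pk (norm_circle hr θ), one_mul]

/-- the boundary function of an outer function -/
theorem outer_bdry {φ : ℝ → ℝ} (hφ : Integrable φ mu)
    (he : Integrable (fun t => Real.exp (φ t)) mu) :
    ∃ O, IsBdry (outer φ) O ∧ ∀ᵐ t ∂mu, ‖O t‖ = Real.exp (φ t) := by
  obtain ⟨O, hO⟩ := bdry_of_le_outer hφ he (outer_diff hφ) zero_le_one (fun z _ => by rw [one_mul])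
  refine ⟨O, hO, ?_⟩
  filter_upwards [radial_limits (outer_diff hφ) hO, outer_radial hφ] with t h1 h2
  exact tendsto_nhds_unique h1.norm h2

theorem PK_ge {w : ℂ} (hw : ‖w‖ < 1) (θ : ℝ) : (1 - ‖w‖ ^ 2) / 4 ≤ PK w θ := by
  rw [PK_eq]
  have h1 : ‖circleMap 0 1 θ - w‖ ≤ 2 := by
    refine (norm_sub_le _ _).trans ?_
    have : ‖circleMap 0 1 θ‖ = 1 := by simp
    linarith
  have h2 := dist_circle w θ
  have h3 : 0 < ‖circleMap 0 1 θ - w‖ := by linarith
  have h4 : 0 ≤ 1 - ‖w‖ ^ 2 := by nlinarith [norm_nonneg w]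
  have h5 : ‖circleMap 0 1 θ - w‖ ^ 2 ≤ 4 := by nlinarith
  exact div_le_div_of_nonneg_left h4 (by positivity) h5

section
variable {f : ℂ → ℂ} {F : ℝ → ℂ} (hf : DifferentiableOn ℂ f (ball 0 1)) (hF : IsBdry f F)
  (h0 : ∃ z ∈ ball (0 : ℂ) 1, f z ≠ 0)
include hf hF h0

theorem bdry_ne_zero : ∀ᵐ t ∂mu, F t ≠ 0 := by
  by_contra hcon
  have h1 : 0 < mu {t | F t = 0} := by
    rw [pos_iff_ne_zero]
    intro h2
    apply hcon
    rw [ae_iff]
    simpa using h2
  obtain ⟨z, hz, hz0⟩ := h0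
  exact hz0 (bdry_unique f F hf hF h1 z hz)

theorem log_integrable : Integrable (fun t => Real.log ‖F t‖) mu := by
  have hne := bdry_ne_zero hf hF h0
  obtain ⟨w, hwb, hw0⟩ := h0
  have hw : ‖w‖ < 1 := by simpa using hwb
  set v : ℕ → ℝ → ℝ := fun n t => Real.log (max ‖F t‖ (1 / ((n : ℝ) + 1))) with hv
  have hδ : ∀ n : ℕ, (0 : ℝ) < 1 / ((n : ℝ) + 1) := fun n => by positivity
  have hvi : ∀ n, Integrable (v n) mu := fun n => logmax_integrable (hδ n) hF.1
  have hc : ∀ n, 2 * π * Real.log ‖f w‖ ≤ ∫ t, PK w t * v n t ∂mu := fun n =>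
    poisson_jensen hf hF hw hw0 (hδ n)
  have hlogm : AEStronglyMeasurable (fun t => Real.log ‖F t‖) mu :=
    (Real.measurable_log.comp_aemeasurable
      hF.1.aestronglyMeasurable.norm.aemeasurable).aestronglyMeasurable
  -- `v n ≤ v 0`
  have hmono : ∀ n t, v n t ≤ v 0 t := by
    intro n t
    apply Real.log_le_log (lt_max_of_lt_right (hδ n))
    apply max_le_max_left
    have : (0 : ℝ) ≤ (n : ℝ) := n.cast_nonneg
    apply one_div_le_one_div_of_le (by norm_num)
    simp
  have hlim : ∀ᵐ t ∂mu, Tendsto (fun n => ENNReal.ofReal (PK w t * (v 0 t - v n t))) atTop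
      (𝓝 (ENNReal.ofReal (PK w t * (v 0 t - Real.log ‖F t‖)))) := by
    filter_upwards [hne] with t ht
    have h1 : Tendsto (fun n => v n t) atTop (𝓝 (Real.log ‖F t‖)) := by
      have h2 : 0 < ‖F t‖ := norm_pos_iff.2 ht
      have h3 : Tendsto (fun n : ℕ => max ‖F t‖ (1 / ((n : ℝ) + 1))) atTop (𝓝 (max ‖F t‖ 0)) :=
        tendsto_const_nhds.max tendsto_one_div_add_atTop_nhds_zero_nat
      rw [max_eq_left h2.le] at h3
      exact (Real.continuousAt_log h2.ne').tendsto.comp h3
    exact ENNReal.tendsto_ofReal ((tendsto_const_nhds.sub h1).const_mul _)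
  have hfatou : ∫⁻ t, ENNReal.ofReal (PK w t * (v 0 t - Real.log ‖F t‖)) ∂mu < ∞ := by
    have hm : ∀ n, AEMeasurable (fun t => ENNReal.ofReal (PK w t * (v 0 t - v n t))) mu := by
      intro n
      exact ((PK_cont hw).aemeasurable.mul
        (((hvi 0).sub (hvi n)).aestronglyMeasurable.aemeasurable)).ennreal_ofReal
    have h1 := lintegral_liminf_le' (μ := mu) (f := fun (n : ℕ) t =>
      ENNReal.ofReal (PK w t * (v 0 t - v n t))) (u := atTop) hm
    have h2 : ∫⁻ t, liminf (fun n => ENNReal.ofReal (PK w t * (v 0 t - v n t))) atTop ∂mu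
        = ∫⁻ t, ENNReal.ofReal (PK w t * (v 0 t - Real.log ‖F t‖)) ∂mu := by
      apply lintegral_congr_ae
      filter_upwards [hlim] with t ht
      exact ht.liminf_eq
    rw [h2] at h1
    refine h1.trans_lt ?_
    have h3 : ∀ n, ∫⁻ t, ENNReal.ofReal (PK w t * (v 0 t - v n t)) ∂mu
        ≤ ENNReal.ofReal ((∫ t, PK w t * v 0 t ∂mu) - 2 * π * Real.log ‖f w‖) := by
      intro n
      have i1 : Integrable (fun t => PK w t * (v 0 t - v n t)) mu :=
        PK_mul_integrable hw ((hvi 0).sub (hvi n))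
      rw [← ofReal_integral_eq_lintegral_ofReal i1 (Eventually.of_forall fun t =>
        mul_nonneg (PK_nonneg hw t) (sub_nonneg.2 (hmono n t)))]
      apply ENNReal.ofReal_le_ofReal
      have e : ∫ t, PK w t * (v 0 t - v n t) ∂mu
          = (∫ t, PK w t * v 0 t ∂mu) - ∫ t, PK w t * v n t ∂mu := by
        rw [← integral_sub (PK_mul_integrable hw (hvi 0)) (PK_mul_integrable hw (hvi n))]
        simp_rw [mul_sub]
      rw [e]
      linarith [hc n]
    refine lt_of_le_of_lt (liminf_le_of_frequently_le' (Frequently.of_forall h3)) ?_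
    exact ENNReal.ofReal_lt_top
  have hnn : ∀ᵐ t ∂mu, 0 ≤ v 0 t - Real.log ‖F t‖ := by
    filter_upwards [hne] with t ht
    exact sub_nonneg.2 (Real.log_le_log (norm_pos_iff.2 ht) (le_max_left _ _))
  have i2 : Integrable (fun t => PK w t * (v 0 t - Real.log ‖F t‖)) mu := by
    refine ⟨(PK_cont hw).aestronglyMeasurable.mul
      ((hvi 0).aestronglyMeasurable.sub hlogm), ?_⟩
    rw [hasFiniteIntegral_iff_enorm]
    refine lt_of_le_of_lt (le_of_eq (lintegral_congr_ae ?_)) hfatou
    filter_upwards [hnn] with t ht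
    rw [← ofReal_norm, Real.norm_of_nonneg (mul_nonneg (PK_nonneg hw t) ht)]
  set m := (1 - ‖w‖ ^ 2) / 4 with hm
  have hm0 : 0 < m := by
    rw [hm]
    have : 0 < 1 - ‖w‖ ^ 2 := by nlinarith [norm_nonneg w]
    positivity
  have i3 : Integrable (fun t => v 0 t - Real.log ‖F t‖) mu := by
    refine (i2.const_mul m⁻¹).mono' ((hvi 0).aestronglyMeasurable.sub hlogm) ?_
    filter_upwards [hnn] with t ht
    rw [Real.norm_of_nonneg ht]
    have h1 : m * (v 0 t - Real.log ‖F t‖) ≤ PK w t * (v 0 t - Real.log ‖F t‖) :=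
      mul_le_mul_of_nonneg_right (PK_ge hw t) ht
    calc v 0 t - Real.log ‖F t‖ = m⁻¹ * (m * (v 0 t - Real.log ‖F t‖)) := by field_simp
      _ ≤ _ := mul_le_mul_of_nonneg_left h1 (by positivity)
  refine ((hvi 0).sub i3).congr (Eventually.of_forall fun t => ?_)
  simp only [Pi.sub_apply]
  ring

theorem exp_log_integrable : Integrable (fun t => Real.exp (Real.log ‖F t‖)) mu := by
  refine hF.1.norm.congr ?_
  filter_upwards [bdry_ne_zero hf hF h0] with t ht
  rw [Real.exp_log (norm_pos_iff.2 ht)]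

/-- domination by the outer function with the same modulus -/
theorem le_outer {g : ℂ → ℂ} {G : ℝ → ℂ} (hg : DifferentiableOn ℂ g (ball 0 1))
    (hG : IsBdry g G) {K : ℝ} (hK : 0 < K) (hGF : ∀ᵐ t ∂mu, ‖G t‖ ≤ K * ‖F t‖) :
    ∀ z ∈ ball (0 : ℂ) 1, ‖g z‖ ≤ K * ‖outer (fun t => Real.log ‖F t‖) z‖ := by
  have hne := bdry_ne_zero hf hF h0
  have hlog := log_integrable hf hF h0
  intro w hwb
  have hw : ‖w‖ < 1 := by simpa using hwb
  by_cases hg0 : g w = 0
  · rw [hg0, norm_zero]; positivity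
  set v : ℕ → ℝ → ℝ := fun n t => Real.log (max ‖F t‖ (1 / ((n : ℝ) + 1))) with hv
  have hδ : ∀ n : ℕ, (0 : ℝ) < 1 / ((n : ℝ) + 1) := fun n => by positivity
  have hvi : ∀ n, Integrable (v n) mu := fun n => logmax_integrable (hδ n) hF.1
  have h1 : ∀ n, 2 * π * Real.log ‖g w‖ ≤ 2 * π * Real.log K + ∫ t, PK w t * v n t ∂mu := by
    intro n
    have h2 := poisson_jensen hg hG hw hg0 (mul_pos hK (hδ n))
    refine h2.trans ?_
    have h3 : 2 * π * Real.log K + ∫ t, PK w t * v n t ∂mu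
        = ∫ t, PK w t * (Real.log K + v n t) ∂mu := by
      have i0 : Integrable (fun t => PK w t * Real.log K) mu :=
        PK_mul_integrable hw (integrable_const _)
      simp_rw [mul_add]
      rw [integral_add i0 (PK_mul_integrable hw (hvi n)), integral_mul_const, integral_PK hw]
    rw [h3]
    apply integral_mono_ae (PK_mul_integrable hw (logmax_integrable (mul_pos hK (hδ n)) hG.1))
      (PK_mul_integrable hw ((integrable_const _).add (hvi n)))
    filter_upwards [hGF] with t ht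
    refine mul_le_mul_of_nonneg_left ?_ (PK_nonneg hw t)
    have hpos : 0 < max ‖F t‖ (1 / ((n : ℝ) + 1)) := lt_max_of_lt_right (hδ n)
    show Real.log (max ‖G t‖ (K * (1 / ((n : ℝ) + 1)))) ≤ Real.log K + v n t
    rw [hv, ← Real.log_mul hK.ne' hpos.ne']
    apply Real.log_le_log (lt_max_of_lt_right (mul_pos hK (hδ n)))
    apply max_le
    · exact ht.trans (mul_le_mul_of_nonneg_left (le_max_left _ _) hK.le)
    · exact mul_le_mul_of_nonneg_left (le_max_right _ _) hK.le
  have h2 : Tendsto (fun n => ∫ t, PK w t * v n t ∂mu) atTop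
      (𝓝 (∫ t, PK w t * Real.log ‖F t‖ ∂mu)) := by
    refine tendsto_integral_of_dominated_convergence (fun t => PK w t * |Real.log ‖F t‖|) ?_
      (PK_mul_integrable hw hlog.abs) ?_ ?_
    · intro n
      exact (PK_mul_integrable hw (hvi n)).aestronglyMeasurable
    · intro n
      filter_upwards [hne] with t ht
      rw [norm_mul, Real.norm_of_nonneg (PK_nonneg hw t), Real.norm_eq_abs]
      refine mul_le_mul_of_nonneg_left ?_ (PK_nonneg hw t)
      have hx : 0 < ‖F t‖ := norm_pos_iff.2 ht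
      simp only [hv]
      rcases le_total (1 / ((n : ℝ) + 1)) ‖F t‖ with h3 | h3
      · rw [max_eq_left h3]
      · rw [max_eq_right h3]
        have h4 : (1 : ℝ) / ((n : ℝ) + 1) ≤ 1 := by
          rw [div_le_one (by positivity)]
          have : (0 : ℝ) ≤ (n : ℝ) := n.cast_nonneg
          linarith
        have h5 : Real.log (1 / ((n : ℝ) + 1)) ≤ 0 := Real.log_nonpos (hδ n).le h4
        have h6 : Real.log ‖F t‖ ≤ Real.log (1 / ((n : ℝ) + 1)) := Real.log_le_log hx h3
        rw [abs_of_nonpos h5, abs_of_nonpos (h6.trans h5)]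
        linarith
    · filter_upwards [hne] with t ht
      have h2 : 0 < ‖F t‖ := norm_pos_iff.2 ht
      have h3 : Tendsto (fun n : ℕ => max ‖F t‖ (1 / ((n : ℝ) + 1))) atTop (𝓝 (max ‖F t‖ 0)) :=
        tendsto_const_nhds.max tendsto_one_div_add_atTop_nhds_zero_nat
      rw [max_eq_left h2.le] at h3
      exact ((Real.continuousAt_log h2.ne').tendsto.comp h3).const_mul _
  have h3 : 2 * π * Real.log ‖g w‖ ≤ 2 * π * Real.log K + ∫ t, PK w t * Real.log ‖F t‖ ∂mu :=
    ge_of_tendsto' (h2.const_add _) h1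
  rw [outer_norm hlog hw]
  have h4 : Real.log ‖g w‖ ≤ Real.log K + (2 * π)⁻¹ * ∫ t, PK w t * Real.log ‖F t‖ ∂mu := by
    have h5 := mul_le_mul_of_nonneg_left h3 (inv_nonneg.2 two_pi_pos'.le)
    have h6 := two_pi_pos'.ne'
    calc Real.log ‖g w‖ = (2 * π)⁻¹ * (2 * π * Real.log ‖g w‖) := by field_simp
      _ ≤ _ := h5
      _ = _ := by field_simp
  calc ‖g w‖ = Real.exp (Real.log ‖g w‖) := (Real.exp_log (norm_pos_iff.2 hg0)).symm
    _ ≤ Real.exp (Real.log K + (2 * π)⁻¹ * ∫ t, PK w t * Real.log ‖F t‖ ∂mu) :=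
      Real.exp_le_exp.2 h4
    _ = K * Real.exp ((2 * π)⁻¹ * ∫ t, PK w t * Real.log ‖F t‖ ∂mu) := by
      rw [Real.exp_add, Real.exp_log hK]

end

end Pool.Agent.HL
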