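import Pool.Agent.HL.Inner
import Pool.Agent.HL.Bv

/-!
# Inner and outer parts, multipliers and bounded analytic functions
-/

open MeasureTheory Set Filter Topology Metric
open scoped ENNReal Real

namespace Pool.Agent.HL

/-- The outer part `exp ((2π)⁻¹ ∫ (e^{it} + z) / (e^{it} - z) log |F(t)| dt)` of `f`, where `F` is the
radial boundary function of `f`. -/
noncomputable def outerPart (f : ℂ → ℂ) (z : ℂ) : ℂ := outer (fun t => Real.log ‖bv f t‖) z

/-- The inner part of `f`. -/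
noncomputable def innerPart (f : ℂ → ℂ) (z : ℂ) : ℂ := f z / outerPart f z

/-- The bounded analytic functions on the disc. -/
def BddAn (q : ℂ → ℂ) : Prop :=
  DifferentiableOn ℂ q (ball 0 1) ∧ ∃ C : ℝ, ∀ z ∈ ball (0 : ℂ) 1, ‖q z‖ ≤ C

theorem BddAn.bdry {q : ℂ → ℂ} (hq : BddAn q) : IsBdry q (bv q) := by
  obtain ⟨hd, C, hC⟩ := hq
  have h1 : ∃ Q, IsBdry q Q := by
    refine exists_bdry q hd (ENNReal.ofReal C * mu univ)
      (ENNReal.mul_lt_top ENNReal.ofReal_lt_top (measure_lt_top _ _)) fun r hr => ?_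
    rw [← lintegral_const]
    apply lintegral_mono
    intro t
    show ‖q (circleMap 0 r t)‖ₑ ≤ ENNReal.ofReal C
    rw [← ofReal_norm]
    exact ENNReal.ofReal_le_ofReal (hC _ (circle_mem hr t))
  obtain ⟨Q, hQ⟩ := h1
  exact hQ.congr (fun _ _ => rfl) (bv_ae_eq hd hQ).symm

theorem IsBdry.bv {f : ℂ → ℂ} (hf : DifferentiableOn ℂ f (ball 0 1)) {F : ℝ → ℂ}
    (hF : IsBdry f F) : IsBdry f (bv f) :=
  hF.congr (fun _ _ => rfl) (bv_ae_eq hf hF).symm

section
variable {f : ℂ → ℂ} (hf : DifferentiableOn ℂ f (ball 0 1)) (hF : IsBdry f (bv f))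
  (h0 : ∃ z ∈ ball (0 : ℂ) 1, f z ≠ 0)

theorem outerPart_ne (f : ℂ → ℂ) (z : ℂ) : outerPart f z ≠ 0 := outer_ne _ _

theorem mul_parts (f : ℂ → ℂ) (z : ℂ) : innerPart f z * outerPart f z = f z :=
  div_mul_cancel₀ _ (outerPart_ne f z)

include hf hF h0

theorem outerPart_diff : DifferentiableOn ℂ (outerPart f) (ball 0 1) :=
  outer_diff (log_integrable hf hF h0)

theorem innerPart_diff : DifferentiableOn ℂ (innerPart f) (ball 0 1) :=
  hf.div (outerPart_diff hf hF h0) fun z _ => outerPart_ne f z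

theorem innerPart_le : ∀ z ∈ ball (0 : ℂ) 1, ‖innerPart f z‖ ≤ 1 := by
  intro z hz
  have h1 := le_outer hf hF h0 hf hF one_pos (Eventually.of_forall fun t => by rw [one_mul]) z hz
  rw [one_mul] at h1
  unfold innerPart
  rw [norm_div, div_le_one (norm_pos_iff.2 (outerPart_ne f z))]
  exact h1

theorem innerPart_bdd : BddAn (innerPart f) :=
  ⟨innerPart_diff hf hF h0, 1, innerPart_le hf hF h0⟩

theorem outerPart_bdry : IsBdry (outerPart f) (bv (outerPart f)) ∧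
    ∀ᵐ t ∂mu, ‖bv (outerPart f) t‖ = ‖bv f t‖ := by
  obtain ⟨O, hO, hO1⟩ := outer_bdry (log_integrable hf hF h0) (exp_log_integrable hf hF h0)
  have hd : DifferentiableOn ℂ (outerPart f) (ball 0 1) := outerPart_diff hf hF h0
  have hO' : IsBdry (outerPart f) O := hO
  refine ⟨hO'.bv hd, ?_⟩
  filter_upwards [bv_ae_eq hd hO', hO1, bdry_ne_zero hf hF h0] with t h1 h2 h3
  rw [h1, h2, Real.exp_log (norm_pos_iff.2 h3)]

/-- boundary values of `g / outerPart f` -/
theorem bv_div {g : ℂ → ℂ} (hg : DifferentiableOn ℂ g (ball 0 1)) (hG : IsBdry g (bv g)) :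
    ∀ᵐ t ∂mu, bv (fun z => g z / outerPart f z) t = bv g t / bv (outerPart f) t := by
  have hd := outerPart_diff hf hF h0
  obtain ⟨hO, hO1⟩ := outerPart_bdry hf hF h0
  filter_upwards [radial_limits hg hG, radial_limits hd hO, hO1, bdry_ne_zero hf hF h0]
    with t h1 h2 h3 h4
  have h5 : bv (outerPart f) t ≠ 0 := by
    rw [← norm_pos_iff, h3]
    exact norm_pos_iff.2 h4
  exact (h1.div h2 h5).limUnder_eq

theorem bv_innerPart : ∀ᵐ t ∂mu, bv (innerPart f) t = bv f t / bv (outerPart f) t :=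
  bv_div hf hF h0 hf hF

theorem bv_parts : ∀ᵐ t ∂mu, bv (innerPart f) t * bv (outerPart f) t = bv f t := by
  filter_upwards [bv_innerPart hf hF h0, (outerPart_bdry hf hF h0).2, bdry_ne_zero hf hF h0]
    with t h1 h2 h3
  have h5 : bv (outerPart f) t ≠ 0 := by
    rw [← norm_pos_iff, h2]
    exact norm_pos_iff.2 h3
  rw [h1, div_mul_cancel₀ _ h5]

theorem norm_bv_innerPart : ∀ᵐ t ∂mu, ‖bv (innerPart f) t‖ = 1 := by
  filter_upwards [bv_innerPart hf hF h0, (outerPart_bdry hf hF h0).2, bdry_ne_zero hf hF h0]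
    with t h1 h2 h3
  rw [h1, norm_div, h2, div_self (norm_pos_iff.2 h3).ne']

theorem mult_to_bdd {g : ℂ → ℂ} (hg : DifferentiableOn ℂ g (ball 0 1)) (hG : IsBdry g (bv g))
    {h : ℝ → ℝ} {K : ℝ} (hK : 0 < K) (hh : ∀ t, |h t| ≤ K)
    (hgh : ∀ᵐ t ∂mu, bv g t = h t * bv f t) :
    ∃ q, BddAn q ∧ ∀ᵐ t ∂mu, bv q t = h t * bv (innerPart f) t := by
  refine ⟨fun z => g z / outerPart f z, ⟨hg.div (outerPart_diff hf hF h0)
    fun z _ => outerPart_ne f z, K, fun z hz => ?_⟩, ?_⟩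
  · rw [norm_div, div_le_iff₀ (norm_pos_iff.2 (outerPart_ne f z))]
    refine le_outer hf hF h0 hg hG hK ?_ z hz
    filter_upwards [hgh] with t ht
    rw [ht, norm_mul, Complex.norm_real, Real.norm_eq_abs]
    exact mul_le_mul_of_nonneg_right (hh t) (norm_nonneg _)
  · filter_upwards [bv_div hf hF h0 hg hG, bv_innerPart hf hF h0, hgh] with t h1 h2 h3
    rw [h1, h2, h3, mul_div_assoc]

theorem bdd_to_mult {q : ℂ → ℂ} (hq : BddAn q) {h : ℝ → ℝ}
    (hqh : ∀ᵐ t ∂mu, bv q t = h t * bv (innerPart f) t) :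
    ∃ g, DifferentiableOn ℂ g (ball 0 1) ∧ IsBdry g (bv g) ∧
      ∀ᵐ t ∂mu, bv g t = h t * bv f t := by
  have hqb := hq.bdry
  obtain ⟨hqd, C, hC⟩ := hq
  have hC0 : 0 ≤ C := (norm_nonneg _).trans (hC 0 (by simp))
  have hod := outerPart_diff hf hF h0
  have hgd : DifferentiableOn ℂ (fun z => q z * outerPart f z) (ball 0 1) := hqd.mul hod
  obtain ⟨G, hG⟩ := bdry_of_le_outer (log_integrable hf hF h0) (exp_log_integrable hf hF h0) hgd hC0
    (fun z hz => by
      rw [norm_mul]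
      exact mul_le_mul_of_nonneg_right (hC z hz) (norm_nonneg _))
  have hGb := hG.bv hgd
  refine ⟨_, hgd, hGb, ?_⟩
  filter_upwards [radial_limits hqd hqb, radial_limits hod (outerPart_bdry hf hF h0).1, hqh,
    bv_parts hf hF h0] with t h1 h2 h3 h4
  have h5 : bv (fun z => q z * outerPart f z) t = bv q t * bv (outerPart f) t :=
    (h1.mul h2).limUnder_eq
  rw [h5, h3, ← h4, mul_assoc]

end

theorem ne_zero_of_norm (Ψ : LorentzFn) {f : ℂ → ℂ} (hn : hardyNorm Ψ f = 1) :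
    ∃ z ∈ ball (0 : ℂ) 1, f z ≠ 0 := by
  by_contra hcon
  push Not at hcon
  have h1 : hardyNorm Ψ f = 0 := by
    apply le_antisymm _ bot_le
    apply iSup₂_le
    intro r hr
    have : (fun t => f (circleMap 0 r t)) = fun _ => 0 := by
      funext t
      exact hcon _ (circle_mem hr t)
    rw [this, lorentzNorm_zero]
    exact zero_le
  rw [hn] at h1
  exact one_ne_zero h1

/-- multipliers into the space are multipliers of the inner part into `H^∞` -/
theorem mult_inner_iff (Ψ : LorentzFn) {f : ℂ → ℂ} (hd : DifferentiableOn ℂ f (ball 0 1))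
    (hn : hardyNorm Ψ f = 1) {h : ℝ → ℝ} (hb : ∃ C : ℝ, ∀ t, |h t| ≤ C) :
    (∃ g : ℂ → ℂ, MemHardy Ψ g ∧ ∀ᵐ t ∂mu, bv g t = h t * bv f t) ↔
      ∃ q, BddAn q ∧ ∀ᵐ t ∂mu, bv q t = h t * bv (innerPart f) t := by
  have hpos := Psi_pos_of_norm Ψ hn
  have hfm : MemHardy Ψ f := ⟨hd, by rw [hn]; exact ENNReal.one_lt_top⟩
  have hfb := isBdry_bv Ψ hpos hfm
  have h0 := ne_zero_of_norm Ψ hn
  obtain ⟨C, hC⟩ := hb
  constructor
  · rintro ⟨g, hg, hgh⟩
    exact mult_to_bdd hd hfb h0 hg.1 (isBdry_bv Ψ hpos hg) (K := max C 1)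
      (lt_max_of_lt_right one_pos) (fun t => (hC t).trans (le_max_left _ _)) hgh
  · rintro ⟨q, hq, hqh⟩
    obtain ⟨g, hg, hgb, hgh⟩ := bdd_to_mult hd hfb h0 hq hqh
    refine ⟨g, ⟨hg, ?_⟩, hgh⟩
    rw [hardyNorm_eq Ψ hg hgb]
    have h1 : lorentzNorm Ψ (bv g) ≤ lorentzNorm Ψ (fun t => (C : ℂ) * bv f t) := by
      apply lorentzNorm_mono
      filter_upwards [hgh] with t ht
      rw [ht, norm_mul, norm_mul, Complex.norm_real, Complex.norm_real, Real.norm_eq_abs,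
        Real.norm_eq_abs]
      exact mul_le_mul_of_nonneg_right ((hC t).trans (le_abs_self _)) (norm_nonneg _)
    refine h1.trans_lt ?_
    rw [lorentzNorm_smul, ← hardyNorm_eq Ψ hd hfb, hn, mul_one]
    exact ENNReal.ofReal_lt_top

end Pool.Agent.HL
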