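import Pool.Agent.HL.LayerCake

open MeasureTheory Set Filter Topology
open scoped ENNReal Real

namespace Pool.Agent.HL

/-- the Ky Fan type norm `K_s(x) = ∫_0^∞ min (s, |{|x| > τ}|) dτ`. -/
noncomputable def KF (s : ℝ) (x : ℝ → ℂ) : ℝ≥0∞ :=
  ∫⁻ τ in Ioi (0 : ℝ), min (ENNReal.ofReal s) (distr x (ENNReal.ofReal τ))

theorem measurable_distr (x : ℝ → ℂ) : Measurable (fun τ : ℝ => distr x (ENNReal.ofReal τ)) := by
  apply Antitone.measurable
  intro a b hab
  exact distr_anti x (ENNReal.ofReal_le_ofReal hab)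

/-- layer cake for the truncated function. -/
theorem lintegral_sub_eq {x : ℝ → ℂ} (hx : AEStronglyMeasurable x mu) {a : ℝ} (ha : 0 ≤ a) :
    ∫⁻ t, (‖x t‖ₑ - ENNReal.ofReal a) ∂mu
      = ∫⁻ τ in Ioi a, distr x (ENNReal.ofReal τ) := by
  have h1 : ∀ t, ‖x t‖ₑ - ENNReal.ofReal a = ENNReal.ofReal (max (‖x t‖ - a) 0) := by
    intro t
    rw [← ofReal_norm, ← ENNReal.ofReal_sub _ ha]
    rcases le_total (‖x t‖ - a) 0 with h | h
    · rw [max_eq_right h, ENNReal.ofReal_of_nonpos h, ENNReal.ofReal_zero]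
    · rw [max_eq_left h]
  simp_rw [h1]
  rw [lintegral_eq_lintegral_meas_lt (f := fun t => max (‖x t‖ - a) 0) mu
    (Eventually.of_forall (fun t => le_max_right _ _))]
  · have h2 : ∀ τ ∈ Ioi (0 : ℝ), mu {t | τ < max (‖x t‖ - a) 0}
        = distr x (ENNReal.ofReal (τ + a)) := by
      intro τ hτ
      have hτ' : (0 : ℝ) < τ := hτ
      unfold distr
      congr 1
      ext t
      simp only [mem_ofPred_eq]
      rw [← ofReal_norm, ENNReal.ofReal_lt_ofReal_iff_of_nonneg (by positivity)]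
      constructor
      · intro h
        rcases lt_max_iff.1 h with h | h
        · linarith
        · exact absurd h (not_lt.2 hτ'.le)
      · intro h
        exact lt_max_iff.2 (Or.inl (by linarith))
    rw [setLIntegral_congr_fun measurableSet_Ioi h2]
    have h3 := (measurePreserving_add_right volume a).setLIntegral_comp_preimage
      (measurableSet_Ioi (a := a)) (measurable_distr x)
    rw [← h3]
    congr 2
    ext τ
    simp
  · exact (hx.norm.aemeasurable.sub_const a).max aemeasurable_const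

theorem setLIntegral_Ioi_split {a : ℝ} (ha : 0 ≤ a) (f : ℝ → ℝ≥0∞) :
    ∫⁻ τ in Ioi (0 : ℝ), f τ = (∫⁻ τ in Ioc 0 a, f τ) + ∫⁻ τ in Ioi a, f τ := by
  have h := lintegral_union (μ := volume) (f := f) (measurableSet_Ioi (a := a))
    (show Disjoint (Ioc 0 a) (Ioi a) by
      rw [Set.disjoint_left]; intro τ h1 h2; exact absurd h1.2 (not_le.2 h2))
  rw [Ioc_union_Ioi_eq_Ioi ha] at h
  exact h

theorem KF_le {x : ℝ → ℂ} (hx : AEStronglyMeasurable x mu) (s : ℝ) {a : ℝ} (ha : 0 ≤ a) :
    KF s x ≤ ENNReal.ofReal s * ENNReal.ofReal a + ∫⁻ t, (‖x t‖ₑ - ENNReal.ofReal a) ∂mu := by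
  rw [lintegral_sub_eq hx ha, KF, setLIntegral_Ioi_split ha]
  apply add_le_add
  · calc ∫⁻ τ in Ioc 0 a, min (ENNReal.ofReal s) (distr x (ENNReal.ofReal τ))
        ≤ ∫⁻ τ in Ioc 0 a, ENNReal.ofReal s := lintegral_mono (fun τ => min_le_left _ _)
      _ = ENNReal.ofReal s * ENNReal.ofReal a := by
          rw [setLIntegral_const, Real.volume_Ioc, sub_zero]
  · exact lintegral_mono (fun τ => min_le_right _ _)

theorem KF_le_lintegral {x : ℝ → ℂ} (hx : AEStronglyMeasurable x mu) (s : ℝ) :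
    KF s x ≤ ∫⁻ t, ‖x t‖ₑ ∂mu := by
  have := KF_le hx s (le_refl (0 : ℝ))
  simpa using this

/-- existence of an optimal level -/
theorem exists_KF_eq {x : ℝ → ℂ} (hx : AEStronglyMeasurable x mu) (hx1 : ∫⁻ t, ‖x t‖ₑ ∂mu < ∞)
    {s : ℝ} (hs : 0 < s) :
    ∃ a : ℝ, 0 ≤ a ∧
      KF s x = ENNReal.ofReal s * ENNReal.ofReal a + ∫⁻ t, (‖x t‖ₑ - ENNReal.ofReal a) ∂mu := by
  have hfin : rearr x s < ∞ := by
    by_contra hcon
    have htop : rearr x s = ∞ := not_lt_top_iff.1 hcon
    have h1 : ∀ τ : ℝ, ENNReal.ofReal s ≤ distr x (ENNReal.ofReal τ) := by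
      intro τ
      exact ((lt_rearr_iff x s ENNReal.ofReal_lt_top).1 (by
        rw [htop]; exact ENNReal.ofReal_lt_top)).le
    have h2 : ∫⁻ t, ‖x t‖ₑ ∂mu = ∞ := by
      have h3 := lintegral_sub_eq hx (le_refl (0 : ℝ))
      simp only [ENNReal.ofReal_zero, tsub_zero] at h3
      rw [h3, eq_top_iff]
      calc (∞ : ℝ≥0∞) = ∫⁻ _ in Ioi (0 : ℝ), ENNReal.ofReal s := by
            rw [setLIntegral_const, Real.volume_Ioi, ENNReal.mul_top]
            exact (ENNReal.ofReal_pos.2 hs).ne'
        _ ≤ _ := lintegral_mono (fun τ => h1 τ)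
    exact absurd hx1 (by rw [h2]; simp)
  set a := (rearr x s).toReal with ha
  have ha0 : 0 ≤ a := ENNReal.toReal_nonneg
  have hra : ENNReal.ofReal a = rearr x s := ENNReal.ofReal_toReal hfin.ne
  refine ⟨a, ha0, ?_⟩
  rw [lintegral_sub_eq hx ha0, KF, setLIntegral_Ioi_split ha0]
  congr 1
  · rw [setLIntegral_congr Ioo_ae_eq_Ioc.symm]
    have h4 : ∀ τ ∈ Ioo (0 : ℝ) a, min (ENNReal.ofReal s) (distr x (ENNReal.ofReal τ))
        = ENNReal.ofReal s := by
      intro τ hτ
      apply min_eq_left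
      apply ((lt_rearr_iff x s ENNReal.ofReal_lt_top).1 _).le
      rw [← hra]
      exact (ENNReal.ofReal_lt_ofReal_iff_of_nonneg hτ.1.le).2 hτ.2
    rw [setLIntegral_congr_fun measurableSet_Ioo h4, setLIntegral_const, Real.volume_Ioo, sub_zero]
  · apply setLIntegral_congr_fun measurableSet_Ioi
    intro τ hτ
    apply min_eq_right
    rw [← not_lt]
    intro h5
    have h6 := (lt_rearr_iff x s ENNReal.ofReal_lt_top).2 h5
    rw [← hra] at h6
    have h7 : τ < a := (ENNReal.ofReal_lt_ofReal_iff_of_nonneg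
      (ha0.trans (le_of_lt (show a < τ from hτ)))).1 h6
    exact absurd h7 (not_lt.2 (le_of_lt (show a < τ from hτ)))

/-- optimal levels satisfy `|{|x| > c}| ≤ s ≤ |{|x| ≥ c}|`. -/
theorem levels_of_KF_eq {x : ℝ → ℂ} (hx : AEStronglyMeasurable x mu)
    (hx1 : ∫⁻ t, ‖x t‖ₑ ∂mu < ∞) {s : ℝ} (hs : 0 < s) (hs2 : s ≤ 2 * π) {c : ℝ} (hc : 0 ≤ c)
    (h : ENNReal.ofReal s * ENNReal.ofReal c + ∫⁻ t, (‖x t‖ₑ - ENNReal.ofReal c) ∂mu ≤ KF s x) :
    mu {t | c < ‖x t‖} ≤ ENNReal.ofReal s ∧ ENNReal.ofReal s ≤ mu {t | c ≤ ‖x t‖} := by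
  have hKfin : KF s x < ∞ := (KF_le_lintegral hx s).trans_lt hx1
  rw [lintegral_sub_eq hx hc, KF, setLIntegral_Ioi_split hc] at h
  have hK' : (∫⁻ τ in Ioc 0 c, min (ENNReal.ofReal s) (distr x (ENNReal.ofReal τ)))
      + ∫⁻ τ in Ioi c, min (ENNReal.ofReal s) (distr x (ENNReal.ofReal τ)) < ∞ := by
    rw [← setLIntegral_Ioi_split hc]; exact hKfin
  have hA : ∫⁻ τ in Ioc 0 c, min (ENNReal.ofReal s) (distr x (ENNReal.ofReal τ))
      ≤ ENNReal.ofReal s * ENNReal.ofReal c := by
    calc ∫⁻ τ in Ioc 0 c, min (ENNReal.ofReal s) (distr x (ENNReal.ofReal τ))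
          ≤ ∫⁻ τ in Ioc 0 c, ENNReal.ofReal s := lintegral_mono (fun τ => min_le_left _ _)
        _ = ENNReal.ofReal s * ENNReal.ofReal c := by
            rw [setLIntegral_const, Real.volume_Ioc, sub_zero]
  have hB : ∫⁻ τ in Ioi c, min (ENNReal.ofReal s) (distr x (ENNReal.ofReal τ))
      ≤ ∫⁻ τ in Ioi c, distr x (ENNReal.ofReal τ) := lintegral_mono (fun τ => min_le_right _ _)
  have hAfin := (le_self_add.trans_lt hK')
  have hBfin := (le_add_self.trans_lt hK')
  -- both inequalities are equalities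
  have hA' : ENNReal.ofReal s * ENNReal.ofReal c
      ≤ ∫⁻ τ in Ioc 0 c, min (ENNReal.ofReal s) (distr x (ENNReal.ofReal τ)) := by
    by_contra hcon
    have := ENNReal.add_lt_add_of_lt_of_le hBfin.ne (not_le.1 hcon) hB
    exact absurd h (not_le.2 this)
  have hB' : ∫⁻ τ in Ioi c, distr x (ENNReal.ofReal τ)
      ≤ ∫⁻ τ in Ioi c, min (ENNReal.ofReal s) (distr x (ENNReal.ofReal τ)) := by
    by_contra hcon
    have := ENNReal.add_lt_add_of_le_of_lt hAfin.ne hA (not_le.1 hcon)
    exact absurd h (not_le.2 this)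
  have hmin : Measurable (fun τ : ℝ => min (ENNReal.ofReal s) (distr x (ENNReal.ofReal τ))) :=
    measurable_const.min (measurable_distr x)
  have hBae := ae_eq_of_ae_le_of_lintegral_le (μ := volume.restrict (Ioi c))
    (Eventually.of_forall (fun τ => min_le_right (ENNReal.ofReal s) (distr x (ENNReal.ofReal τ))))
    hBfin.ne (measurable_distr x).aemeasurable hB'
  have hAae := ae_eq_of_ae_le_of_lintegral_le (μ := volume.restrict (Ioc 0 c))
    (f := fun τ : ℝ => min (ENNReal.ofReal s) (distr x (ENNReal.ofReal τ)))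
    (g := fun _ => ENNReal.ofReal s)
    (Eventually.of_forall (fun τ => min_le_left (ENNReal.ofReal s) (distr x (ENNReal.ofReal τ))))
    hAfin.ne aemeasurable_const (by
      rw [setLIntegral_const, Real.volume_Ioc, sub_zero]; exact hA')
  have hset : {t | c < ‖x t‖} = {t | ENNReal.ofReal c < ‖x t‖ₑ} := by
    ext t
    simp only [mem_ofPred_eq]
    rw [← ofReal_norm, ENNReal.ofReal_lt_ofReal_iff_of_nonneg hc]
  constructor
  · rw [hset]
    by_contra hcon
    obtain ⟨s', h1, h1', h2⟩ := exists_lt_distr ENNReal.ofReal_lt_top (not_le.1 hcon)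
    have hc' : c < s'.toReal := by
      rw [← ENNReal.ofReal_toReal h1'.ne] at h1
      exact (ENNReal.ofReal_lt_ofReal_iff_of_nonneg hc).1 h1
    have hpos : (volume.restrict (Ioi c)) (Ioo c s'.toReal) ≠ 0 := by
      have hsub : Ioo c s'.toReal ∩ Ioi c = Ioo c s'.toReal :=
        inter_eq_left.2 (fun τ hτ => hτ.1)
      rw [Measure.restrict_apply measurableSet_Ioo, hsub, Real.volume_Ioo]
      simpa using hc'
    have : ∃ τ ∈ Ioo c s'.toReal,
        min (ENNReal.ofReal s) (distr x (ENNReal.ofReal τ)) = distr x (ENNReal.ofReal τ) := by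
      by_contra hno
      push Not at hno
      apply hpos
      refine measure_mono_null ?_ (ae_iff.1 hBae)
      intro τ hτ
      exact hno τ hτ
    obtain ⟨τ, hτ, he⟩ := this
    have h3 : ENNReal.ofReal s < distr x (ENNReal.ofReal τ) := by
      refine lt_of_lt_of_le h2 (distr_anti x ?_)
      rw [← ENNReal.ofReal_toReal h1'.ne]
      exact ENNReal.ofReal_le_ofReal hτ.2.le
    rw [min_eq_left h3.le] at he
    exact absurd he h3.ne
  · rcases hc.eq_or_lt with h0 | h0
    · rw [← h0]
      have : {t | (0 : ℝ) ≤ ‖x t‖} = univ := by ext; simp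
      rw [this, mu_univ]
      exact ENNReal.ofReal_le_ofReal hs2
    · -- for every `τ < c`, `s ≤ distr τ`
      have h3 : ∀ τ : ℝ, 0 ≤ τ → τ < c → ENNReal.ofReal s ≤ distr x (ENNReal.ofReal τ) := by
        intro τ hτ0 hτ
        have hpos : (volume.restrict (Ioc 0 c)) (Ioo τ c) ≠ 0 := by
          have hsub : Ioo τ c ∩ Ioc 0 c = Ioo τ c :=
            inter_eq_left.2 (fun y hy => ⟨lt_of_le_of_lt hτ0 hy.1, hy.2.le⟩)
          rw [Measure.restrict_apply measurableSet_Ioo, hsub, Real.volume_Ioo]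
          simpa using hτ
        have : ∃ y ∈ Ioo τ c,
            min (ENNReal.ofReal s) (distr x (ENNReal.ofReal y)) = ENNReal.ofReal s := by
          by_contra hno
          push Not at hno
          apply hpos
          refine measure_mono_null ?_ (ae_iff.1 hAae)
          intro y hy
          exact hno y hy
        obtain ⟨y, hy, he⟩ := this
        exact (min_eq_left_iff.1 he).trans (distr_anti x (ENNReal.ofReal_le_ofReal hy.1.le))
      have hnm : NullMeasurableSet {t | c ≤ ‖x t‖} mu :=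
        nullMeasurableSet_le aemeasurable_const hx.norm.aemeasurable
      have h4 : {t | c ≤ ‖x t‖} = ⋂ n : ℕ, {t | c - c / (n + 1) < ‖x t‖} := by
        ext t
        simp only [mem_ofPred_eq, mem_iInter]
        constructor
        · intro h n
          have : 0 < c / ((n : ℝ) + 1) := by positivity
          linarith
        · intro h
          by_contra hcon
          have h5 : 0 < c - ‖x t‖ := by linarith [not_le.1 hcon]
          obtain ⟨n, hn⟩ := exists_nat_gt (c / (c - ‖x t‖))
          have h6 := h n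
          have h7 : c / ((n : ℝ) + 1) ≤ c - ‖x t‖ := by
            rw [div_le_iff₀ (by positivity)]
            have := (div_lt_iff₀ h5).1 hn
            nlinarith
          linarith
      rw [h4, Antitone.measure_iInter]
      · apply le_iInf
        intro n
        have h8 : {t | c - c / ((n : ℝ) + 1) < ‖x t‖}
            = {t | ENNReal.ofReal (c - c / ((n : ℝ) + 1)) < ‖x t‖ₑ} := by
          have h9 : 0 ≤ c - c / ((n : ℝ) + 1) := by
            rw [sub_nonneg, div_le_iff₀ (by positivity)]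
            have : (0 : ℝ) ≤ n := Nat.cast_nonneg n
            nlinarith
          ext t
          simp only [mem_ofPred_eq]
          rw [← ofReal_norm, ENNReal.ofReal_lt_ofReal_iff_of_nonneg h9]
        rw [h8]
        apply h3
        · rw [sub_nonneg, div_le_iff₀ (by positivity)]
          have : (0 : ℝ) ≤ n := Nat.cast_nonneg n
          nlinarith
        · have : 0 < c / ((n : ℝ) + 1) := by positivity
          linarith
      · intro m n hmn t ht
        simp only [mem_ofPred_eq] at ht ⊢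
        refine lt_of_le_of_lt ?_ ht
        have : (m : ℝ) ≤ n := by exact_mod_cast hmn
        gcongr
      · intro n
        exact nullMeasurableSet_lt aemeasurable_const hx.norm.aemeasurable
      · exact ⟨0, (measure_lt_top mu _).ne⟩

end Pool.Agent.HL
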