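import Pool.Agent.HL.InnerPart

/-!
# The criterion for strictly increasing `Ψ` in terms of the inner part and of `|F|`
-/

open MeasureTheory Set Filter Topology Metric
open scoped ENNReal Real

namespace Pool.Agent.HL

variable (Ψ : LorentzFn)

/-- `h |F|` is, at all critical levels of `|F|`, a Lipschitz function of `|F|`: there is a `K` such that
(1) at every bend `s` of `Ψ` there are a level `c` of `|F|` of rank `s` and a real `d` with
    `|h |F| - d| ≤ K ||F| - c|` a.e.;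
(2) if `Ψ(0+) > 0`, then for some real `d`, `|h |F| - d| ≤ K (‖F‖_∞ - |F|)` a.e. -/
def LipCond (F : ℝ → ℂ) (h : ℝ → ℝ) : Prop :=
  ∃ K : ℝ, (∀ s, IsBend Ψ s → ∃ c d : ℝ,
      mu {t | c < ‖F t‖} ≤ ENNReal.ofReal s ∧ ENNReal.ofReal s ≤ mu {t | c ≤ ‖F t‖} ∧
      ∀ᵐ t ∂mu, |h t * ‖F t‖ - d| ≤ K * |‖F t‖ - c|) ∧
    (0 < jump Ψ → ∃ d : ℝ, ∀ᵐ t ∂mu,
      |h t * ‖F t‖ - d| ≤ K * ((eLpNorm F ∞ mu).toReal - ‖F t‖))

theorem LipCond.congr {F : ℝ → ℂ} {h h' : ℝ → ℝ} (hm : LipCond Ψ F h)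
    (hh : h =ᵐ[mu] h') : LipCond Ψ F h' := by
  obtain ⟨K, h1, h2⟩ := hm
  refine ⟨K, fun s hs => ?_, fun hj => ?_⟩
  · obtain ⟨c, d, h3, h4, h5⟩ := h1 s hs
    refine ⟨c, d, h3, h4, ?_⟩
    filter_upwards [h5, hh] with t ht h5
    rw [← h5]
    exact ht
  · obtain ⟨d, hd⟩ := h2 hj
    refine ⟨d, ?_⟩
    filter_upwards [hd, hh] with t ht h5
    rw [← h5]
    exact ht

theorem norm_le_sup {F : ℝ → ℂ} (hj : 0 < jump Ψ) (hF : lorentzNorm Ψ F < ∞) :
    ∀ᵐ t ∂mu, ‖F t‖ ≤ (eLpNorm F ∞ mu).toReal := by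
  have h1 := lorentzNorm_dec Ψ F
  rw [rearr_zero_eq] at h1
  rw [h1] at hF
  have h2 := le_self_add.trans_lt hF
  have h3 : eLpNorm F ∞ mu < ∞ := by
    by_contra hcon
    rw [not_lt_top_iff.1 hcon, ENNReal.mul_top (ENNReal.ofReal_pos.2 hj).ne'] at h2
    exact absurd h2 (lt_irrefl _)
  rw [eLpNorm_exponent_top] at h3 ⊢
  filter_upwards [enorm_ae_le_eLpNormEssSup F mu] with t ht
  rw [← toReal_enorm]
  exact ENNReal.toReal_mono h3.ne ht

theorem LipCond.scale {F : ℝ → ℂ} {h : ℝ → ℝ} (hm : LipCond Ψ F h) (hF : lorentzNorm Ψ F < ∞)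
    {C : ℝ} (hC : ∀ t, |h t| ≤ C) :
    ∃ M : ℝ, 0 < M ∧ (∀ t, |h t / M| ≤ 1) ∧ MultCond Ψ F (fun t => h t / M) := by
  obtain ⟨K, h1, h2⟩ := hm
  set M := max (max C K) 1 with hM
  have hM0 : 0 < M := lt_max_of_lt_right one_pos
  have hKM : K ≤ M := (le_max_right _ _).trans (le_max_left _ _)
  have hCM : C ≤ M := (le_max_left _ _).trans (le_max_left _ _)
  have key : ∀ x y d : ℝ, 0 ≤ y → |x - d| ≤ K * y → |x / M - d / M| ≤ y := by
    intro x y d hy hxy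
    rw [← sub_div, abs_div, abs_of_pos hM0, div_le_iff₀ hM0]
    calc |x - d| ≤ K * y := hxy
      _ ≤ M * y := mul_le_mul_of_nonneg_right hKM hy
      _ = y * M := mul_comm _ _
  refine ⟨M, hM0, fun t => ?_, fun s hs => ?_, fun hj => ?_⟩
  · rw [abs_div, abs_of_pos hM0, div_le_one hM0]
    exact (hC t).trans hCM
  · obtain ⟨c, d, h3, h4, h5⟩ := h1 s hs
    refine ⟨c, d / M, h3, h4, ?_⟩
    filter_upwards [h5] with t ht
    have := key _ _ _ (abs_nonneg _) ht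
    rw [mul_div_right_comm] at this
    exact this
  · obtain ⟨d, hd⟩ := h2 hj
    refine ⟨d / M, ?_⟩
    filter_upwards [hd, norm_le_sup Ψ hj hF] with t ht ht2
    have := key _ _ _ (sub_nonneg.2 ht2) ht
    rw [mul_div_right_comm] at this
    exact this

theorem bv_bdd {q : ℂ → ℂ} (hq : BddAn q) : ∃ C : ℝ, ∀ᵐ t ∂mu, ‖bv q t‖ ≤ C := by
  have hb := hq.bdry
  obtain ⟨hd, C, hC⟩ := hq
  refine ⟨C, ?_⟩
  filter_upwards [radial_limits hd hb] with t ht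
  refine le_of_tendsto ht.norm ?_
  filter_upwards [Ioo_mem_nhdsLT one_pos] with r hr
  exact hC _ (circle_mem hr t)

/-- a real multiplier of a function of modulus one is bounded and measurable up to a null set -/
theorem exists_good_mult {q I : ℂ → ℂ} (hq : BddAn q) (hI : BddAn I) (hI1 : ∀ᵐ t ∂mu, ‖bv I t‖ = 1)
    {h : ℝ → ℝ} (hqh : ∀ᵐ t ∂mu, bv q t = h t * bv I t) :
    ∃ h' : ℝ → ℝ, AEMeasurable h' mu ∧ (∃ C, ∀ t, |h' t| ≤ C) ∧ h =ᵐ[mu] h' := by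
  obtain ⟨C, hC⟩ := bv_bdd hq
  set D := max C 0 with hD
  have hD0 : 0 ≤ D := le_max_right _ _
  refine ⟨fun t => max (-D) (min D (bv q t / bv I t).re), ?_, ⟨D, fun t => ?_⟩, ?_⟩
  · have h2 : AEMeasurable (fun t => (bv q t / bv I t).re) mu :=
      Complex.measurable_re.comp_aemeasurable
        (hq.bdry.1.1.aemeasurable.div hI.bdry.1.1.aemeasurable)
    exact aemeasurable_const.max (aemeasurable_const.min h2)
  · rw [abs_le]
    exact ⟨le_max_left _ _, max_le (by linarith) (min_le_left _ _)⟩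
  · filter_upwards [hC, hI1, hqh] with t h1 h2 h3
    have h4 : bv I t ≠ 0 := by
      rw [← norm_pos_iff, h2]
      exact one_pos
    have h5 : |h t| ≤ D := by
      rw [h3, norm_mul, h2, mul_one, Complex.norm_real, Real.norm_eq_abs] at h1
      exact h1.trans (le_max_left _ _)
    have h6 := abs_le.1 h5
    rw [h3, mul_div_cancel_right₀ _ h4, Complex.ofReal_re, min_eq_right h6.2, max_eq_right h6.1]

/-- **Criterion for strictly increasing `Ψ`**, in terms of the inner part `I` of `f` and of `|F|`. -/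
theorem extreme_iff_inner (hΨ : StrictMonoOn Ψ (Icc 0 (2 * π))) (f : ℂ → ℂ) :
    IsExtremePt Ψ f ↔ DifferentiableOn ℂ f (Metric.ball 0 1) ∧ hardyNorm Ψ f = 1 ∧
      ∀ h : ℝ → ℝ,
        (∃ q, BddAn q ∧ ∀ᵐ t ∂mu, bv q t = h t * bv (innerPart f) t) →
        LipCond Ψ (bv f) h → ∃ c : ℝ, ∀ᵐ t ∂mu, h t = c := by
  rw [extreme_iff_mult_bv Ψ hΨ]
  refine and_congr_right fun hd => and_congr_right fun hn => ?_
  have hpos := Psi_pos_of_norm Ψ hn
  have hfm : MemHardy Ψ f := ⟨hd, by rw [hn]; exact ENNReal.one_lt_top⟩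
  have hfb := isBdry_bv Ψ hpos hfm
  have hNF : lorentzNorm Ψ (bv f) < ∞ := by
    rw [← hardyNorm_eq Ψ hd hfb, hn]
    exact ENNReal.one_lt_top
  have h0 := ne_zero_of_norm Ψ hn
  have hIb := innerPart_bdd hd hfb h0
  have hI1 := norm_bv_innerPart hd hfb h0
  constructor
  · rintro H h ⟨q, hq, hqh⟩ hL
    obtain ⟨h', hm', ⟨C, hC⟩, hae⟩ := exists_good_mult hq hIb hI1 hqh
    obtain ⟨M, hM, h1, h2⟩ := (hL.congr Ψ hae).scale Ψ hNF hC
    have h3 : ∃ g : ℂ → ℂ, MemHardy Ψ g ∧ ∀ᵐ t ∂mu, bv g t = ((h' t / M : ℝ) : ℂ) * bv f t := by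
      rw [mult_inner_iff Ψ hd hn ⟨1, h1⟩]
      have hqd : BddAn (fun z => ((M⁻¹ : ℝ) : ℂ) * q z) := by
        refine ⟨hq.1.const_mul _, ?_⟩
        obtain ⟨C', hC'⟩ := hq.2
        refine ⟨M⁻¹ * C', fun z hz => ?_⟩
        rw [norm_mul, Complex.norm_real, Real.norm_of_nonneg (inv_nonneg.2 hM.le)]
        exact mul_le_mul_of_nonneg_left (hC' z hz) (inv_nonneg.2 hM.le)
      refine ⟨_, hqd, ?_⟩
      filter_upwards [radial_limits hq.1 hq.bdry, hqh, hae] with t h3 h4 h5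
      have h6 : bv (fun z => ((M⁻¹ : ℝ) : ℂ) * q z) t = ((M⁻¹ : ℝ) : ℂ) * bv q t :=
        (h3.const_mul _).limUnder_eq
      rw [h6, h4, h5]
      push_cast
      ring
    obtain ⟨c, hc⟩ := H _ (hm'.div_const M) h1 h3 h2
    refine ⟨c * M, ?_⟩
    filter_upwards [hc, hae] with t h4 h5
    rw [h5]
    field_simp at h4
    linarith
  · intro H h _ hh hg hm
    refine H h ((mult_inner_iff Ψ hd hn ⟨1, hh⟩).1 hg) ⟨1, fun s hs => ?_, fun hj => ?_⟩
    · obtain ⟨c, d, h1, h2, h3⟩ := hm.1 s hs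
      exact ⟨c, d, h1, h2, by simpa only [one_mul] using h3⟩
    · obtain ⟨d, hd⟩ := hm.2 hj
      exact ⟨d, by simpa only [one_mul] using hd⟩

end Pool.Agent.HL
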