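import Pool.Agent.HL.Norm

open MeasureTheory Set Filter Topology
open scoped ENNReal Real

namespace Pool.Agent.HL

variable (Ψ : LorentzFn)

/-- the Poisson kernel at `w`, as a function of the angle. -/
noncomputable def PK (w : ℂ) (θ : ℝ) : ℝ := poissonKernel 0 w (circleMap 0 1 θ)

theorem PK_eq (w : ℂ) (θ : ℝ) : PK w θ = (1 - ‖w‖ ^ 2) / ‖circleMap 0 1 θ - w‖ ^ 2 := by
  unfold PK
  rw [poissonKernel_def]
  simp

theorem PK_nonneg {w : ℂ} (hw : ‖w‖ < 1) (θ : ℝ) : 0 ≤ PK w θ := by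
  rw [PK_eq]
  apply div_nonneg _ (by positivity)
  have := norm_nonneg w
  nlinarith

theorem dist_circle (w : ℂ) (θ : ℝ) : 1 - ‖w‖ ≤ ‖circleMap 0 1 θ - w‖ := by
  have := norm_sub_norm_le (circleMap 0 1 θ) w
  simpa using this

theorem PK_le {w : ℂ} (hw : ‖w‖ < 1) (θ : ℝ) : PK w θ ≤ (1 - ‖w‖ ^ 2) / (1 - ‖w‖) ^ 2 := by
  rw [PK_eq]
  have h1 := dist_circle w θ
  have h2 : 0 < 1 - ‖w‖ := sub_pos.2 hw
  have h3 : 0 ≤ 1 - ‖w‖ ^ 2 := by nlinarith [norm_nonneg w]
  gcongr

theorem PK_cont {w : ℂ} (hw : ‖w‖ < 1) : Continuous (PK w) := by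
  have : PK w = fun θ => (1 - ‖w‖ ^ 2) / ‖circleMap 0 1 θ - w‖ ^ 2 := by
    funext θ; exact PK_eq w θ
  rw [this]
  apply Continuous.div
  · fun_prop
  · have := continuous_circleMap 0 1
    fun_prop
  · intro θ
    have h1 := dist_circle w θ
    have h2 : 0 < 1 - ‖w‖ := sub_pos.2 hw
    have : 0 < ‖circleMap 0 1 θ - w‖ := h2.trans_le h1
    positivity

theorem intervalIntegral_eq_mu {E : Type*} [NormedAddCommGroup E] [NormedSpace ℝ E] (f : ℝ → E) :
    ∫ θ in (0 : ℝ)..(2 * π), f θ = ∫ θ, f θ ∂mu := by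
  rw [intervalIntegral.integral_of_le two_pi_pos'.le, ← integral_Icc_eq_integral_Ioc]
  rfl

theorem poisson_dilate {f : ℂ → ℂ} (hf : DifferentiableOn ℂ f (Metric.ball 0 1)) {w : ℂ}
    (hw : ‖w‖ < 1) {ρ : ℝ} (hρ : ρ ∈ Ioo (0 : ℝ) 1) :
    ∫ θ, PK w θ • f (circleMap 0 ρ θ) ∂mu = (2 * π) • f (ρ * w) := by
  have hd : DiffContOnCl ℂ (fun z => f (ρ * z)) (Metric.ball 0 1) := by
    apply DifferentiableOn.diffContOnCl
    rw [closure_ball _ one_ne_zero]
    intro z hz
    have hz1 : ‖z‖ ≤ 1 := by simpa using hz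
    have hmem : (ρ : ℂ) * z ∈ Metric.ball (0 : ℂ) 1 := by
      rw [mem_ball_zero_iff, norm_mul, Complex.norm_real, Real.norm_of_nonneg hρ.1.le]
      calc ρ * ‖z‖ ≤ ρ * 1 := by gcongr; exact hρ.1.le
        _ < 1 := by linarith [hρ.2]
    have h1 : DifferentiableAt ℂ f ((ρ : ℂ) * z) :=
      (hf _ hmem).differentiableAt (Metric.isOpen_ball.mem_nhds hmem)
    exact (h1.comp z (by fun_prop)).differentiableWithinAt
  have h := hd.circleAverage_poissonKernel_smul (w := w) (by simpa using hw)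
  rw [Real.circleAverage_def, intervalIntegral_eq_mu] at h
  have h2 : ∀ θ, (poissonKernel 0 w • fun z => f (ρ * z)) (circleMap 0 1 θ)
      = PK w θ • f (circleMap 0 ρ θ) := by
    intro θ
    simp only [Pi.smul_apply', PK]
    congr 2
    simp [circleMap]
  simp_rw [h2] at h
  rw [← h, smul_smul, mul_inv_cancel₀ two_pi_pos'.ne', one_smul]

theorem circle_integrable {f : ℂ → ℂ} (hf : DifferentiableOn ℂ f (Metric.ball 0 1)) {ρ : ℝ}
    (hρ : ρ ∈ Ioo (0 : ℝ) 1) : Continuous (fun θ => f (circleMap 0 ρ θ)) := by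
  have h1 : ContinuousOn f (Metric.ball 0 1) := hf.continuousOn
  apply h1.comp_continuous (continuous_circleMap 0 ρ)
  intro θ
  rw [mem_ball_zero_iff, norm_circleMap_zero, abs_of_pos hρ.1]
  exact hρ.2

theorem cont_integrable {g : ℝ → ℂ} (hg : Continuous g) : Integrable g mu :=
  hg.continuousOn.integrableOn_compact isCompact_Icc

/-- Poisson representation of an analytic function with `L¹` boundary values -/
theorem poisson_repr {f : ℂ → ℂ} (hf : DifferentiableOn ℂ f (Metric.ball 0 1)) {F : ℝ → ℂ}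
    (hF : IsBdry f F) {w : ℂ} (hw : ‖w‖ < 1) :
    ∫ θ, PK w θ • F θ ∂mu = (2 * π) • f w := by
  set C : ℝ := (1 - ‖w‖ ^ 2) / (1 - ‖w‖) ^ 2 with hC
  have hev : ∀ᶠ ρ : ℝ in 𝓝[<] 1, ρ ∈ Ioo (0 : ℝ) 1 := Ioo_mem_nhdsLT one_pos
  have hint : Integrable (fun θ => PK w θ • F θ) mu := by
    exact hF.1.bdd_smul C (PK_cont hw).aestronglyMeasurable (Eventually.of_forall (fun θ => by
        rw [Real.norm_of_nonneg (PK_nonneg hw θ)]; exact PK_le hw θ))
  have h1 : Tendsto (fun ρ : ℝ => ∫ θ, PK w θ • f (circleMap 0 ρ θ) ∂mu) (𝓝[<] 1)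
      (𝓝 (∫ θ, PK w θ • F θ ∂mu)) := by
    apply tendsto_integral_of_L1 _ hint.1
    · filter_upwards [hev] with ρ hρ
      exact cont_integrable ((PK_cont hw).smul (circle_integrable hf hρ))
    · have h2 : Tendsto (fun ρ : ℝ => ENNReal.ofReal C *
          ∫⁻ t, ‖f (circleMap 0 ρ t) - F t‖ₑ ∂mu) (𝓝[<] 1) (𝓝 0) := by
        have := ENNReal.Tendsto.const_mul hF.2 (Or.inr (ENNReal.ofReal_ne_top (r := C)))
        rwa [mul_zero] at this
      refine tendsto_of_tendsto_of_tendsto_of_le_of_le tendsto_const_nhds h2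
        (fun _ => bot_le) (fun ρ => ?_)
      simp only
      rw [← lintegral_const_mul' _ _ ENNReal.ofReal_ne_top]
      apply lintegral_mono
      intro θ
      simp only
      rw [← smul_sub, enorm_smul]
      gcongr
      rw [← ofReal_norm, Real.norm_of_nonneg (PK_nonneg hw θ)]
      exact ENNReal.ofReal_le_ofReal (PK_le hw θ)
  have h3 : Tendsto (fun ρ : ℝ => (2 * π) • f (ρ * w)) (𝓝[<] 1) (𝓝 ((2 * π) • f w)) := by
    apply Tendsto.const_smul
    have h4 : ContinuousAt f w := (hf w (by simpa using hw)).differentiableAt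
      (Metric.isOpen_ball.mem_nhds (by simpa using hw)) |>.continuousAt
    have h5 : Tendsto (fun ρ : ℝ => (ρ : ℂ) * w) (𝓝[<] 1) (𝓝 w) := by
      have : Tendsto (fun ρ : ℝ => (ρ : ℂ) * w) (𝓝 1) (𝓝 (((1 : ℝ) : ℂ) * w)) :=
        Continuous.tendsto (by fun_prop) 1
      rw [Complex.ofReal_one, one_mul] at this
      exact this.mono_left nhdsWithin_le_nhds
    exact h4.tendsto.comp h5
  have h6 : Tendsto (fun ρ : ℝ => ∫ θ, PK w θ • f (circleMap 0 ρ θ) ∂mu) (𝓝[<] 1)
      (𝓝 ((2 * π) • f w)) := by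
    refine h3.congr' ?_
    filter_upwards [hev] with ρ hρ
    exact (poisson_dilate hf hw hρ).symm
  exact tendsto_nhds_unique h1 h6

/-- normalised kernel -/
noncomputable def pk (w : ℂ) (θ : ℝ) : ℝ≥0∞ := ENNReal.ofReal (PK w θ / (2 * π))

theorem lintegral_pk {w : ℂ} (hw : ‖w‖ < 1) : ∫⁻ θ, pk w θ ∂mu = 1 := by
  have h := poisson_dilate (f := fun _ => 1) (differentiableOn_const _) hw (ρ := 1 / 2)
    ⟨by norm_num, by norm_num⟩
  have hint : Integrable (PK w) mu :=
    (PK_cont hw).continuousOn.integrableOn_compact isCompact_Icc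
  have h2 : ∫ θ, PK w θ ∂mu = 2 * π := by
    have h3 : ∫ θ, PK w θ • (1 : ℂ) ∂mu = ∫ θ, ((PK w θ : ℝ) : ℂ) ∂mu := by
      congr 1
      funext θ
      simp
    rw [h3, integral_complex_ofReal] at h
    have h4 : (((2 * π : ℝ)) • (1 : ℂ)) = ((2 * π : ℝ) : ℂ) := by simp
    rw [h4] at h
    exact_mod_cast h
  unfold pk
  rw [← ofReal_integral_eq_lintegral_ofReal]
  · rw [integral_div, h2, div_self two_pi_pos'.ne', ENNReal.ofReal_one]
  · exact hint.div_const _
  · exact Eventually.of_forall (fun θ => div_nonneg (PK_nonneg hw θ) two_pi_pos'.le)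

theorem PK_symm (r : ℝ) (t θ : ℝ) : PK (circleMap 0 r t) θ = PK (circleMap 0 r θ) t := by
  rw [PK_eq, PK_eq]
  have h1 : ‖circleMap 0 r t‖ = ‖circleMap 0 r θ‖ := by simp
  have h2 : ‖circleMap 0 1 θ - circleMap 0 r t‖ ^ 2 = ‖circleMap 0 1 t - circleMap 0 r θ‖ ^ 2 := by
    rw [← Complex.normSq_eq_norm_sq, ← Complex.normSq_eq_norm_sq, Complex.normSq_apply,
      Complex.normSq_apply]
    simp only [circleMap, zero_add, Complex.ofReal_one, one_mul, Complex.sub_re, Complex.sub_im,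
      Complex.mul_re, Complex.mul_im, Complex.exp_ofReal_mul_I_re, Complex.exp_ofReal_mul_I_im,
      Complex.ofReal_re, Complex.ofReal_im, zero_mul, sub_zero, add_zero]
    have e1 := Real.sin_sq_add_cos_sq θ
    have e2 := Real.sin_sq_add_cos_sq t
    linear_combination (1 - r ^ 2) * e1 - (1 - r ^ 2) * e2
  rw [h1, h2]

theorem enorm_le_poisson {f : ℂ → ℂ} (hf : DifferentiableOn ℂ f (Metric.ball 0 1)) {F : ℝ → ℂ}
    (hF : IsBdry f F) {w : ℂ} (hw : ‖w‖ < 1) : ‖f w‖ₑ ≤ ∫⁻ θ, pk w θ * ‖F θ‖ₑ ∂mu := by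
  have h := poisson_repr hf hF hw
  have h1 : f w = ∫ θ, (PK w θ / (2 * π)) • F θ ∂mu := by
    have h2 : ∀ θ, (PK w θ / (2 * π)) • F θ = (2 * π)⁻¹ • (PK w θ • F θ) := by
      intro θ
      rw [smul_smul]
      congr 1
      ring
    simp_rw [h2]
    rw [integral_smul, h, smul_smul, inv_mul_cancel₀ two_pi_pos'.ne', one_smul]
  rw [h1]
  refine (enorm_integral_le_lintegral_enorm _).trans ?_
  apply lintegral_mono
  intro θ
  simp only
  rw [enorm_smul]
  gcongr
  rw [← ofReal_norm, Real.norm_of_nonneg (div_nonneg (PK_nonneg hw θ) two_pi_pos'.le)]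
  exact le_rfl

theorem norm_circle {r : ℝ} (hr : r ∈ Ioo (0 : ℝ) 1) (t : ℝ) : ‖circleMap 0 r t‖ < 1 := by
  rw [norm_circleMap_zero, abs_of_pos hr.1]; exact hr.2

theorem measurable_pk {w : ℂ} (hw : ‖w‖ < 1) : Measurable (pk w) := by
  unfold pk
  exact ENNReal.measurable_ofReal.comp ((PK_cont hw).measurable.div_const _)

theorem lintegral_sub_le {f : ℂ → ℂ} (hf : DifferentiableOn ℂ f (Metric.ball 0 1)) {F : ℝ → ℂ}
    (hF : IsBdry f F) {r : ℝ} (hr : r ∈ Ioo (0 : ℝ) 1) (a : ℝ≥0∞) :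
    ∫⁻ t, (‖f (circleMap 0 r t)‖ₑ - a) ∂mu ≤ ∫⁻ θ, (‖F θ‖ₑ - a) ∂mu := by
  have hpkm : Measurable (fun p : ℝ × ℝ => pk (circleMap 0 r p.1) p.2) := by
    unfold pk
    apply ENNReal.measurable_ofReal.comp
    apply Measurable.div_const
    simp_rw [PK_eq]
    have h1 : Measurable (circleMap 0 1) := (continuous_circleMap 0 1).measurable
    have h2 : Measurable (circleMap 0 r) := (continuous_circleMap 0 r).measurable
    fun_prop
  have hFm : AEMeasurable (fun θ => ‖F θ‖ₑ - a) mu := hF.1.1.enorm.sub_const _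
  calc ∫⁻ t, (‖f (circleMap 0 r t)‖ₑ - a) ∂mu
      ≤ ∫⁻ t, ∫⁻ θ, pk (circleMap 0 r t) θ * (‖F θ‖ₑ - a) ∂mu ∂mu := by
        apply lintegral_mono
        intro t
        simp only
        rw [tsub_le_iff_right]
        have hpk1 : Measurable (pk (circleMap 0 r t)) := measurable_pk (norm_circle hr t)
        calc ‖f (circleMap 0 r t)‖ₑ ≤ ∫⁻ θ, pk (circleMap 0 r t) θ * ‖F θ‖ₑ ∂mu :=
              enorm_le_poisson hf hF (norm_circle hr t)
          _ ≤ ∫⁻ θ, (pk (circleMap 0 r t) θ * (‖F θ‖ₑ - a) + pk (circleMap 0 r t) θ * a) ∂mu := by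
              apply lintegral_mono
              intro θ
              simp only
              rw [← mul_add]
              exact mul_le_mul' le_rfl le_tsub_add
          _ = _ := by
              rw [lintegral_add_right _ (hpk1.mul_const a), lintegral_mul_const _ hpk1,
                lintegral_pk (norm_circle hr t), one_mul]
    _ = ∫⁻ θ, ∫⁻ t, pk (circleMap 0 r t) θ * (‖F θ‖ₑ - a) ∂mu ∂mu := by
        apply lintegral_lintegral_swap
        exact hpkm.aemeasurable.mul (hFm.comp_snd)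
    _ = ∫⁻ θ, (‖F θ‖ₑ - a) ∂mu := by
        apply lintegral_congr
        intro θ
        have h3 : ∀ t, pk (circleMap 0 r t) θ = pk (circleMap 0 r θ) t := by
          intro t
          unfold pk
          rw [PK_symm]
        simp_rw [h3]
        rw [lintegral_mul_const _ (measurable_pk (norm_circle hr θ)),
          lintegral_pk (norm_circle hr θ), one_mul]

theorem KF_dilate_le {f : ℂ → ℂ} (hf : DifferentiableOn ℂ f (Metric.ball 0 1)) {F : ℝ → ℂ}
    (hF : IsBdry f F) {r : ℝ} (hr : r ∈ Ioo (0 : ℝ) 1) (s : ℝ) :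
    KF s (fun t => f (circleMap 0 r t)) ≤ KF s F := by
  rcases le_or_gt s 0 with hs | hs
  · have : KF s (fun t => f (circleMap 0 r t)) ≤ KF 0 _ := KF_mono_s _ hs
    rw [KF_zero] at this
    exact this.trans bot_le
  obtain ⟨a, ha, h⟩ := exists_KF_eq hF.1.1 hF.1.2 hs
  rw [h]
  refine (KF_le (circle_integrable hf hr).aestronglyMeasurable s ha).trans ?_
  exact add_le_add le_rfl (lintegral_sub_le hf hF hr _)

theorem eLpNorm_dilate_le {f : ℂ → ℂ} (hf : DifferentiableOn ℂ f (Metric.ball 0 1)) {F : ℝ → ℂ}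
    (hF : IsBdry f F) {r : ℝ} (hr : r ∈ Ioo (0 : ℝ) 1) :
    eLpNorm (fun t => f (circleMap 0 r t)) ∞ mu ≤ eLpNorm F ∞ mu := by
  rw [eLpNorm_exponent_top, eLpNorm_exponent_top]
  refine essSup_le_of_ae_le _ ?_
  refine Eventually.of_forall (fun t => ?_)
  simp only
  refine (enorm_le_poisson hf hF (norm_circle hr t)).trans ?_
  have hpk1 : Measurable (pk (circleMap 0 r t)) := measurable_pk (norm_circle hr t)
  calc ∫⁻ θ, pk (circleMap 0 r t) θ * ‖F θ‖ₑ ∂mu
      ≤ ∫⁻ θ, pk (circleMap 0 r t) θ * eLpNormEssSup F mu ∂mu := by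
        apply lintegral_mono_ae
        filter_upwards [enorm_ae_le_eLpNormEssSup F mu] with θ hθ
        gcongr
    _ = _ := by
        rw [lintegral_mul_const _ hpk1, lintegral_pk (norm_circle hr t), one_mul]

theorem lorentzNorm_dilate_le {f : ℂ → ℂ} (hf : DifferentiableOn ℂ f (Metric.ball 0 1))
    {F : ℝ → ℂ} (hF : IsBdry f F) {r : ℝ} (hr : r ∈ Ioo (0 : ℝ) 1) :
    lorentzNorm Ψ (fun t => f (circleMap 0 r t)) ≤ lorentzNorm Ψ F := by
  rw [lorentzNorm_dec, lorentzNorm_dec, rearr_zero_eq, rearr_zero_eq]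
  gcongr with l
  · exact eLpNorm_dilate_le hf hF hr
  · exact KF_dilate_le hf hF hr _

/-- the Hardy-Lorentz norm is the Lorentz norm of the boundary function. -/
theorem hardyNorm_eq {f : ℂ → ℂ} (hf : DifferentiableOn ℂ f (Metric.ball 0 1))
    {F : ℝ → ℂ} (hF : IsBdry f F) : hardyNorm Ψ f = lorentzNorm Ψ F := by
  apply le_antisymm
  · exact iSup₂_le (fun r hr => lorentzNorm_dilate_le Ψ hf hF hr)
  · set r : ℕ → ℝ := fun n => 1 - 1 / ((n : ℝ) + 2) with hr
    have hr1 : ∀ n, r n ∈ Ioo (0 : ℝ) 1 := by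
      intro n
      have h0 : (0 : ℝ) ≤ n := Nat.cast_nonneg n
      constructor
      · rw [hr]
        simp only [sub_pos]
        rw [div_lt_one (by positivity)]
        linarith
      · rw [hr]
        simp only [sub_lt_self_iff]
        positivity
    have hr2 : Tendsto r atTop (𝓝[<] 1) := by
      rw [tendsto_nhdsWithin_iff]
      refine ⟨?_, Eventually.of_forall (fun n => (hr1 n).2)⟩
      have h1 : Tendsto (fun n : ℕ => 1 / ((n : ℝ) + 2)) atTop (𝓝 0) := by
        have h2 : Tendsto (fun n : ℕ => (n : ℝ) + 2) atTop atTop :=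
          tendsto_natCast_atTop_atTop.atTop_add tendsto_const_nhds
        have h3 := h2.inv_tendsto_atTop
        refine h3.congr (fun n => ?_)
        rw [Pi.inv_apply, one_div]
      have := (tendsto_const_nhds (x := (1 : ℝ)) (f := atTop (α := ℕ))).sub h1
      rw [sub_zero] at this
      exact this
    apply lorentzNorm_lsc Ψ (x := fun n t => f (circleMap 0 (r n) t))
    · intro n
      exact cont_integrable (circle_integrable hf (hr1 n))
    · exact hF.1
    · exact hF.2.comp hr2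
    · intro n
      exact le_iSup₂ (f := fun r (_ : r ∈ Ioo (0 : ℝ) 1) =>
        lorentzNorm Ψ (fun t => f (circleMap 0 r t))) (r n) (hr1 n)

end Pool.Agent.HL
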