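import Pool.Agent.HL.Bends
import Pool.Agent.HL.Poisson
import Pool.Agent.HL.Hardy

open MeasureTheory Set Filter Topology
open scoped ENNReal Real

namespace Pool.Agent.HL

variable (Ψ : LorentzFn)

/-- `f` belongs to the closed unit ball of `H(Λ(Ψ))`. -/
def InBall (f : ℂ → ℂ) : Prop :=
  DifferentiableOn ℂ f (Metric.ball 0 1) ∧ hardyNorm Ψ f ≤ 1

/-- `f` is an extreme point of the closed unit ball of `H(Λ(Ψ))` : it belongs to the ball and is not
the midpoint of two distinct points of the ball (functions on the disc are compared on the disc). -/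
def IsExtremePt (f : ℂ → ℂ) : Prop :=
  InBall Ψ f ∧ ∀ p q : ℂ → ℂ, InBall Ψ p → InBall Ψ q →
    (∀ z ∈ Metric.ball (0 : ℂ) 1, f z = (p z + q z) / 2) →
      ∀ z ∈ Metric.ball (0 : ℂ) 1, p z = q z

theorem circle_mem {r : ℝ} (hr : r ∈ Ioo (0 : ℝ) 1) (t : ℝ) :
    circleMap 0 r t ∈ Metric.ball (0 : ℂ) 1 := by
  rw [mem_ball_zero_iff]; exact norm_circle hr t

theorem IsBdry.add {f g : ℂ → ℂ} {F G : ℝ → ℂ} (hf : DifferentiableOn ℂ f (Metric.ball 0 1))
    (hF : IsBdry f F) (hG : IsBdry g G) :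
    IsBdry (fun z => f z + g z) (fun t => F t + G t) := by
  refine ⟨hF.1.add hG.1, ?_⟩
  have h := hF.2.add hG.2
  rw [add_zero] at h
  have hev : ∀ᶠ ρ : ℝ in 𝓝[<] 1, ρ ∈ Ioo (0 : ℝ) 1 := Ioo_mem_nhdsLT one_pos
  refine tendsto_of_tendsto_of_tendsto_of_le_of_le' tendsto_const_nhds h
    (Eventually.of_forall fun _ => bot_le) ?_
  filter_upwards [hev] with r hr
  have hm : AEMeasurable (fun t => ‖f (circleMap 0 r t) - F t‖ₑ) mu :=
    ((circle_integrable hf hr).aestronglyMeasurable.sub hF.1.1).enorm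
  rw [← lintegral_add_left' hm]
  apply lintegral_mono
  intro t
  simp only
  calc ‖f (circleMap 0 r t) + g (circleMap 0 r t) - (F t + G t)‖ₑ
      = ‖(f (circleMap 0 r t) - F t) + (g (circleMap 0 r t) - G t)‖ₑ := by congr 1; ring
    _ ≤ _ := enorm_add_le _ _

theorem IsBdry.const_mul {f : ℂ → ℂ} {F : ℝ → ℂ} (hF : IsBdry f F) (c : ℂ) :
    IsBdry (fun z => c * f z) (fun t => c * F t) := by
  refine ⟨hF.1.const_mul c, ?_⟩
  have h := ENNReal.Tendsto.const_mul (a := ‖c‖ₑ) hF.2 (Or.inr (by simp))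
  rw [mul_zero] at h
  refine h.congr (fun r => ?_)
  rw [← lintegral_const_mul' _ _ (by simp)]
  apply lintegral_congr
  intro t
  rw [← enorm_mul]
  congr 1
  ring

theorem IsBdry.congr {f g : ℂ → ℂ} {F G : ℝ → ℂ} (hF : IsBdry f F)
    (h : ∀ z ∈ Metric.ball (0 : ℂ) 1, f z = g z) (hFG : F =ᵐ[mu] G) : IsBdry g G := by
  refine ⟨hF.1.congr hFG, ?_⟩
  refine hF.2.congr' ?_
  filter_upwards [Ioo_mem_nhdsLT one_pos] with r hr
  apply lintegral_congr_ae
  filter_upwards [hFG] with t ht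
  rw [h _ (circle_mem hr t), ht]

theorem IsBdry.unique {f : ℂ → ℂ} {F G : ℝ → ℂ} (hf : DifferentiableOn ℂ f (Metric.ball 0 1))
    (hF : IsBdry f F) (hG : IsBdry f G) : F =ᵐ[mu] G := by
  have h0 : ∫⁻ t, ‖F t - G t‖ₑ ∂mu = 0 := by
    have h := hF.2.add hG.2
    rw [add_zero] at h
    have hev : ∀ᶠ ρ : ℝ in 𝓝[<] 1, ρ ∈ Ioo (0 : ℝ) 1 := Ioo_mem_nhdsLT one_pos
    have : Tendsto (fun _ : ℝ => ∫⁻ t, ‖F t - G t‖ₑ ∂mu) (𝓝[<] 1) (𝓝 0) := by
      refine tendsto_of_tendsto_of_tendsto_of_le_of_le' tendsto_const_nhds h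
        (Eventually.of_forall fun _ => bot_le) ?_
      filter_upwards [hev] with r hr
      have hm : AEMeasurable (fun t => ‖f (circleMap 0 r t) - F t‖ₑ) mu :=
        ((circle_integrable hf hr).aestronglyMeasurable.sub hF.1.1).enorm
      rw [← lintegral_add_left' hm]
      apply lintegral_mono
      intro t
      simp only
      calc ‖F t - G t‖ₑ = ‖-(f (circleMap 0 r t) - F t) + (f (circleMap 0 r t) - G t)‖ₑ := by
            congr 1; ring
        _ ≤ ‖-(f (circleMap 0 r t) - F t)‖ₑ + ‖f (circleMap 0 r t) - G t‖ₑ := enorm_add_le _ _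
        _ = _ := by rw [enorm_neg]
    exact tendsto_nhds_unique tendsto_const_nhds this
  have hm' : AEMeasurable (fun t => ‖F t - G t‖ₑ) mu := (hF.1.1.sub hG.1.1).enorm
  rw [lintegral_eq_zero_iff' hm'] at h0
  filter_upwards [h0] with t ht
  simp only [Pi.zero_apply, enorm_eq_zero] at ht
  exact sub_eq_zero.1 ht

/-- an analytic function is determined by its boundary function -/
theorem eq_of_bdry {f g : ℂ → ℂ} {F : ℝ → ℂ} (hf : DifferentiableOn ℂ f (Metric.ball 0 1))
    (hg : DifferentiableOn ℂ g (Metric.ball 0 1)) (hF : IsBdry f F) (hG : IsBdry g F) :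
    ∀ z ∈ Metric.ball (0 : ℂ) 1, f z = g z := by
  intro z hz
  have hz' : ‖z‖ < 1 := by simpa using hz
  have h1 := poisson_repr hf hF hz'
  have h2 := poisson_repr hg hG hz'
  rw [h1] at h2
  exact smul_right_injective ℂ two_pi_pos'.ne' h2

theorem hardyNorm_congr {f g : ℂ → ℂ} (h : ∀ z ∈ Metric.ball (0 : ℂ) 1, f z = g z) :
    hardyNorm Ψ f = hardyNorm Ψ g := by
  unfold hardyNorm
  apply iSup_congr
  intro r
  apply iSup_congr
  intro hr
  congr 1
  funext t
  exact h _ (circle_mem hr t)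

theorem exists_bdry_of_hardyNorm (hΨ : 0 < Ψ (2 * π)) {f : ℂ → ℂ}
    (hf : DifferentiableOn ℂ f (Metric.ball 0 1)) (h : hardyNorm Ψ f < ∞) :
    ∃ F : ℝ → ℂ, IsBdry f F := by
  set k : ℝ≥0∞ := ENNReal.ofReal (Ψ (2 * π) / (2 * π)) with hk
  have hk0 : k ≠ 0 := (ENNReal.ofReal_pos.2 (by positivity)).ne'
  have hkt : k ≠ ∞ := ENNReal.ofReal_ne_top
  apply exists_bdry f hf (hardyNorm Ψ f / k) (ENNReal.div_lt_top h.ne hk0)
  intro r hr
  rw [ENNReal.le_div_iff_mul_le (Or.inl hk0) (Or.inl hkt), mul_comm]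
  refine (le_lorentzNorm Ψ (circle_integrable hf hr).aestronglyMeasurable).trans ?_
  exact le_iSup₂ (f := fun r (_ : r ∈ Ioo (0 : ℝ) 1) =>
        lorentzNorm Ψ (fun t => f (circleMap 0 r t))) r hr

/-- functions of norm less than one are not extreme. -/
theorem norm_eq_one_of_extreme {f : ℂ → ℂ} (h : IsExtremePt Ψ f) : hardyNorm Ψ f = 1 := by
  by_contra hne
  have hlt : hardyNorm Ψ f < 1 := lt_of_le_of_ne h.1.2 hne
  set δ : ℝ := (1 - hardyNorm Ψ f).toReal with hδ
  have hδt : 1 - hardyNorm Ψ f ≠ ∞ := (tsub_le_self.trans_lt ENNReal.one_lt_top).ne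
  have hδ0 : 0 < δ := ENNReal.toReal_pos (tsub_pos_of_lt hlt).ne' hδt
  have hΨ0 : 0 ≤ Ψ (2 * π) := Psi_nonneg Ψ two_pi_pos'.le le_rfl
  set ε : ℝ := δ / (Ψ (2 * π) + 1) with hε
  have hε0 : 0 < ε := by positivity
  have hεδ : ε * Ψ (2 * π) ≤ δ := by
    rw [hε, div_mul_eq_mul_div, div_le_iff₀ (by positivity)]
    nlinarith
  have key : ∀ c : ℂ, ‖c‖ = ε → InBall Ψ (fun z => f z + c) := by
    intro c hc
    refine ⟨h.1.1.add (differentiableOn_const _), ?_⟩
    apply iSup₂_le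
    intro r hr
    have h1 := lorentzNorm_add_le Ψ (x := fun t => f (circleMap 0 r t)) (y := fun _ => c)
      (cont_integrable (circle_integrable h.1.1 hr)) (cont_integrable continuous_const)
    refine h1.trans ?_
    have h2 : lorentzNorm Ψ (fun t => f (circleMap 0 r t)) ≤ hardyNorm Ψ f :=
      le_iSup₂ (f := fun r (_ : r ∈ Ioo (0 : ℝ) 1) =>
        lorentzNorm Ψ (fun t => f (circleMap 0 r t))) r hr
    have h3 : lorentzNorm Ψ (fun _ => c) ≤ 1 - hardyNorm Ψ f := by
      refine (lorentzNorm_const_le Ψ hε0.le (Eventually.of_forall fun _ => hc.le)).trans ?_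
      rw [← ENNReal.ofReal_mul hε0.le, ← ENNReal.ofReal_toReal hδt]
      exact ENNReal.ofReal_le_ofReal hεδ
    calc _ ≤ hardyNorm Ψ f + (1 - hardyNorm Ψ f) := add_le_add h2 h3
      _ = 1 := add_tsub_cancel_of_le hlt.le
  have h4 := h.2 _ _ (key (ε : ℂ) (by rw [Complex.norm_real, Real.norm_of_nonneg hε0.le]))
    (key (-(ε : ℂ)) (by rw [norm_neg, Complex.norm_real, Real.norm_of_nonneg hε0.le]))
    (fun z _ => by ring) 0 (by simp)
  have h5 : (ε : ℂ) = 0 := by linear_combination (1 / 2 : ℂ) * h4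
  exact hε0.ne' (by exact_mod_cast h5)

theorem Psi_pos_of_norm {f : ℂ → ℂ} (h : hardyNorm Ψ f = 1) : 0 < Ψ (2 * π) := by
  have hΨ0 : 0 ≤ Ψ (2 * π) := Psi_nonneg Ψ two_pi_pos'.le le_rfl
  rcases hΨ0.eq_or_lt with h0 | h0
  · exfalso
    have h1 : hardyNorm Ψ f = 0 := by
      apply le_antisymm _ bot_le
      apply iSup₂_le
      intro r _
      rw [lorentzNorm_eq]
      have h2 : ∀ τ : ℝ, ENNReal.ofReal (Ψ (distr (fun t => f (circleMap 0 r t))
          (ENNReal.ofReal τ)).toReal) = 0 := by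
        intro τ
        rw [ENNReal.ofReal_eq_zero, h0]
        have hD2 : (distr (fun t => f (circleMap 0 r t)) (ENNReal.ofReal τ)).toReal ≤ 2 * π := by
          have := ENNReal.toReal_mono ENNReal.ofReal_ne_top
            (distr_le (fun t => f (circleMap 0 r t)) (ENNReal.ofReal τ))
          rwa [ENNReal.toReal_ofReal two_pi_pos'.le] at this
        exact Ψ.mono' ⟨ENNReal.toReal_nonneg, hD2⟩ ⟨two_pi_pos'.le, le_rfl⟩ hD2
      simp_rw [h2]
      simp
    rw [h] at h1
    exact one_ne_zero h1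
  · exact h0

theorem comb_le {F G : ℝ → ℂ} (hF : Integrable F mu) (hG : Integrable G mu) {a b : ℝ}
    (ha : 0 ≤ a) (hb : 0 ≤ b) :
    lorentzNorm Ψ (fun t => (a : ℂ) * F t + (b : ℂ) * G t)
      ≤ ENNReal.ofReal a * lorentzNorm Ψ F + ENNReal.ofReal b * lorentzNorm Ψ G := by
  refine (lorentzNorm_add_le Ψ (hF.const_mul _) (hG.const_mul _)).trans ?_
  rw [lorentzNorm_smul, lorentzNorm_smul, abs_of_nonneg ha, abs_of_nonneg hb]

/-- the general criterion (internal form) -/
theorem extreme_iff' {f : ℂ → ℂ} (hf : InBall Ψ f) :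
    IsExtremePt Ψ f ↔ hardyNorm Ψ f = 1 ∧ ∃ F, IsBdry f F ∧ ∀ (g : ℂ → ℂ) (G : ℝ → ℂ),
      MemHardy Ψ g → IsBdry g G → Perturb' Ψ F G →
        ∃ c : ℝ, ∀ z ∈ Metric.ball (0 : ℂ) 1, g z = c * f z := by
  constructor
  · intro hext
    have hnorm := norm_eq_one_of_extreme Ψ hext
    have hΨ := Psi_pos_of_norm Ψ hnorm
    obtain ⟨F, hF⟩ := exists_bdry_of_hardyNorm Ψ hΨ hf.1 (by rw [hnorm]; exact ENNReal.one_lt_top)
    refine ⟨hnorm, F, hF, ?_⟩
    intro g G hg hG hpert
    have hNF : lorentzNorm Ψ F = 1 := by rw [← hardyNorm_eq Ψ hf.1 hF]; exact hnorm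
    have hNG : lorentzNorm Ψ G < ∞ := by rw [← hardyNorm_eq Ψ hg.1 hG]; exact hg.2
    have hP : lorentzNorm Ψ (fun t => F t + G t) < ∞ := by
      refine (lorentzNorm_add_le Ψ hF.1 hG.1).trans_lt ?_
      rw [hNF]
      exact ENNReal.add_lt_top.2 ⟨ENNReal.one_lt_top, hNG⟩
    have hQ : lorentzNorm Ψ (fun t => F t - G t) < ∞ := by
      have h1 := lorentzNorm_add_le Ψ hF.1 hG.1.neg
      have h2 : lorentzNorm Ψ (-G) = lorentzNorm Ψ G :=
        lorentzNorm_congr Ψ (Eventually.of_forall fun t => by simp)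
      rw [h2, hNF] at h1
      have h3 : (fun t => F t + (-G) t) = fun t => F t - G t := by
        funext t; simp [sub_eq_add_neg]
      rw [h3] at h1
      exact h1.trans_lt (ENNReal.add_lt_top.2 ⟨ENNReal.one_lt_top, hNG⟩)
    have hsum := (main_iff Ψ hF.1 hG.1 (by rw [hNF]; exact ENNReal.one_lt_top) hP hQ).2 hpert
    rw [hNF, mul_one] at hsum
    set P : ℝ := (lorentzNorm Ψ (fun t => F t + G t)).toReal with hPdef
    set Q : ℝ := (lorentzNorm Ψ (fun t => F t - G t)).toReal with hQdef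
    have eP : lorentzNorm Ψ (fun t => F t + G t) = ENNReal.ofReal P :=
      (ENNReal.ofReal_toReal hP.ne).symm
    have eQ : lorentzNorm Ψ (fun t => F t - G t) = ENNReal.ofReal Q :=
      (ENNReal.ofReal_toReal hQ.ne).symm
    have hP0 : 0 ≤ P := ENNReal.toReal_nonneg
    have hQ0 : 0 ≤ Q := ENNReal.toReal_nonneg
    have hPQ : P + Q ≤ 2 := by
      rw [eP, eQ, ← ENNReal.ofReal_add hP0 hQ0] at hsum
      have : (2 : ℝ≥0∞) = ENNReal.ofReal 2 := by simp
      rw [this] at hsum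
      exact (ENNReal.ofReal_le_ofReal_iff (by norm_num)).1 hsum
    set κ : ℝ := P - 1 with hκ
    -- the two points
    set p : ℂ → ℂ := fun z => (((1 - κ) / 2 : ℝ) : ℂ) * f z + ((1 / 2 : ℝ) : ℂ) * (f z + g z)
      with hp
    set q : ℂ → ℂ := fun z => (((1 + κ) / 2 : ℝ) : ℂ) * f z
      + ((1 / 2 : ℝ) : ℂ) * (f z + (-1) * g z) with hq
    have hdneg : DifferentiableOn ℂ (fun z => (-1 : ℂ) * g z) (Metric.ball 0 1) :=
      hg.1.const_mul (-1)
    have hdp : DifferentiableOn ℂ p (Metric.ball 0 1) :=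
      (hf.1.const_mul _).add ((hf.1.add hg.1).const_mul _)
    have hdq : DifferentiableOn ℂ q (Metric.ball 0 1) :=
      (hf.1.const_mul _).add ((hf.1.add hdneg).const_mul _)
    have hBp : IsBdry p (fun t => (((1 - κ) / 2 : ℝ) : ℂ) * F t
        + ((1 / 2 : ℝ) : ℂ) * (F t + G t)) :=
      IsBdry.add (hf.1.const_mul _) (hF.const_mul _) ((IsBdry.add hf.1 hF hG).const_mul _)
    have hBq : IsBdry q (fun t => (((1 + κ) / 2 : ℝ) : ℂ) * F t
        + ((1 / 2 : ℝ) : ℂ) * (F t + (-1) * G t)) :=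
      IsBdry.add (hf.1.const_mul _) (hF.const_mul _)
        ((IsBdry.add hf.1 hF (hG.const_mul (-1))).const_mul _)
    have hInp : InBall Ψ p := by
      refine ⟨hdp, ?_⟩
      rw [hardyNorm_eq Ψ hdp hBp]
      refine (comb_le Ψ hF.1 (hF.1.add hG.1) (by linarith) (by norm_num)).trans ?_
      have e1 : lorentzNorm Ψ (F + G) = ENNReal.ofReal P := eP
      rw [e1, hNF, mul_one, ← ENNReal.ofReal_mul (by norm_num), ← ENNReal.ofReal_add (by linarith)
        (by positivity), ENNReal.ofReal_le_one]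
      linarith
    have hInq : InBall Ψ q := by
      refine ⟨hdq, ?_⟩
      rw [hardyNorm_eq Ψ hdq hBq]
      have e2 : (fun t => F t + (-1) * G t) = fun t => F t - G t := by
        funext t; ring
      refine (comb_le Ψ hF.1 (G := fun t => F t + (-1) * G t) (hF.1.add (hG.1.const_mul _))
        (by linarith) (by norm_num)).trans ?_
      rw [e2, eQ, hNF, mul_one, ← ENNReal.ofReal_mul (by norm_num), ← ENNReal.ofReal_add
        (by linarith) (by positivity), ENNReal.ofReal_le_one]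
      linarith
    have hmid : ∀ z ∈ Metric.ball (0 : ℂ) 1, f z = (p z + q z) / 2 := by
      intro z _
      rw [hp, hq]
      push_cast
      ring
    have heq := hext.2 p q hInp hInq hmid
    refine ⟨κ, ?_⟩
    intro z hz
    have h1 := heq z hz
    rw [hp, hq] at h1
    push_cast at h1
    linear_combination h1
  · rintro ⟨hnorm, F, hF, hcond⟩
    have hΨ := Psi_pos_of_norm Ψ hnorm
    refine ⟨hf, ?_⟩
    intro p q hp hq hmid
    obtain ⟨P, hP⟩ := exists_bdry_of_hardyNorm Ψ hΨ hp.1 (hp.2.trans_lt ENNReal.one_lt_top)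
    obtain ⟨Q, hQ⟩ := exists_bdry_of_hardyNorm Ψ hΨ hq.1 (hq.2.trans_lt ENNReal.one_lt_top)
    have hNF : lorentzNorm Ψ F = 1 := by rw [← hardyNorm_eq Ψ hf.1 hF]; exact hnorm
    have hNP : lorentzNorm Ψ P ≤ 1 := by rw [← hardyNorm_eq Ψ hp.1 hP]; exact hp.2
    have hNQ : lorentzNorm Ψ Q ≤ 1 := by rw [← hardyNorm_eq Ψ hq.1 hQ]; exact hq.2
    set g : ℂ → ℂ := fun z => (1 / 2 : ℂ) * (p z + (-1) * q z) with hg
    set G : ℝ → ℂ := fun t => (1 / 2 : ℂ) * (P t + (-1) * Q t) with hG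
    have hdg : DifferentiableOn ℂ g (Metric.ball 0 1) :=
      (hp.1.add (hq.1.const_mul (-1))).const_mul _
    have hBg : IsBdry g G := (IsBdry.add hp.1 hP (hQ.const_mul (-1))).const_mul _
    have hBf : IsBdry f (fun t => (1 / 2 : ℂ) * (P t + Q t)) := by
      have h1 : IsBdry (fun z => (1 / 2 : ℂ) * (p z + q z)) (fun t => (1 / 2 : ℂ) * (P t + Q t)) :=
        (IsBdry.add hp.1 hP hQ).const_mul _
      apply h1.congr _ EventuallyEq.rfl
      intro z hz
      rw [hmid z hz]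
      ring
    have hFae := IsBdry.unique hf.1 hF hBf
    have hplus : lorentzNorm Ψ (fun t => F t + G t) = lorentzNorm Ψ P := by
      apply lorentzNorm_congr
      filter_upwards [hFae] with t ht
      rw [ht, hG]
      congr 1
      ring
    have hminus : lorentzNorm Ψ (fun t => F t - G t) = lorentzNorm Ψ Q := by
      apply lorentzNorm_congr
      filter_upwards [hFae] with t ht
      rw [ht, hG]
      congr 1
      ring
    have hpert : Perturb' Ψ F G := by
      apply (main_iff Ψ hF.1 hBg.1 (by rw [hNF]; exact ENNReal.one_lt_top)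
        (by rw [hplus]; exact hNP.trans_lt ENNReal.one_lt_top)
        (by rw [hminus]; exact hNQ.trans_lt ENNReal.one_lt_top)).1
      rw [hplus, hminus, hNF, mul_one, ← one_add_one_eq_two]
      exact add_le_add hNP hNQ
    have hmem : MemHardy Ψ g := by
      refine ⟨hdg, ?_⟩
      rw [hardyNorm_eq Ψ hdg hBg]
      have h1 : G = fun t => ((1 / 2 : ℝ) : ℂ) * P t + ((1 / 2 : ℝ) : ℂ) * ((-1) * Q t) := by
        rw [hG]
        funext t
        push_cast
        ring
      rw [h1]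
      have h2 : lorentzNorm Ψ (fun t => (-1) * Q t) = lorentzNorm Ψ Q :=
        lorentzNorm_congr Ψ (Eventually.of_forall fun t => by simp)
      refine (comb_le Ψ hP.1 (G := fun t => (-1) * Q t) (hQ.1.const_mul _) (by norm_num)
        (by norm_num)).trans_lt ?_
      rw [h2]
      exact ENNReal.add_lt_top.2 ⟨ENNReal.mul_lt_top ENNReal.ofReal_lt_top
        (hNP.trans_lt ENNReal.one_lt_top), ENNReal.mul_lt_top ENNReal.ofReal_lt_top
        (hNQ.trans_lt ENNReal.one_lt_top)⟩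
    obtain ⟨c, hc⟩ := hcond g G hmem hBg hpert
    -- `p = (1 + c) f`, `q = (1 - c) f`
    have hpf : ∀ z ∈ Metric.ball (0 : ℂ) 1, p z = ((1 + c : ℝ) : ℂ) * f z := by
      intro z hz
      have h1 := hc z hz
      have h2 := hmid z hz
      rw [hg] at h1
      simp only at h1
      push_cast
      linear_combination h1 - h2
    have hqf : ∀ z ∈ Metric.ball (0 : ℂ) 1, q z = ((1 - c : ℝ) : ℂ) * f z := by
      intro z hz
      have h1 := hc z hz
      have h2 := hmid z hz
      rw [hg] at h1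
      simp only at h1
      push_cast
      linear_combination - h1 - h2
    have hn : ∀ a : ℝ, hardyNorm Ψ (fun z => (a : ℂ) * f z) = ENNReal.ofReal |a| := by
      intro a
      rw [hardyNorm_eq Ψ (hf.1.const_mul _) (hF.const_mul _), lorentzNorm_smul, hNF, mul_one]
    have h1 : |1 + c| ≤ 1 := by
      have := hp.2
      rw [hardyNorm_congr Ψ hpf, hn] at this
      rwa [ENNReal.ofReal_le_one] at this
    have h2 : |1 - c| ≤ 1 := by
      have := hq.2
      rw [hardyNorm_congr Ψ hqf, hn] at this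
      rwa [ENNReal.ofReal_le_one] at this
    have hc0 : c = 0 := by
      have h3 := (abs_le.1 h1).2
      have h4 := (abs_le.1 h2).2
      linarith
    intro z hz
    rw [hpf z hz, hqf z hz, hc0]
    simp

end Pool.Agent.HL
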