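import Pool.Agent.HL.Slope

open MeasureTheory Set Filter Topology
open scoped ENNReal Real

namespace Pool.Agent.HL

variable (Ψ : LorentzFn)

theorem rearr_zero_eq (x : ℝ → ℂ) : rearr x 0 = eLpNorm x ∞ mu := by
  rw [eLpNorm_exponent_top, eLpNormEssSup, essSup_eq_sInf, rearr]
  congr 1
  ext s
  simp only [mem_ofPred_eq, ENNReal.ofReal_zero, distr, nonpos_iff_eq_zero]

theorem distr_mono {x y : ℝ → ℂ} (h : ∀ᵐ t ∂mu, ‖x t‖ ≤ ‖y t‖) (s : ℝ≥0∞) :
    distr x s ≤ distr y s := by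
  apply measure_mono_ae
  filter_upwards [h] with t ht hs
  have hs' : s < ‖x t‖ₑ := hs
  have : ‖x t‖ₑ ≤ ‖y t‖ₑ := by
    rw [← ofReal_norm, ← ofReal_norm]; exact ENNReal.ofReal_le_ofReal ht
  exact hs'.trans_le this

theorem lorentzNorm_mono {x y : ℝ → ℂ} (h : ∀ᵐ t ∂mu, ‖x t‖ ≤ ‖y t‖) :
    lorentzNorm Ψ x ≤ lorentzNorm Ψ y := by
  rw [lorentzNorm_eq, lorentzNorm_eq]
  apply lintegral_mono
  intro τ
  apply ENNReal.ofReal_le_ofReal
  have h2 : ∀ z : ℝ → ℂ, (distr z (ENNReal.ofReal τ)).toReal ∈ Icc 0 (2 * π) := by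
    intro z
    refine ⟨ENNReal.toReal_nonneg, ?_⟩
    have := ENNReal.toReal_mono ENNReal.ofReal_ne_top (distr_le z (ENNReal.ofReal τ))
    rwa [ENNReal.toReal_ofReal two_pi_pos'.le] at this
  exact Ψ.mono' (h2 x) (h2 y) (ENNReal.toReal_mono (distr_lt_top y _).ne (distr_mono h _))

theorem lorentzNorm_congr {x y : ℝ → ℂ} (h : ∀ᵐ t ∂mu, ‖x t‖ = ‖y t‖) :
    lorentzNorm Ψ x = lorentzNorm Ψ y :=
  le_antisymm (lorentzNorm_mono Ψ (h.mono fun _ ht => ht.le))
    (lorentzNorm_mono Ψ (h.mono fun _ ht => ht.ge))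

theorem KF_zero (x : ℝ → ℂ) : KF 0 x = 0 := by
  simp [KF]

theorem KF_mono_s (x : ℝ → ℂ) : Monotone (fun s => KF s x) := by
  intro s s' h
  apply lintegral_mono
  intro τ
  exact min_le_min_right _ (ENNReal.ofReal_le_ofReal h)

theorem KF_add_le {x y : ℝ → ℂ} (hx : AEStronglyMeasurable x mu) (hy : AEStronglyMeasurable y mu)
    (hx1 : ∫⁻ t, ‖x t‖ₑ ∂mu < ∞) (hy1 : ∫⁻ t, ‖y t‖ₑ ∂mu < ∞) (s : ℝ) :
    KF s (fun t => x t + y t) ≤ KF s x + KF s y := by
  rcases le_or_gt s 0 with hs | hs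
  · have : KF s (fun t => x t + y t) ≤ KF 0 (fun t => x t + y t) := KF_mono_s _ hs
    rw [KF_zero] at this
    exact this.trans bot_le
  obtain ⟨a, ha, hax⟩ := exists_KF_eq hx hx1 hs
  obtain ⟨b, hb, hby⟩ := exists_KF_eq hy hy1 hs
  rw [hax, hby]
  have hxe : AEMeasurable (fun t => ‖x t‖ₑ - ENNReal.ofReal a) mu := hx.enorm.sub_const _
  calc KF s (fun t => x t + y t)
      ≤ ENNReal.ofReal s * ENNReal.ofReal (a + b)
        + ∫⁻ t, (‖x t + y t‖ₑ - ENNReal.ofReal (a + b)) ∂mu := KF_le (hx.add hy) s (by positivity)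
    _ ≤ ENNReal.ofReal s * ENNReal.ofReal (a + b)
        + ∫⁻ t, ((‖x t‖ₑ - ENNReal.ofReal a) + (‖y t‖ₑ - ENNReal.ofReal b)) ∂mu := by
        gcongr with t
        rw [ENNReal.ofReal_add ha hb]
        refine (tsub_le_tsub_right (enorm_add_le (x t) (y t)) _).trans ?_
        exact add_tsub_add_le_tsub_add_tsub
    _ = _ := by
        rw [lintegral_add_left' hxe, ENNReal.ofReal_add ha hb]
        ring

theorem lorentzNorm_add_le {x y : ℝ → ℂ} (hx : Integrable x mu) (hy : Integrable y mu) :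
    lorentzNorm Ψ (fun t => x t + y t) ≤ lorentzNorm Ψ x + lorentzNorm Ψ y := by
  rw [lorentzNorm_dec, lorentzNorm_dec, lorentzNorm_dec, rearr_zero_eq, rearr_zero_eq,
    rearr_zero_eq]
  have h1 : eLpNorm (fun t => x t + y t) ∞ mu ≤ eLpNorm x ∞ mu + eLpNorm y ∞ mu :=
    eLpNorm_add_le hx.1 hy.1 (by simp)
  have hmeas : Measurable (fun l => KF (sOf Ψ l) x) :=
    (KF_mono_s x).comp_antitone (sOf_anti Ψ) |>.measurable
  calc _ ≤ ENNReal.ofReal (jump Ψ) * (eLpNorm x ∞ mu + eLpNorm y ∞ mu)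
        + ∫⁻ l in Ioi (0 : ℝ), (KF (sOf Ψ l) x + KF (sOf Ψ l) y) := by
        gcongr with l
        exact KF_add_le hx.1 hy.1 hx.2 hy.2 _
    _ = _ := by
        rw [lintegral_add_left hmeas]
        ring

theorem enorm_real (c : ℝ) (hc : 0 ≤ c) : ‖(c : ℂ)‖ₑ = ENNReal.ofReal c := by
  rw [← ofReal_norm, Complex.norm_real, Real.norm_of_nonneg hc]

theorem distr_smul (c : ℝ) (hc : 0 < c) (x : ℝ → ℂ) (τ : ℝ≥0∞) :
    distr (fun t => (c : ℂ) * x t) τ = distr x (τ / ENNReal.ofReal c) := by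
  unfold distr
  congr 1
  ext t
  simp only [mem_ofPred_eq]
  rw [enorm_mul, enorm_real c hc.le, mul_comm,
    ENNReal.div_lt_iff (Or.inl (ENNReal.ofReal_pos.2 hc).ne') (Or.inl ENNReal.ofReal_ne_top)]

theorem rearr_smul (c : ℝ) (hc : 0 < c) (x : ℝ → ℂ) (t : ℝ) :
    rearr (fun t => (c : ℂ) * x t) t = ENNReal.ofReal c * rearr x t := by
  have hc0 := (ENNReal.ofReal_pos.2 hc).ne'
  have key : ∀ τ : ℝ≥0∞, τ < ∞ → (τ < rearr (fun t => (c : ℂ) * x t) t ↔
      τ < ENNReal.ofReal c * rearr x t) := by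
    intro τ hτ
    have h1 : τ / ENNReal.ofReal c < ∞ := ENNReal.div_lt_top hτ.ne hc0
    rw [lt_rearr_iff _ _ hτ, distr_smul c hc, ← lt_rearr_iff _ _ h1,
      ENNReal.div_lt_iff (Or.inl hc0) (Or.inl ENNReal.ofReal_ne_top), mul_comm]
  apply le_antisymm
  · apply le_of_forall_lt
    intro τ hτ
    exact (key τ (hτ.trans_le le_top)).1 hτ
  · apply le_of_forall_lt
    intro τ hτ
    exact (key τ (hτ.trans_le le_top)).2 hτ

theorem lorentzNorm_smul_pos (c : ℝ) (hc : 0 < c) (x : ℝ → ℂ) :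
    lorentzNorm Ψ (fun t => (c : ℂ) * x t) = ENNReal.ofReal c * lorentzNorm Ψ x := by
  unfold lorentzNorm
  simp_rw [rearr_smul c hc x]
  rw [lintegral_const_mul' _ _ ENNReal.ofReal_ne_top]

theorem lorentzNorm_zero : lorentzNorm Ψ (fun _ => 0) = 0 := by
  rw [lorentzNorm_eq]
  have : ∀ τ ∈ Ioi (0 : ℝ), ENNReal.ofReal (Ψ (distr (fun _ => (0 : ℂ))
      (ENNReal.ofReal τ)).toReal) = 0 := by
    intro τ hτ
    have h0 : distr (fun _ => (0 : ℂ)) (ENNReal.ofReal τ) = 0 := by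
      unfold distr
      simp
    rw [h0, ENNReal.toReal_zero, Ψ.zero', ENNReal.ofReal_zero]
  rw [setLIntegral_congr_fun measurableSet_Ioi this]
  simp

/-- homogeneity with real scalars. -/
theorem lorentzNorm_smul (c : ℝ) (x : ℝ → ℂ) :
    lorentzNorm Ψ (fun t => (c : ℂ) * x t) = ENNReal.ofReal |c| * lorentzNorm Ψ x := by
  rcases eq_or_ne c 0 with h | h
  · simp only [h, Complex.ofReal_zero, zero_mul, abs_zero, ENNReal.ofReal_zero]
    exact lorentzNorm_zero Ψ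
  · rw [← lorentzNorm_smul_pos Ψ |c| (abs_pos.2 h)]
    apply lorentzNorm_congr
    refine Eventually.of_forall fun t => ?_
    simp

/-- the Lorentz norm controls the `L¹` norm -/
theorem le_lorentzNorm {x : ℝ → ℂ} (hx : AEStronglyMeasurable x mu) :
    ENNReal.ofReal (Ψ (2 * π) / (2 * π)) * ∫⁻ t, ‖x t‖ₑ ∂mu ≤ lorentzNorm Ψ x := by
  have h3 := lintegral_sub_eq hx (le_refl (0 : ℝ))
  simp only [ENNReal.ofReal_zero, tsub_zero] at h3
  rw [h3, lorentzNorm_eq, ← lintegral_const_mul _ (measurable_distr x)]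
  apply lintegral_mono
  intro τ
  simp only
  set D := distr x (ENNReal.ofReal τ) with hD
  have hDfin : D < ∞ := distr_lt_top x _
  have hD2 : D.toReal ≤ 2 * π := by
    have := ENNReal.toReal_mono ENNReal.ofReal_ne_top (distr_le x (ENNReal.ofReal τ))
    rwa [ENNReal.toReal_ofReal two_pi_pos'.le] at this
  have h0 : 0 ≤ Ψ (2 * π) := Psi_nonneg Ψ two_pi_pos'.le le_rfl
  nth_rewrite 1 [← ENNReal.ofReal_toReal hDfin.ne]
  rw [← ENNReal.ofReal_mul (by positivity)]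
  apply ENNReal.ofReal_le_ofReal
  have := Psi_ge Ψ (ENNReal.toReal_nonneg (a := D)) hD2 two_pi_pos' le_rfl
  calc Ψ (2 * π) / (2 * π) * D.toReal = D.toReal / (2 * π) * Ψ (2 * π) := by ring
    _ ≤ _ := this

theorem integrable_of_lorentzNorm (hΨ : 0 < Ψ (2 * π)) {x : ℝ → ℂ}
    (hx : AEStronglyMeasurable x mu) (h : lorentzNorm Ψ x < ∞) : Integrable x mu := by
  refine ⟨hx, ?_⟩
  have h1 := (le_lorentzNorm Ψ hx).trans_lt h
  have h2 : 0 < ENNReal.ofReal (Ψ (2 * π) / (2 * π)) :=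
    ENNReal.ofReal_pos.2 (by positivity)
  by_contra hcon
  have h3 : ∫⁻ t, ‖x t‖ₑ ∂mu = ∞ := not_lt_top_iff.1 hcon
  rw [h3, ENNReal.mul_top h2.ne'] at h1
  exact absurd h1 (lt_irrefl _)

/-- the norm of bounded functions is finite. -/
theorem lorentzNorm_const_le {x : ℝ → ℂ} {c : ℝ} (hc : 0 ≤ c) (h : ∀ᵐ t ∂mu, ‖x t‖ ≤ c) :
    lorentzNorm Ψ x ≤ ENNReal.ofReal c * ENNReal.ofReal (Ψ (2 * π)) := by
  rw [lorentzNorm_eq, setLIntegral_Ioi_split hc]
  have h1 : ∀ τ ∈ Ioi c, ENNReal.ofReal (Ψ (distr x (ENNReal.ofReal τ)).toReal) = 0 := by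
    intro τ hτ
    have h0 : distr x (ENNReal.ofReal τ) = 0 := by
      unfold distr
      rw [← nonpos_iff_eq_zero]
      calc _ ≤ mu {t | ¬ ‖x t‖ ≤ c} := by
            apply measure_mono
            intro t ht
            have ht' : ENNReal.ofReal τ < ‖x t‖ₑ := ht
            simp only [mem_ofPred_eq, not_le]
            rw [← ofReal_norm, ENNReal.ofReal_lt_ofReal_iff_of_nonneg (hc.trans (le_of_lt hτ))]
              at ht'
            exact lt_trans hτ ht'
        _ = 0 := ae_iff.1 h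
    rw [h0, ENNReal.toReal_zero, Ψ.zero', ENNReal.ofReal_zero]
  rw [setLIntegral_congr_fun measurableSet_Ioi h1]
  simp only [lintegral_zero, add_zero]
  calc ∫⁻ τ in Ioc 0 c, ENNReal.ofReal (Ψ (distr x (ENNReal.ofReal τ)).toReal)
      ≤ ∫⁻ τ in Ioc 0 c, ENNReal.ofReal (Ψ (2 * π)) := by
        apply lintegral_mono
        intro τ
        apply ENNReal.ofReal_le_ofReal
        have hD2 : (distr x (ENNReal.ofReal τ)).toReal ≤ 2 * π := by
          have := ENNReal.toReal_mono ENNReal.ofReal_ne_top (distr_le x (ENNReal.ofReal τ))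
          rwa [ENNReal.toReal_ofReal two_pi_pos'.le] at this
        exact Ψ.mono' ⟨ENNReal.toReal_nonneg, hD2⟩ ⟨two_pi_pos'.le, le_rfl⟩ hD2
    _ = _ := by
        rw [setLIntegral_const, Real.volume_Ioc, sub_zero, mul_comm]

/-- `K_s` is Lipschitz for the `L¹` norm -/
theorem KF_le_add {x y : ℝ → ℂ} (hx : Integrable x mu) (hy : Integrable y mu) (s : ℝ) :
    KF s x ≤ KF s y + ∫⁻ t, ‖x t - y t‖ₑ ∂mu := by
  have h1 := KF_add_le hy.1 (hx.sub hy).1 hy.2 (hx.sub hy).2 s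
  have h2 : (fun t => y t + (x - y) t) = x := by funext t; simp
  rw [h2] at h1
  refine h1.trans ?_
  gcongr
  exact KF_le_lintegral (hx.sub hy).1 s

/-- lower semicontinuity along `L¹`-convergent sequences -/
theorem lorentzNorm_lsc {x : ℕ → ℝ → ℂ} {y : ℝ → ℂ} (hx : ∀ n, Integrable (x n) mu)
    (hy : Integrable y mu)
    (h : Tendsto (fun n => ∫⁻ t, ‖x n t - y t‖ₑ ∂mu) atTop (𝓝 0)) {M : ℝ≥0∞}
    (hM : ∀ n, lorentzNorm Ψ (x n) ≤ M) : lorentzNorm Ψ y ≤ M := by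
  rw [lorentzNorm_dec]
  have hmeas : ∀ z : ℝ → ℂ, Measurable (fun l => KF (sOf Ψ l) z) :=
    fun z => ((KF_mono_s z).comp_antitone (sOf_anti Ψ)).measurable
  -- convergence of the Ky Fan norms
  have hK : ∀ s, KF s y ≤ liminf (fun n => KF s (x n)) atTop := by
    intro s
    have h1 : ∀ n, KF s y ≤ KF s (x n) + ∫⁻ t, ‖x n t - y t‖ₑ ∂mu := by
      intro n
      have := KF_le_add hy (hx n) s
      simp_rw [enorm_sub_rev (y _) (x n _)] at this
      exact this
    have h2 : ∀ n, KF s y - ∫⁻ t, ‖x n t - y t‖ₑ ∂mu ≤ KF s (x n) := fun n =>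
      tsub_le_iff_right.2 (h1 n)
    have h3 : Tendsto (fun n => KF s y - ∫⁻ t, ‖x n t - y t‖ₑ ∂mu) atTop (𝓝 (KF s y)) := by
      have := ENNReal.Tendsto.sub (tendsto_const_nhds (x := KF s y) (f := atTop (α := ℕ))) h
        (Or.inr ENNReal.zero_ne_top)
      simpa using this
    rw [← h3.liminf_eq]
    exact liminf_le_liminf (Eventually.of_forall h2)
  have hI : ∫⁻ l in Ioi (0 : ℝ), KF (sOf Ψ l) y
      ≤ liminf (fun n => ∫⁻ l in Ioi (0 : ℝ), KF (sOf Ψ l) (x n)) atTop :=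
    (lintegral_mono (fun l => hK _)).trans (lintegral_liminf_le (fun n => hmeas (x n)))
  -- the sup norm
  have hsup : ∀ c : ℝ≥0∞, c < rearr y 0 → ∀ᶠ n in atTop, c ≤ rearr (x n) 0 := by
    intro c hc
    have hc' : c < ∞ := hc.trans_le le_top
    have h1 := (lt_rearr_iff y 0 hc').1 hc
    obtain ⟨c', hcc, hc'', h2⟩ := exists_lt_distr hc' h1
    rw [ENNReal.ofReal_zero] at h2
    have h3 : 0 < (c' - c) * distr y c' := by
      apply ENNReal.mul_pos (tsub_pos_of_lt hcc).ne' h2.ne'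
    have h4 := (tendsto_order.1 h).2 _ h3
    filter_upwards [h4] with n hn
    by_contra hcon
    have hcon' := not_le.1 hcon
    apply absurd hn (not_lt.2 _)
    have hle : ∀ᵐ t ∂mu, ‖x n t‖ₑ ≤ c := by
      have h5 : distr (x n) c ≤ ENNReal.ofReal 0 := by
        by_contra h6
        exact absurd ((lt_rearr_iff (x n) 0 hc').2 (not_le.1 h6)) (not_lt.2 hcon'.le)
      rw [ENNReal.ofReal_zero, nonpos_iff_eq_zero] at h5
      rw [ae_iff]
      simpa [distr] using h5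
    calc (c' - c) * distr y c' ≤ ∫⁻ t in {t | c' < ‖y t‖ₑ}, ‖x n t - y t‖ₑ ∂mu := by
          rw [distr, ← Measure.restrict_apply_univ, ← lintegral_const]
          apply lintegral_mono_ae
          have hnm : NullMeasurableSet {t | c' < ‖y t‖ₑ} mu :=
            nullMeasurableSet_lt aemeasurable_const hy.1.enorm
          filter_upwards [ae_restrict_of_ae hle, ae_restrict_mem₀ hnm] with t ht ht2
          have ht2' : c' < ‖y t‖ₑ := ht2
          rw [tsub_le_iff_right]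
          calc c' ≤ ‖y t‖ₑ := ht2'.le
            _ = ‖(y t - x n t) + x n t‖ₑ := by rw [sub_add_cancel]
            _ ≤ ‖y t - x n t‖ₑ + ‖x n t‖ₑ := enorm_add_le _ _
            _ ≤ ‖x n t - y t‖ₑ + c := by rw [enorm_sub_rev]; gcongr
      _ ≤ _ := setLIntegral_le_lintegral _ _
  -- combine
  have key : ∀ c : ℝ≥0∞, c < rearr y 0 →
      ENNReal.ofReal (jump Ψ) * c + ∫⁻ l in Ioi (0 : ℝ), KF (sOf Ψ l) y ≤ M := by
    intro c hc
    have h1 : ∀ᶠ n in atTop, ENNReal.ofReal (jump Ψ) * c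
        + ∫⁻ l in Ioi (0 : ℝ), KF (sOf Ψ l) (x n) ≤ M := by
      filter_upwards [hsup c hc] with n hn
      refine le_trans ?_ (hM n)
      rw [lorentzNorm_dec]
      gcongr
    rcases le_or_gt (ENNReal.ofReal (jump Ψ) * c) M with hle | hlt
    · have h2 : ∀ᶠ n in atTop, ∫⁻ l in Ioi (0 : ℝ), KF (sOf Ψ l) (x n)
          ≤ M - ENNReal.ofReal (jump Ψ) * c := by
        filter_upwards [h1] with n hn
        rcases eq_or_ne M ∞ with hMt | hMt
        · rw [hMt, ENNReal.top_sub (ENNReal.mul_ne_top ENNReal.ofReal_ne_top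
            (hc.trans_le le_top).ne)]
          exact le_top
        · rw [add_comm] at hn
          exact ENNReal.le_sub_of_add_le_right
            (ENNReal.mul_ne_top ENNReal.ofReal_ne_top (hc.trans_le le_top).ne) hn
      have h3 : liminf (fun n => ∫⁻ l in Ioi (0 : ℝ), KF (sOf Ψ l) (x n)) atTop
          ≤ M - ENNReal.ofReal (jump Ψ) * c :=
        liminf_le_of_frequently_le h2.frequently
      calc _ ≤ ENNReal.ofReal (jump Ψ) * c + (M - ENNReal.ofReal (jump Ψ) * c) := by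
            gcongr
            exact hI.trans h3
        _ = M := add_tsub_cancel_of_le hle
    · obtain ⟨n, hn⟩ := h1.exists
      exact absurd (le_self_add.trans hn) (not_le.2 hlt)
  rcases eq_or_ne (rearr y 0) 0 with h0 | h0
  · rw [h0, mul_zero, zero_add]
    have h1 : ∀ n, ∫⁻ l in Ioi (0 : ℝ), KF (sOf Ψ l) (x n) ≤ M := by
      intro n
      refine le_trans ?_ (hM n)
      rw [lorentzNorm_dec]
      exact le_add_self
    exact hI.trans (liminf_le_of_frequently_le (Eventually.of_forall h1).frequently)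
  · have hpos : 0 < rearr y 0 := pos_iff_ne_zero.2 h0
    have h5 : Tendsto (fun c : ℝ≥0∞ => ENNReal.ofReal (jump Ψ) * c
        + ∫⁻ l in Ioi (0 : ℝ), KF (sOf Ψ l) y) (𝓝[<] (rearr y 0))
        (𝓝 (ENNReal.ofReal (jump Ψ) * rearr y 0 + ∫⁻ l in Ioi (0 : ℝ), KF (sOf Ψ l) y)) := by
      apply Tendsto.mono_left _ nhdsWithin_le_nhds
      apply Tendsto.add_const
      exact ENNReal.Tendsto.const_mul tendsto_id (Or.inr ENNReal.ofReal_ne_top)
    have hne : (𝓝[<] (rearr y 0)).NeBot := nhdsLT_neBot_of_exists_lt ⟨0, hpos⟩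
    refine le_of_tendsto h5 ?_
    filter_upwards [self_mem_nhdsWithin] with c hc
    exact key c hc

/-- continuity of `s ↦ K_s(x)` -/
theorem KF_tendsto {x : ℝ → ℂ} (hx : Integrable x mu) {s : ℕ → ℝ} {s₀ : ℝ}
    (h : Tendsto s atTop (𝓝 s₀)) : Tendsto (fun n => KF (s n) x) atTop (𝓝 (KF s₀ x)) := by
  have h3 := lintegral_sub_eq hx.1 (le_refl (0 : ℝ))
  simp only [ENNReal.ofReal_zero, tsub_zero] at h3
  apply tendsto_lintegral_of_dominated_convergence (fun τ => distr x (ENNReal.ofReal τ))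
  · intro n
    exact measurable_const.min (measurable_distr x)
  · intro n
    exact Eventually.of_forall (fun τ => min_le_right _ _)
  · rw [← h3]; exact hx.2.ne
  · refine Eventually.of_forall (fun τ => ?_)
    exact (ENNReal.tendsto_ofReal h).min tendsto_const_nhds

end Pool.Agent.HL
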