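import Pool.Agent.HL.PJ

/-!
# Outer functions
-/

open MeasureTheory Set Filter Topology Metric
open scoped ENNReal Real

namespace Pool.Agent.HL

/-- The Herglotz kernel `(e^{it} + z) / (e^{it} - z)`. -/
noncomputable def HK (z : ℂ) (t : ℝ) : ℂ := (circleMap 0 1 t + z) / (circleMap 0 1 t - z)

/-- The Herglotz integral `(2π)⁻¹ ∫ (e^{it} + z) / (e^{it} - z) φ(t) dt`. -/
noncomputable def herg (φ : ℝ → ℝ) (z : ℂ) : ℂ := (2 * π : ℂ)⁻¹ * ∫ t, HK z t * (φ t : ℂ) ∂mu

theorem HK_re (w : ℂ) (t : ℝ) : (HK w t).re = PK w t := by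
  unfold PK
  rw [poissonKernel_eq_re_herglotzRieszKernel]
  simp [HK, herglotzRieszKernel]

theorem HK_cont {w : ℂ} (hw : ‖w‖ < 1) : Continuous (HK w) := by
  unfold HK
  have h1 := continuous_circleMap 0 1
  refine Continuous.div (by fun_prop) (by fun_prop) fun t h0 => ?_
  have h2 := dist_circle w t
  rw [h0, norm_zero] at h2
  linarith

theorem HK_norm_le {w : ℂ} (hw : ‖w‖ < 1) (t : ℝ) : ‖HK w t‖ ≤ 2 / (1 - ‖w‖) := by
  unfold HK
  rw [norm_div]
  have h1 := dist_circle w t
  have h2 : ‖circleMap 0 1 t + w‖ ≤ 2 := by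
    refine (norm_add_le _ _).trans ?_
    have : ‖circleMap 0 1 t‖ = 1 := by simp
    linarith
  have h3 : 0 < 1 - ‖w‖ := by linarith
  gcongr

theorem HK_integrable {w : ℂ} (hw : ‖w‖ < 1) {φ : ℝ → ℝ} (hφ : Integrable φ mu) :
    Integrable (fun t => HK w t * (φ t : ℂ)) mu :=
  hφ.ofReal.bdd_mul (c := 2 / (1 - ‖w‖)) (HK_cont hw).aestronglyMeasurable
    (Eventually.of_forall (fun t => HK_norm_le hw t))

theorem herg_re {φ : ℝ → ℝ} (hφ : Integrable φ mu) {w : ℂ} (hw : ‖w‖ < 1) :
    (herg φ w).re = (2 * π)⁻¹ * ∫ t, PK w t * φ t ∂mu := by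
  unfold herg
  have h1 : ((2 * π : ℂ)⁻¹) = (((2 * π)⁻¹ : ℝ) : ℂ) := by push_cast; rfl
  rw [h1, Complex.re_ofReal_mul]
  congr 1
  have h2 := integral_re (HK_integrable hw hφ)
  have h3 : ∀ t, RCLike.re (HK w t * (φ t : ℂ)) = PK w t * φ t := by
    intro t
    show (HK w t * (φ t : ℂ)).re = _
    rw [Complex.re_mul_ofReal, HK_re]
  simp_rw [h3] at h2
  exact h2.symm

theorem herg_diff {φ : ℝ → ℝ} (hφ : Integrable φ mu) :
    DifferentiableOn ℂ (herg φ) (ball 0 1) := by
  intro z hz
  have hz1 : ‖z‖ < 1 := by simpa using hz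
  apply DifferentiableAt.differentiableWithinAt
  unfold herg
  apply DifferentiableAt.const_mul
  set η := (1 - ‖z‖) / 2 with hη
  have hη0 : 0 < η := by rw [hη]; linarith
  have hlow : ∀ x ∈ ball z η, ∀ t, η ≤ ‖circleMap 0 1 t - x‖ := by
    intro x hx t
    have h1 : ‖x‖ ≤ ‖z‖ + η := by
      have : ‖x - z‖ < η := by simpa [dist_eq_norm] using hx
      calc ‖x‖ = ‖z + (x - z)‖ := by ring_nf
        _ ≤ ‖z‖ + ‖x - z‖ := norm_add_le _ _
        _ ≤ _ := by linarith
    have h2 := dist_circle x t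
    have : ‖z‖ = 1 - 2 * η := by rw [hη]; ring
    linarith
  have hx1 : ∀ x ∈ ball z η, ‖x‖ < 1 := by
    intro x hx
    have : ‖x - z‖ < η := by simpa [dist_eq_norm] using hx
    calc ‖x‖ = ‖z + (x - z)‖ := by ring_nf
      _ ≤ ‖z‖ + ‖x - z‖ := norm_add_le _ _
      _ < 1 := by
        have : ‖z‖ = 1 - 2 * η := by rw [hη]; ring
        linarith
  have hmain := hasDerivAt_integral_of_dominated_loc_of_deriv_le (μ := mu) (𝕜 := ℂ)
    (F := fun x t => HK x t * (φ t : ℂ))
    (F' := fun x t => (2 * circleMap 0 1 t / (circleMap 0 1 t - x) ^ 2) * (φ t : ℂ))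
    (x₀ := z) (s := ball z η) (bound := fun t => 2 / η ^ 2 * |φ t|) (ball_mem_nhds z hη0)
    (by
      filter_upwards [ball_mem_nhds z hη0] with x hx
      exact (HK_integrable (hx1 x hx) hφ).aestronglyMeasurable)
    (HK_integrable hz1 hφ)
    (by
      have h1 := continuous_circleMap 0 1
      have hc : Continuous fun t => 2 * circleMap 0 1 t / (circleMap 0 1 t - z) ^ 2 := by
        refine Continuous.div (by fun_prop) (by fun_prop) fun t h0 => ?_
        have h2 := hlow z (mem_ball_self hη0) t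
        rw [pow_eq_zero_iff two_ne_zero] at h0
        rw [h0, norm_zero] at h2
        linarith
      exact hc.aestronglyMeasurable.mul hφ.ofReal.aestronglyMeasurable)
    (Eventually.of_forall fun t x hx => by
      have h2 := hlow x hx t
      have hn : ‖circleMap 0 1 t‖ = 1 := by simp
      rw [norm_mul, norm_div, norm_mul, norm_pow, hn, Complex.norm_real, Real.norm_eq_abs,
        mul_one, Complex.norm_ofNat]
      gcongr)
    ((hφ.abs.const_mul _))
    (Eventually.of_forall fun t x hx => by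
      have h2 := hlow x hx t
      have hne : circleMap 0 1 t - x ≠ 0 := by
        intro h0
        rw [h0, norm_zero] at h2
        linarith
      have h3 : HasDerivAt (fun x => HK x t)
          (2 * circleMap 0 1 t / (circleMap 0 1 t - x) ^ 2) x := by
        unfold HK
        have h4 := ((hasDerivAt_id x).const_add (circleMap 0 1 t)).div
          ((hasDerivAt_id x).const_sub (circleMap 0 1 t)) hne
        refine h4.congr_deriv ?_
        simp only [id]
        congr 1
        ring
      exact h3.mul_const _)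
  exact hmain.2.differentiableAt

/-- exponential of a Herglotz integral -/
noncomputable def outer (φ : ℝ → ℝ) (z : ℂ) : ℂ := Complex.exp (herg φ z)

theorem outer_ne (φ : ℝ → ℝ) (z : ℂ) : outer φ z ≠ 0 := Complex.exp_ne_zero _

theorem outer_diff {φ : ℝ → ℝ} (hφ : Integrable φ mu) :
    DifferentiableOn ℂ (outer φ) (ball 0 1) := (herg_diff hφ).cexp

theorem outer_norm {φ : ℝ → ℝ} (hφ : Integrable φ mu) {w : ℂ} (hw : ‖w‖ < 1) :
    ‖outer φ w‖ = Real.exp ((2 * π)⁻¹ * ∫ t, PK w t * φ t ∂mu) := by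
  unfold outer
  rw [Complex.norm_exp, herg_re hφ hw]

/-- radial limits of the modulus -/
theorem outer_radial {φ : ℝ → ℝ} (hφ : Integrable φ mu) :
    ∀ᵐ t ∂mu, Tendsto (fun r : ℝ => ‖outer φ (circleMap 0 r t)‖) (𝓝[<] 1)
      (𝓝 (Real.exp (φ t))) := by
  filter_upwards [fatou_real hφ] with t ht
  have h1 := (Real.continuous_exp.tendsto _).comp ht
  refine h1.congr' ?_
  filter_upwards [Ioo_mem_nhdsLT (show (0 : ℝ) < 1 from one_pos)] with r hr
  rw [outer_norm hφ (norm_circle hr t)]
  rfl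

/-- the outer function is dominated by the Poisson integral of its modulus (Jensen) -/
theorem outer_le {φ : ℝ → ℝ} (hφ : Integrable φ mu) (he : Integrable (fun t => Real.exp (φ t)) mu)
    {w : ℂ} (hw : ‖w‖ < 1) :
    ‖outer φ w‖ ≤ (2 * π)⁻¹ * ∫ t, PK w t * Real.exp (φ t) ∂mu := by
  rw [outer_norm hφ hw]
  set m := (2 * π)⁻¹ * ∫ t, PK w t * φ t ∂mu with hm
  have h2 := two_pi_pos'
  -- `exp x ≥ exp m (1 + x - m)`
  have h1 : ∫ t, PK w t * (Real.exp m * (1 + φ t - m)) ∂mu
      ≤ ∫ t, PK w t * Real.exp (φ t) ∂mu := by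
    have i1 : Integrable (fun t => Real.exp m * (1 + φ t - m)) mu :=
      (((integrable_const (1:ℝ)).add hφ).sub (integrable_const m)).const_mul _
    refine integral_mono (PK_mul_integrable hw i1) (PK_mul_integrable hw he) fun t => ?_
    refine mul_le_mul_of_nonneg_left ?_ (PK_nonneg hw t)
    have h3 := Real.add_one_le_exp (φ t - m)
    have h4 : Real.exp (φ t) = Real.exp m * Real.exp (φ t - m) := by
      rw [← Real.exp_add]; ring_nf
    rw [h4]
    exact mul_le_mul_of_nonneg_left (by linarith) (Real.exp_pos _).le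
  have h3 : ∫ t, PK w t * (Real.exp m * (1 + φ t - m)) ∂mu = 2 * π * Real.exp m := by
    have e : (fun t => PK w t * (Real.exp m * (1 + φ t - m)))
        = fun t => Real.exp m * (1 - m) * PK w t + Real.exp m * (PK w t * φ t) := by
      funext t; ring
    have iP : Integrable (fun t => PK w t) mu := by
      simpa using PK_mul_integrable hw (integrable_const (1:ℝ))
    rw [e, integral_add (iP.const_mul _) ((PK_mul_integrable hw hφ).const_mul _),
      integral_const_mul, integral_const_mul, integral_PK hw]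
    have : ∫ t, PK w t * φ t ∂mu = 2 * π * m := by rw [hm]; field_simp
    rw [this]; ring
  rw [h3] at h1
  calc Real.exp m = (2 * π)⁻¹ * (2 * π * Real.exp m) := by field_simp
    _ ≤ _ := mul_le_mul_of_nonneg_left h1 (by positivity)

end Pool.Agent.HL
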