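import Pool.Agent.HL.Fatou

/-!
# The Poisson-Jensen inequality
-/

open MeasureTheory Set Filter Topology Metric Polynomial
open scoped ENNReal Real

namespace Pool.Agent.HL

/-- circle averages against the Poisson kernel -/
theorem circleAverage_PK (w : ℂ) (u : ℂ → ℝ) :
    Real.circleAverage (poissonKernel 0 w • u) 0 1
      = (2 * π)⁻¹ * ∫ t, PK w t * u (circleMap 0 1 t) ∂mu := by
  rw [Real.circleAverage_def, intervalIntegral_eq_mu, smul_eq_mul]
  rfl

theorem log_sub_integrable (a : ℂ) :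
    Integrable (fun t => Real.log ‖circleMap 0 1 t - a‖) mu := by
  have h := circleIntegrable_log_norm_sub_const (a := a) (c := 0) 1
  rw [CircleIntegrable, intervalIntegrable_iff_integrableOn_Ioc_of_le two_pi_pos'.le] at h
  unfold mu
  rw [← IntegrableOn, integrableOn_Icc_iff_integrableOn_Ioc]
  exact h

/-- the inequality for linear factors -/
theorem pj_linear {w : ℂ} (hw : ‖w‖ < 1) {a : ℂ} (ha : w - a ≠ 0) :
    2 * π * Real.log ‖w - a‖ ≤ ∫ t, PK w t * Real.log ‖circleMap 0 1 t - a‖ ∂mu := by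
  have hwb : w ∈ ball (0 : ℂ) 1 := by simpa using hw
  have key : ∀ u : ℂ → ℝ, Real.circleAverage (poissonKernel 0 w • u) 0 1 = u w →
      ∫ t, PK w t * u (circleMap 0 1 t) ∂mu = 2 * π * u w := by
    intro u hu
    rw [circleAverage_PK] at hu
    rw [← hu]
    have := two_pi_pos'.ne'
    field_simp
  rcases lt_trichotomy ‖a‖ 1 with h | h | h
  · -- inside
    set b : ℂ := starRingEnd ℂ a with hb
    have hbn : ‖b‖ = ‖a‖ := by simp [hb]
    have hne : ∀ z ∈ closedBall (0 : ℂ) 1, 1 - b * z ≠ 0 := by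
      intro z hz h0
      have hz' : ‖z‖ ≤ 1 := by simpa using hz
      have : ‖b * z‖ = 1 := by
        rw [← sub_eq_zero.1 h0]; simp
      rw [norm_mul, hbn] at this
      nlinarith [norm_nonneg z, norm_nonneg a]
    have h1 : Real.circleAverage (poissonKernel 0 w • fun z => Real.log ‖1 - b * z‖) 0 1
        = Real.log ‖1 - b * w‖ := by
      refine InnerProductSpace.HarmonicOnNhd.circleAverage_poissonKernel_smul (fun z hz => ?_) hwb
      have han : AnalyticAt ℂ (fun z => 1 - b * z) z := by fun_prop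
      exact han.harmonicAt_log_norm (hne z hz)
    have h2 := key _ h1
    have h3 : ∀ t, ‖circleMap 0 1 t - a‖ = ‖1 - b * circleMap 0 1 t‖ := by
      intro t
      have hz : ‖circleMap 0 1 t‖ = 1 := by simp
      have h2 : 1 - b * circleMap 0 1 t = circleMap 0 1 t * starRingEnd ℂ (circleMap 0 1 t - a) := by
        rw [map_sub, mul_sub, Complex.mul_conj, Complex.normSq_eq_norm_sq, hz, ← hb]
        push_cast; ring
      rw [h2, norm_mul, hz, one_mul, Complex.norm_conj]
    simp_rw [h3]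
    rw [h2]
    refine mul_le_mul_of_nonneg_left (Real.log_le_log (norm_pos_iff.2 ha) ?_) two_pi_pos'.le
    -- `|w - a| ≤ |1 - b w|`
    have h4 : ‖w - a‖ ^ 2 ≤ ‖1 - b * w‖ ^ 2 := by
      have e1 : ‖w - a‖ ^ 2 = ‖w‖ ^ 2 + ‖a‖ ^ 2 - 2 * (w * b).re := by
        rw [← Complex.normSq_eq_norm_sq, ← Complex.normSq_eq_norm_sq, ← Complex.normSq_eq_norm_sq,
          Complex.normSq_sub]
      have e2 : ‖1 - b * w‖ ^ 2 = 1 + ‖a‖ ^ 2 * ‖w‖ ^ 2 - 2 * (w * b).re := by
        rw [← Complex.normSq_eq_norm_sq, Complex.normSq_sub, map_one, one_mul, Complex.conj_re,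
          Complex.normSq_eq_norm_sq, norm_mul, hbn, mul_comm w b]
        ring
      rw [e1, e2]
      have h5 : ‖w‖ ^ 2 ≤ 1 := by nlinarith [norm_nonneg w]
      have h6 : ‖a‖ ^ 2 ≤ 1 := by nlinarith [norm_nonneg a]
      nlinarith
    exact (pow_le_pow_iff_left₀ (norm_nonneg _) (norm_nonneg _) two_ne_zero).1 h4
  · -- on the circle
    have h1 := circleAverage_re_herglotzRieszKernel_mul_log₀ (w := w) (ρ := a) (R := 1)
      (by simpa using h) hwb
    rw [← poissonKernel_eq_re_herglotzRieszKernel] at h1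
    exact (key (fun z => Real.log ‖z - a‖) h1).ge
  · -- outside
    have h1 : Real.circleAverage (poissonKernel 0 w • fun z => Real.log ‖z - a‖) 0 1
        = Real.log ‖w - a‖ := by
      refine InnerProductSpace.HarmonicOnNhd.circleAverage_poissonKernel_smul (fun z hz => ?_) hwb
      have han : AnalyticAt ℂ (fun z => z - a) z := by fun_prop
      refine han.harmonicAt_log_norm (fun h0 => ?_)
      have hz' : ‖z‖ ≤ 1 := by simpa using hz
      rw [sub_eq_zero.1 h0] at hz'
      linarith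
    exact (key (fun z => Real.log ‖z - a‖) h1).ge

/-- functions satisfying the Poisson-Jensen inequality at `w` -/
def PJ (w : ℂ) (g : ℂ → ℂ) : Prop :=
  Integrable (fun t => Real.log ‖g (circleMap 0 1 t)‖) mu ∧
  (∀ᵐ t ∂mu, g (circleMap 0 1 t) ≠ 0) ∧
  (g w ≠ 0 → 2 * π * Real.log ‖g w‖ ≤ ∫ t, PK w t * Real.log ‖g (circleMap 0 1 t)‖ ∂mu)

theorem PJ.mul {w : ℂ} (hw : ‖w‖ < 1) {g k : ℂ → ℂ} (hg : PJ w g) (hk : PJ w k) :
    PJ w (fun z => g z * k z) := by
  obtain ⟨a1, a2, a3⟩ := hg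
  obtain ⟨b1, b2, b3⟩ := hk
  have e : (fun t => Real.log ‖g (circleMap 0 1 t) * k (circleMap 0 1 t)‖) =ᵐ[mu]
      fun t => Real.log ‖g (circleMap 0 1 t)‖ + Real.log ‖k (circleMap 0 1 t)‖ := by
    filter_upwards [a2, b2] with t h1 h2
    rw [norm_mul, Real.log_mul (norm_ne_zero_iff.2 h1) (norm_ne_zero_iff.2 h2)]
  refine ⟨(a1.add b1).congr e.symm, ?_, fun h => ?_⟩
  · filter_upwards [a2, b2] with t h1 h2
    exact mul_ne_zero h1 h2
  · have hg0 : g w ≠ 0 := left_ne_zero_of_mul h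
    have hk0 : k w ≠ 0 := right_ne_zero_of_mul h
    have h1 : ∫ t, PK w t * Real.log ‖g (circleMap 0 1 t) * k (circleMap 0 1 t)‖ ∂mu
        = ∫ t, (PK w t * Real.log ‖g (circleMap 0 1 t)‖
          + PK w t * Real.log ‖k (circleMap 0 1 t)‖) ∂mu := by
      apply integral_congr_ae
      filter_upwards [e] with t ht
      rw [ht, mul_add]
    simp only
    rw [h1, integral_add (PK_mul_integrable hw a1) (PK_mul_integrable hw b1), norm_mul,
      Real.log_mul (norm_ne_zero_iff.2 hg0) (norm_ne_zero_iff.2 hk0), mul_add]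
    exact add_le_add (a3 hg0) (b3 hk0)

theorem PJ.const {w : ℂ} (hw : ‖w‖ < 1) {c : ℂ} (hc : c ≠ 0) : PJ w (fun _ => c) := by
  refine ⟨integrable_const _, Eventually.of_forall fun _ => hc, fun _ => ?_⟩
  rw [integral_mul_const, integral_PK hw]

theorem PJ.linear {w : ℂ} (hw : ‖w‖ < 1) (a : ℂ) : PJ w (fun z => z - a) := by
  refine ⟨log_sub_integrable a, ?_, fun h => pj_linear hw h⟩
  by_cases ha : ‖a‖ = 1
  · -- `circleMap 0 1 t = a` for at most two values of `t` in `[0, 2π]`
    have hfa : AnalyticOnNhd ℂ (fun z : ℂ => z - a) univ := fun z _ => by fun_prop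
    have h1 := hfa.preimage_zero_mem_codiscreteWithin (x := a + 1) (by simp) (mem_univ _)
      isConnected_univ
    have h2 := codiscreteWithin_mono (subset_univ (sphere (0 : ℂ) |1|)) h1
    have h3 := circleMap_preimage_codiscrete (c := 0) (R := 1) one_ne_zero h2
    have h4 := ae_restrict_le_codiscreteWithin (μ := (volume : Measure ℝ))
      (U := Icc 0 (2 * π)) measurableSet_Icc (codiscreteWithin_mono (subset_univ _) h3)
    exact h4
  · refine Eventually.of_forall fun t h0 => ha ?_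
    rw [← sub_eq_zero.1 h0]
    simp

theorem PJ.poly {w : ℂ} (hw : ‖w‖ < 1) {P : ℂ[X]} (hP : P ≠ 0) : PJ w (fun z => P.eval z) := by
  have h := IsAlgClosed.splits P
  rw [h.eq_prod_roots]
  have : ∀ s : Multiset ℂ, PJ w (fun z => (Multiset.map (fun a => Polynomial.X - Polynomial.C a) s).prod.eval z) := by
    intro s
    induction s using Multiset.induction with
    | empty => simpa using PJ.const hw one_ne_zero
    | cons a s ih =>
      have := (PJ.linear hw a).mul hw ih
      simpa [Polynomial.eval_mul] using this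
  have h2 := (PJ.const hw (Polynomial.leadingCoeff_ne_zero.2 hP)).mul hw (this P.roots)
  simpa [Polynomial.eval_mul] using h2

theorem logmax_bound {δ : ℝ} (hδ : 0 < δ) (x : ℝ) (hx : 0 ≤ x) :
    |Real.log (max x δ)| ≤ δ⁻¹ * x + |Real.log δ| := by
  have h1 := log_max_lipschitz hδ x 0
  rw [max_eq_right hδ.le, sub_zero, abs_of_nonneg hx] at h1
  calc |Real.log (max x δ)| = |(Real.log (max x δ) - Real.log δ) + Real.log δ| := by
        ring_nf
    _ ≤ |Real.log (max x δ) - Real.log δ| + |Real.log δ| := abs_add_le _ _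
    _ ≤ δ⁻¹ * x + |Real.log δ| := by linarith

theorem logmax_integrable {δ : ℝ} (hδ : 0 < δ) {u : ℝ → ℂ} (hu : Integrable u mu) :
    Integrable (fun t => Real.log (max ‖u t‖ δ)) mu := by
  have hm : AEStronglyMeasurable (fun t => Real.log (max ‖u t‖ δ)) mu := by
    apply AEMeasurable.aestronglyMeasurable
    exact Real.measurable_log.comp_aemeasurable
      (hu.aestronglyMeasurable.norm.aemeasurable.max aemeasurable_const)
  refine Integrable.mono' ((hu.norm.const_mul δ⁻¹).add (integrable_const |Real.log δ|)) hm ?_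
  refine Eventually.of_forall fun t => ?_
  exact logmax_bound hδ _ (norm_nonneg _)

/-- the inequality for functions continuous on the closed disc -/
theorem pj_dcc {g : ℂ → ℂ} (hg : DiffContOnCl ℂ g (ball 0 1)) {w : ℂ} (hw : ‖w‖ < 1)
    (h0 : g w ≠ 0) {δ : ℝ} (hδ : 0 < δ) :
    2 * π * Real.log ‖g w‖ ≤ ∫ t, PK w t * Real.log (max ‖g (circleMap 0 1 t)‖ δ) ∂mu := by
  obtain ⟨p, M, hM, hpM, hp⟩ := exists_polys hg
  have hwc : w ∈ closedBall (0 : ℂ) 1 := by simpa using hw.le
  have hcc : ∀ t, circleMap 0 1 t ∈ closedBall (0 : ℂ) 1 := fun t => by simp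
  have h1 : Tendsto (fun n => 2 * π * Real.log ‖(p n).eval w‖) atTop
      (𝓝 (2 * π * Real.log ‖g w‖)) :=
    ((Real.continuousAt_log (norm_ne_zero_iff.2 h0)).tendsto.comp (hp w hwc).norm).const_mul _
  have h2 : Tendsto (fun n => ∫ t, PK w t * Real.log (max ‖(p n).eval (circleMap 0 1 t)‖ δ) ∂mu)
      atTop (𝓝 (∫ t, PK w t * Real.log (max ‖g (circleMap 0 1 t)‖ δ) ∂mu)) := by
    refine tendsto_integral_of_dominated_convergence
      (fun _ => (1 - ‖w‖ ^ 2) / (1 - ‖w‖) ^ 2 * (δ⁻¹ * M + |Real.log δ|)) ?_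
      (integrable_const _) ?_ ?_
    · intro n
      apply AEMeasurable.aestronglyMeasurable
      have hc : Continuous fun t => max ‖(p n).eval (circleMap 0 1 t)‖ δ := by
        have := continuous_circleMap 0 1
        fun_prop
      exact (PK_cont hw).aemeasurable.mul (Real.measurable_log.comp_aemeasurable hc.aemeasurable)
    · intro n
      refine Eventually.of_forall fun t => ?_
      rw [norm_mul, Real.norm_of_nonneg (PK_nonneg hw t), Real.norm_eq_abs]
      have h3 := hpM n _ (hcc t)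
      refine mul_le_mul (PK_le hw t) ((logmax_bound hδ _ (norm_nonneg _)).trans ?_)
        (abs_nonneg _) ((PK_nonneg hw t).trans (PK_le hw t))
      gcongr
    · refine Eventually.of_forall fun t => ?_
      apply Tendsto.const_mul
      have h3 := ((hp _ (hcc t)).norm.max (tendsto_const_nhds (x := δ)))
      exact (Real.continuousAt_log (lt_max_of_lt_right hδ).ne').tendsto.comp h3
  refine le_of_tendsto_of_tendsto h1 h2 ?_
  have hev : ∀ᶠ n in atTop, (p n).eval w ≠ 0 := (hp w hwc).eventually_ne h0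
  filter_upwards [hev] with n hn
  have hP : p n ≠ 0 := by
    rintro h
    rw [h] at hn
    simp at hn
  obtain ⟨b1, b2, b3⟩ := PJ.poly hw hP
  refine (b3 hn).trans ?_
  have hci : Integrable (fun t => (p n).eval (circleMap 0 1 t)) mu := by
    have := continuous_circleMap 0 1
    exact cont_integrable (by fun_prop)
  apply integral_mono_ae (PK_mul_integrable hw b1) (PK_mul_integrable hw (logmax_integrable hδ hci))
  filter_upwards [b2] with t ht
  exact mul_le_mul_of_nonneg_left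
    (Real.log_le_log (norm_pos_iff.2 ht) (le_max_left _ _)) (PK_nonneg hw t)

/-- **Poisson-Jensen inequality** -/
theorem poisson_jensen {f : ℂ → ℂ} (hf : DifferentiableOn ℂ f (ball 0 1)) {F : ℝ → ℂ}
    (hF : IsBdry f F) {w : ℂ} (hw : ‖w‖ < 1) (h0 : f w ≠ 0) {δ : ℝ} (hδ : 0 < δ) :
    2 * π * Real.log ‖f w‖ ≤ ∫ t, PK w t * Real.log (max ‖F t‖ δ) ∂mu := by
  set C : ℝ := (1 - ‖w‖ ^ 2) / (1 - ‖w‖) ^ 2 with hC
  have hC0 : 0 ≤ C := (PK_nonneg hw 0).trans (PK_le hw 0)
  have hev : ∀ᶠ ρ : ℝ in 𝓝[<] 1, ρ ∈ Ioo (0 : ℝ) 1 := Ioo_mem_nhdsLT one_pos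
  have hint : ∀ r, r ∈ Ioo (0 : ℝ) 1 → Integrable (fun t => f (circleMap 0 r t)) mu :=
    fun r hr => integrable_cont (cont_circle hf hr.1.le hr.2)
  have hwb : w ∈ ball (0 : ℂ) 1 := by simpa using hw
  have h5 : Tendsto (fun ρ : ℝ => f ((ρ : ℂ) * w)) (𝓝[<] 1) (𝓝 (f w)) := by
    have h4 : ContinuousAt f w := (hf w hwb).differentiableAt
      (Metric.isOpen_ball.mem_nhds hwb) |>.continuousAt
    have h5 : Tendsto (fun ρ : ℝ => (ρ : ℂ) * w) (𝓝[<] 1) (𝓝 w) := by
      have : Tendsto (fun ρ : ℝ => (ρ : ℂ) * w) (𝓝 1) (𝓝 (((1 : ℝ) : ℂ) * w)) :=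
        Continuous.tendsto (by fun_prop) 1
      rw [Complex.ofReal_one, one_mul] at this
      exact this.mono_left nhdsWithin_le_nhds
    exact h4.tendsto.comp h5
  have h1 : Tendsto (fun ρ : ℝ => 2 * π * Real.log ‖f ((ρ : ℂ) * w)‖) (𝓝[<] 1)
      (𝓝 (2 * π * Real.log ‖f w‖)) :=
    ((Real.continuousAt_log (norm_ne_zero_iff.2 h0)).tendsto.comp h5.norm).const_mul _
  have h2 : Tendsto (fun ρ : ℝ => ∫ t, PK w t * Real.log (max ‖f (circleMap 0 ρ t)‖ δ) ∂mu)
      (𝓝[<] 1) (𝓝 (∫ t, PK w t * Real.log (max ‖F t‖ δ) ∂mu)) := by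
    rw [tendsto_iff_norm_sub_tendsto_zero]
    have hF2 : Tendsto (fun r : ℝ => C * δ⁻¹ * (∫⁻ t, ‖f (circleMap 0 r t) - F t‖ₑ ∂mu).toReal)
        (𝓝[<] 1) (𝓝 0) := by
      have := (ENNReal.tendsto_toReal ENNReal.zero_ne_top).comp hF.2
      have := this.const_mul (C * δ⁻¹)
      simpa using this
    apply squeeze_zero' (Eventually.of_forall fun _ => norm_nonneg _) _ hF2
    filter_upwards [hev] with r hr
    have i1 := PK_mul_integrable hw (logmax_integrable hδ (hint r hr))
    have i2 := PK_mul_integrable hw (logmax_integrable hδ hF.1)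
    rw [← integral_sub i1 i2]
    have hN2 : (∫⁻ t, ‖f (circleMap 0 r t) - F t‖ₑ ∂mu).toReal =
        ∫ t, ‖f (circleMap 0 r t) - F t‖ ∂mu :=
      (integral_norm_eq_lintegral_enorm ((hint r hr).sub hF.1).aestronglyMeasurable).symm
    rw [hN2, ← integral_const_mul]
    refine (norm_integral_le_integral_norm _).trans ?_
    apply integral_mono (i1.sub i2).norm (((hint r hr).sub hF.1).norm.const_mul _)
    intro t
    simp only [Pi.sub_apply, Real.norm_eq_abs]
    rw [← mul_sub, abs_mul, abs_of_nonneg (PK_nonneg hw t), mul_assoc]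
    refine mul_le_mul (PK_le hw t) ((log_max_lipschitz hδ _ _).trans ?_) (abs_nonneg _) hC0
    apply mul_le_mul_of_nonneg_left _ (by positivity)
    exact abs_norm_sub_norm_le _ _
  refine le_of_tendsto_of_tendsto h1 h2 ?_
  filter_upwards [hev, h5.eventually_ne h0] with ρ hρ hρ0
  have h3 := pj_dcc (dcc_dilate hf hρ.1.le hρ.2) hw hρ0 hδ
  have e1 : ∀ t, (ρ : ℂ) * circleMap 0 1 t = circleMap 0 ρ t := fun t =>
    (circleMap_zero_mul_one ρ t).symm
  simpa only [e1] using h3

end Pool.Agent.HL
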