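import Pool.Agent.HL.KyFan

open MeasureTheory Set Filter Topology
open scoped ENNReal Real

namespace Pool.Agent.HL

variable (Ψ : LorentzFn)

/-- the jump `Ψ(0+)`. -/
noncomputable def jump : ℝ := Function.rightLim (ext Ψ) 0

theorem tendsto_jump : Tendsto (Ψ : ℝ → ℝ) (𝓝[>] 0) (𝓝 (jump Ψ)) := by
  have h := (ext_mono Ψ).tendsto_rightLim 0
  refine h.congr' ?_
  filter_upwards [Ioo_mem_nhdsGT two_pi_pos'] with t ht
  unfold ext
  rw [if_neg (not_lt.2 ht.1.le), min_eq_left ht.2.le]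

theorem jump_le {t : ℝ} (ht : 0 < t) (ht2 : t ≤ 2 * π) : jump Ψ ≤ Ψ t := by
  refine le_of_tendsto (tendsto_jump Ψ) ?_
  filter_upwards [Ioo_mem_nhdsGT ht] with y hy
  exact Ψ.mono' ⟨hy.1.le, hy.2.le.trans ht2⟩ ⟨ht.le, ht2⟩ hy.2.le

theorem jump_nonneg : 0 ≤ jump Ψ := by
  refine ge_of_tendsto (tendsto_jump Ψ) ?_
  filter_upwards [Ioo_mem_nhdsGT two_pi_pos'] with y hy
  exact Psi_nonneg Ψ hy.1.le hy.2.le

/-- right derivative of `Ψ`. -/
noncomputable def psi (t : ℝ) : ℝ := - derivWithin (fun t => - Ψ t) (Ioi t) t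

theorem convex_neg : ConvexOn ℝ (Icc 0 (2 * π)) (fun t => - Ψ t) := Ψ.concave'.neg

theorem mem_int {t : ℝ} (ht : t ∈ Ioo 0 (2 * π)) : t ∈ interior (Icc 0 (2 * π)) := by
  rw [interior_Icc]; exact ht

theorem hasDeriv_psi {t : ℝ} (ht : t ∈ Ioo 0 (2 * π)) :
    HasDerivWithinAt Ψ (psi Ψ t) (Ioi t) t := by
  have h := ((convex_neg Ψ).hasDerivWithinAt_rightDeriv_of_mem_interior (mem_int ht)).neg
  have h' : (-fun t => -Ψ.toFun t) = Ψ.toFun := by funext y; simp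
  rw [h'] at h
  exact h

theorem psi_anti : AntitoneOn (psi Ψ) (Ioo 0 (2 * π)) := by
  have h := (convex_neg Ψ).monotoneOn_rightDeriv
  rw [interior_Icc] at h
  intro a ha b hb hab
  exact neg_le_neg (h ha hb hab)

theorem slope_le_psi {u v : ℝ} (hu : u ∈ Ioo 0 (2 * π)) (hv : v ≤ 2 * π) (huv : u < v) :
    Ψ v - Ψ u ≤ psi Ψ u * (v - u) := by
  have h := (convex_neg Ψ).rightDeriv_le_slope_of_mem_interior (mem_int hu)
    (show v ∈ Icc 0 (2 * π) from ⟨hu.1.le.trans huv.le, hv⟩) huv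
  unfold psi
  rw [slope_def_field] at h
  have h1 : 0 < v - u := sub_pos.2 huv
  rw [le_div_iff₀ h1] at h
  nlinarith

theorem psi_nonneg {t : ℝ} (ht : t ∈ Ioo 0 (2 * π)) : 0 ≤ psi Ψ t := by
  have h := slope_le_psi Ψ ht le_rfl ht.2
  have h1 : Ψ t ≤ Ψ (2 * π) :=
    Ψ.mono' ⟨ht.1.le, ht.2.le⟩ ⟨two_pi_pos'.le, le_rfl⟩ ht.2.le
  have h2 : 0 < 2 * π - t := sub_pos.2 ht.2
  by_contra hcon
  have : psi Ψ t * (2 * π - t) < 0 := mul_neg_of_neg_of_pos (not_le.1 hcon) h2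
  linarith

theorem Psi_lip {u : ℝ} (hu : 0 < u) {a b : ℝ} (ha : a ∈ Icc u (2 * π)) (hb : b ∈ Icc u (2 * π))
    (hab : a ≤ b) : |Ψ b - Ψ a| ≤ Ψ (2 * π) / u * |b - a| := by
  have hb0 : 0 < b := hu.trans_le hb.1
  have h1 := Psi_ge Ψ (hu.le.trans ha.1) hab hb0 hb.2
  have h2 : Ψ a ≤ Ψ b := Ψ.mono' ⟨hu.le.trans ha.1, ha.2⟩ ⟨hb0.le, hb.2⟩ hab
  have h3 : Ψ b ≤ Ψ (2 * π) := Ψ.mono' ⟨hb0.le, hb.2⟩ ⟨two_pi_pos'.le, le_rfl⟩ hb.2
  have h4 : 0 ≤ Ψ b := Psi_nonneg Ψ hb0.le hb.2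
  rw [abs_of_nonneg (by linarith), abs_of_nonneg (by linarith)]
  have h5 : Ψ b - Ψ a ≤ (b - a) / b * Ψ b := by
    have : (b - a) / b = 1 - a / b := by field_simp
    rw [this]
    nlinarith
  calc Ψ b - Ψ a ≤ (b - a) / b * Ψ b := h5
    _ ≤ (b - a) / u * Ψ (2 * π) := by
        apply mul_le_mul _ h3 h4 (by apply div_nonneg <;> linarith)
        apply div_le_div_of_nonneg_left (by linarith) hu hb.1
    _ = Ψ (2 * π) / u * (b - a) := by ring

theorem Psi_cont {u : ℝ} (hu : 0 < u) : ContinuousOn Ψ (Icc u (2 * π)) := by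
  have h0 : 0 ≤ Ψ (2 * π) := Psi_nonneg Ψ two_pi_pos'.le le_rfl
  have : LipschitzOnWith (Real.toNNReal (Ψ (2 * π) / u)) Ψ (Icc u (2 * π)) := by
    apply LipschitzOnWith.of_dist_le_mul
    intro a ha b hb
    rw [Real.coe_toNNReal _ (by positivity), Real.dist_eq, Real.dist_eq]
    rcases le_total a b with h | h
    · rw [abs_sub_comm, abs_sub_comm a b]
      exact Psi_lip Ψ hu ha hb h
    · exact Psi_lip Ψ hu hb ha h
  exact this.continuousOn

theorem psi_intervalIntegrable {u t : ℝ} (hu : 0 < u) (hut : u ≤ t) (ht : t ≤ 2 * π) :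
    IntervalIntegrable (psi Ψ) volume u t := by
  rw [intervalIntegrable_iff_integrableOn_Ioo_of_le hut]
  rcases hut.eq_or_lt with h | h
  · simp [h]
  have hsub : Ioo u t ⊆ Ioo 0 (2 * π) := fun y hy => ⟨hu.trans hy.1, hy.2.trans_le ht⟩
  have hmeas : AEMeasurable (psi Ψ) (volume.restrict (Ioo u t)) :=
    aemeasurable_restrict_of_antitoneOn measurableSet_Ioo ((psi_anti Ψ).mono hsub)
  have hu' : u ∈ Ioo 0 (2 * π) := ⟨hu, h.trans_le ht⟩
  apply Integrable.of_bound hmeas.aestronglyMeasurable (psi Ψ u)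
  · filter_upwards [ae_restrict_mem measurableSet_Ioo] with y hy
    rw [Real.norm_of_nonneg (psi_nonneg Ψ (hsub hy))]
    exact psi_anti Ψ hu' (hsub hy) hy.1.le

theorem ftc {u t : ℝ} (hu : 0 < u) (hut : u ≤ t) (ht : t ≤ 2 * π) :
    ∫ τ in u..t, psi Ψ τ = Ψ t - Ψ u := by
  apply intervalIntegral.integral_eq_sub_of_hasDeriv_right
  · rw [uIcc_of_le hut]
    exact (Psi_cont Ψ hu).mono (Icc_subset_Icc le_rfl ht)
  · intro x hx
    rw [min_eq_left hut, max_eq_right hut] at hx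
    exact hasDeriv_psi Ψ ⟨hu.trans hx.1, hx.2.trans_le ht⟩
  · exact psi_intervalIntegrable Ψ hu hut ht

theorem ftc_lintegral {u t : ℝ} (hu : 0 < u) (hut : u ≤ t) (ht : t ≤ 2 * π) :
    ∫⁻ τ in Ioo u t, ENNReal.ofReal (psi Ψ τ) = ENNReal.ofReal (Ψ t - Ψ u) := by
  rw [← ftc Ψ hu hut ht, intervalIntegral.integral_of_le hut,
    ← ofReal_integral_eq_lintegral_ofReal]
  · rw [integral_Ioc_eq_integral_Ioo]
  · have := psi_intervalIntegrable Ψ hu hut ht
    rwa [intervalIntegrable_iff_integrableOn_Ioo_of_le hut] at this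
  · filter_upwards [ae_restrict_mem measurableSet_Ioo] with y hy
    exact psi_nonneg Ψ ⟨hu.trans hy.1, hy.2.trans_le ht⟩

theorem ftc_zero {t : ℝ} (ht0 : 0 < t) (ht : t ≤ 2 * π) :
    ∫⁻ τ in Ioo 0 t, ENNReal.ofReal (psi Ψ τ) = ENNReal.ofReal (Ψ t - jump Ψ) := by
  set u : ℕ → ℝ := fun n => t / (n + 1) with hu
  have hu0 : ∀ n, 0 < u n := fun n => by positivity
  have hut : ∀ n, u n ≤ t := fun n => div_le_self ht0.le (by
    have : (0 : ℝ) ≤ n := Nat.cast_nonneg n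
    linarith)
  have hunion : Ioo 0 t = ⋃ n, Ioo (u n) t := by
    ext y
    simp only [mem_Ioo, mem_iUnion]
    constructor
    · rintro ⟨h1, h2⟩
      obtain ⟨n, hn⟩ := exists_nat_gt (t / y)
      refine ⟨n, ?_, h2⟩
      rw [hu]
      simp only
      rw [div_lt_iff₀ (by positivity)]
      have := (div_lt_iff₀ h1).1 hn
      nlinarith
    · rintro ⟨n, h1, h2⟩
      exact ⟨(hu0 n).trans h1, h2⟩
  have hanti : Antitone u := by
    intro m n hmn
    have : (m : ℝ) ≤ n := by exact_mod_cast hmn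
    simp only [hu]
    gcongr
  have hmono : Monotone (fun n => Ioo (u n) t) := by
    intro m n hmn y hy
    exact ⟨(hanti hmn).trans_lt hy.1, hy.2⟩
  have htend : Tendsto u atTop (𝓝[>] 0) := by
    rw [tendsto_nhdsWithin_iff]
    refine ⟨?_, Eventually.of_forall hu0⟩
    have := tendsto_one_div_add_atTop_nhds_zero_nat (𝕜 := ℝ)
    have h2 := this.const_mul t
    simp only [mul_zero, mul_one_div] at h2
    exact h2
  have h1 : Tendsto (fun n => ∫⁻ τ in Ioo (u n) t, ENNReal.ofReal (psi Ψ τ)) atTop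
      (𝓝 (∫⁻ τ in Ioo 0 t, ENNReal.ofReal (psi Ψ τ))) := by
    rw [hunion, setLIntegral_iUnion_of_directed _ (directed_of_isDirected_le hmono)]
    apply tendsto_atTop_iSup
    intro m n hmn
    exact lintegral_mono_set (hmono hmn)
  have h2 : Tendsto (fun n => ∫⁻ τ in Ioo (u n) t, ENNReal.ofReal (psi Ψ τ)) atTop
      (𝓝 (ENNReal.ofReal (Ψ t - jump Ψ))) := by
    simp_rw [fun n => ftc_lintegral Ψ (hu0 n) (hut n) ht]
    apply ENNReal.tendsto_ofReal
    exact tendsto_const_nhds.sub ((tendsto_jump Ψ).comp htend)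
  exact tendsto_nhds_unique h1 h2

/-- the set of slopes larger than `l`. -/
def slopeSet (l : ℝ) : Set ℝ := {τ | τ ∈ Ioo 0 (2 * π) ∧ l < psi Ψ τ}

/-- `sOf l` is the length of the initial interval on which `Ψ` has slope `> l`. -/
noncomputable def sOf (l : ℝ) : ℝ := (volume (slopeSet Ψ l)).toReal

theorem volume_slopeSet_lt_top (l : ℝ) : volume (slopeSet Ψ l) < ∞ := by
  apply (measure_mono (fun τ hτ => hτ.1 : slopeSet Ψ l ⊆ Ioo 0 (2 * π))).trans_lt
  rw [Real.volume_Ioo]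
  exact ENNReal.ofReal_lt_top

theorem sOf_nonneg (l : ℝ) : 0 ≤ sOf Ψ l := ENNReal.toReal_nonneg

theorem sOf_le (l : ℝ) : sOf Ψ l ≤ 2 * π := by
  have := ENNReal.toReal_mono ENNReal.ofReal_ne_top
    ((measure_mono (fun τ hτ => hτ.1 : slopeSet Ψ l ⊆ Ioo 0 (2 * π))).trans_eq Real.volume_Ioo)
  rwa [sub_zero, ENNReal.toReal_ofReal two_pi_pos'.le] at this

theorem slopeSet_anti : Antitone (slopeSet Ψ) := by
  intro a b hab τ hτ
  exact ⟨hτ.1, lt_of_le_of_lt hab hτ.2⟩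

theorem sOf_anti : Antitone (sOf Ψ) := by
  intro a b hab
  exact ENNReal.toReal_mono (volume_slopeSet_lt_top Ψ a).ne (measure_mono (slopeSet_anti Ψ hab))

theorem le_sOf {l τ : ℝ} (hτ : τ ∈ slopeSet Ψ l) : τ ≤ sOf Ψ l := by
  have h1 : Ioo 0 τ ⊆ slopeSet Ψ l := by
    intro y hy
    have hy' : y ∈ Ioo 0 (2 * π) := ⟨hy.1, hy.2.trans hτ.1.2⟩
    exact ⟨hy', hτ.2.trans_le (psi_anti Ψ hy' hτ.1 hy.2.le)⟩
  have h2 := ENNReal.toReal_mono (volume_slopeSet_lt_top Ψ l).ne (measure_mono h1)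
  rwa [Real.volume_Ioo, sub_zero, ENNReal.toReal_ofReal hτ.1.1.le] at h2

theorem mem_slopeSet {l τ : ℝ} (h0 : 0 < τ) (h : τ < sOf Ψ l) : τ ∈ slopeSet Ψ l := by
  have hτ : τ ∈ Ioo 0 (2 * π) := ⟨h0, h.trans_le (sOf_le Ψ l)⟩
  by_contra hcon
  have h1 : slopeSet Ψ l ⊆ Ioo 0 τ := by
    intro y hy
    refine ⟨hy.1.1, ?_⟩
    by_contra hy2
    apply hcon
    exact ⟨hτ, hy.2.trans_le (psi_anti Ψ hτ hy.1 (not_lt.1 hy2))⟩
  have h2 := ENNReal.toReal_mono (by rw [Real.volume_Ioo]; exact ENNReal.ofReal_ne_top)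
    (measure_mono (μ := volume) h1)
  rw [Real.volume_Ioo, sub_zero, ENNReal.toReal_ofReal h0.le] at h2
  exact absurd h (not_lt.2 h2)

theorem volume_restrict_slope {t : ℝ} (ht : t ≤ 2 * π) (l : ℝ) :
    (volume.restrict (Ioo 0 t)) {τ | l < psi Ψ τ} = ENNReal.ofReal (min t (sOf Ψ l)) := by
  rw [Measure.restrict_apply' measurableSet_Ioo]
  apply le_antisymm
  · calc volume ({τ | l < psi Ψ τ} ∩ Ioo 0 t) ≤ volume (Ioc 0 (min t (sOf Ψ l))) := by
          apply measure_mono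
          rintro τ ⟨h1, h2⟩
          exact ⟨h2.1, le_min h2.2.le (le_sOf Ψ ⟨⟨h2.1, h2.2.trans_le ht⟩, h1⟩)⟩
      _ = _ := by rw [Real.volume_Ioc, sub_zero]
  · calc ENNReal.ofReal (min t (sOf Ψ l)) = volume (Ioo 0 (min t (sOf Ψ l))) := by
          rw [Real.volume_Ioo, sub_zero]
      _ ≤ _ := by
          apply measure_mono
          intro τ hτ
          have h1 := lt_min_iff.1 hτ.2
          exact ⟨(mem_slopeSet Ψ hτ.1 h1.2).2, hτ.1, h1.1⟩

/-- `Ψ(t) - Ψ(0+) = ∫_0^∞ min (t, s(l)) dl`. -/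
theorem repr_sub {t : ℝ} (ht0 : 0 < t) (ht : t ≤ 2 * π) :
    ENNReal.ofReal (Ψ t - jump Ψ) = ∫⁻ l in Ioi (0 : ℝ), ENNReal.ofReal (min t (sOf Ψ l)) := by
  rw [← ftc_zero Ψ ht0 ht, lintegral_eq_lintegral_meas_lt (f := psi Ψ)]
  · apply lintegral_congr
    intro l
    exact volume_restrict_slope Ψ ht l
  · filter_upwards [ae_restrict_mem measurableSet_Ioo] with y hy
    exact psi_nonneg Ψ ⟨hy.1, hy.2.trans_le ht⟩
  · exact aemeasurable_restrict_of_antitoneOn measurableSet_Ioo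
      ((psi_anti Ψ).mono (Ioo_subset_Ioo le_rfl ht))

/-- the decomposition of the Lorentz norm. -/
theorem lorentzNorm_dec (x : ℝ → ℂ) :
    lorentzNorm Ψ x = ENNReal.ofReal (jump Ψ) * rearr x 0
      + ∫⁻ l in Ioi (0 : ℝ), KF (sOf Ψ l) x := by
  have h1 : ∀ τ : ℝ, ENNReal.ofReal (Ψ (distr x (ENNReal.ofReal τ)).toReal)
      = ENNReal.ofReal (jump Ψ) * (if ENNReal.ofReal τ < rearr x 0 then 1 else 0)
        + ∫⁻ l in Ioi (0 : ℝ), min (ENNReal.ofReal (sOf Ψ l)) (distr x (ENNReal.ofReal τ)) := by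
    intro τ
    set m := distr x (ENNReal.ofReal τ) with hm
    have hmfin : m < ∞ := distr_lt_top x _
    have hiff := lt_rearr_iff x 0 (τ := ENNReal.ofReal τ) ENNReal.ofReal_lt_top
    rw [ENNReal.ofReal_zero, ← hm] at hiff
    rcases (show (0 : ℝ≥0∞) ≤ m from bot_le).eq_or_lt with h0 | h0
    · rw [← h0]
      rw [if_neg (by rw [hiff, ← h0]; exact lt_irrefl _)]
      simp [Ψ.zero']
    · rw [if_pos (hiff.2 h0), mul_one]
      have hm0 : 0 < m.toReal := ENNReal.toReal_pos h0.ne' hmfin.ne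
      have hm2 : m.toReal ≤ 2 * π := by
        have := ENNReal.toReal_mono ENNReal.ofReal_ne_top (distr_le x (ENNReal.ofReal τ))
        rwa [ENNReal.toReal_ofReal two_pi_pos'.le] at this
      have h2 : ENNReal.ofReal (Ψ m.toReal)
          = ENNReal.ofReal (jump Ψ) + ENNReal.ofReal (Ψ m.toReal - jump Ψ) := by
        rw [← ENNReal.ofReal_add (jump_nonneg Ψ) (sub_nonneg.2 (jump_le Ψ hm0 hm2))]
        congr 1
        ring
      rw [h2, repr_sub Ψ hm0 hm2]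
      congr 1
      apply lintegral_congr
      intro l
      rw [min_comm, ← ENNReal.ofReal_toReal hmfin.ne]
      rw [ENNReal.toReal_ofReal hm0.le]
      exact (ENNReal.ofReal_mono.map_min)
  rw [lorentzNorm_eq]
  simp_rw [h1]
  have hm : Measurable (fun τ : ℝ => distr x (ENNReal.ofReal τ)) := measurable_distr x
  rw [lintegral_add_left, lintegral_const_mul, lintegral_Ioi_lt]
  · congr 1
    rw [lintegral_lintegral_swap]
    · rfl
    · apply Measurable.aemeasurable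
      apply Measurable.min
      · exact (ENNReal.measurable_ofReal.comp (sOf_anti Ψ).measurable).comp measurable_snd
      · exact hm.comp measurable_fst
  · apply Measurable.ite
    · exact measurableSet_lt ENNReal.measurable_ofReal measurable_const
    · exact measurable_const
    · exact measurable_const
  · apply Measurable.const_mul
    apply Measurable.ite
    · exact measurableSet_lt ENNReal.measurable_ofReal measurable_const
    · exact measurable_const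
    · exact measurable_const

end Pool.Agent.HL
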